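import Pool.Agent.Lib.H25D.Basic

/-!
# H25D, chunk A2: leaves and strips
-/

open Set

namespace Pool.Agent.Lib.H25D.TSurf

variable {X : Type} {M : TSurf X} {θ : ℂ}

private theorem seg_cast {x y : X} {W W' : ℂ} (h : M.Seg x W y) (e : W = W') : M.Seg x W' y := e ▸ h

private theorem seg_neg_leaf {x y : X} {t : ℝ} (h : M.Seg x ((t : ℂ) * θ) y) :
    M.Seg y (((-t : ℝ) : ℂ) * θ) x :=
  seg_cast (seg_symm h) (by push_cast; ring)

theorem alive_leaf {x y : X} {t : ℝ} (h : M.Seg x ((t : ℂ) * θ) y) :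
    M.Alive θ x ↔ M.Alive θ y := by
  constructor
  · intro hx s
    obtain ⟨z, hz⟩ := hx (s + t)
    exact ⟨z, seg_cast (seg_line (seg_neg_leaf h) hz) (by push_cast; ring)⟩
  · intro hy s
    obtain ⟨z, hz⟩ := hy (s - t)
    exact ⟨z, seg_cast (seg_line h hz) (by push_cast; ring)⟩

theorem sing_iff {x z : X} {W : ℂ} {s : ℝ} (h : M.Seg x ((s : ℂ) * W) z) :
    s ∈ M.Sing θ x W ↔ ¬ M.Alive θ z := by
  constructor
  · rintro ⟨z', h1, h2⟩
    rw [seg_unique h h1]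
    exact h2
  · intro h1
    exact ⟨z, h, h1⟩

/-- Shear of a segment all of whose points lie on full leaves. -/
theorem seg_shear_alive {x y x' y' : X} {W : ℂ} {a b : ℝ} (h : M.Seg x W y)
    (hal : ∀ s ∈ Icc (0 : ℝ) 1, ∀ z, M.Seg x ((s : ℂ) * W) z → M.Alive θ z)
    (hx : M.Seg x ((a : ℂ) * θ) x') (hy : M.Seg y (((a + b : ℝ) : ℂ) * θ) y') :
    M.Seg x' (W + (b : ℂ) * θ) y' := by
  refine seg_shear (A := (a : ℂ) * θ) (B := (b : ℂ) * θ) h ?_ hx
    (seg_cast hy (by push_cast; ring))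
  intro s hs z hz
  obtain ⟨z', hz'⟩ := hal s hs z hz (a + s * b)
  exact ⟨z', seg_cast hz' (by push_cast; ring)⟩

/-- The points of the plane strip over a segment of full leaves. -/
theorem seg_strip {x y : X} {W : ℂ} (h : M.Seg x W y)
    (hal : ∀ s ∈ Icc (0 : ℝ) 1, ∀ z, M.Seg x ((s : ℂ) * W) z → M.Alive θ z) (s t : ℝ)
    (hs : s ∈ Icc (0 : ℝ) 1) :
    ∃ z, M.Seg x ((s : ℂ) * W + (t : ℂ) * θ) z ∧ M.Alive θ z := by
  obtain ⟨w, hw, -⟩ := seg_split h hs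
  have hwa := hal s hs w hw
  obtain ⟨z, hz⟩ := hwa t
  refine ⟨z, ?_, (alive_leaf hz).1 hwa⟩
  refine seg_shear_alive (a := 0) (b := t) hw ?_ (seg_cast (seg_refl x) (by push_cast; ring))
    (seg_cast hz (by push_cast; ring))
  intro r hr u hu
  refine hal (r * s) ⟨mul_nonneg hr.1 hs.1, ?_⟩ u (seg_cast hu (by push_cast; ring))
  calc r * s ≤ 1 * 1 := mul_le_mul hr.2 hs.2 hs.1 zero_le_one
    _ = 1 := one_mul 1

theorem per_of_seg {L : ℝ} {x y : X} {W : ℂ} (h : M.Seg x W y)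
    (hal : ∀ s ∈ Icc (0 : ℝ) 1, ∀ z, M.Seg x ((s : ℂ) * W) z → M.Alive θ z)
    (hx : M.Seg x ((L : ℂ) * θ) x) : M.Seg y ((L : ℂ) * θ) y := by
  have hy : M.Alive θ y := hal 1 ⟨zero_le_one, le_rfl⟩ y (seg_cast h (by push_cast; ring))
  obtain ⟨z, hz⟩ := hy L
  have h1 := seg_shear_alive (a := L) (b := 0) h hal hx (seg_cast hz (by push_cast; ring))
  have h2 : y = z := seg_unique h (seg_cast h1 (by push_cast; ring))
  rw [← h2] at hz
  exact hz

theorem per_leaf {L t : ℝ} {x y : X} (h : M.Seg x ((t : ℂ) * θ) y)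
    (hx : M.Seg x ((L : ℂ) * θ) x) : M.Seg y ((L : ℂ) * θ) y :=
  seg_cast (seg_line (seg_line (seg_neg_leaf h) hx) h) (by push_cast; ring)

theorem per_int {L : ℝ} {x : X} (hx : M.Seg x ((L : ℂ) * θ) x) (k : ℤ) :
    M.Seg x (((k * L : ℝ) : ℂ) * θ) x := by
  induction k using Int.induction_on with
  | zero => exact seg_cast (seg_refl x) (by push_cast; ring)
  | succ i ih => exact seg_cast (seg_line ih hx) (by push_cast; ring)
  | pred i ih => exact seg_cast (seg_line ih (seg_neg_leaf hx)) (by push_cast; ring)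

end Pool.Agent.Lib.H25D.TSurf
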