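import Pool.Agent.Lib.H25D.Defs
import Pool.Agent.Lib.H25D.Leaf
import Pool.Agent.Lib.H45Z.Inj

/-!
# H25D: the surface of a polygon as a `TSurf` (helper45's surface `SPt`, `sadd`, `rho2`)
-/

open Set

namespace Pool.Agent.Lib.H25D

open Pool.Agent.Lib.H42I (IsPolygon)
open Pool.Agent.Lib.H45Z
open Pool.Agent.Lib.H23D (E Gon)

variable {n N : ℕ} [NeZero N] {P : Set ℂ} {v : ZMod n → ℂ} {kap : ZMod n → ZMod N}

theorem sadd_inj (hP : IsPolygon P v) (hk : Par v kap) (x : SPt P v N) (u w : ℂ)
    (hu : ‖u‖ < rho2 v x.p) (hw : ‖w‖ < rho2 v x.p) (h : sadd hP hk x u = sadd hP hk x w) :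
    u = w := sadd_inj0 hP hk x u w hu hw h

/-- the surface -/
noncomputable def PS (hP : IsPolygon P v) (hk : Par v kap) : TSurf (SPt P v N) where
  rad x := rho2 v x.p
  add := sadd hP hk
  rad_pos x := rho2_pos hP x.p x.nv
  add_zero := sadd_zero hP hk
  rad_add x u _ := sadd_rho hP hk x u
  add_add x u u' h := sadd_add hP hk x u u' h
  inj := sadd_inj hP hk

theorem PS_rad (hP : IsPolygon P v) (hk : Par v kap) (x : SPt P v N) :
    (PS hP hk).rad x = rho2 v x.p := rfl

theorem PS_add (hP : IsPolygon P v) (hk : Par v kap) (x : SPt P v N) (u : ℂ) :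
    (PS hP hk).add x u = sadd hP hk x u := rfl

theorem par_of_gon [NeZero n] (hg : Gon v kap) : Par v kap := by
  intro i
  obtain ⟨r, -, hr⟩ := hg.par i
  exact ⟨r, hr⟩

/-- the frame `g` composed with the reflection `u ↦ E (2 e) * conj u`, which reverses `I * E e` -/
def fl (e : ZMod N) (g : Fr N) : Fr N := (if g.2 then g.1 - 2 * e else g.1 + 2 * e, !g.2)

theorem fold_fst_self (kap : ZMod n → ZMod N) (x : SPt P v N) (g : Fr N) :
    (fold P v kap (ns v x.p) (x.p, g)).1 = x.p := by
  unfold fold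
  by_cases h : x.p ∈ interior P
  · rw [if_pos h]
  · rw [if_neg h, if_pos x.mem]

theorem fold_bit_self (kap : ZMod n → ZMod N) (x : SPt P v N) (g : Fr N) (h : x.p ∉ interior P) :
    (fold P v kap (ns v x.p) (x.p, g)).2.2 = false := by
  rw [fold_side h x.mem]
  cases hg : g.2 <;> simp [hg, rf]

/-- the reflection symmetry of the surface that reverses the direction `I * E e` -/
noncomputable def pg (kap : ZMod n → ZMod N) (e : ZMod N) (x : SPt P v N) : SPt P v N where
  p := x.p
  g := (fold P v kap (ns v x.p) (x.p, fl e x.g)).2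
  mem := x.mem
  nv := x.nv
  bit := fold_bit_self kap x (fl e x.g)

end Pool.Agent.Lib.H25D
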