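import Pool.Agent.Lib.H25D.Leaf

/-!
# H25D, part III: returns to the fixed points of the reflection; definitions and first facts
(chunk T1: `rl` lemmas, mirror, two hits, isolated hits)
-/

open Set

namespace Pool.Agent.Lib.H25D.TSurf

variable {X : Type} {M : TSurf X} {θ : ℂ} {g : X → X}

/-- first return of the fixed point `b` to the fixed points at the time `T` -/
def Ret (M : TSurf X) (θ : ℂ) (g : X → X) (b : X) (T : ℝ) : Prop :=
  0 < T ∧ M.Hit θ g b T ∧ ∀ t ∈ Ioo 0 T, ¬ M.Hit θ g b t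

/-- the fixed point `b` whose leaf meets a vertex before it returns to the fixed points -/
def Bad (M : TSurf X) (θ : ℂ) (g : X → X) (b : X) : Prop :=
  g b = b ∧ (∃ T > 0, M.Dead θ b T) ∧ ∀ t > 0, ¬ M.Hit θ g b t

private theorem t1_conj (hθ : ‖θ‖ = 1) : θ * (starRingEnd ℂ) θ = 1 := by
  rw [Complex.mul_conj, Complex.normSq_eq_norm_sq, hθ]
  simp

theorem rl_norm (hθ : ‖θ‖ = 1) (u : ℂ) : ‖rl θ u‖ = ‖u‖ := by
  unfold rl
  rw [norm_mul, norm_neg, norm_pow, hθ, one_pow, one_mul, Complex.norm_conj]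

private theorem t1_rl_smul (t : ℝ) (u : ℂ) : rl θ ((t : ℂ) * u) = (t : ℂ) * rl θ u := by
  unfold rl
  rw [map_mul, Complex.conj_ofReal]
  ring

theorem rl_theta (hθ : ‖θ‖ = 1) (t : ℝ) : rl θ ((t : ℂ) * θ) = -((t : ℂ) * θ) := by
  have h := t1_conj hθ
  rw [t1_rl_smul]
  unfold rl
  have : -(θ ^ 2) * (starRingEnd ℂ) θ = -(θ * (θ * (starRingEnd ℂ) θ)) := by ring
  rw [this, h]
  ring

theorem rl_normal (hθ : ‖θ‖ = 1) (t : ℝ) : rl θ ((t : ℂ) * (Complex.I * θ)) =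
    (t : ℂ) * (Complex.I * θ) := by
  have h := t1_conj hθ
  rw [t1_rl_smul]
  unfold rl
  rw [map_mul, Complex.conj_I]
  have : -(θ ^ 2) * (-Complex.I * (starRingEnd ℂ) θ) =
      Complex.I * (θ * (θ * (starRingEnd ℂ) θ)) := by ring
  rw [this, h]
  ring

/-- decomposition of a vector -/
theorem decomp (hθ : ‖θ‖ = 1) (u : ℂ) : ∃ a b : ℝ, u = (a : ℂ) * (Complex.I * θ) + (b : ℂ) * θ ∧
    |a| ≤ ‖u‖ ∧ |b| ≤ ‖u‖ ∧ a = - cr u θ := by
  have h := t1_conj hθ
  have hn : ‖u * (starRingEnd ℂ) θ‖ = ‖u‖ := by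
    rw [norm_mul, Complex.norm_conj, hθ, mul_one]
  refine ⟨(u * (starRingEnd ℂ) θ).im, (u * (starRingEnd ℂ) θ).re, ?_, ?_, ?_, ?_⟩
  · have e : (((u * (starRingEnd ℂ) θ).re : ℝ) : ℂ) + (((u * (starRingEnd ℂ) θ).im : ℝ) : ℂ) *
        Complex.I = u * (starRingEnd ℂ) θ := Complex.re_add_im _
    calc u = u * (θ * (starRingEnd ℂ) θ) := by rw [h, mul_one]
      _ = (u * (starRingEnd ℂ) θ) * θ := by ring
      _ = ((((u * (starRingEnd ℂ) θ).re : ℝ) : ℂ) + (((u * (starRingEnd ℂ) θ).im : ℝ) : ℂ) *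
        Complex.I) * θ := by rw [e]
      _ = _ := by ring
  · rw [← hn]
    exact Complex.abs_im_le_norm _
  · rw [← hn]
    exact Complex.abs_re_le_norm _
  · simp only [Complex.mul_im, Complex.conj_re, Complex.conj_im, cr]
    ring

theorem seg_g (hg : M.Refl θ g) (hθ : ‖θ‖ = 1) {x y : X} {W : ℂ} (h : M.Seg x W y) :
    M.Seg (g x) (rl θ W) (g y) := by
  obtain ⟨z, h0, h1, hz⟩ := h
  refine ⟨fun s => g (z s), by simp only [h0], by simp only [h1], fun s hs => ?_⟩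
  obtain ⟨δ, hδ, hd⟩ := hz s hs
  have hr := M.rad_pos (z s)
  have hW : 0 < ‖W‖ + 1 := by positivity
  refine ⟨min δ (M.rad (z s) / (‖W‖ + 1)), lt_min hδ (div_pos hr hW), fun s' hs' hlt => ?_⟩
  have e := hd s' hs' (hlt.trans_le (min_le_left _ _))
  have hn : ‖(((s' - s : ℝ) : ℂ) * W)‖ < M.rad (z s) := by
    rw [norm_mul, Complex.norm_real, Real.norm_eq_abs]
    have h2 : |s' - s| * (‖W‖ + 1) < M.rad (z s) := by
      rw [← lt_div_iff₀ hW]
      exact hlt.trans_le (min_le_right _ _)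
    nlinarith [abs_nonneg (s' - s), norm_nonneg W]
  simp only
  rw [e, ← hg.add _ _ hn, t1_rl_smul]

private theorem t1_fix_add (hg : M.Refl θ g) {z : X} (hz : g z = z) {u : ℂ}
    (hu : ‖u‖ < M.rad z) : g (M.add z u) = M.add z (rl θ u) := by
  rw [← hg.add z u hu, hz]

private theorem t1_cr (hθ : ‖θ‖ = 1) (a b : ℝ) :
    cr ((a : ℂ) * (Complex.I * θ) + (b : ℂ) * θ) (Complex.I * θ) = b := by
  have h : θ.re ^ 2 + θ.im ^ 2 = 1 := by
    have h1 : Complex.normSq θ = 1 := by rw [Complex.normSq_eq_norm_sq, hθ]; norm_num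
    rw [Complex.normSq_apply] at h1
    nlinarith
  simp only [cr, Complex.add_re, Complex.add_im, Complex.mul_re, Complex.mul_im, Complex.I_re,
    Complex.I_im, Complex.ofReal_re, Complex.ofReal_im]
  ring_nf
  linear_combination b * h

/-- fixed points near a fixed point -/
theorem fix_disc (hg : M.Refl θ g) (hθ : ‖θ‖ = 1) {z : X} (hz : g z = z) {u : ℂ}
    (hu : ‖u‖ < M.rad z) : g (M.add z u) = M.add z u ↔ cr u (Complex.I * θ) = 0 := by
  rw [t1_fix_add hg hz hu]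
  obtain ⟨a, b, e, _, _, _⟩ := decomp hθ u
  have hrl : rl θ u = (a : ℂ) * (Complex.I * θ) - (b : ℂ) * θ := by
    have : rl θ u = rl θ ((a : ℂ) * (Complex.I * θ)) + rl θ ((b : ℂ) * θ) := by
      rw [e]
      unfold rl
      rw [map_add]
      ring
    rw [this, rl_normal hθ, rl_theta hθ]
    ring
  have hcr : cr u (Complex.I * θ) = b := by
    rw [e]
    exact t1_cr hθ a b
  rw [hcr]
  constructor
  · intro h
    have h1 := M.inj z _ _ (by rw [rl_norm hθ]; exact hu) hu h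
    rw [hrl, e] at h1
    have h2 : (b : ℂ) * θ = 0 := by linear_combination (-1 / 2 : ℂ) * h1
    have hθ0 : θ ≠ 0 := by
      intro h0
      rw [h0] at hθ
      simp at hθ
    rcases mul_eq_zero.1 h2 with h3 | h3
    · exact_mod_cast h3
    · exact absurd h3 hθ0
  · intro h
    rw [hrl, e, h]
    simp

/-- no fixed points near a point that is not fixed -/
theorem nofix_disc (hg : M.Refl θ g) (hθ : ‖θ‖ = 1) {z : X} (hz : g z ≠ z) :
    ∃ ε > 0, ∀ u : ℂ, ‖u‖ < ε → g (M.add z u) ≠ M.add z u := by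
  have hr := M.rad_pos z
  have key : ∀ u : ℂ, ‖u‖ < M.rad z / 2 → g (M.add z u) = M.add z u →
      M.add z (u - rl θ u) = g z := by
    intro u hu h
    have hu1 : ‖u‖ < M.rad z := by linarith
    rw [← hg.add z u hu1] at h
    have h1 : M.add (M.add (g z) (rl θ u)) (-(rl θ u)) = g z := by
      rw [M.add_add _ _ _ (by rw [norm_neg, rl_norm hθ, hg.rad]; linarith), add_neg_cancel,
        M.add_zero]
    rw [h, M.add_add _ _ _ (by rw [norm_neg, rl_norm hθ]; linarith)] at h1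
    rw [sub_eq_add_neg]
    exact h1
  by_cases hw : ∃ w, ‖w‖ < M.rad z ∧ M.add z w = g z
  · obtain ⟨w, hw1, hw2⟩ := hw
    have hw0 : w ≠ 0 := by
      rintro rfl
      rw [M.add_zero] at hw2
      exact hz hw2.symm
    have hwn : 0 < ‖w‖ := norm_pos_iff.2 hw0
    refine ⟨min (M.rad z / 2) (‖w‖ / 2), lt_min (by linarith) (by linarith), fun u hu h => ?_⟩
    have hu1 := hu.trans_le (min_le_left _ _)
    have hu2 := hu.trans_le (min_le_right _ _)
    have h1 := key u hu1 h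
    have hn : ‖u - rl θ u‖ ≤ 2 * ‖u‖ := by
      calc ‖u - rl θ u‖ ≤ ‖u‖ + ‖rl θ u‖ := norm_sub_le _ _
        _ = 2 * ‖u‖ := by rw [rl_norm hθ]; ring
    have h2 := M.inj z _ _ (by linarith) hw1 (h1.trans hw2.symm)
    rw [h2] at hn
    linarith
  · refine ⟨M.rad z / 2, by linarith, fun u hu h => hw ⟨u - rl θ u, ?_, key u hu h⟩⟩
    calc ‖u - rl θ u‖ ≤ ‖u‖ + ‖rl θ u‖ := norm_sub_le _ _
      _ = 2 * ‖u‖ := by rw [rl_norm hθ]; ring
      _ < M.rad z := by linarith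

private theorem t1_back {x y : X} {s : ℝ} (h : M.Seg x ((s : ℂ) * θ) y) :
    M.Seg y (((-s : ℝ) : ℂ) * θ) x := by
  have := seg_symm h
  rwa [← neg_mul, ← Complex.ofReal_neg] at this

private theorem t1_sub {x y z : X} {s t : ℝ} (h : M.Seg x ((s : ℂ) * θ) y)
    (h' : M.Seg x ((t : ℂ) * θ) z) : M.Seg y (((t - s : ℝ) : ℂ) * θ) z := by
  have := seg_line (t1_back h) h'
  rwa [show -s + t = t - s by ring] at this

theorem mirror (hg : M.Refl θ g) (hθ : ‖θ‖ = 1) {x y : X} {t s : ℝ} (h : M.Hit θ g x t)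
    (hy : M.Seg x (((t + s : ℝ) : ℂ) * θ) y) : M.Seg x (((t - s : ℝ) : ℂ) * θ) (g y) := by
  obtain ⟨z, hz, hgz⟩ := h
  have h1 : M.Seg z ((s : ℂ) * θ) y := by
    have := t1_sub hz hy
    rwa [show t + s - t = s by ring] at this
  have h2 := seg_g hg hθ h1
  rw [hgz, rl_theta hθ, ← neg_mul, ← Complex.ofReal_neg] at h2
  have := seg_line hz h2
  rwa [show t + -s = t - s by ring] at this

theorem hit_shift {x y : X} {t s : ℝ} (h : M.Seg x ((s : ℂ) * θ) y) :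
    M.Hit θ g y t ↔ M.Hit θ g x (s + t) := by
  constructor
  · rintro ⟨z, hz, hgz⟩
    exact ⟨z, seg_line h hz, hgz⟩
  · rintro ⟨z, hz, hgz⟩
    refine ⟨z, ?_, hgz⟩
    have := t1_sub h hz
    rwa [show s + t - s = t by ring] at this

theorem dead_shift {x y : X} {t s : ℝ} (h : M.Seg x ((s : ℂ) * θ) y) :
    M.Dead θ y t ↔ M.Dead θ x (s + t) := by
  unfold Dead
  rw [not_iff_not]
  constructor
  · rintro ⟨z, hz⟩
    exact ⟨z, seg_line h hz⟩
  · rintro ⟨z, hz⟩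
    refine ⟨z, ?_⟩
    have := t1_sub h hz
    rwa [show s + t - s = t by ring] at this

theorem dead_mono {x : X} {t s : ℝ} (h : M.Dead θ x t) (hts : (0 ≤ t ∧ t ≤ s) ∨ (s ≤ t ∧ t ≤ 0)) :
    M.Dead θ x s := by
  rintro ⟨y, hy⟩
  apply h
  obtain ⟨z, hz, _⟩ := seg_part hy (s := t) (by
    rcases hts with h1 | h1
    · exact mem_uIcc_of_le h1.1 h1.2
    · exact mem_uIcc_of_ge h1.1 h1.2)
  exact ⟨z, hz⟩

theorem two_hits (hg : M.Refl θ g) (hθ : ‖θ‖ = 1) {x : X} {t s : ℝ} (h : M.Hit θ g x t)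
    (h' : M.Hit θ g x s) (hts : t ≠ s) :
    M.Alive θ x ∧ M.Seg x (((2 * (s - t) : ℝ) : ℂ) * θ) x := by
  have h0 : M.Seg x (((t + -t : ℝ) : ℂ) * θ) x := by
    have := seg_refl (M := M) x
    rwa [show ((t + -t : ℝ) : ℂ) * θ = 0 by simp]
  have h1 := mirror hg hθ h h0
  have h2 : M.Seg x (((s + (2 * t - s) : ℝ) : ℂ) * θ) (g x) := by
    rwa [show t - -t = s + (2 * t - s) by ring] at h1
  have h3 := mirror hg hθ h' h2
  rw [hg.invol] at h3
  have hP : M.Seg x (((2 * (s - t) : ℝ) : ℂ) * θ) x := by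
    rwa [show s - (2 * t - s) = 2 * (s - t) by ring] at h3
  refine ⟨fun r => ?_, hP⟩
  have hne : 2 * (s - t) ≠ 0 := by
    intro h4
    apply hts
    linarith
  obtain ⟨k, hk⟩ : ∃ k : ℤ, r ∈ uIcc 0 (k * (2 * (s - t))) := by
    set P := 2 * (s - t) with hPd
    obtain ⟨n, hn⟩ := exists_nat_gt (|r| / |P|)
    have hPp : 0 < |P| := abs_pos.2 hne
    have hn' : |r| < n * |P| := by rwa [div_lt_iff₀ hPp] at hn
    rcases le_total 0 r with hr | hr <;> rcases le_total 0 P with hP0 | hP0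
    · refine ⟨n, mem_uIcc_of_le hr ?_⟩
      rw [abs_of_nonneg hr, abs_of_nonneg hP0] at hn'
      push_cast
      exact hn'.le
    · refine ⟨-n, mem_uIcc_of_le hr ?_⟩
      rw [abs_of_nonneg hr, abs_of_nonpos hP0] at hn'
      push_cast
      linarith
    · refine ⟨-n, mem_uIcc_of_ge ?_ hr⟩
      rw [abs_of_nonpos hr, abs_of_nonneg hP0] at hn'
      push_cast
      linarith
    · refine ⟨n, mem_uIcc_of_ge ?_ hr⟩
      rw [abs_of_nonpos hr, abs_of_nonpos hP0] at hn'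
      push_cast
      linarith
  obtain ⟨z, hz, _⟩ := seg_part (per_int hP k) hk
  exact ⟨z, hz⟩

/-- two different hits at a distance smaller than the radius at one of them are impossible -/
private theorem t1_near (hg : M.Refl θ g) (hθ : ‖θ‖ = 1) {x z : X} {t s : ℝ}
    (hz : M.Seg x ((t : ℂ) * θ) z) (hgz : g z = z) (h' : M.Hit θ g x s)
    (hlt : |s - t| < M.rad z) : s = t := by
  obtain ⟨z', hz', hgz'⟩ := h'
  have h1 := t1_sub hz hz'
  have hn : ‖(((s - t : ℝ) : ℂ) * θ)‖ < M.rad z := by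
    rw [norm_mul, Complex.norm_real, Real.norm_eq_abs, hθ, mul_one]
    exact hlt
  have h2 := seg_unique h1 (seg_add hn)
  rw [h2] at hgz'
  have h3 := (fix_disc hg hθ hgz hn).1 hgz'
  have h4 := t1_cr hθ 0 (s - t)
  rw [show (((0 : ℝ) : ℂ) * (Complex.I * θ) + ((s - t : ℝ) : ℂ) * θ) = ((s - t : ℝ) : ℂ) * θ by
    simp] at h4
  rw [h4] at h3
  linarith

theorem hit_isolated (hg : M.Refl θ g) (hθ : ‖θ‖ = 1) {x : X} {t : ℝ} (h : M.Hit θ g x t) :
    ∃ ε > 0, ∀ s, s ≠ t → |s - t| < ε → ¬ M.Hit θ g x s := by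
  obtain ⟨z, hz, hgz⟩ := h
  exact ⟨M.rad z, M.rad_pos z, fun s hs hlt h' => hs (t1_near hg hθ hz hgz h' hlt)⟩

/-- the hits in a bounded interval without death are finitely many, so there is a first one -/
theorem first_hit (hg : M.Refl θ g) (hθ : ‖θ‖ = 1) {x : X} {T : ℝ} (hT : 0 < T)
    (h : M.Hit θ g x T) : (∃ t, 0 < t ∧ t ≤ T ∧ M.Hit θ g x t ∧ ∀ s ∈ Ioo 0 t, ¬ M.Hit θ g x s) := by
  have h0 := h
  obtain ⟨y, hy, _⟩ := h0
  obtain ⟨z, ρ, hρ, _, _, hrad, hseg, _⟩ := seg_path hy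
  set H : Set ℝ := {t | 0 < t ∧ t ≤ T ∧ M.Hit θ g x t} with hH
  have hne : H.Nonempty := ⟨T, hT, le_rfl, h⟩
  have hbd : BddBelow H := ⟨0, fun t ht => ht.1.le⟩
  obtain ⟨t, ht, htlt⟩ := exists_lt_of_csInf_lt hne (show sInf H < sInf H + ρ by linarith)
  refine ⟨t, ht.1, ht.2.1, ht.2.2, fun s hs hs' => ?_⟩
  have hsH : s ∈ H := ⟨hs.1, hs.2.le.trans ht.2.1, hs'⟩
  have h1 : sInf H ≤ s := csInf_le hbd hsH
  obtain ⟨w, hw, hgw⟩ := ht.2.2
  have h01 : t / T ∈ Icc (0 : ℝ) 1 := ⟨(div_pos ht.1 hT).le, (div_le_one hT).2 ht.2.1⟩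
  have h2 := hseg _ h01
  have h3 : (((t / T : ℝ) : ℂ) * ((T : ℂ) * θ)) = (t : ℂ) * θ := by
    rw [← mul_assoc, ← Complex.ofReal_mul, div_mul_cancel₀ _ hT.ne']
  rw [h3] at h2
  have h4 := seg_unique hw h2
  have h5 : ρ ≤ M.rad w := by
    rw [h4]
    exact hrad _ h01
  have h6 : |s - t| < M.rad w := by
    rw [abs_sub_comm, abs_of_pos (by linarith [hs.2])]
    linarith
  have := t1_near hg hθ hw hgw hs' h6
  linarith [hs.2]

end Pool.Agent.Lib.H25D.TSurf
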