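import Pool.Agent.Lib.H25D.PInt
import Pool.Agent.Lib.H32W.Corner

/-!
# H25D, chunk P6: the ends of the leaves
-/

open Set

namespace Pool.Agent.Lib.H25D

open Pool.Agent.Lib.H42I (IsPolygon Ray RayS)
open Pool.Agent.Lib.H45Z
open Pool.Agent.H52W (cdet)
open Pool.Agent.Lib.H23D (E Gon)

variable {n N : ℕ} [NeZero n] [NeZero N] {P : Set ℂ} {v : ZMod n → ℂ} {kap : ZMod n → ZMod N}

open Pool.Agent.Lib.H23D in
private theorem h32_cs_ne (hN : N.Prime) (hodd : N ≠ 2) (x : ZMod N) : (E x).re ≠ 0 := by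
  intro h
  have : Fact N.Prime := ⟨hN⟩
  have hn : ‖E x‖ = 1 := norm_E x
  have h1 : (E x).im * (E x).im = 1 := by
    have h2 : Complex.normSq (E x) = 1 := by rw [Complex.normSq_eq_norm_sq, hn]; norm_num
    rw [Complex.normSq_apply, h] at h2
    linarith
  have h2 : E (x + x) = -1 := by
    rw [E_add]
    apply Complex.ext
    · rw [Complex.mul_re, h, h1]; simp
    · rw [Complex.mul_im, h]; simp
  have h3 : E (x + x + (x + x)) = E (0 : ZMod N) := by
    rw [E_add, h2, E_zero]; norm_num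
  have h4 : x + x + (x + x) = 0 := ZMod.injective_stdAddChar h3
  have h5 : (2 : ZMod N) ≠ 0 := by
    intro h
    have h3 : ((2 : ℕ) : ZMod N) = 0 := by exact_mod_cast h
    rw [ZMod.natCast_eq_zero_iff] at h3
    exact hodd ((Nat.prime_dvd_prime_iff_eq hN Nat.prime_two).1 h3)
  have h6 : (2 : ZMod N) * (2 * x) = 0 := by linear_combination h4
  have h7 : x = 0 := by
    rcases mul_eq_zero.1 h6 with h | h
    · exact absurd h h5
    · rcases mul_eq_zero.1 h with h | h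
      · exact absurd h h5
      · exact h
  rw [h7, E_zero] at h
  norm_num at h

/-- the directions `I * E e` are never parallel to a side -/
theorem transv_dir (hg : Gon v kap) (e : ZMod N) (g : Fr N) (i : ZMod n) :
    cdet (v (i + 1) - v i) (fr g (Complex.I * E e)) ≠ 0 := by
  obtain ⟨r, hr, h⟩ := hg.par i
  rw [h]
  have key : ∀ b : ZMod N, cdet ((r : ℂ) * E (kap i)) (Complex.I * E b) = r * (E (b - kap i)).re := by
    intro b
    rw [show b - kap i = -kap i + b by ring, Pool.Agent.Lib.H23D.E_add, ← Pool.Agent.Lib.H23D.E_conj]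
    simp only [cdet, Complex.mul_re, Complex.mul_im, Complex.I_re, Complex.I_im, Complex.conj_re, Complex.conj_im,
      Complex.ofReal_re, Complex.ofReal_im]
    ring
  unfold fr
  cases hg2 : g.2
  · simp only [Bool.false_eq_true, if_false]
    rw [show E g.1 * (Complex.I * E e) = Complex.I * E (g.1 + e) by rw [Pool.Agent.Lib.H23D.E_add]; ring, key]
    exact mul_ne_zero hr (h32_cs_ne hg.prime hg.odd _)
  · simp only [if_true]
    rw [map_mul, Complex.conj_I, Pool.Agent.Lib.H23D.E_conj,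
      show E g.1 * (-Complex.I * E (-e)) = -(Complex.I * E (g.1 + -e)) by rw [Pool.Agent.Lib.H23D.E_add]; ring]
    have : cdet ((r : ℂ) * E (kap i)) (-(Complex.I * E (g.1 + -e))) = -(cdet ((r : ℂ) * E (kap i)) (Complex.I * E (g.1 + -e))) := by
      simp only [cdet, Complex.neg_re, Complex.neg_im]; ring
    rw [this, key]
    exact neg_ne_zero.2 (mul_ne_zero hr (h32_cs_ne hg.prime hg.odd _))

private theorem h32_norm (e : ZMod N) : ‖Complex.I * E e‖ = 1 := by
  rw [norm_mul, Complex.norm_I, norm_E, one_mul]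

/-- a point near a vertex in a direction which is not parallel to the two sides -/
private theorem h32_cone (hP : IsPolygon P v) (i : ZMod n) {e₀ : ℝ}
    (he₀ : ∀ j, j ≠ i → j ≠ i - 1 → Disjoint (Metric.ball (v i) e₀) (segment ℝ (v j) (v (j + 1)))) {p d : ℂ}
    {t : ℝ} (ht : 0 < t) (htd : t * ‖d‖ < e₀) (hp : p = v i - (t : ℂ) * d) (hpP : p ∈ P)
    (hd : ∀ j, cdet (v (j + 1) - v j) d ≠ 0) : p ∈ interior P ∧ openSegment ℝ p (v i) ⊆ interior P := by
  have hnot : ∀ r ∈ Ioc 0 t, v i - (r : ℂ) * d ∉ frontier P := by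
    intro r hr hf
    rw [hP.frontier_eq, mem_iUnion] at hf
    obtain ⟨j, hj⟩ := hf
    have hball : v i - (r : ℂ) * d ∈ Metric.ball (v i) e₀ := by
      rw [Metric.mem_ball, dist_eq_norm, sub_sub_cancel_left, norm_neg, norm_mul, Complex.norm_real,
        Real.norm_eq_abs, abs_of_pos hr.1]
      exact (mul_le_mul_of_nonneg_right hr.2 (norm_nonneg d)).trans_lt htd
    have hji : j = i ∨ j = i - 1 := by
      by_contra hcon
      push Not at hcon
      exact Set.disjoint_left.1 (he₀ j hcon.1 hcon.2) hball hj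
    obtain ⟨s, _, _, hs⟩ := Pool.Agent.H52W.mem_segment_param hj
    have h0 : cdet (v (j + 1) - v j) (v i - (r : ℂ) * d - v j) = 0 := by
      have e1 : v i - (r : ℂ) * d - v j = (s : ℂ) * (v (j + 1) - v j) := by rw [hs]; ring
      rw [e1]
      simp only [cdet, Complex.mul_re, Complex.mul_im, Complex.ofReal_re, Complex.ofReal_im]
      ring
    have h1 : cdet (v (j + 1) - v j) (v i - v j) = 0 := by
      rcases hji with rfl | rfl
      · rw [sub_self]; simp [cdet]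
      · rw [sub_add_cancel]; simp only [cdet]; ring
    have h2 : cdet (v (j + 1) - v j) (v i - (r : ℂ) * d - v j) =
        cdet (v (j + 1) - v j) (v i - v j) - r * cdet (v (j + 1) - v j) d := by
      simp only [cdet, Complex.sub_re, Complex.sub_im, Complex.mul_re, Complex.mul_im, Complex.ofReal_re,
        Complex.ofReal_im]
      ring
    rw [h2, h1, zero_sub, neg_eq_zero] at h0
    exact mul_ne_zero hr.1.ne' (hd j) h0
  -- the half open segment
  set S : Set ℂ := (fun r : ℝ => v i - (r : ℂ) * d) '' Ioc 0 t with hS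
  have hSc : IsPreconnected S := isPreconnected_Ioc.image _ (by fun_prop)
  have hpS : p ∈ S := ⟨t, ⟨ht, le_rfl⟩, hp.symm⟩
  have hpI : p ∈ interior P := by
    by_contra hcon
    apply hnot t ⟨ht, le_rfl⟩
    rw [← hp]
    exact ⟨subset_closure hpP, hcon⟩
  have hsub : S ⊆ interior P := by
    refine hSc.subset_left_of_subset_union isOpen_interior (isClosed_closure (s := P)).isOpen_compl ?_ ?_
      ⟨p, hpS, hpI⟩
    · rw [Set.disjoint_left]
      intro z hz hz'
      exact hz' (subset_closure (interior_subset hz))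
    · rintro z ⟨r, hr, rfl⟩
      by_cases h : v i - (r : ℂ) * d ∈ closure P
      · left
        by_contra h'
        exact hnot r hr ⟨h, h'⟩
      · exact Or.inr h
  refine ⟨hpI, ?_⟩
  rintro z ⟨a, b, ha, hb, hab, rfl⟩
  apply hsub
  refine ⟨a * t, ⟨by positivity, by nlinarith⟩, ?_⟩
  have hb' : b = 1 - a := by linarith
  rw [hp, hb']
  simp only [Complex.real_smul]
  push_cast
  ring

/-- a leaf that does not exist for the time `T` runs straight into a vertex -/
theorem dead_end (hP : IsPolygon P v) (hg : Gon v kap) (e : ZMod N) (x : SPt P v N)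
    (T : ℝ) (hT : 0 < T) (hd : (PS hP (par_of_gon hg)).Dead (Complex.I * E e) x T) :
    ∃ (i : ZMod n) (y : SPt P v N) (s t : ℝ), 0 ≤ s ∧ 0 < t ∧ s + t ≤ T ∧
      (PS hP (par_of_gon hg)).Seg x ((s : ℂ) * (Complex.I * E e)) y ∧
      y.p = v i - (t : ℂ) * fr y.g (Complex.I * E e) ∧
      y.p ∈ interior P ∧ openSegment ℝ y.p (v i) ⊆ interior P := by
  classical
  set M := PS hP (par_of_gon hg) with hM
  set θ : ℂ := Complex.I * E e with hθ
  have hθn : ‖θ‖ = 1 := h32_norm e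
  set A : Set ℝ := {τ | 0 ≤ τ ∧ ∃ y, M.Seg x ((τ : ℂ) * θ) y} with hA
  have hA0 : (0 : ℝ) ∈ A := ⟨le_rfl, x, by simpa using TSurf.seg_refl (M := M) x⟩
  have hdown : ∀ τ ∈ A, ∀ τ', 0 ≤ τ' → τ' ≤ τ → τ' ∈ A := by
    rintro τ ⟨h0, y, hy⟩ τ' h0' h1
    obtain ⟨z, hz, -⟩ := TSurf.seg_part hy (s := τ') (by rw [uIcc_of_le h0]; exact ⟨h0', h1⟩)
    exact ⟨h0', z, hz⟩
  have hTA : T ∉ A := fun h => hd h.2
  have hAT : ∀ τ ∈ A, τ ≤ T := by
    intro τ hτ
    by_contra hcon
    exact hTA (hdown τ hτ T hT.le (not_le.1 hcon).le)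
  have hbdd : BddAbove A := ⟨T, hAT⟩
  set S : ℝ := sSup A with hS
  have hST : S ≤ T := csSup_le ⟨0, hA0⟩ hAT
  have hS0 : 0 ≤ S := le_csSup hbdd hA0
  have hext : ∀ τ ∈ A, ∀ y, M.Seg x ((τ : ℂ) * θ) y → ∀ τ', τ ≤ τ' → τ' - τ < M.rad y → τ' ∈ A := by
    intro τ hτ y hy τ' h1 h2
    have h3 : M.Seg y (((τ' - τ : ℝ) : ℂ) * θ) (M.add y (((τ' - τ : ℝ) : ℂ) * θ)) := by
      apply TSurf.seg_add
      rw [norm_mul, Complex.norm_real, Real.norm_eq_abs, hθn, mul_one, abs_of_nonneg (by linarith)]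
      exact h2
    have h4 := TSurf.seg_line hy h3
    rw [show τ + (τ' - τ) = τ' by ring] at h4
    exact ⟨hτ.1.trans h1, _, h4⟩
  have hSA : S ∉ A := by
    intro h
    obtain ⟨-, y, hy⟩ := id h
    have h1 := hext S h y hy (S + M.rad y / 2) (by linarith [M.rad_pos y]) (by linarith [M.rad_pos y])
    have h2 := le_csSup hbdd h1
    linarith [M.rad_pos y]
  have hSpos : 0 < S := lt_of_le_of_ne hS0 fun h => hSA (by rw [← h]; exact hA0)
  have hltA : ∀ τ, 0 ≤ τ → τ < S → τ ∈ A := by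
    intro τ h0 h1
    obtain ⟨τ', hτ', h2⟩ := exists_lt_of_lt_csSup ⟨0, hA0⟩ h1
    exact hdown τ' hτ' τ h0 h2.le
  -- the sequence
  let τ : ℕ → ℝ := fun k => S - S / (k + 2)
  have hτ0 : ∀ k, 0 < τ k := by
    intro k
    have : S / ((k : ℝ) + 2) < S := by
      rw [div_lt_iff₀ (by positivity)]
      nlinarith [(Nat.cast_nonneg k : (0 : ℝ) ≤ k)]
    show 0 < S - S / ((k : ℝ) + 2)
    linarith
  have hτ1 : ∀ k, τ k < S := by
    intro k
    show S - S / ((k : ℝ) + 2) < S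
    have : 0 < S / ((k : ℝ) + 2) := by positivity
    linarith
  have hτm : Monotone τ := by
    intro k l hkl
    show S - S / ((k : ℝ) + 2) ≤ S - S / ((l : ℝ) + 2)
    have h1 : (k : ℝ) ≤ l := by exact_mod_cast hkl
    have : S / ((l : ℝ) + 2) ≤ S / ((k : ℝ) + 2) := by
      apply div_le_div_of_nonneg_left hSpos.le (by positivity)
      linarith
    linarith
  have hτlim : Filter.Tendsto τ Filter.atTop (nhds S) := by
    have h1 : Filter.Tendsto (fun k : ℕ => S / ((k : ℝ) + 2)) Filter.atTop (nhds 0) := by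
      apply Filter.Tendsto.const_div_atTop
      exact Filter.tendsto_atTop_add_const_right _ _ tendsto_natCast_atTop_atTop
    have h2 := (tendsto_const_nhds (x := S)).sub h1
    rw [sub_zero] at h2
    exact h2
  have hz : ∀ k, ∃ y, M.Seg x ((τ k : ℂ) * θ) y := fun k => (hltA _ (hτ0 k).le (hτ1 k)).2
  choose z hz using hz
  obtain ⟨p, hpP, φ, hφ, hlim⟩ := hP.compact.tendsto_subseq (x := fun k => (z k).p) (fun k => (z k).mem)
  have hφlim : Filter.Tendsto (fun k => τ (φ k)) Filter.atTop (nhds S) := hτlim.comp hφ.tendsto_atTop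
  have hlim' : Filter.Tendsto (fun k => (z (φ k)).p) Filter.atTop (nhds p) := hlim
  have hvert : ∃ i, p = v i := by
    by_contra hcon
    push Not at hcon
    have hpos := rho2_pos hP p hcon
    have h1 : ∀ᶠ k in Filter.atTop, rho2 v p / 2 < rho2 v (z (φ k)).p :=
      ((rho2_continuous hP.three_le v).continuousAt.tendsto.comp hlim').eventually (lt_mem_nhds (by linarith))
    have h2 : ∀ᶠ k in Filter.atTop, S - rho2 v p / 2 < τ (φ k) := hφlim.eventually (lt_mem_nhds (by linarith))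
    obtain ⟨k, hk1, hk2⟩ := (h1.and h2).exists
    apply hSA
    exact hext (τ (φ k)) (hltA _ (hτ0 _).le (hτ1 _)) _ (hz _) S (hτ1 _).le (by
      show _ < rho2 v (z (φ k)).p
      linarith)
  obtain ⟨i, rfl⟩ := hvert
  obtain ⟨r₀, hr₀, hnear⟩ := near_seg hP (par_of_gon hg)
  obtain ⟨e₀, he₀, hball⟩ := Pool.Agent.Lib.H32W.vertex_ball hP i
  set m : ℝ := min r₀ e₀ with hm
  have hm0 : 0 < m := lt_min hr₀ he₀
  have h1 : ∀ᶠ k in Filter.atTop, ‖(z (φ k)).p - v i‖ < m / 2 := by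
    have := hlim'.eventually (Metric.ball_mem_nhds (v i) (half_pos hm0))
    refine this.mono fun k hk => ?_
    rw [← dist_eq_norm]
    exact hk
  have h2 : ∀ᶠ k in Filter.atTop, S - m / 2 < τ (φ k) := hφlim.eventually (lt_mem_nhds (by linarith))
  obtain ⟨k, hk1, hk2⟩ := (h1.and h2).exists
  set y := z (φ k) with hy
  set t : ℝ := S - τ (φ k) with ht
  have ht0 : 0 < t := sub_pos.2 (hτ1 _)
  have hend : ∀ l, k ≤ l → ‖(z (φ l)).p - v i‖ = ‖y.p + fr y.g (((τ (φ l) - τ (φ k) : ℝ) : ℂ) * θ) - v i‖ := by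
    intro l hl
    have h3 : M.Seg y (((τ (φ l) - τ (φ k) : ℝ) : ℂ) * θ) (z (φ l)) := by
      have h4 := TSurf.seg_symm (hz (φ k))
      have h5 : M.Seg y ((((-τ (φ k) : ℝ)) : ℂ) * θ) x := by
        rw [Complex.ofReal_neg, neg_mul]; exact h4
      have h6 := TSurf.seg_line h5 (hz (φ l))
      rwa [show -τ (φ k) + τ (φ l) = τ (φ l) - τ (φ k) by ring] at h6
    have h7 : 0 ≤ τ (φ l) - τ (φ k) := sub_nonneg.2 (hτm (hφ.monotone hl))
    have h8 : τ (φ l) - τ (φ k) < m / 2 := by have := hτ1 (φ l); linarith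
    refine (hnear i y (z (φ l)) _ ?_ h3).1
    intro s hs
    have h9 : ‖(s : ℂ) * fr y.g (((τ (φ l) - τ (φ k) : ℝ) : ℂ) * θ)‖ ≤ τ (φ l) - τ (φ k) := by
      rw [norm_mul, Complex.norm_real, Real.norm_eq_abs, abs_of_nonneg hs.1, norm_fr, norm_mul, Complex.norm_real,
        Real.norm_eq_abs, abs_of_nonneg h7, hθn, mul_one]
      nlinarith [hs.2]
    calc ‖y.p + (s : ℂ) * fr y.g (((τ (φ l) - τ (φ k) : ℝ) : ℂ) * θ) - v i‖
        = ‖(y.p - v i) + (s : ℂ) * fr y.g (((τ (φ l) - τ (φ k) : ℝ) : ℂ) * θ)‖ := by congr 1; ring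
      _ ≤ ‖y.p - v i‖ + ‖(s : ℂ) * fr y.g (((τ (φ l) - τ (φ k) : ℝ) : ℂ) * θ)‖ := norm_add_le _ _
      _ < m := by linarith
      _ ≤ r₀ := min_le_left _ _
  have hL1 : Filter.Tendsto (fun l => ‖(z (φ l)).p - v i‖) Filter.atTop (nhds 0) := by
    have := (hlim'.sub_const (v i)).norm
    rwa [sub_self, norm_zero] at this
  have hL2 : Filter.Tendsto (fun l => ‖y.p + fr y.g (((τ (φ l) - τ (φ k) : ℝ) : ℂ) * θ) - v i‖) Filter.atTop
      (nhds ‖y.p + ((t : ℝ) : ℂ) * fr y.g θ - v i‖) := by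
    have h3 : Filter.Tendsto (fun l => (((τ (φ l) - τ (φ k) : ℝ)) : ℂ)) Filter.atTop (nhds ((t : ℝ) : ℂ)) :=
      (Complex.continuous_ofReal.tendsto _).comp (hφlim.sub_const _)
    have h4 := (((tendsto_const_nhds (x := y.p)).add (h3.mul_const (fr y.g θ))).sub_const (v i)).norm
    refine h4.congr fun l => ?_
    rw [fr_real]
  have hzero : ‖y.p + ((t : ℝ) : ℂ) * fr y.g θ - v i‖ = 0 := by
    refine tendsto_nhds_unique hL2 (hL1.congr' ?_)
    filter_upwards [Filter.eventually_ge_atTop k] with l hl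
    exact hend l hl
  have hyp : y.p = v i - (t : ℂ) * fr y.g θ := by
    rw [norm_eq_zero] at hzero
    linear_combination hzero
  have hfin := h32_cone hP i hball ht0 (by
    rw [norm_fr, hθn, mul_one]
    have : m ≤ e₀ := min_le_right _ _
    linarith) hyp y.mem (fun j => transv_dir hg e y.g j)
  exact ⟨i, y, τ (φ k), t, (hτ0 _).le, ht0, by rw [ht]; linarith, hz _, hyp, hfin.1, hfin.2⟩

theorem ends_PS (hP : IsPolygon P v) (hg : Gon v kap) (e : ZMod N) :
    ∃ (J : Type) (_ : Finite J) (r : J → ℝ) (σ : J → ℝ → SPt P v N), (∀ j, 0 < r j) ∧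
      (∀ j, ∀ t ∈ Ioo 0 (r j), ∀ t' ∈ Ioc 0 t,
        (PS hP (par_of_gon hg)).Seg (σ j t) (((t - t' : ℝ) : ℂ) * (Complex.I * E e)) (σ j t')) ∧
      (∀ j, ∀ t ∈ Ioo 0 (r j), (PS hP (par_of_gon hg)).Dead (Complex.I * E e) (σ j t) t) ∧
      (∀ x T, 0 < T → (PS hP (par_of_gon hg)).Dead (Complex.I * E e) x T →
        ∃ j, ∃ t ∈ Ioo 0 (r j), ∃ s, 0 ≤ s ∧ s < T ∧
          (PS hP (par_of_gon hg)).Seg x ((s : ℂ) * (Complex.I * E e)) (σ j t)) := by
  classical
  set M := PS hP (par_of_gon hg) with hM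
  set θ : ℂ := Complex.I * E e with hθ
  have hθn : ‖θ‖ = 1 := h32_norm e
  obtain ⟨z₀, hz₀⟩ := hP.connected.nonempty
  have hnv : ∀ {z : ℂ}, z ∈ interior P → ∀ i, z ≠ v i := by
    rintro z hz i rfl
    exact (side_mem hP (left_mem_segment ℝ (v i) (v (i + 1)))).2 hz
  let mk : ∀ z : ℂ, z ∈ interior P → Fr N → SPt P v N := fun z hz g =>
    ⟨z, g, interior_subset hz, hnv hz, fun h => absurd hz h⟩
  let J : Type := {q : ZMod n × Fr N // ∃ r : ℝ, 0 < r ∧ ∀ t ∈ Ioo 0 r, v q.1 - (t : ℂ) * fr q.2 θ ∈ interior P}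
  let r : J → ℝ := fun j => j.2.choose
  have hr0 : ∀ j : J, 0 < r j := fun j => j.2.choose_spec.1
  have hr1 : ∀ j : J, ∀ t ∈ Ioo 0 (r j), v j.1.1 - (t : ℂ) * fr j.1.2 θ ∈ interior P := fun j => j.2.choose_spec.2
  let σ : J → ℝ → SPt P v N := fun j t =>
    if h : v j.1.1 - (t : ℂ) * fr j.1.2 θ ∈ interior P then mk _ h j.1.2 else mk z₀ hz₀ j.1.2
  have hσ : ∀ j : J, ∀ t ∈ Ioo 0 (r j), (σ j t).p = v j.1.1 - (t : ℂ) * fr j.1.2 θ ∧ (σ j t).g = j.1.2 := by
    intro j t ht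
    simp only [σ, dif_pos (hr1 j t ht)]
    exact ⟨rfl, rfl⟩
  have hseg : ∀ j : J, ∀ t ∈ Ioo 0 (r j), ∀ t' ∈ Ioc 0 t, M.Seg (σ j t) (((t - t' : ℝ) : ℂ) * θ) (σ j t') := by
    intro j t ht t' ht'
    have ht'' : t' ∈ Ioo 0 (r j) := ⟨ht'.1, ht'.2.trans_lt ht.2⟩
    obtain ⟨h1, h2⟩ := hσ j t ht
    obtain ⟨h3, h4⟩ := hσ j t' ht''
    refine seg_interior hP (par_of_gon hg) _ _ _ ?_ (by rw [h2, h4]) ?_
    · rw [h1, h2, h3, fr_real]; push_cast; ring
    · intro s hs
      have h5 : t - s * (t - t') ∈ Ioo 0 (r j) := by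
        constructor
        · nlinarith [ht'.1, ht'.2, hs.1, hs.2]
        · nlinarith [ht'.1, ht'.2, hs.1, hs.2, ht.2]
      have h6 := hr1 j _ h5
      rw [h1, h2, fr_real]
      convert h6 using 1
      push_cast; ring
  refine ⟨J, inferInstance, r, σ, hr0, hseg, ?_, ?_⟩
  · rintro j t ht ⟨y, hy⟩
    obtain ⟨z, ρ, hρ, h0, h1, hrad, hzs, -⟩ := TSurf.seg_path hy
    set t' : ℝ := min (t / 2) (ρ / 2) with ht'
    have ht'0 : 0 < t' := lt_min (half_pos ht.1) (half_pos hρ)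
    have ht't : t' ≤ t / 2 := min_le_left _ _
    have ht'' : t' ∈ Ioo 0 (r j) := ⟨ht'0, by linarith [ht.1, ht.2]⟩
    have hs : 1 - t' / t ∈ Icc (0 : ℝ) 1 := by
      have : t' / t ≤ 1 := (div_le_one ht.1).2 (by linarith [ht.1])
      have : 0 < t' / t := div_pos ht'0 ht.1
      constructor <;> linarith
    have h2 := hseg j t ht t' ⟨ht'0, by linarith [ht.1]⟩
    have h3 := hzs _ hs
    have h4 : (((1 - t' / t : ℝ)) : ℂ) * ((t : ℂ) * θ) = ((t - t' : ℝ) : ℂ) * θ := by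
      have : (t : ℂ) ≠ 0 := by exact_mod_cast ht.1.ne'
      push_cast
      field_simp
    rw [h4] at h3
    have h5 := TSurf.seg_unique h2 h3
    have h6 := hrad _ hs
    rw [← h5] at h6
    have h7 : M.rad (σ j t') = rho2 v (σ j t').p := rfl
    rw [h7, (hσ j t' ht'').1] at h6
    have h8 := rho2_le_add hP.three_le v (v j.1.1 - (t' : ℂ) * fr j.1.2 θ) (v j.1.1)
    rw [rho2_vertex hP, sub_sub_cancel_left, norm_neg, norm_mul, Complex.norm_real, Real.norm_eq_abs,
      abs_of_pos ht'0, norm_fr, hθn, mul_one, zero_add] at h8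
    have h9 : t' ≤ ρ / 2 := min_le_right _ _
    linarith
  · intro x T hT hd
    obtain ⟨i, y, s, t, hs, ht, hst, hsy, hyp, hyI, hyS⟩ := dead_end hP hg e x T hT hd
    have hin : ∀ a ∈ Ioc 0 t, v i - (a : ℂ) * fr y.g θ ∈ interior P := by
      intro a ha
      rcases eq_or_lt_of_le ha.2 with h | h
      · rw [h, ← hyp]; exact hyI
      · apply hyS
        refine ⟨a / t, 1 - a / t, div_pos ha.1 ht, by have := (div_lt_one ht).2 h; linarith, by ring, ?_⟩
        rw [hyp]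
        simp only [Complex.real_smul]
        have : (t : ℂ) ≠ 0 := by exact_mod_cast ht.ne'
        push_cast
        field_simp
        ring
    let j : J := ⟨(i, y.g), t, ht, fun a ha => hin a ⟨ha.1, ha.2.le⟩⟩
    set t₁ : ℝ := min t (r j / 2) with ht₁
    have h0 : 0 < t₁ := lt_min ht (half_pos (hr0 j))
    have h1 : t₁ ∈ Ioo 0 (r j) := ⟨h0, by have := min_le_right t (r j / 2); linarith [hr0 j]⟩
    have h2 : t₁ ≤ t := min_le_left _ _
    obtain ⟨h3, h4⟩ := hσ j t₁ h1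
    have h5 : M.Seg y (((t - t₁ : ℝ) : ℂ) * θ) (σ j t₁) := by
      refine seg_interior hP (par_of_gon hg) _ _ _ ?_ h4 ?_
      · rw [h3, fr_real, hyp]
        show v i - (t₁ : ℂ) * fr y.g θ = _
        push_cast; ring
      · intro a ha
        have h6 := hin (t - a * (t - t₁)) ⟨by nlinarith [ha.1, ha.2], by nlinarith [ha.1, ha.2]⟩
        rw [fr_real, hyp]
        convert h6 using 1
        push_cast; ring
    refine ⟨j, t₁, h1, s + (t - t₁), by linarith, by linarith, TSurf.seg_line hsy h5⟩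

end Pool.Agent.Lib.H25D
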