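import Pool.Agent.Lib.H25D.PS
import Pool.Agent.Lib.H45Z.Sym0

/-!
# H25D, chunk P1: the reflection symmetry
-/

open Set

namespace Pool.Agent.Lib.H25D

open Pool.Agent.Lib.H42I (IsPolygon Ray RayS)
open Pool.Agent.Lib.H45Z
open Pool.Agent.H52W (cdet)
open Pool.Agent.Lib.H23D (E Gon)

variable {n N : ℕ} [NeZero n] [NeZero N] {P : Set ℂ} {v : ZMod n → ℂ} {kap : ZMod n → ZMod N}

omit [NeZero n] [NeZero N] in
theorem fl_eq (e : ZMod N) (g : Fr N) : fl e g = rfl' (2 * e) g := rfl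

/-- `pg` is the symmetry `G` of `H45Z` -/
theorem pg_eq (hP : IsPolygon P v) (e : ZMod N) (x : SPt P v N) :
    pg kap e x = G kap hP (2 * e) x := rfl

theorem rl_eq (e : ZMod N) (u : ℂ) :
    TSurf.rl (Complex.I * E e) u = E (2 * e) * (starRingEnd ℂ) u := by
  unfold TSurf.rl
  have h2 : E (2 * e) = E e * E e := by
    rw [← Pool.Agent.Lib.H23D.E_add]; congr 1; ring
  rw [h2]
  linear_combination (-(E e * E e) * (starRingEnd ℂ) u) * Complex.I_sq

/-- the linear part of `pg` -/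
theorem fr_fl (e : ZMod N) (g : Fr N) (u : ℂ) :
    fr (fl e g) u = fr g (TSurf.rl (Complex.I * E e) u) := by
  rw [fl_eq, fr_rfl', rl_eq]

theorem refl_pg (hP : IsPolygon P v) (hk : Par v kap) (e : ZMod N) :
    (PS hP hk).Refl (Complex.I * E e) (pg kap e) where
  invol x := G_G kap hP (2 * e) x
  rad _ := rfl
  add x u hu := by
    have := sadd_G hP hk (2 * e) x u hu
    rw [rl_eq]
    exact this

/-- the fixed points: perpendicular hits -/
theorem pg_fixed_iff (hP : IsPolygon P v) (hg : Gon v kap) (e : ZMod N) (x : SPt P v N) :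
    pg kap e x = x ↔ ∃ i, x.p ∈ openSegment ℝ (v i) (v (i + 1)) ∧ x.g.1 + e = kap i := by
  rw [pg_eq hP, G_fix_iff]
  constructor
  · rintro ⟨i, hs, -, h⟩
    refine ⟨i, hs, two_cancel hg.prime hg.odd ?_⟩
    rw [← h]; ring
  · rintro ⟨i, hs, h⟩
    refine ⟨i, hs, x.bit (side_mem hP (openSegment_subset_segment _ _ _ hs)).2, ?_⟩
    rw [← h]; ring

end Pool.Agent.Lib.H25D
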