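import Pool.Agent.Lib.H32W.OpenDense
import Pool.Agent.Lib.H82R.Area
import Pool.Agent.Lib.H82R.Unif
import Pool.Agent.Lib.H52W.MemQ

/-!
# H25D: final assembly in the area form
-/

open Set MeasureTheory Metric

namespace Pool.Agent.Lib.H25D

open Pool.Agent.Lib.H42I (Ray IsPolygon Illuminable)
open Pool.Agent.H52W (SimpleV)
open Pool.Agent.Lib.H23D (Cls dense_cls)
open Pool.Agent.Lib.H32W (GoodArr robust_metric isOpen_simple)

/-- polygons of the dense class are illuminated, with good arrivals, from almost every point -/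
def ClassLitAE (n : ℕ) [NeZero n] : Prop :=
  ∀ (P : Set ℂ) (v : ZMod n → ℂ) (N : ℕ) (k : ZMod n → ℤ), IsPolygon P v → Cls v N k →
    ∃ Z : Set ℂ, volume Z = 0 ∧ ∀ q ∈ interior P, q ∉ Z →
      ∀ y ∈ P, y = q ∨ ∃ d, Ray P v q y d ∧ GoodArr v y d

/-- vertex tuples with a robust set of light sources that leaves an area less than `η` -/
def RobustA {n : ℕ} (η : ℝ) (v : ZMod n → ℂ) : Prop :=
  ∃ (K : Set ℂ) (ε : ℝ), K.Nonempty ∧ 0 < ε ∧ ∀ (P' : Set ℂ) (v' : ZMod n → ℂ),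
    IsPolygon P' v' → (∀ i, ‖v' i - v i‖ < ε) → volume (P' \ K) < ENNReal.ofReal η ∧
      ∀ q' : ℂ, (∃ q ∈ K, ‖q' - q‖ < ε) → Illuminable P' v' q'

theorem isOpen_robustA {n : ℕ} [NeZero n] (η : ℝ) : IsOpen {v : ZMod n → ℂ | RobustA η v} := by
  rw [Metric.isOpen_iff]
  rintro v ⟨K, ε, hK, hε, h⟩
  refine ⟨ε / 2, by linarith, fun w hw => ⟨K, ε / 2, hK, by linarith, fun P' v' hP' hv' => ?_⟩⟩
  rw [mem_ball, dist_pi_lt_iff (by linarith)] at hw
  have hv'' : ∀ i, ‖v' i - v i‖ < ε := by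
    intro i
    have h1 := hv' i
    have h2 := hw i
    rw [dist_eq_norm] at h2
    calc ‖v' i - v i‖ = ‖(v' i - w i) + (w i - v i)‖ := by ring_nf
      _ ≤ ‖v' i - w i‖ + ‖w i - v i‖ := norm_add_le _ _
      _ < ε := by linarith
  obtain ⟨ha, hb⟩ := h P' v' hP' hv''
  exact ⟨ha, fun q' ⟨q, hq, hqq⟩ => hb q' ⟨q, hq, by linarith⟩⟩

theorem dense_robustA {n : ℕ} [NeZero n] (hcl : ClassLitAE n) (η : ℝ) (hη : 0 < η) :
    {v : ZMod n → ℂ | SimpleV v} ⊆ closure ({v | SimpleV v} ∩ {v | RobustA η v}) := by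
  intro v hv
  have hv' : SimpleV v := hv
  rw [Metric.mem_closure_iff]
  intro ε hε
  obtain ⟨ε₁, hε₁, h1⟩ := Metric.isOpen_iff.1 isOpen_simple v hv
  obtain ⟨w, N, k, _, hw, hwv⟩ := dense_cls hv'.three_le v (fun i => (hv'.ne_succ i).symm)
    (lt_min hε hε₁) 0
  have hdist : dist w v < min ε ε₁ := by
    rw [dist_pi_lt_iff (lt_min hε hε₁)]
    intro i
    rw [dist_eq_norm]
    exact hwv i
  have hws : SimpleV w := h1 (hdist.trans_le (min_le_right _ _))
  refine ⟨w, ⟨hws, ?_⟩, by rw [dist_comm]; exact hdist.trans_le (min_le_left _ _)⟩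
  obtain ⟨P, hP, _⟩ := Pool.Agent.H52W.exists_polygon hws
  obtain ⟨Z, hZ, hall⟩ := hcl P w N k hP hw
  -- the exceptional set: `Z` and the boundary curve
  have hcurve : volume (frontier P) = 0 := by
    rw [hP.frontier_eq, measure_iUnion_null_iff]
    intro i
    by_cases hne : w i = w (i + 1)
    · rw [hne, segment_same]; exact measure_singleton _
    · have hsub : segment ℝ (w i) (w (i + 1)) ⊆ (line[ℝ, w i, w (i + 1)] : Set ℂ) := by
        rw [← convexHull_pair]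
        exact convexHull_subset_affineSpan _
      refine measure_mono_null hsub (Measure.addHaar_affineSubspace volume _ ?_)
      intro htop
      have h2 : Module.finrank ℝ (line[ℝ, w i, w (i + 1)]).direction ≤ 1 := by
        rw [direction_affineSpan]
        exact finrank_vectorSpan_insert_le_set ℝ {w (i + 1)} (w i) |>.trans (by simp)
      rw [htop, AffineSubspace.direction_top, finrank_top, Complex.finrank_real_complex] at h2
      omega
  obtain ⟨K, hK, hKne, hKP, hKN, ε₂, hε₂, h2⟩ := Pool.Agent.Lib.H82R.area_set hP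
    (N := Z ∪ frontier P) (measure_union_null hZ hcurve) η hη
  have hKint : ∀ q ∈ K, q ∈ interior P := by
    intro q hq
    by_contra hcon
    exact hKN q hq (Or.inr ⟨subset_closure (hKP hq), hcon⟩)
  obtain ⟨ε₃, hε₃, h3⟩ := Pool.Agent.Lib.H82R.unif (v := w) hK (fun q hq => by
    obtain ⟨δ, hδ, h4⟩ := robust_metric P w hP (Pool.Agent.H52W.facts hP) q (hKint q hq)
      (hall q (hKint q hq) (fun hz => hKN q hq (Or.inl hz)))
    exact ⟨δ, hδ, h4⟩)
  refine ⟨K, min ε₂ ε₃, hKne, lt_min hε₂ hε₃, fun P' v' hP' hv' => ⟨?_, ?_⟩⟩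
  · exact h2 P' v' hP' (fun i => (hv' i).trans_le (min_le_left _ _))
  · rintro q' ⟨q, hq, hqq⟩
    exact h3 P' v' hP' (fun i => (hv' i).trans_le (min_le_right _ _)) q'
      ⟨q, hq, hqq.trans_le (min_le_right _ _)⟩

/-- Final assembly. -/
theorem open_dense_area {n : ℕ} [NeZero n] (hcl : ClassLitAE n) (η : ℝ) (hη : 0 < η) :
    ∃ O : Set (ZMod n → ℂ), IsOpen O ∧ O ⊆ {v | SimpleV v} ∧ {v | SimpleV v} ⊆ closure O ∧
      ∀ v ∈ O, ∃ P : Set ℂ, IsPolygon P v ∧ (∀ P', IsPolygon P' v → P' = P) ∧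
        ∃ U : Set ℂ, IsOpen U ∧ U.Nonempty ∧ U ⊆ interior P ∧
          volume (P \ U) < ENNReal.ofReal η ∧ ∀ q ∈ U, Illuminable P v q := by
  refine ⟨{v | SimpleV v} ∩ {v | RobustA η v}, isOpen_simple.inter (isOpen_robustA η),
    inter_subset_left, ?_, ?_⟩
  · exact dense_robustA hcl η hη
  · rintro v ⟨hv, K, ε, hKne, hε, h⟩
    obtain ⟨P, hP, hu⟩ := Pool.Agent.H52W.exists_polygon hv
    obtain ⟨ha, hb⟩ := h P v hP (fun i => by simpa using hε)
    refine ⟨P, hP, hu, {q' | ∃ q ∈ K, ‖q' - q‖ < ε}, ?_, ?_, ?_, ?_, ?_⟩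
    · have : {q' : ℂ | ∃ q ∈ K, ‖q' - q‖ < ε} = ⋃ q ∈ K, ball q ε := by
        ext q'
        simp [dist_eq_norm]
      rw [this]
      exact isOpen_biUnion fun _ _ => isOpen_ball
    · obtain ⟨q, hq⟩ := hKne
      exact ⟨q, q, hq, by simpa using hε⟩
    · intro q' hq'
      exact Pool.Agent.Lib.H52W.interior_of_near hP hb hq'
    · refine lt_of_le_of_lt (measure_mono ?_) ha
      intro x hx
      exact ⟨hx.1, fun hxK => hx.2 ⟨x, hxK, by simpa using hε⟩⟩
    · intro q hq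
      exact hb q hq

end Pool.Agent.Lib.H25D
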