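import Pool.Agent.Lib.H25D.Defs

/-!
# H25D, chunk A1: basic properties of segments
-/

open Set

namespace Pool.Agent.Lib.H25D.TSurf

variable {X : Type} {M : TSurf X}

theorem seg_refl (x : X) : M.Seg x 0 x :=
  ⟨fun _ => x, rfl, rfl, fun s _ => ⟨1, one_pos, fun s' _ _ => by rw [mul_zero, M.add_zero]⟩⟩

theorem seg_add {x : X} {u : ℂ} (h : ‖u‖ < M.rad x) : M.Seg x u (M.add x u) := by
  have hu : 0 < ‖u‖ + 1 := by positivity
  refine ⟨fun s => M.add x ((s : ℂ) * u), ?_, ?_, fun s hs => ?_⟩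
  · show M.add x (((0 : ℝ) : ℂ) * u) = x
    rw [Complex.ofReal_zero, zero_mul, M.add_zero]
  · show M.add x (((1 : ℝ) : ℂ) * u) = M.add x u
    rw [Complex.ofReal_one, one_mul]
  · refine ⟨(M.rad x - ‖u‖) / (‖u‖ + 1), div_pos (by linarith) hu, fun s' _ hs' => ?_⟩
    have h1 : |s' - s| * (‖u‖ + 1) < M.rad x - ‖u‖ := (lt_div_iff₀ hu).1 hs'
    have h2 : ‖(s : ℂ) * u‖ ≤ ‖u‖ := by
      rw [norm_mul, Complex.norm_real, Real.norm_eq_abs, abs_of_nonneg hs.1]
      exact mul_le_of_le_one_left (norm_nonneg _) hs.2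
    have h3 : ‖((s' - s : ℝ) : ℂ) * u‖ = |s' - s| * ‖u‖ := by
      rw [norm_mul, Complex.norm_real, Real.norm_eq_abs]
    have h4 : |s' - s| * ‖u‖ ≤ |s' - s| * (‖u‖ + 1) :=
      mul_le_mul_of_nonneg_left (by linarith) (abs_nonneg _)
    show M.add x ((s' : ℂ) * u) = M.add (M.add x ((s : ℂ) * u)) (((s' - s : ℝ) : ℂ) * u)
    rw [M.add_add x _ _ (by rw [h3]; linarith)]
    congr 1
    push_cast
    ring

/-- a uniform path gives a segment -/
theorem seg_of_path {x y : X} {W : ℂ} (z : ℝ → X) {ρ : ℝ} (hρ : 0 < ρ) (h0 : z 0 = x) (h1 : z 1 = y)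
    (h : ∀ s ∈ Icc (0 : ℝ) 1, ∀ s' ∈ Icc (0 : ℝ) 1, |s' - s| * ‖W‖ < ρ →
      z s' = M.add (z s) (((s' - s : ℝ) : ℂ) * W)) : M.Seg x W y := by
  have hW : 0 < ‖W‖ + 1 := by positivity
  refine ⟨z, h0, h1, fun s hs => ⟨ρ / (‖W‖ + 1), div_pos hρ hW, fun s' hs' hd => h s hs s' hs' ?_⟩⟩
  have h2 : |s' - s| * (‖W‖ + 1) < ρ := (lt_div_iff₀ hW).1 hd
  have h3 : |s' - s| * ‖W‖ ≤ |s' - s| * (‖W‖ + 1) :=
    mul_le_mul_of_nonneg_left (by linarith) (abs_nonneg _)
  linarith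

/-- uniform estimates for a path -/
theorem path_unif {W : ℂ} {z : ℝ → X} (hz : ∀ s ∈ Icc (0 : ℝ) 1, ∃ δ > 0, ∀ s' ∈ Icc (0 : ℝ) 1,
    |s' - s| < δ → z s' = M.add (z s) (((s' - s : ℝ) : ℂ) * W)) : ∃ ρ : ℝ, 0 < ρ ∧
    (∀ s ∈ Icc (0 : ℝ) 1, ρ ≤ M.rad (z s)) ∧
    ∀ s ∈ Icc (0 : ℝ) 1, ∀ s' ∈ Icc (0 : ℝ) 1, |s' - s| * ‖W‖ < ρ →
      z s' = M.add (z s) (((s' - s : ℝ) : ℂ) * W) := by
  have hW : 0 < ‖W‖ + 1 := by positivity
  -- better local radii
  have h1 : ∀ s : Icc (0 : ℝ) 1, ∃ δ > 0, δ * (‖W‖ + 1) ≤ M.rad (z s) / 4 ∧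
      ∀ s' ∈ Icc (0 : ℝ) 1, |s' - s| < δ → z s' = M.add (z s) (((s' - s : ℝ) : ℂ) * W) := by
    rintro ⟨s, hs⟩
    obtain ⟨δ, hδ, h2⟩ := hz s hs
    have h3 : 0 < M.rad (z s) / 4 / (‖W‖ + 1) := div_pos (by linarith [M.rad_pos (z s)]) hW
    refine ⟨min δ (M.rad (z s) / 4 / (‖W‖ + 1)), lt_min hδ h3, ?_, fun s' hs' h4 =>
      h2 s' hs' (lt_of_lt_of_le h4 (min_le_left _ _))⟩
    have h5 : min δ (M.rad (z s) / 4 / (‖W‖ + 1)) ≤ M.rad (z s) / 4 / (‖W‖ + 1) := min_le_right _ _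
    calc min δ (M.rad (z s) / 4 / (‖W‖ + 1)) * (‖W‖ + 1)
        ≤ (M.rad (z s) / 4 / (‖W‖ + 1)) * (‖W‖ + 1) := mul_le_mul_of_nonneg_right h5 hW.le
      _ = M.rad (z s) / 4 := div_mul_cancel₀ _ hW.ne'
  choose δ hδ hδr hδz using h1
  -- finite subcover and Lebesgue number
  obtain ⟨t, ht⟩ := isCompact_Icc.elim_finite_subcover (s := Icc (0 : ℝ) 1)
    (fun s : Icc (0 : ℝ) 1 => Metric.ball (s : ℝ) (δ s)) (fun _ => Metric.isOpen_ball)
    fun s hs => mem_iUnion.2 ⟨⟨s, hs⟩, Metric.mem_ball_self (hδ _)⟩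
  have htc : Icc (0 : ℝ) 1 ⊆ ⋃ s : {s // s ∈ t}, Metric.ball ((s : Icc (0 : ℝ) 1) : ℝ) (δ s) := by
    intro r hr
    obtain ⟨s, hs, hrs⟩ := mem_iUnion₂.1 (ht hr)
    exact mem_iUnion.2 ⟨⟨s, hs⟩, hrs⟩
  obtain ⟨ε, hε, hL⟩ := lebesgue_number_lemma_of_metric isCompact_Icc
    (fun s : {s // s ∈ t} => Metric.isOpen_ball) htc
  -- lower bound of the radii
  have hc : ∃ c > 0, ∀ s ∈ t, c ≤ M.rad (z (s : ℝ)) := by
    classical
    rcases t.eq_empty_or_nonempty with h2 | h2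
    · exact ⟨1, one_pos, fun s hs => absurd hs (by rw [h2]; exact Finset.notMem_empty s)⟩
    · obtain ⟨s0, hs0, h3⟩ := t.exists_min_image (fun s => M.rad (z (s : ℝ))) h2
      exact ⟨M.rad (z (s0 : ℝ)), M.rad_pos _, h3⟩
  obtain ⟨c, hc0, hc⟩ := hc
  have hrad : ∀ s ∈ Icc (0 : ℝ) 1, c / 2 ≤ M.rad (z s) := by
    intro s hs
    obtain ⟨⟨i, hi⟩, h2⟩ := hL s hs
    have h3 : |s - i| < δ i := by
      have h4 := h2 (Metric.mem_ball_self hε)
      rwa [Metric.mem_ball, Real.dist_eq] at h4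
    have h5 : |s - i| * ‖W‖ ≤ M.rad (z (i : ℝ)) / 4 := by
      have h6 : |s - i| * ‖W‖ ≤ δ i * (‖W‖ + 1) :=
        mul_le_mul h3.le (by linarith) (norm_nonneg _) (hδ i).le
      exact h6.trans (hδr i)
    have h7 : ‖((s - i : ℝ) : ℂ) * W‖ = |s - i| * ‖W‖ := by
      rw [norm_mul, Complex.norm_real, Real.norm_eq_abs]
    have h8 := M.rad_pos (z (i : ℝ))
    have h9 := M.rad_add (z (i : ℝ)) (((s - i : ℝ) : ℂ) * W) (by rw [h7]; linarith)
    rw [← hδz i s hs h3, h7] at h9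
    have h10 := hc i hi
    linarith
  -- short steps
  have hstep : ∀ s ∈ Icc (0 : ℝ) 1, ∀ s' ∈ Icc (0 : ℝ) 1, |s' - s| < ε →
      z s' = M.add (z s) (((s' - s : ℝ) : ℂ) * W) := by
    intro s hs s' hs' hd
    obtain ⟨⟨i, hi⟩, h2⟩ := hL s hs
    have h3 : |s - i| < δ i := by
      have h4 := h2 (Metric.mem_ball_self hε)
      rwa [Metric.mem_ball, Real.dist_eq] at h4
    have h3' : |s' - i| < δ i := by
      have h4 := h2 (by rwa [Metric.mem_ball, Real.dist_eq] : s' ∈ Metric.ball s ε)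
      rwa [Metric.mem_ball, Real.dist_eq] at h4
    have h7 : ‖((s - i : ℝ) : ℂ) * W‖ = |s - i| * ‖W‖ := by
      rw [norm_mul, Complex.norm_real, Real.norm_eq_abs]
    have h7' : ‖((s' - s : ℝ) : ℂ) * W‖ = |s' - s| * ‖W‖ := by
      rw [norm_mul, Complex.norm_real, Real.norm_eq_abs]
    have h5 : |s - i| * ‖W‖ ≤ M.rad (z (i : ℝ)) / 4 := by
      have h6 : |s - i| * ‖W‖ ≤ δ i * (‖W‖ + 1) :=
        mul_le_mul h3.le (by linarith) (norm_nonneg _) (hδ i).le
      exact h6.trans (hδr i)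
    have h5' : |s' - s| * ‖W‖ ≤ M.rad (z (i : ℝ)) / 2 := by
      have h4 : |s' - s| ≤ 2 * δ i := by
        have h6 : |s' - s| ≤ |s' - i| + |s - i| := by
          have h10 := abs_sub_le s' (i : ℝ) s
          rwa [abs_sub_comm (i : ℝ) s] at h10
        linarith
      have h6 : |s' - s| * ‖W‖ ≤ 2 * δ i * (‖W‖ + 1) :=
        mul_le_mul h4 (by linarith) (norm_nonneg _) (by linarith [hδ i])
      have h10 := hδr i
      linarith
    have h8 := M.rad_pos (z (i : ℝ))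
    rw [hδz i s' hs' h3', hδz i s hs h3, M.add_add _ _ _ (by rw [h7, h7']; linarith)]
    congr 1
    push_cast
    ring
  refine ⟨c / 2, by linarith, hrad, fun s hs s' hs' hd => ?_⟩
  obtain ⟨n, hn⟩ := exists_nat_gt (|s' - s| / ε)
  have hn0 : 0 < (n : ℝ) := lt_of_le_of_lt (div_nonneg (abs_nonneg _) hε.le) hn
  have hstep2 : |s' - s| / n < ε := by
    rw [div_lt_iff₀ hn0]
    rwa [div_lt_iff₀ hε, mul_comm] at hn
  have key : ∀ k : ℕ, k ≤ n → z (s + k * ((s' - s) / n)) =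
      M.add (z s) (((k * ((s' - s) / n) : ℝ) : ℂ) * W) := by
    have hmem : ∀ k : ℕ, k ≤ n → s + k * ((s' - s) / n) ∈ Icc (0 : ℝ) 1 := by
      intro k hk
      have hk1 : (k : ℝ) / n ∈ Icc (0 : ℝ) 1 :=
        ⟨by positivity, (div_le_one hn0).2 (by exact_mod_cast hk)⟩
      have h2 : s + k * ((s' - s) / n) = (1 - (k : ℝ) / n) * s + ((k : ℝ) / n) * s' := by
        field_simp
        ring
      rw [h2]
      have h3 := hk1.1
      have h4 := hk1.2
      constructor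
      · nlinarith [hs.1, hs'.1, mul_nonneg (sub_nonneg.2 h4) hs.1, mul_nonneg h3 hs'.1]
      · nlinarith [mul_nonneg (sub_nonneg.2 h4) (sub_nonneg.2 hs.2),
          mul_nonneg h3 (sub_nonneg.2 hs'.2)]
    intro k
    induction k with
    | zero =>
      intro _
      simp only [Nat.cast_zero, zero_mul, _root_.add_zero, Complex.ofReal_zero, M.add_zero]
    | succ k ih =>
      intro hk
      have hk' : k ≤ n := by omega
      have h2 := hstep _ (hmem k hk') _ (hmem (k + 1) hk) (by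
        have h3 : s + ((k + 1 : ℕ) : ℝ) * ((s' - s) / n) - (s + k * ((s' - s) / n)) =
            (s' - s) / n := by
          push_cast
          ring
        rw [h3, abs_div, abs_of_pos hn0]
        exact hstep2)
      have h3 : s + ((k + 1 : ℕ) : ℝ) * ((s' - s) / n) - (s + k * ((s' - s) / n)) =
          (s' - s) / n := by
        push_cast
        ring
      rw [h2, ih hk', h3, M.add_add]
      · congr 1
        push_cast
        ring
      · rw [norm_mul, norm_mul, Complex.norm_real, Complex.norm_real, Real.norm_eq_abs,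
          Real.norm_eq_abs, abs_mul, abs_div, abs_of_pos hn0, abs_of_nonneg (Nat.cast_nonneg k)]
        have h4 : ((k : ℝ) + 1) / n ≤ 1 := (div_le_one hn0).2 (by exact_mod_cast hk)
        have h5 : (k : ℝ) * (|s' - s| / n) * ‖W‖ + |s' - s| / n * ‖W‖ =
            (((k : ℝ) + 1) / n) * (|s' - s| * ‖W‖) := by
          field_simp
        rw [h5]
        have h6 : 0 ≤ |s' - s| * ‖W‖ := by positivity
        have h7 : (((k : ℝ) + 1) / n) * (|s' - s| * ‖W‖) ≤ |s' - s| * ‖W‖ :=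
          mul_le_of_le_one_left h6 h4
        have h8 := hrad s hs
        linarith
  have h2 := key n le_rfl
  have h3 : (n : ℝ) * ((s' - s) / n) = s' - s := by
    field_simp
  rw [h3] at h2
  rw [← h2]
  congr 1
  ring

/-- a segment as a path with uniform estimates -/
theorem seg_path {x y : X} {W : ℂ} (h : M.Seg x W y) : ∃ (z : ℝ → X) (ρ : ℝ), 0 < ρ ∧ z 0 = x ∧
    z 1 = y ∧ (∀ s ∈ Icc (0 : ℝ) 1, ρ ≤ M.rad (z s)) ∧
    (∀ s ∈ Icc (0 : ℝ) 1, M.Seg x ((s : ℂ) * W) (z s)) ∧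
    ∀ s ∈ Icc (0 : ℝ) 1, ∀ s' ∈ Icc (0 : ℝ) 1, |s' - s| * ‖W‖ < ρ →
      z s' = M.add (z s) (((s' - s : ℝ) : ℂ) * W) := by
  obtain ⟨z, h0, h1, hz⟩ := h
  obtain ⟨ρ, hρ, hr, hp⟩ := path_unif hz
  refine ⟨z, ρ, hρ, h0, h1, hr, fun s hs => ?_, hp⟩
  refine seg_of_path (fun t => z (t * s)) hρ (by simpa using h0) (by simp) fun t ht t' ht' hd => ?_
  have hm : ∀ t ∈ Icc (0 : ℝ) 1, t * s ∈ Icc (0 : ℝ) 1 := fun t ht =>
    ⟨mul_nonneg ht.1 hs.1, mul_le_one₀ ht.2 hs.1 hs.2⟩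
  have h2 : t' * s - t * s = (t' - t) * s := by ring
  have h3 := hp _ (hm t ht) _ (hm t' ht') (by
    rw [norm_mul, Complex.norm_real, Real.norm_eq_abs] at hd
    rw [h2, abs_mul]
    calc |t' - t| * |s| * ‖W‖ = |t' - t| * (|s| * ‖W‖) := by ring
      _ < ρ := hd)
  show z (t' * s) = M.add (z (t * s)) (((t' - t : ℝ) : ℂ) * ((s : ℂ) * W))
  rw [h3, h2]
  congr 1
  push_cast
  ring

theorem seg_unique {x y y' : X} {W : ℂ} (h : M.Seg x W y) (h' : M.Seg x W y') : y = y' := by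
  obtain ⟨z, ρ, hρ, h0, h1, -, -, hp⟩ := seg_path h
  obtain ⟨z', ρ', hρ', h0', h1', -, -, hp'⟩ := seg_path h'
  obtain ⟨n, hn⟩ := exists_nat_gt (‖W‖ / min ρ ρ')
  have hm : 0 < min ρ ρ' := lt_min hρ hρ'
  have hn0 : 0 < (n : ℝ) := lt_of_le_of_lt (div_nonneg (norm_nonneg _) hm.le) hn
  have hstep : 1 / (n : ℝ) * ‖W‖ < min ρ ρ' := by
    rw [one_div, inv_mul_eq_div, div_lt_iff₀ hn0]
    rwa [div_lt_iff₀ hm, mul_comm] at hn
  have key : ∀ k : ℕ, k ≤ n → z (k / n) = z' (k / n) := by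
    intro k
    induction k with
    | zero =>
      intro _
      rw [Nat.cast_zero, zero_div, h0, h0']
    | succ k ih =>
      intro hk
      have hmem : ∀ k : ℕ, k ≤ n → (k : ℝ) / n ∈ Icc (0 : ℝ) 1 := fun k hk =>
        ⟨by positivity, (div_le_one hn0).2 (by exact_mod_cast hk)⟩
      have h3 : ((k + 1 : ℕ) : ℝ) / n - k / n = 1 / n := by
        push_cast
        ring
      have h4 : |((k + 1 : ℕ) : ℝ) / n - k / n| * ‖W‖ < min ρ ρ' := by
        rw [h3, abs_of_pos (by positivity)]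
        exact hstep
      rw [hp _ (hmem k (by omega)) _ (hmem (k + 1) hk) (lt_of_lt_of_le h4 (min_le_left _ _)),
        hp' _ (hmem k (by omega)) _ (hmem (k + 1) hk) (lt_of_lt_of_le h4 (min_le_right _ _)),
        ih (by omega)]
  have h2 := key n le_rfl
  rwa [div_self hn0.ne', h1, h1'] at h2

theorem seg_symm {x y : X} {W : ℂ} (h : M.Seg x W y) : M.Seg y (-W) x := by
  obtain ⟨z, ρ, hρ, h0, h1, -, -, hp⟩ := seg_path h
  refine seg_of_path (fun t => z (1 - t)) hρ (by simpa using h1) (by simpa using h0)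
    fun t ht t' ht' hd => ?_
  have hm : ∀ t ∈ Icc (0 : ℝ) 1, 1 - t ∈ Icc (0 : ℝ) 1 := fun t ht =>
    ⟨by linarith [ht.2], by linarith [ht.1]⟩
  have h2 : 1 - t' - (1 - t) = -(t' - t) := by ring
  have h3 := hp _ (hm t ht) _ (hm t' ht') (by
    rw [norm_neg] at hd
    rwa [h2, abs_neg])
  show z (1 - t') = M.add (z (1 - t)) (((t' - t : ℝ) : ℂ) * -W)
  rw [h3, h2]
  congr 1
  push_cast
  ring

/-- all parts of a path are segments -/
private theorem h22_path {z : ℝ → X} {W : ℂ} {ρ : ℝ} (hρ : 0 < ρ)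
    (hz : ∀ s ∈ Icc (0 : ℝ) 1, ∀ s' ∈ Icc (0 : ℝ) 1, |s' - s| * ‖W‖ < ρ →
      z s' = M.add (z s) (((s' - s : ℝ) : ℂ) * W)) {a b : ℝ} (ha : a ∈ Icc (0 : ℝ) 1)
    (hb : b ∈ Icc (0 : ℝ) 1) : M.Seg (z a) (((b - a : ℝ) : ℂ) * W) (z b) := by
  have hmem : ∀ r ∈ Icc (0 : ℝ) 1, a + r * (b - a) ∈ Icc (0 : ℝ) 1 := by
    intro r hr
    constructor
    · nlinarith [hr.1, hr.2, ha.1, hb.1]
    · nlinarith [hr.1, hr.2, ha.2, hb.2]
  refine ⟨fun r => z (a + r * (b - a)), ?_, ?_, ?_⟩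
  · simp
  · simp
  · intro s hs
    have hD : 0 < |b - a| * ‖W‖ + 1 := by positivity
    refine ⟨ρ / (|b - a| * ‖W‖ + 1), div_pos hρ hD, ?_⟩
    intro s' hs' h
    have h1 : |a + s' * (b - a) - (a + s * (b - a))| * ‖W‖ < ρ := by
      have e : a + s' * (b - a) - (a + s * (b - a)) = (s' - s) * (b - a) := by ring
      rw [e, abs_mul, mul_assoc]
      rw [lt_div_iff₀ hD] at h
      have h2 : |s' - s| * (|b - a| * ‖W‖) ≤ |s' - s| * (|b - a| * ‖W‖ + 1) :=
        mul_le_mul_of_nonneg_left (by linarith) (abs_nonneg _)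
      linarith
    have h3 := hz _ (hmem s hs) _ (hmem s' hs') h1
    show z (a + s' * (b - a)) = M.add (z (a + s * (b - a))) _
    rw [h3]
    congr 1
    push_cast
    ring

theorem seg_split {x z : X} {W : ℂ} (h : M.Seg x W z) {s : ℝ} (hs : s ∈ Icc (0 : ℝ) 1) :
    ∃ y, M.Seg x ((s : ℂ) * W) y ∧ M.Seg y (((1 - s : ℝ) : ℂ) * W) z := by
  obtain ⟨p, ρ, hρ, h0, h1, -, hseg, hp⟩ := seg_path h
  refine ⟨p s, hseg s hs, ?_⟩
  have := h22_path (M := M) hρ hp hs (b := 1) ⟨zero_le_one, le_rfl⟩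
  rwa [h1] at this

/-- concatenation of two segments in the same direction -/
private theorem h22_concat {x y z : X} {W : ℂ} {a b : ℝ} (ha : 0 < a) (hb : 0 < b)
    (h : M.Seg x ((a : ℂ) * W) y) (h' : M.Seg y ((b : ℂ) * W) z) :
    M.Seg x (((a + b : ℝ) : ℂ) * W) z := by
  obtain ⟨p, hp0, hp1, hp⟩ := h
  obtain ⟨q, hq0, hq1, hq⟩ := h'
  have hab : 0 < a + b := by linarith
  refine ⟨fun r => if r * (a + b) ≤ a then p (r * (a + b) / a) else q ((r * (a + b) - a) / b),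
    ?_, ?_, ?_⟩
  · simp only [zero_mul, zero_div]
    rw [if_pos ha.le, hp0]
  · simp only [one_mul]
    rw [if_neg (by linarith)]
    rw [show (a + b - a) / b = 1 by field_simp; ring, hq1]
  · intro s hs
    have hpm : ∀ r ∈ Icc (0 : ℝ) 1, r * (a + b) ≤ a → r * (a + b) / a ∈ Icc (0 : ℝ) 1 := by
      intro r hr h
      exact ⟨div_nonneg (mul_nonneg hr.1 hab.le) ha.le, by rw [div_le_one ha]; exact h⟩
    have hqm : ∀ r ∈ Icc (0 : ℝ) 1, a ≤ r * (a + b) → (r * (a + b) - a) / b ∈ Icc (0 : ℝ) 1 := by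
      intro r hr h
      refine ⟨div_nonneg (by linarith) hb.le, ?_⟩
      rw [div_le_one hb]
      nlinarith [hr.2]
    -- the local conditions of both parts in the new parameter
    have hP : s * (a + b) ≤ a → ∃ δ > 0, ∀ s' ∈ Icc (0 : ℝ) 1, |s' - s| < δ → s' * (a + b) ≤ a →
        p (s' * (a + b) / a) = M.add (p (s * (a + b) / a)) (((s' - s : ℝ) : ℂ) *
          (((a + b : ℝ) : ℂ) * W)) := by
      intro hsa
      obtain ⟨δ, hδ, h1⟩ := hp _ (hpm s hs hsa)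
      refine ⟨δ * a / (a + b), by positivity, ?_⟩
      intro s' hs' h2 h3
      have h4 : |s' * (a + b) / a - s * (a + b) / a| < δ := by
        have e : s' * (a + b) / a - s * (a + b) / a = (s' - s) * ((a + b) / a) := by ring
        rw [e, abs_mul, abs_of_pos (div_pos hab ha)]
        calc |s' - s| * ((a + b) / a) < δ * a / (a + b) * ((a + b) / a) :=
              mul_lt_mul_of_pos_right h2 (div_pos hab ha)
          _ = δ := by field_simp
      rw [h1 _ (hpm s' hs' h3) h4]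
      congr 1
      have ha' : (a : ℂ) ≠ 0 := by exact_mod_cast ha.ne'
      push_cast
      field_simp
    have hQ : a ≤ s * (a + b) → ∃ δ > 0, ∀ s' ∈ Icc (0 : ℝ) 1, |s' - s| < δ → a ≤ s' * (a + b) →
        q ((s' * (a + b) - a) / b) = M.add (q ((s * (a + b) - a) / b)) (((s' - s : ℝ) : ℂ) *
          (((a + b : ℝ) : ℂ) * W)) := by
      intro hsa
      obtain ⟨δ, hδ, h1⟩ := hq _ (hqm s hs hsa)
      refine ⟨δ * b / (a + b), by positivity, ?_⟩
      intro s' hs' h2 h3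
      have h4 : |(s' * (a + b) - a) / b - (s * (a + b) - a) / b| < δ := by
        have e : (s' * (a + b) - a) / b - (s * (a + b) - a) / b = (s' - s) * ((a + b) / b) := by
          ring
        rw [e, abs_mul, abs_of_pos (div_pos hab hb)]
        calc |s' - s| * ((a + b) / b) < δ * b / (a + b) * ((a + b) / b) :=
              mul_lt_mul_of_pos_right h2 (div_pos hab hb)
          _ = δ := by field_simp
      rw [h1 _ (hqm s' hs' h3) h4]
      congr 1
      have hb' : (b : ℂ) ≠ 0 := by exact_mod_cast hb.ne'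
      push_cast
      field_simp
      ring
    have hjoin : ∀ r : ℝ, r * (a + b) = a → p (r * (a + b) / a) = q ((r * (a + b) - a) / b) := by
      intro r hr
      rw [hr, div_self ha.ne', sub_self, zero_div, hp1, hq0]
    rcases lt_trichotomy (s * (a + b)) a with hlt | heq | hgt
    · obtain ⟨δ, hδ, h1⟩ := hP hlt.le
      refine ⟨min δ ((a - s * (a + b)) / (a + b)), lt_min hδ (div_pos (by linarith) hab), ?_⟩
      intro s' hs' h2
      have h3 : s' * (a + b) ≤ a := by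
        have h4 : s' - s < (a - s * (a + b)) / (a + b) :=
          (le_abs_self _).trans_lt (h2.trans_le (min_le_right _ _))
        rw [lt_div_iff₀ hab] at h4
        nlinarith
      simp only [if_pos h3, if_pos hlt.le]
      exact h1 s' hs' (h2.trans_le (min_le_left _ _)) h3
    · obtain ⟨δ, hδ, h1⟩ := hP heq.le
      obtain ⟨δ', hδ', h1'⟩ := hQ heq.ge
      refine ⟨min δ δ', lt_min hδ hδ', ?_⟩
      intro s' hs' h2
      by_cases h3 : s' * (a + b) ≤ a
      · simp only [if_pos h3, if_pos heq.le]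
        exact h1 s' hs' (h2.trans_le (min_le_left _ _)) h3
      · simp only [if_neg h3, if_pos heq.le]
        rw [hjoin s heq]
        exact h1' s' hs' (h2.trans_le (min_le_right _ _)) (not_le.1 h3).le
    · obtain ⟨δ, hδ, h1⟩ := hQ hgt.le
      refine ⟨min δ ((s * (a + b) - a) / (a + b)), lt_min hδ (div_pos (by linarith) hab), ?_⟩
      intro s' hs' h2
      have h3 : a < s' * (a + b) := by
        have h4 : s - s' < (s * (a + b) - a) / (a + b) := by
          rw [abs_sub_comm] at h2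
          exact (le_abs_self _).trans_lt (h2.trans_le (min_le_right _ _))
        rw [lt_div_iff₀ hab] at h4
        nlinarith
      simp only [if_neg (not_le.2 h3), if_neg (not_le.2 hgt)]
      exact h1 s' hs' (h2.trans_le (min_le_left _ _)) h3.le

private theorem h22_zero {x y : X} {W : ℂ} (h : M.Seg x (((0 : ℝ) : ℂ) * W) y) : y = x := by
  rw [Complex.ofReal_zero, zero_mul] at h
  exact seg_unique h (seg_refl x)

private theorem h22_plus {x y z : X} {W : ℂ} {a b : ℝ} (ha : 0 ≤ a) (hb : 0 ≤ b)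
    (h : M.Seg x ((a : ℂ) * W) y) (h' : M.Seg y ((b : ℂ) * W) z) :
    M.Seg x (((a + b : ℝ) : ℂ) * W) z := by
  rcases ha.eq_or_lt with rfl | ha
  · have := h22_zero h
    subst this
    rwa [zero_add]
  rcases hb.eq_or_lt with rfl | hb
  · have := h22_zero h'
    subst this
    rwa [_root_.add_zero]
  exact h22_concat ha hb h h'

/-- the point of a segment at a given parameter -/
private theorem h22_minus {x y z : X} {W : ℂ} {a b : ℝ} (hb : 0 ≤ b) (hab : b ≤ a)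
    (h : M.Seg x ((a : ℂ) * W) y) (h' : M.Seg y (((-b : ℝ) : ℂ) * W) z) :
    M.Seg x (((a - b : ℝ) : ℂ) * W) z := by
  rcases hb.eq_or_lt with rfl | hb
  · rw [neg_zero] at h'
    have := h22_zero h'
    subst this
    rwa [sub_zero]
  have ha : 0 < a := by linarith
  have ha' : (a : ℂ) ≠ 0 := by exact_mod_cast ha.ne'
  have hs : (a - b) / a ∈ Icc (0 : ℝ) 1 :=
    ⟨div_nonneg (by linarith) ha.le, by rw [div_le_one ha]; linarith⟩
  obtain ⟨w, h1, h2⟩ := seg_split h hs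
  have e1 : (((a - b) / a : ℝ) : ℂ) * ((a : ℂ) * W) = ((a - b : ℝ) : ℂ) * W := by
    push_cast
    field_simp
  have e2 : -(((1 - (a - b) / a : ℝ) : ℂ) * ((a : ℂ) * W)) = ((-b : ℝ) : ℂ) * W := by
    push_cast
    field_simp
    ring
  have h3 := seg_symm h2
  rw [e2] at h3
  rw [e1] at h1
  rwa [seg_unique h' h3]

private theorem h22_pm {x y z : X} {W : ℂ} {a b : ℝ} (ha : 0 ≤ a) (hb : 0 ≤ b)
    (h : M.Seg x ((a : ℂ) * W) y) (h' : M.Seg y (((-b : ℝ) : ℂ) * W) z) :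
    M.Seg x (((a - b : ℝ) : ℂ) * W) z := by
  rcases le_total b a with hab | hab
  · exact h22_minus hb hab h h'
  · have k1 := seg_symm h'
    have k2 := seg_symm h
    have e1 : -(((-b : ℝ) : ℂ) * W) = (b : ℂ) * W := by
      push_cast
      ring
    have e2 : -((a : ℂ) * W) = ((-a : ℝ) : ℂ) * W := by
      push_cast
      ring
    rw [e1] at k1
    rw [e2] at k2
    have k3 := seg_symm (h22_minus ha hab k1 k2)
    have e3 : -(((b - a : ℝ) : ℂ) * W) = ((a - b : ℝ) : ℂ) * W := by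
      push_cast
      ring
    rwa [e3] at k3

/-- concatenation on one line, `s` and `t` of arbitrary sign -/
theorem seg_line {x y z : X} {W : ℂ} {s t : ℝ} (h : M.Seg x ((s : ℂ) * W) y)
    (h' : M.Seg y ((t : ℂ) * W) z) : M.Seg x (((s + t : ℝ) : ℂ) * W) z := by
  rcases le_total 0 s with hs | hs
  · rcases le_total 0 t with ht | ht
    · exact h22_plus hs ht h h'
    · have e : ((t : ℂ)) * W = ((-(-t) : ℝ) : ℂ) * W := by
        push_cast
        ring
      rw [e] at h'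
      have := h22_pm hs (neg_nonneg.2 ht) h h'
      rwa [sub_neg_eq_add] at this
  · have e1 : ((s : ℂ)) * W = ((-s : ℝ) : ℂ) * (-W) := by
      push_cast
      ring
    rw [e1] at h
    have e3 : (((-s + -t : ℝ) : ℂ)) * (-W) = ((s + t : ℝ) : ℂ) * W := by
      push_cast
      ring
    rcases le_total 0 t with ht | ht
    · have e : ((t : ℂ)) * W = ((-t : ℝ) : ℂ) * (-W) := by
        push_cast
        ring
      rw [e] at h'
      have := h22_pm (neg_nonneg.2 hs) ht h h'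
      rw [sub_eq_add_neg, e3] at this
      exact this
    · have e : ((t : ℂ)) * W = ((-t : ℝ) : ℂ) * (-W) := by
        push_cast
        ring
      rw [e] at h'
      have := h22_plus (neg_nonneg.2 hs) (neg_nonneg.2 ht) h h'
      rw [e3] at this
      exact this

/-- all parts of a segment exist -/
theorem seg_part {x y : X} {W : ℂ} {t : ℝ} (h : M.Seg x ((t : ℂ) * W) y) {s : ℝ}
    (hs : s ∈ uIcc 0 t) : ∃ z, M.Seg x ((s : ℂ) * W) z ∧ M.Seg z (((t - s : ℝ) : ℂ) * W) y := by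
  rcases eq_or_ne t 0 with rfl | ht
  · rw [uIcc_self, mem_singleton_iff] at hs
    subst hs
    refine ⟨y, h, ?_⟩
    rw [sub_zero, Complex.ofReal_zero, zero_mul]
    exact seg_refl y
  · have hs' : s / t ∈ Icc (0 : ℝ) 1 := by
      rcases lt_or_gt_of_ne ht with ht | ht
      · rw [uIcc_of_ge ht.le] at hs
        exact ⟨div_nonneg_of_nonpos hs.2 ht.le, by rw [div_le_one_of_neg ht]; exact hs.1⟩
      · rw [uIcc_of_le ht.le] at hs
        exact ⟨div_nonneg hs.1 ht.le, by rw [div_le_one ht]; exact hs.2⟩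
    obtain ⟨z, h1, h2⟩ := seg_split h hs'
    have ht' : (t : ℂ) ≠ 0 := by exact_mod_cast ht
    refine ⟨z, ?_, ?_⟩
    · have e : ((s / t : ℝ) : ℂ) * ((t : ℂ) * W) = (s : ℂ) * W := by
        push_cast
        field_simp
      rwa [e] at h1
    · have e : ((1 - s / t : ℝ) : ℂ) * ((t : ℂ) * W) = ((t - s : ℝ) : ℂ) * W := by
        push_cast
        field_simp
      rwa [e] at h2

theorem seg_open {x y : X} {W : ℂ} (h : M.Seg x W y) : ∃ ε > 0, ε ≤ M.rad x ∧ ε ≤ M.rad y ∧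
    ∀ u w : ℂ, ‖u‖ < ε → ‖w‖ < ε → M.Seg (M.add x u) (W + w - u) (M.add y w) := by
  obtain ⟨p, ρ, hρ, h0, h1, hrad, -, hp⟩ := seg_path h
  have h0m : (0 : ℝ) ∈ Icc (0 : ℝ) 1 := ⟨le_rfl, zero_le_one⟩
  have h1m : (1 : ℝ) ∈ Icc (0 : ℝ) 1 := ⟨zero_le_one, le_rfl⟩
  have hx := hrad 0 h0m
  have hy := hrad 1 h1m
  rw [h0] at hx
  rw [h1] at hy
  refine ⟨ρ / 4, by linarith, by linarith, by linarith, ?_⟩
  intro u w hu hw
  refine ⟨fun s => M.add (p s) (u + (s : ℂ) * (w - u)), ?_, ?_, ?_⟩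
  · simp [h0]
  · simp [h1]
  intro s hs
  have hv : ∀ r ∈ Icc (0 : ℝ) 1, ‖u + (r : ℂ) * (w - u)‖ < ρ / 4 := by
    intro r hr
    have e : u + (r : ℂ) * (w - u) = ((1 - r : ℝ) : ℂ) * u + (r : ℂ) * w := by
      push_cast
      ring
    rw [e]
    have h2 : ‖((1 - r : ℝ) : ℂ) * u‖ = (1 - r) * ‖u‖ := by
      rw [norm_mul, Complex.norm_real, Real.norm_of_nonneg (by linarith [hr.2])]
    have h3 : ‖(r : ℂ) * w‖ = r * ‖w‖ := by
      rw [norm_mul, Complex.norm_real, Real.norm_of_nonneg hr.1]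
    have h4 := norm_add_le (((1 - r : ℝ) : ℂ) * u) ((r : ℂ) * w)
    rw [h2, h3] at h4
    have m0 : max ‖u‖ ‖w‖ < ρ / 4 := max_lt hu hw
    have m1 := mul_le_mul_of_nonneg_left (le_max_left ‖u‖ ‖w‖) (show 0 ≤ 1 - r by linarith [hr.2])
    have m2 := mul_le_mul_of_nonneg_left (le_max_right ‖u‖ ‖w‖) hr.1
    linarith
  have hD : 0 < ‖W‖ + ‖W + w - u‖ + 1 := by positivity
  refine ⟨ρ / 4 / (‖W‖ + ‖W + w - u‖ + 1), by positivity, ?_⟩
  intro s' hs' h2
  rw [lt_div_iff₀ hD] at h2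
  have n1 : |s' - s| * ‖W‖ < ρ / 4 := by
    nlinarith [mul_nonneg (abs_nonneg (s' - s)) (norm_nonneg (W + w - u)), abs_nonneg (s' - s)]
  have n2 : |s' - s| * ‖W + w - u‖ < ρ / 4 := by
    nlinarith [mul_nonneg (abs_nonneg (s' - s)) (norm_nonneg W), abs_nonneg (s' - s)]
  have hr := hrad s hs
  show M.add (p s') _ = M.add (M.add (p s) _) _
  rw [hp s hs s' hs' (by linarith), M.add_add, M.add_add]
  · congr 1
    push_cast
    ring
  · have h3 := hv s hs
    have h4 : ‖((s' - s : ℝ) : ℂ) * (W + w - u)‖ = |s' - s| * ‖W + w - u‖ := by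
      rw [norm_mul, Complex.norm_real, Real.norm_eq_abs]
    rw [h4]
    linarith
  · have h3 := hv s' hs'
    have h4 : ‖((s' - s : ℝ) : ℂ) * W‖ = |s' - s| * ‖W‖ := by
      rw [norm_mul, Complex.norm_real, Real.norm_eq_abs]
    rw [h4]
    linarith

/-- The shear lemma: if the segment with displacement `A + s B` from the point `s` of a segment
exists for all `s ∈ [0,1]`, its end points form a segment. -/
theorem seg_shear {x y x' y' : X} {W A B : ℂ} (h : M.Seg x W y)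
    (hal : ∀ s ∈ Icc (0 : ℝ) 1, ∀ z, M.Seg x ((s : ℂ) * W) z → ∃ z', M.Seg z (A + (s : ℂ) * B) z')
    (hx : M.Seg x A x') (hy : M.Seg y (A + B) y') : M.Seg x' (W + B) y' := by
  obtain ⟨p, ρ, hρ, h0, h1, hrad, hseg, hp⟩ := seg_path h
  have h0m : (0 : ℝ) ∈ Icc (0 : ℝ) 1 := ⟨le_rfl, zero_le_one⟩
  have h1m : (1 : ℝ) ∈ Icc (0 : ℝ) 1 := ⟨zero_le_one, le_rfl⟩
  have hZ : ∀ s : ℝ, ∃ z', s ∈ Icc (0 : ℝ) 1 → M.Seg (p s) (A + (s : ℂ) * B) z' := by
    intro s
    by_cases hs : s ∈ Icc (0 : ℝ) 1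
    · obtain ⟨z', hz'⟩ := hal s hs (p s) (hseg s hs)
      exact ⟨z', fun _ => hz'⟩
    · exact ⟨x, fun h => absurd h hs⟩
  choose Z hZ using hZ
  refine ⟨Z, ?_, ?_, ?_⟩
  · have h2 := hZ 0 h0m
    rw [h0, Complex.ofReal_zero, zero_mul, _root_.add_zero] at h2
    exact seg_unique h2 hx
  · have h2 := hZ 1 h1m
    rw [h1, Complex.ofReal_one, one_mul] at h2
    exact seg_unique h2 hy
  · intro s hs
    obtain ⟨ε, hε, -, -, hopen⟩ := seg_open (hZ s hs)
    have hD : 0 < ‖W‖ + ‖W + B‖ + 1 := by positivity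
    refine ⟨min ε ρ / (‖W‖ + ‖W + B‖ + 1), div_pos (lt_min hε hρ) hD, ?_⟩
    intro s' hs' h2
    rw [lt_div_iff₀ hD] at h2
    have m1 := min_le_left ε ρ
    have m2 := min_le_right ε ρ
    have n1 : |s' - s| * ‖W‖ < min ε ρ := by
      nlinarith [mul_nonneg (abs_nonneg (s' - s)) (norm_nonneg (W + B)), abs_nonneg (s' - s)]
    have n2 : |s' - s| * ‖W + B‖ < min ε ρ := by
      nlinarith [mul_nonneg (abs_nonneg (s' - s)) (norm_nonneg W), abs_nonneg (s' - s)]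
    have h3 := hp s hs s' hs' (by linarith)
    have h4 := hopen (((s' - s : ℝ) : ℂ) * W) (((s' - s : ℝ) : ℂ) * (W + B))
      (by rw [norm_mul, Complex.norm_real, Real.norm_eq_abs]; linarith)
      (by rw [norm_mul, Complex.norm_real, Real.norm_eq_abs]; linarith)
    rw [← h3] at h4
    have e : A + (s : ℂ) * B + ((s' - s : ℝ) : ℂ) * (W + B) - ((s' - s : ℝ) : ℂ) * W =
        A + (s' : ℂ) * B := by
      push_cast
      ring
    rw [e] at h4
    exact seg_unique (hZ s' hs') h4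

/-- The triangle lemma. -/
theorem seg_tri {x y y' : X} {A B : ℂ}
    (hal : ∀ s ∈ Icc (0 : ℝ) 1, ∃ z', M.Seg x (A + (s : ℂ) * B) z')
    (hx : M.Seg x A y) (hy : M.Seg x (A + B) y') : M.Seg y B y' := by
  have h := seg_shear (W := 0) (seg_refl x) (A := A) (B := B) (x' := y) (y' := y') (by
    intro s hs z hz
    rw [mul_zero] at hz
    rw [seg_unique hz (seg_refl x)]
    exact hal s hs) hx hy
  rwa [zero_add] at h

end Pool.Agent.Lib.H25D.TSurf
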