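import Pool.Agent.Lib.H25D.Leaf

/-!
# H25D, chunk A3: distances to the boundary of a strip
-/

open Set

namespace Pool.Agent.Lib.H25D.TSurf

variable {X : Type} {M : TSurf X} {θ : ℂ}

private theorem bdcast {x y : X} {W W' : ℂ} (h : M.Seg x W y) (e : W = W') : M.Seg x W' y := e ▸ h

private theorem bdnormal (hθ : ‖θ‖ = 1) (W : ℂ) :
    W = (((-cr W θ : ℝ)) : ℂ) * (Complex.I * θ) + ((W.re * θ.re + W.im * θ.im : ℝ) : ℂ) * θ := by
  have h1 : θ.re * θ.re + θ.im * θ.im = 1 := by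
    have h2 := Complex.normSq_eq_norm_sq θ
    rw [hθ, Complex.normSq_apply] at h2
    linarith
  apply Complex.ext
  · simp only [cr, Complex.add_re, Complex.mul_re, Complex.ofReal_re, Complex.ofReal_im,
      Complex.I_re, Complex.I_im, Complex.mul_im]
    linear_combination (-W.re) * h1
  · simp only [cr, Complex.add_im, Complex.mul_re, Complex.ofReal_re, Complex.ofReal_im,
      Complex.I_re, Complex.I_im, Complex.mul_im]
    linear_combination (-W.im) * h1

/-- all points of a half open family of full leaves -/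
private theorem bdhal {x : X} {W : ℂ} {s : ℝ}
    (h : ∀ r ∈ Icc (0 : ℝ) s, ∃ z, M.Seg x ((r : ℂ) * W) z ∧ M.Alive θ z) (hs : 0 ≤ s) :
    ∀ t ∈ Icc (0 : ℝ) 1, ∀ z, M.Seg x ((t : ℂ) * ((s : ℂ) * W)) z → M.Alive θ z := by
  intro t ht z hz
  obtain ⟨w, hw, hwa⟩ := h (t * s) ⟨mul_nonneg ht.1 hs, by nlinarith [ht.2]⟩
  have e : w = z := seg_unique hw (bdcast hz (by push_cast; ring))
  rw [← e]
  exact hwa

/-- The width of the strip, measured along any transversal segment. -/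
theorem bd_of_seg (hθ : ‖θ‖ = 1) {x : X} {W : ℂ} (hW : cr W θ ≠ 0) {s : ℝ} (hs : 0 < s)
    (h : ∀ r ∈ Ico (0 : ℝ) s, ∃ z, M.Seg x ((r : ℂ) * W) z ∧ M.Alive θ z)
    (h' : ¬ ∃ z, M.Seg x ((s : ℂ) * W) z ∧ M.Alive θ z) :
    M.Bd θ (if cr W θ < 0 then 1 else -1) x (|cr W θ| * s) := by
  have hn := bdnormal hθ W
  set α := W.re * θ.re + W.im * θ.im with hα
  set β := cr W θ with hβ
  have hη : (if β < 0 then (1 : ℝ) else -1) * |β| = -β := by
    split_ifs with h1
    · rw [abs_of_neg h1]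
      ring
    · rw [abs_of_nonneg (not_lt.1 h1)]
      ring
  have hpos : 0 < |β| := abs_pos.2 hW
  have key : ∀ r ∈ Ico (0 : ℝ) s, ∃ z, M.Seg x (((-β * r : ℝ) : ℂ) * (Complex.I * θ)) z ∧
      M.Alive θ z := by
    intro r hr
    obtain ⟨y, hy, -⟩ := h r hr
    have hal := bdhal (θ := θ) (x := x) (W := W) (s := r)
      (fun r' hr' => h r' ⟨hr'.1, lt_of_le_of_lt hr'.2 hr.2⟩) hr.1
    obtain ⟨z, hz, hza⟩ := seg_strip hy hal 1 (-(r * α)) ⟨zero_le_one, le_rfl⟩
    refine ⟨z, bdcast hz ?_, hza⟩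
    have hn' := congrArg (fun w => (r : ℂ) * w) hn
    push_cast
    push_cast at hn'
    linear_combination hn'
  refine ⟨mul_pos hpos hs, ?_, ?_⟩
  · intro u hu
    obtain ⟨z, hz, hza⟩ := key (u / |β|) ⟨div_nonneg hu.1 hpos.le, by
      rw [div_lt_iff₀ hpos, mul_comm]
      exact hu.2⟩
    refine ⟨z, bdcast hz ?_, hza⟩
    have e : -β * (u / |β|) = (if β < 0 then (1 : ℝ) else -1) * u := by
      rw [← hη]
      field_simp
    rw [e]
  · rintro ⟨z, hz, hza⟩
    have hz' : M.Seg x (((-β * s : ℝ) : ℂ) * (Complex.I * θ)) z := by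
      have e : (if β < 0 then (1 : ℝ) else -1) * (|β| * s) = -β * s := by
        rw [← mul_assoc, hη]
      rw [e] at hz
      exact hz
    have hall : ∀ r ∈ Icc (0 : ℝ) s, ∃ z, M.Seg x ((r : ℂ) * (((-β : ℝ) : ℂ) * (Complex.I * θ))) z ∧
        M.Alive θ z := by
      intro r hr
      rcases lt_or_eq_of_le hr.2 with h1 | h1
      · obtain ⟨w, hw, hwa⟩ := key r ⟨hr.1, h1⟩
        exact ⟨w, bdcast hw (by push_cast; ring), hwa⟩
      · rw [h1]
        exact ⟨z, bdcast hz' (by push_cast; ring), hza⟩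
    have hal := bdhal hall hs.le
    obtain ⟨w, hw, hwa⟩ := seg_strip (bdcast hz' (by push_cast; ring)) hal 1 (s * α)
      ⟨zero_le_one, le_rfl⟩
    refine h' ⟨w, bdcast hw ?_, hwa⟩
    have hn' := congrArg (fun w => (s : ℂ) * w) hn
    push_cast
    push_cast at hn'
    linear_combination -hn'

theorem bd_unique {η r r' : ℝ} {x : X} (h : M.Bd θ η x r) (h' : M.Bd θ η x r') : r = r' := by
  rcases lt_trichotomy r r' with h1 | h1 | h1
  · exact absurd (h'.2.1 r ⟨h.1.le, h1⟩) h.2.2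
  · exact h1
  · exact absurd (h.2.1 r' ⟨h'.1.le, h1⟩) h'.2.2

private theorem bdshift {x y : X} {W : ℂ} {t s : ℝ} (hs : 0 ≤ s)
    (h : M.Seg x ((t : ℂ) * θ) y)
    (hall : ∀ r ∈ Icc (0 : ℝ) s, ∃ z, M.Seg x ((r : ℂ) * W) z ∧ M.Alive θ z) :
    ∃ z, M.Seg y ((s : ℂ) * W) z ∧ M.Alive θ z := by
  obtain ⟨z, hz, hza⟩ := hall s ⟨hs, le_rfl⟩
  obtain ⟨z', hz'⟩ := hza t
  refine ⟨z', ?_, (alive_leaf hz').1 hza⟩
  have h1 := seg_shear_alive (a := t) (b := 0) hz (bdhal hall hs) h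
    (bdcast hz' (by push_cast; ring))
  exact bdcast h1 (by push_cast; ring)

theorem bd_leaf (hθ : ‖θ‖ = 1) {η r t : ℝ} (hη : η = 1 ∨ η = -1) {x y : X} (hx : M.Alive θ x)
    (h : M.Seg x ((t : ℂ) * θ) y) (hb : M.Bd θ η x r) : M.Bd θ η y r := by
  have hx' : M.Seg y (((-t : ℝ) : ℂ) * θ) x := bdcast (seg_symm h) (by push_cast; ring)
  have hxall : ∀ u ∈ Ico (0 : ℝ) r, ∃ z, M.Seg y ((u : ℂ) * ((η : ℂ) * (Complex.I * θ))) z ∧
      M.Alive θ z := by
    intro u hu
    refine bdshift hu.1 h fun r' hr' => ?_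
    obtain ⟨z, hz, hza⟩ := hb.2.1 r' ⟨hr'.1, lt_of_le_of_lt hr'.2 hu.2⟩
    exact ⟨z, bdcast hz (by push_cast; ring), hza⟩
  refine ⟨hb.1, ?_, ?_⟩
  · intro u hu
    obtain ⟨z, hz, hza⟩ := hxall u hu
    exact ⟨z, bdcast hz (by push_cast; ring), hza⟩
  · rintro ⟨z, hz, hza⟩
    apply hb.2.2
    obtain ⟨w, hw, hwa⟩ := bdshift (W := (η : ℂ) * (Complex.I * θ)) hb.1.le hx' fun r' hr' => by
      rcases lt_or_eq_of_le hr'.2 with h1 | h1
      · exact hxall r' ⟨hr'.1, h1⟩
      · rw [h1]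
        exact ⟨z, bdcast hz (by push_cast; ring), hza⟩
    exact ⟨w, bdcast hw (by push_cast; ring), hwa⟩

/-- The distance to the boundary of the strip changes by the transversal displacement. -/
theorem bd_move (hθ : ‖θ‖ = 1) {η r : ℝ} (hη : η = 1 ∨ η = -1) {x y : X} {W : ℂ}
    (h : M.Seg x W y)
    (hal : ∀ s ∈ Icc (0 : ℝ) 1, ∀ z, M.Seg x ((s : ℂ) * W) z → M.Alive θ z)
    (hb : M.Bd θ η x r) : M.Bd θ η y (r + η * cr W θ) := by
  have hn := bdnormal hθ W
  set α := W.re * θ.re + W.im * θ.im with hα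
  have hη2 : η * η = 1 := by
    rcases hη with h1 | h1 <;> rw [h1] <;> norm_num
  obtain ⟨β, hβ⟩ : ∃ β : ℝ, β = -cr W θ := ⟨_, rfl⟩
  have hcr : cr W θ = -β := by rw [hβ]; ring
  rw [← hβ] at hn
  -- the normal segment
  have hnor : ∀ s ∈ Icc (0 : ℝ) 1, ∃ z, M.Seg x (((β * s : ℝ) : ℂ) * (Complex.I * θ)) z ∧
      M.Alive θ z := by
    intro s hs
    obtain ⟨z, hz, hza⟩ := seg_strip h hal s (-(s * α)) hs
    refine ⟨z, bdcast hz ?_, hza⟩
    have hn' := congrArg (fun w => (s : ℂ) * w) hn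
    push_cast
    linear_combination hn'
  obtain ⟨yn, hyn, hyna⟩ := hnor 1 ⟨zero_le_one, le_rfl⟩
  have hyn' : M.Seg x ((β : ℂ) * (Complex.I * θ)) yn := bdcast hyn (by push_cast; ring)
  have hback : M.Seg yn (((-β : ℝ) : ℂ) * (Complex.I * θ)) x :=
    bdcast (seg_symm hyn') (by push_cast; ring)
  -- `y` is on the leaf of `yn`
  have hxa : M.Alive θ x := hal 0 ⟨le_rfl, zero_le_one⟩ x (bdcast (seg_refl x) (by push_cast; ring))
  have hya : M.Alive θ y := hal 1 ⟨zero_le_one, le_rfl⟩ y (bdcast h (by push_cast; ring))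
  have hyy : M.Seg y (((-α : ℝ) : ℂ) * θ) yn := by
    obtain ⟨y', hy'⟩ := hya (-α)
    have h1 := seg_shear_alive (a := 0) (b := -α) h hal (bdcast (seg_refl x) (by push_cast; ring))
      (bdcast hy' (by push_cast; ring))
    have h2 : y' = yn := seg_unique h1 (bdcast hyn' (by
      push_cast
      linear_combination -hn))
    rw [← h2]
    exact hy'
  have hleaf : M.Seg yn ((α : ℂ) * θ) y := bdcast (seg_symm hyy) (by push_cast; ring)
  -- positivity
  have hpos : 0 < r - η * β := by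
    by_contra hc
    push Not at hc
    have h1 : r ≤ η * β := by linarith
    have h2 : 0 < η * β := lt_of_lt_of_le hb.1 h1
    obtain ⟨z, hz, hza⟩ := hnor (r / (η * β)) ⟨div_nonneg hb.1.le h2.le, (div_le_one h2).2 h1⟩
    apply hb.2.2
    refine ⟨z, bdcast hz ?_, hza⟩
    have e : β * (r / (η * β)) = η * r := by
      have hβ0 : β ≠ 0 := by
        rintro rfl
        simp at h2
      have hη0 : η ≠ 0 := by
        rintro rfl
        simp at h2
      field_simp
      linear_combination (-r) * hη2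
    rw [e]
  rw [hcr]
  have e0 : r + η * -β = r - η * β := by ring
  rw [e0]
  refine bd_leaf hθ hη hyna hleaf ⟨hpos, ?_, ?_⟩
  · intro u hu
    have hp : ∃ z, M.Seg x (((β + η * u : ℝ) : ℂ) * (Complex.I * θ)) z ∧ M.Alive θ z := by
      by_cases h1 : 0 ≤ η * β + u
      · obtain ⟨z, hz, hza⟩ := hb.2.1 (η * β + u) ⟨h1, by linarith [hu.2]⟩
        refine ⟨z, bdcast hz ?_, hza⟩
        have e : η * (η * β + u) = β + η * u := by linear_combination β * hη2
        rw [e]
      · push Not at h1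
        have h2 : η * β < 0 := by linarith [hu.1]
        have hβ0 : η * β ≠ 0 := h2.ne
        obtain ⟨z, hz, hza⟩ := hnor ((η * β + u) / (η * β))
          ⟨div_nonneg_of_nonpos h1.le h2.le, (div_le_one_of_neg h2).2 (by linarith [hu.1])⟩
        refine ⟨z, bdcast hz ?_, hza⟩
        have e : β * ((η * β + u) / (η * β)) = β + η * u := by
          have hβ1 : β ≠ 0 := by
            rintro rfl
            simp at h2
          have hη0 : η ≠ 0 := by
            rintro rfl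
            simp at h2
          field_simp
          linear_combination (-u) * hη2
        rw [e]
    obtain ⟨z, hz, hza⟩ := hp
    exact ⟨z, bdcast (seg_line hback hz) (by push_cast; ring), hza⟩
  · rintro ⟨z, hz, hza⟩
    apply hb.2.2
    refine ⟨z, bdcast (seg_line hyn' hz) ?_, hza⟩
    have e : β + η * (r - η * β) = η * r := by linear_combination (-β) * hη2
    rw [e]

theorem free_leaf (hθ : ‖θ‖ = 1) {L : X → ℝ} (hC : M.Cyl θ L) {K : Submodule ℚ ℝ} {t : ℝ}
    {x y : X} (h : M.Seg x ((t : ℂ) * θ) y) : M.Free θ L K x ↔ M.Free θ L K y := by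
  have key : ∀ (t : ℝ) (x y : X), M.Seg x ((t : ℂ) * θ) y → M.Free θ L K x → M.Free θ L K y := by
    intro t x y h hx
    have hxa := hx.1
    have hya := (alive_leaf h).1 hxa
    have hL : L x = L y := by
      refine hC.const x _ y h fun s _ z hz => ?_
      have hz' : M.Seg x (((s * t : ℝ) : ℂ) * θ) z := bdcast hz (by push_cast; ring)
      exact (alive_leaf hz').1 hxa
    refine ⟨hya, fun η r hη hb => ?_⟩
    have hb' : M.Bd θ η x r := bd_leaf hθ hη hya (t := -t)
      (bdcast (seg_symm h) (by push_cast; ring)) hb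
    rw [← hL]
    exact hx.2 η r hη hb'
  exact ⟨key t x y h, key (-t) y x (bdcast (seg_symm h) (by push_cast; ring))⟩

end Pool.Agent.Lib.H25D.TSurf
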