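import Pool.Agent.Lib.H25D.Bdry

/-!
# H25D, chunk B3a: on a transversal segment only countably many points are not free
-/

open Set

namespace Pool.Agent.Lib.H25D.TSurf

variable {X : Type} {M : TSurf X} {θ : ℂ}

private theorem b3a_key (hθ : ‖θ‖ = 1) {L : X → ℝ} (hC : M.Cyl θ L) {x : X} {W : ℂ}
    (hW : cr W θ ≠ 0) {s s' : ℝ} (hs : s ∈ Icc (0 : ℝ) 1) (hs' : s' ∈ Icc (0 : ℝ) 1)
    (hlt : s < s') (hS : ∀ t ∈ Icc s s', t ∉ M.Sing θ x W) {z z' : X}
    (hz : M.Seg x ((s : ℂ) * W) z) (hz' : M.Seg x ((s' : ℂ) * W) z') {η r r' : ℝ}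
    (hη : η = 1 ∨ η = -1) (hb : M.Bd θ η z r) (hb' : M.Bd θ η z' r')
    (he : r / L z = r' / L z') : False := by
  have h1 : M.Seg z (((s' - s : ℝ) : ℂ) * W) z' := by
    obtain ⟨z₀, h0, h0'⟩ := seg_part hz' (s := s) (by
      rw [uIcc_of_le hs'.1]
      exact ⟨hs.1, hlt.le⟩)
    rw [seg_unique hz h0]
    exact h0'
  have hal : ∀ t ∈ Icc (0 : ℝ) 1, ∀ w, M.Seg z ((t : ℂ) * ((((s' - s : ℝ) : ℂ)) * W)) w →
      M.Alive θ w := by
    intro t ht w hw
    have h2 : M.Seg z (((t * (s' - s) : ℝ) : ℂ) * W) w := by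
      have : ((t * (s' - s) : ℝ) : ℂ) * W = (t : ℂ) * ((((s' - s : ℝ) : ℂ)) * W) := by
        push_cast
        ring
      rw [this]
      exact hw
    have h3 := seg_line hz h2
    have hpos : 0 ≤ t * (s' - s) := mul_nonneg ht.1 (by linarith)
    have hle : t * (s' - s) ≤ 1 * (s' - s) := mul_le_mul_of_nonneg_right ht.2 (by linarith)
    have h4 := hS (s + t * (s' - s)) ⟨by linarith, by linarith⟩
    rw [sing_iff h3, not_not] at h4
    exact h4
  have hcr : cr (((s' - s : ℝ) : ℂ) * W) θ = (s' - s) * cr W θ := by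
    simp only [cr, Complex.re_ofReal_mul, Complex.im_ofReal_mul]
    ring
  have h5 := bd_move hθ hη h1 hal hb
  have h6 := bd_unique hb' h5
  have h7 := hC.const _ _ _ h1 hal
  have hz0 : M.Alive θ z := by
    have h8 := hS s ⟨le_rfl, hlt.le⟩
    rw [sing_iff hz, not_not] at h8
    exact h8
  have h9 := hC.pos z hz0
  rw [← h7] at he
  have h10 : r = r' := by
    field_simp at he
    exact he
  rw [hcr] at h6
  have h11 : η * ((s' - s) * cr W θ) = 0 := by linarith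
  have h12 : s' - s ≠ 0 := by
    intro h
    linarith
  have h13 : η ≠ 0 := by
    rcases hη with h | h <;> rw [h] <;> norm_num
  exact (mul_ne_zero h13 (mul_ne_zero h12 hW)) h11

/-- On a transversal segment only countably many points are not free. -/
theorem countable_not_free (hθ : ‖θ‖ = 1) {L : X → ℝ} (hC : M.Cyl θ L) {K : Submodule ℚ ℝ}
    (hK : (K : Set ℝ).Countable) {x y : X} {W : ℂ} (h : M.Seg x W y) (hW : cr W θ ≠ 0) :
    {s : ℝ | s ∈ Icc (0 : ℝ) 1 ∧ ∃ z, M.Seg x ((s : ℂ) * W) z ∧ ¬ M.Free θ L K z}.Countable := by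
  have hfin := hC.fin x W y h hW
  set B : Set ℝ := {s : ℝ | s ∈ Icc (0 : ℝ) 1 ∧ ∃ z, M.Seg x ((s : ℂ) * W) z ∧
    ¬ M.Free θ L K z} with hB
  -- the data of a point that is not free and not singular
  have hdat : ∀ s : ℝ, ∃ p : ℝ × ℝ × X × ℝ, s ∈ B \ (M.Sing θ x W ∩ Icc 0 1) →
      M.Seg x ((s : ℂ) * W) p.2.2.1 ∧ (p.1 = 1 ∨ p.1 = -1) ∧ M.Bd θ p.1 p.2.2.1 p.2.1 ∧
      p.2.1 / L p.2.2.1 = p.2.2.2 ∧ p.2.2.2 ∈ K := by
    intro s
    by_cases hs : s ∈ B \ (M.Sing θ x W ∩ Icc 0 1)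
    · obtain ⟨⟨hs1, z, hz, hnf⟩, hs2⟩ := hs
      have hns : s ∉ M.Sing θ x W := fun h' => hs2 ⟨h', hs1⟩
      have hal : M.Alive θ z := by
        rw [sing_iff hz, not_not] at hns
        exact hns
      have hex : ∃ η r : ℝ, (η = 1 ∨ η = -1) ∧ M.Bd θ η z r ∧ r / L z ∈ K := by
        by_contra hcon
        push Not at hcon
        exact hnf ⟨hal, fun η r h1 h2 => hcon η r h1 h2⟩
      obtain ⟨η, r, h1, h2, h3⟩ := hex
      exact ⟨(η, r, z, r / L z), fun _ => ⟨hz, h1, h2, rfl, h3⟩⟩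
    · exact ⟨(0, 0, x, 0), fun h' => absurd h' hs⟩
  choose p hp using hdat
  have hcount : (B \ (M.Sing θ x W ∩ Icc 0 1)).Countable := by
    let F : ℝ → ℝ × ℝ × ℕ := fun s =>
      ((p s).1, (p s).2.2.2, ((M.Sing θ x W ∩ Icc 0 1) ∩ Iio s).ncard)
    have hmaps : MapsTo F (B \ (M.Sing θ x W ∩ Icc 0 1))
        (({1, -1} : Set ℝ) ×ˢ ((K : Set ℝ) ×ˢ (univ : Set ℕ))) := by
      intro s hs
      obtain ⟨h1, h2, h3, h4, h5⟩ := hp s hs
      refine ⟨?_, ?_, mem_univ _⟩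
      · rcases h2 with h | h
        · exact Or.inl h
        · exact Or.inr h
      · exact h5
    have hinj : InjOn F (B \ (M.Sing θ x W ∩ Icc 0 1)) := by
      -- one direction
      have hone : ∀ s ∈ B \ (M.Sing θ x W ∩ Icc 0 1), ∀ s' ∈ B \ (M.Sing θ x W ∩ Icc 0 1),
          s < s' → F s = F s' → False := by
        intro s hs s' hs' hlt hF
        obtain ⟨h1, h2, h3, h4, h5⟩ := hp s hs
        obtain ⟨h1', h2', h3', h4', h5'⟩ := hp s' hs'
        have e1 : (F s).1 = (F s').1 := by rw [hF]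
        have e2 : (F s).2.1 = (F s').2.1 := by rw [hF]
        have e3 : (F s).2.2 = (F s').2.2 := by rw [hF]
        change (p s).1 = (p s').1 at e1
        change (p s).2.2.2 = (p s').2.2.2 at e2
        change ((M.Sing θ x W ∩ Icc 0 1) ∩ Iio s).ncard =
          ((M.Sing θ x W ∩ Icc 0 1) ∩ Iio s').ncard at e3
        have hsub : ((M.Sing θ x W ∩ Icc 0 1) ∩ Iio s) ⊆ ((M.Sing θ x W ∩ Icc 0 1) ∩ Iio s') :=
          fun t ht => ⟨ht.1, lt_trans ht.2 hlt⟩
        have heq := Set.eq_of_subset_of_ncard_le hsub e3.ge (hfin.subset inter_subset_left)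
        have hno : ∀ t ∈ Icc s s', t ∉ M.Sing θ x W := by
          intro t ht hts
          have ht01 : t ∈ Icc (0 : ℝ) 1 := ⟨hs.1.1.1.trans ht.1, ht.2.trans hs'.1.1.2⟩
          rcases ht.2.lt_or_eq with h | h
          · have : t ∈ (M.Sing θ x W ∩ Icc 0 1) ∩ Iio s' := ⟨⟨hts, ht01⟩, h⟩
            rw [← heq] at this
            exact absurd ht.1 (not_le.mpr this.2)
          · exact hs'.2 (h ▸ ⟨hts, ht01⟩)
        refine b3a_key hθ hC hW hs.1.1 hs'.1.1 hlt hno h1 h1' (η := (p s).1) h2 h3 (e1 ▸ h3') ?_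
        rw [h4, h4', e2]
      intro s hs s' hs' hF
      rcases lt_trichotomy s s' with hlt | heq | hlt
      · exact (hone s hs s' hs' hlt hF).elim
      · exact heq
      · exact (hone s' hs' s hs hlt hF.symm).elim
    refine MapsTo.countable_of_injOn hmaps hinj ?_
    exact (Set.to_countable _).prod (hK.prod (Set.to_countable _))
  refine (hcount.union hfin.countable).mono ?_
  intro s hs
  by_cases hs' : s ∈ M.Sing θ x W ∩ Icc 0 1
  · exact Or.inr hs'
  · exact Or.inl ⟨hs, hs'⟩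

end Pool.Agent.Lib.H25D.TSurf
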