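import Mathlib

/-!
# H25D: translation surfaces as sets with a partial translation action

`MP_273810`: an open dense set of n-gons is illuminable. Abstract definitions (parts III and IV).
-/

open Set

namespace Pool.Agent.Lib.H25D

/-- the determinant (cross product) of two vectors of the plane -/
def cr (a b : ℂ) : ℝ := a.re * b.im - a.im * b.re

/-- A translation surface, given as a set `X` with the partially defined translation action
`x + u = add x u`, meaningful for `‖u‖ < rad x`. -/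
structure TSurf (X : Type) where
  rad : X → ℝ
  add : X → ℂ → X
  rad_pos : ∀ x, 0 < rad x
  add_zero : ∀ x, add x 0 = x
  rad_add : ∀ x u, ‖u‖ < rad x → rad x - ‖u‖ ≤ rad (add x u)
  add_add : ∀ x u w, ‖u‖ + ‖w‖ < rad x → add (add x u) w = add x (u + w)
  inj : ∀ x u w, ‖u‖ < rad x → ‖w‖ < rad x → add x u = add x w → u = w

namespace TSurf

variable {X : Type} (M : TSurf X)

/-- There is a straight segment with the displacement `W` from `x` to `y`. -/
def Seg (x : X) (W : ℂ) (y : X) : Prop :=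
  ∃ z : ℝ → X, z 0 = x ∧ z 1 = y ∧ ∀ s ∈ Icc (0 : ℝ) 1, ∃ δ > 0, ∀ s' ∈ Icc (0 : ℝ) 1,
    |s' - s| < δ → z s' = M.add (z s) (((s' - s : ℝ) : ℂ) * W)

/-- The full leaf of `x` in the direction `θ` exists (it meets no vertex). -/
def Alive (θ : ℂ) (x : X) : Prop := ∀ t : ℝ, ∃ y, M.Seg x ((t : ℂ) * θ) y

/-- The parameters `s` at which the segment from `x` with displacement `W` passes a point that is
not `Alive` in the direction `θ`. -/
def Sing (θ : ℂ) (x : X) (W : ℂ) : Set ℝ := {s | ∃ z, M.Seg x ((s : ℂ) * W) z ∧ ¬ M.Alive θ z}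

/-- Any two points are joined by a finite chain of segments. -/
def Conn : Prop := ∀ x y : X, Relation.ReflTransGen (fun a b => ∃ W, M.Seg a W b) x y

/-- All leaves in the direction `θ` are periodic with the period `L`, which is constant along the
strips; every transversal segment meets only finitely many leaves that end in a vertex. -/
structure Cyl (θ : ℂ) (L : X → ℝ) : Prop where
  pos : ∀ x, M.Alive θ x → 0 < L x
  per : ∀ x, M.Alive θ x → M.Seg x ((L x : ℂ) * θ) x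
  const : ∀ x W y, M.Seg x W y →
    (∀ s ∈ Icc (0 : ℝ) 1, ∀ z, M.Seg x ((s : ℂ) * W) z → M.Alive θ z) → L x = L y
  fin : ∀ x W y, M.Seg x W y → cr W θ ≠ 0 → (M.Sing θ x W ∩ Icc 0 1).Finite

/-- `r` is the distance from `x` to the boundary of its strip in the direction `θ`, on the side
`η * (I * θ)` (`η = 1` or `η = -1`, `θ` a unit vector). -/
def Bd (θ : ℂ) (η : ℝ) (x : X) (r : ℝ) : Prop :=
  0 < r ∧ (∀ u ∈ Ico (0 : ℝ) r, ∃ z, M.Seg x (((η * u : ℝ) : ℂ) * (Complex.I * θ)) z ∧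
    M.Alive θ z) ∧ ¬ ∃ z, M.Seg x (((η * r : ℝ) : ℂ) * (Complex.I * θ)) z ∧ M.Alive θ z

/-- `x` lies on a full leaf and its distances to the boundary of the strip, divided by the period,
are not in `K`. -/
def Free (θ : ℂ) (L : X → ℝ) (K : Submodule ℚ ℝ) (x : X) : Prop :=
  M.Alive θ x ∧ ∀ η r : ℝ, (η = 1 ∨ η = -1) → M.Bd θ η x r → r / L x ∉ K

/-- `K` contains the ratios width / period of all strips in the direction `θ`. -/
def Ratios (θ : ℂ) (L : X → ℝ) (K : Submodule ℚ ℝ) : Prop :=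
  ∀ z r r', M.Alive θ z → M.Bd θ 1 z r → M.Bd θ (-1) z r' → (r + r') / L z ∈ K

/-- A half disc (without its centre): `k w` is the point of the surface at the displacement `w` from
the centre, `0 ≤ cr w h`. The centre may be a point of the surface or a vertex. -/
structure Germ where
  h : ℂ
  e : ℝ
  k : ℂ → X
  hh : h ≠ 0
  he : 0 < e
  seg : ∀ w w' : ℂ, 0 ≤ cr w h → 0 ≤ cr w' h → ‖w‖ < e → ‖w'‖ < e → (0 : ℂ) ∉ segment ℝ w w' →
    M.Seg (k w) (w' - w) (k w')

variable {M}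

/-- `x` sees the centre of the half disc `κ` along a straight segment with displacement `W`, which
arrives through the open half disc. -/
def Sees (M : TSurf X) (x : X) (W : ℂ) (κ : M.Germ) : Prop :=
  0 < cr (-W) κ.h ∧ ∃ s : ℝ, 0 < s ∧ s ≤ 1 ∧ s * ‖W‖ < κ.e ∧
    M.Seg x (((1 - s : ℝ) : ℂ) * W) (κ.k (-((s : ℂ) * W)))

/-- The ratio (distance from the centre of `κ` to the next leaf that ends in a vertex) / period is
in `K`, for the strip through which the last part of any segment arrives at the centre. -/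
def Ok (M : TSurf X) (θ : ℂ) (L : X → ℝ) (K : Submodule ℚ ℝ) (κ : M.Germ) : Prop :=
  ∀ x W (s : ℝ) z, M.Sees x W κ → cr W θ ≠ 0 → 0 < s → s < 1 → s ∈ M.Sing θ x W →
    (∀ r ∈ Ioo s 1, r ∉ M.Sing θ x W) → M.Seg x ((((s + 1) / 2 : ℝ) : ℂ) * W) z →
    |cr W θ| * (1 - s) / L z ∈ K

/-- The centre of `κ` is the point `y` of the surface. -/
def At (M : TSurf X) (κ : M.Germ) (y : X) : Prop := ∀ x W, M.Sees x W κ → M.Seg x W y

/-- The centre of `κ` is a vertex. -/
def Vert (M : TSurf X) (κ : M.Germ) : Prop := ∀ x W, M.Sees x W κ → ¬ ∃ y, M.Seg x W y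

/-! ## Data for part III -/

/-- The linear reflection that maps the unit vector `θ` to `-θ`. -/
noncomputable def rl (θ u : ℂ) : ℂ := -(θ ^ 2) * (starRingEnd ℂ) u

/-- `g` is an involution of the surface with the linear part `rl θ`. -/
structure Refl (M : TSurf X) (θ : ℂ) (g : X → X) : Prop where
  invol : ∀ x, g (g x) = x
  rad : ∀ x, M.rad (g x) = M.rad x
  add : ∀ x u, ‖u‖ < M.rad x → M.add (g x) (rl θ u) = g (M.add x u)

/-- The leaf of `x` in the direction `θ` passes a fixed point of `g` at the time `t`. -/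
def Hit (M : TSurf X) (θ : ℂ) (g : X → X) (x : X) (t : ℝ) : Prop :=
  ∃ z, M.Seg x ((t : ℂ) * θ) z ∧ g z = z

/-- The leaf of `x` in the direction `θ` meets a vertex not later than at the time `t`
(`t` positive or negative). -/
def Dead (M : TSurf X) (θ : ℂ) (x : X) (t : ℝ) : Prop := ¬ ∃ y, M.Seg x ((t : ℂ) * θ) y

/-- The assumptions of part III. -/
structure Inputs (M : TSurf X) (θ : ℂ) (g : X → X) : Prop where
  norm : ‖θ‖ = 1
  refl : M.Refl θ g
  conn : M.Conn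
  cpt : ∀ ε > 0, ∀ x : ℕ → X, (∀ n, ε ≤ M.rad (x n)) → ∀ ε' > 0, ∃ m m' : ℕ, m < m' ∧
    ∃ u, ‖u‖ < ε' ∧ x m' = M.add (x m) u
  recur : ∃ ε > 0, ∃ C : ℝ, 0 < C ∧ ∀ x, ¬ M.Dead θ x C → ∃ t ∈ Icc 0 C, ∃ y,
    M.Seg x ((t : ℂ) * θ) y ∧ ε ≤ M.rad y
  arcs : ∃ (J : Type) (_ : Finite J) (_ : Nonempty J) (l : J → ℝ) (η : J → ℝ) (c : J → ℝ → X),
    (∀ j, 0 < l j) ∧ (∀ j, η j = 1 ∨ η j = -1) ∧ (∀ j, ∀ s ∈ Ioo 0 (l j), g (c j s) = c j s) ∧
    (∀ j, ∀ s ∈ Ioo 0 (l j), ∀ s' ∈ Ioo 0 (l j),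
      M.Seg (c j s) (((η j * (s' - s) : ℝ) : ℂ) * (Complex.I * θ)) (c j s')) ∧
    (∀ x, g x = x → ∃ j, ∃ s ∈ Ioo 0 (l j), x = c j s)
  ends : ∃ (E : Type) (_ : Finite E) (r : E → ℝ) (σ : E → ℝ → X), (∀ e, 0 < r e) ∧
    (∀ e, ∀ t ∈ Ioo 0 (r e), ∀ t' ∈ Ioc 0 t,
      M.Seg (σ e t) (((t - t' : ℝ) : ℂ) * θ) (σ e t')) ∧
    (∀ e, ∀ t ∈ Ioo 0 (r e), M.Dead θ (σ e t) t) ∧
    (∀ x T, 0 < T → M.Dead θ x T → ∃ e, ∃ t ∈ Ioo 0 (r e), ∃ s, 0 ≤ s ∧ s < T ∧
      M.Seg x ((s : ℂ) * θ) (σ e t))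
  star : ∀ x T T', 0 < T → 0 < T' → M.Dead θ x T → M.Dead θ x (-T') →
    ∃ t : ℝ, -T' < t ∧ t < T ∧ M.Hit θ g x t

end TSurf

end Pool.Agent.Lib.H25D
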