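import Pool.Agent.Lib.H25D.Indep3

/-!
# H25D, chunk B4b: linear algebra
-/

open Set

namespace Pool.Agent.Lib.H25D

private theorem nd_aux (F : Subfield ℝ) (q : ℂ) (hq : Indep3 F q) (θ : Fin 3 → ℂ)
    (hθF : ∀ k, (θ k).re ∈ F ∧ (θ k).im ∈ F) (hθ : ∀ k l, k ≠ l → cr (θ k) (θ l) ≠ 0) (y : ℂ)
    (h : ∀ k, ∃ l e : ℝ, l ∈ F ∧ e ∈ F ∧ l ≠ 0 ∧ cr y (θ k) = l * cr q (θ k) + e) :
    ∃ l a b : ℝ, l ∈ F ∧ a ∈ F ∧ b ∈ F ∧ l ≠ 0 ∧ y.re = l * q.re + a ∧ y.im = l * q.im + b := by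
  obtain ⟨l0, e0, hl0, he0, hn0, h0⟩ := h 0
  obtain ⟨l1, e1, hl1, he1, hn1, h1⟩ := h 1
  obtain ⟨l2, e2, hl2, he2, hn2, h2⟩ := h 2
  have d01 : cr (θ 0) (θ 1) ≠ 0 := hθ 0 1 (by decide)
  have d02 : cr (θ 0) (θ 2) ≠ 0 := hθ 0 2 (by decide)
  have d12 : cr (θ 1) (θ 2) ≠ 0 := hθ 1 2 (by decide)
  obtain ⟨f0, g0⟩ := hθF 0
  obtain ⟨f1, g1⟩ := hθF 1
  obtain ⟨f2, g2⟩ := hθF 2
  have m01 : cr (θ 0) (θ 1) ∈ F := F.sub_mem (F.mul_mem f0 g1) (F.mul_mem g0 f1)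
  have m02 : cr (θ 0) (θ 2) ∈ F := F.sub_mem (F.mul_mem f0 g2) (F.mul_mem g0 f2)
  have m12 : cr (θ 1) (θ 2) ∈ F := F.sub_mem (F.mul_mem f1 g2) (F.mul_mem g1 f2)
  set D01 := cr (θ 0) (θ 1) with hD01
  set D02 := cr (θ 0) (θ 2) with hD02
  set D12 := cr (θ 1) (θ 2) with hD12
  have key := hq (D01 * e2 - D02 * e1 + D12 * e0)
    (D02 * (l2 - l1) * (θ 1).im + D12 * (l0 - l2) * (θ 0).im)
    (-(D02 * (l2 - l1) * (θ 1).re + D12 * (l0 - l2) * (θ 0).re))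
    (F.add_mem (F.sub_mem (F.mul_mem m01 he2) (F.mul_mem m02 he1)) (F.mul_mem m12 he0))
    (F.add_mem (F.mul_mem (F.mul_mem m02 (F.sub_mem hl2 hl1)) g1)
      (F.mul_mem (F.mul_mem m12 (F.sub_mem hl0 hl2)) g0))
    (F.neg_mem (F.add_mem (F.mul_mem (F.mul_mem m02 (F.sub_mem hl2 hl1)) f1)
      (F.mul_mem (F.mul_mem m12 (F.sub_mem hl0 hl2)) f0)))
    (by
      rw [hD01, hD02, hD12]
      simp only [cr] at h0 h1 h2 ⊢
      linear_combination (-((θ 0).re * (θ 1).im - (θ 0).im * (θ 1).re)) * h2 +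
        ((θ 0).re * (θ 2).im - (θ 0).im * (θ 2).re) * h1 -
        ((θ 1).re * (θ 2).im - (θ 1).im * (θ 2).re) * h0)
  obtain ⟨-, hb, hc⟩ := key
  have e21 : l2 = l1 := by
    have h3 : D02 * (l2 - l1) * D01 = 0 := by
      have : D01 = (θ 0).re * (θ 1).im - (θ 0).im * (θ 1).re := rfl
      rw [this]
      linear_combination (θ 0).re * hb + (θ 0).im * hc
    rcases mul_eq_zero.1 h3 with h4 | h4
    · rcases mul_eq_zero.1 h4 with h5 | h5
      · exact absurd h5 d02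
      · linarith
    · exact absurd h4 d01
  have e02 : l0 = l2 := by
    have h3 : D12 * (l0 - l2) * D01 = 0 := by
      have : D01 = (θ 0).re * (θ 1).im - (θ 0).im * (θ 1).re := rfl
      rw [this]
      linear_combination (-(θ 1).re) * hb - (θ 1).im * hc
    rcases mul_eq_zero.1 h3 with h4 | h4
    · rcases mul_eq_zero.1 h4 with h5 | h5
      · exact absurd h5 d12
      · linarith
    · exact absurd h4 d01
  have e01 : l1 = l0 := by linarith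
  refine ⟨l0, (e1 * (θ 0).re - e0 * (θ 1).re) / D01, (e1 * (θ 0).im - e0 * (θ 1).im) / D01, hl0,
    F.div_mem (F.sub_mem (F.mul_mem he1 f0) (F.mul_mem he0 f1)) m01,
    F.div_mem (F.sub_mem (F.mul_mem he1 g0) (F.mul_mem he0 g1)) m01, hn0, ?_, ?_⟩
  · rw [← sub_eq_iff_eq_add', eq_div_iff d01, hD01]
    rw [e01] at h1
    simp only [cr] at h0 h1 ⊢
    linear_combination (θ 0).re * h1 - (θ 1).re * h0
  · rw [← sub_eq_iff_eq_add', eq_div_iff d01, hD01]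
    rw [e01] at h1
    simp only [cr] at h0 h1 ⊢
    linear_combination (θ 0).im * h1 - (θ 1).im * h0

/-- chunk B4b: linear algebra -/
theorem no_dependence (F : Subfield ℝ) (q : ℂ) (hq : Indep3 F q) (θ : Fin 3 → ℂ)
    (hθF : ∀ k, (θ k).re ∈ F ∧ (θ k).im ∈ F) (hθ : ∀ k l, k ≠ l → cr (θ k) (θ l) ≠ 0)
    (G : ℂ →ₗ[ℝ] ℂ) (hGF : (G 1).re ∈ F ∧ (G 1).im ∈ F ∧ (G Complex.I).re ∈ F ∧
      (G Complex.I).im ∈ F) (hG : ∀ c : ℝ, ∃ z, G z ≠ (c : ℂ) * z) (y : ℂ)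
    (h : ∀ k, ∃ l e : ℝ, l ∈ F ∧ e ∈ F ∧ l ≠ 0 ∧ cr y (θ k) = l * cr q (θ k) + e)
    (h' : ∀ k, ∃ l e : ℝ, l ∈ F ∧ e ∈ F ∧ l ≠ 0 ∧ cr (G y) (θ k) = l * cr q (θ k) + e) :
    False := by
  obtain ⟨l, a, b, hl, ha, hb, hn, hy1, hy2⟩ := nd_aux F q hq θ hθF hθ y h
  obtain ⟨l', a', b', hl', ha', hb', hn', hz1, hz2⟩ := nd_aux F q hq θ hθF hθ (G y) h'
  obtain ⟨p1, p2, p3, p4⟩ := hGF
  have hexp : ∀ z : ℂ, G z = (z.re : ℂ) * G 1 + (z.im : ℂ) * G Complex.I := by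
    intro z
    have h1 : z = z.re • (1 : ℂ) + z.im • Complex.I := by
      apply Complex.ext <;> simp
    conv_lhs => rw [h1]
    rw [map_add, map_smul, map_smul]
    simp [Complex.real_smul]
  have hre : (G y).re = y.re * (G 1).re + y.im * (G Complex.I).re := by
    rw [hexp y]; simp
  have him : (G y).im = y.re * (G 1).im + y.im * (G Complex.I).im := by
    rw [hexp y]; simp
  have k1 := hq (a * (G 1).re + b * (G Complex.I).re - a') (l * (G 1).re - l')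
    (l * (G Complex.I).re)
    (F.sub_mem (F.add_mem (F.mul_mem ha p1) (F.mul_mem hb p3)) ha')
    (F.sub_mem (F.mul_mem hl p1) hl') (F.mul_mem hl p3) (by
      rw [hz1, hy1, hy2] at hre
      linear_combination -hre)
  have k2 := hq (a * (G 1).im + b * (G Complex.I).im - b') (l * (G 1).im)
    (l * (G Complex.I).im - l')
    (F.sub_mem (F.add_mem (F.mul_mem ha p2) (F.mul_mem hb p4)) hb')
    (F.mul_mem hl p2) (F.sub_mem (F.mul_mem hl p4) hl') (by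
      rw [hz2, hy1, hy2] at him
      linear_combination -him)
  obtain ⟨-, k3, k4⟩ := k1
  obtain ⟨-, k5, k6⟩ := k2
  have q1 : (G 1).re = l' / l := by rw [eq_div_iff hn]; linarith
  have q2 : (G Complex.I).re = 0 := by
    rcases mul_eq_zero.1 k4 with h1 | h1
    · exact absurd h1 hn
    · exact h1
  have q3 : (G 1).im = 0 := by
    rcases mul_eq_zero.1 k5 with h1 | h1
    · exact absurd h1 hn
    · exact h1
  have q4 : (G Complex.I).im = l' / l := by rw [eq_div_iff hn]; linarith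
  obtain ⟨z, hz⟩ := hG (l' / l)
  apply hz
  rw [hexp z]
  apply Complex.ext
  · simp only [Complex.add_re, Complex.mul_re, Complex.ofReal_re, Complex.ofReal_im, q1, q2, q3, q4]
    ring
  · simp only [Complex.add_im, Complex.mul_im, Complex.ofReal_re, Complex.ofReal_im, q1, q2, q3, q4]
    ring

end Pool.Agent.Lib.H25D
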