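import Pool.Agent.Lib.H25D.UArg
import Pool.Agent.Lib.H25D.NoDep

/-!
# H25D, chunk B5: generic points see every centre (result of part IV)
-/

open Set

namespace Pool.Agent.Lib.H25D

namespace TSurf

variable {X : Type} {M : TSurf X}

/-- a position function and a countable dense set of points -/
structure Pos (M : TSurf X) (θ : Fin 3 → ℂ) (pos : X → ℂ) (Q : Set X) : Prop where
  countable : Q.Countable
  near : ∀ x, ∀ ε > 0, ∃ x₀ ∈ Q, ∃ u : ℂ, ‖u‖ < ε ∧ ‖u‖ < M.rad x ∧ x₀ = M.add x u ∧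
    pos x₀ = pos x + u ∧ ∀ k, cr u (θ k) ≠ 0

private theorem b5_alive_of_per {θ : ℂ} {x : X} {l : ℝ} (hl : 0 < l)
    (h : M.Seg x ((l : ℂ) * θ) x) : M.Alive θ x := by
  intro t
  obtain ⟨k, hk⟩ : ∃ k : ℤ, t ∈ uIcc (0 : ℝ) (k * l) := by
    rcases le_total 0 t with ht | ht
    · refine ⟨⌈t / l⌉, ?_⟩
      have h1 : t / l ≤ (⌈t / l⌉ : ℝ) := Int.le_ceil _
      rw [div_le_iff₀ hl] at h1
      exact mem_uIcc_of_le ht h1
    · refine ⟨⌊t / l⌋, ?_⟩
      have h1 : (⌊t / l⌋ : ℝ) ≤ t / l := Int.floor_le _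
      rw [le_div_iff₀ hl] at h1
      exact mem_uIcc_of_ge h1 ht
  obtain ⟨z, hz, _⟩ := seg_part (per_int h k) hk
  exact ⟨z, hz⟩

private theorem b5_alive_open {θ : ℂ} {L : X → ℝ} (hC : M.Cyl θ L) {x : X} (hx : M.Alive θ x) :
    ∃ ε > 0, ε ≤ M.rad x ∧ ∀ u : ℂ, ‖u‖ < ε → M.Alive θ (M.add x u) := by
  obtain ⟨ε, hε, h1, _, h2⟩ := seg_open (hC.per x hx)
  refine ⟨ε, hε, h1, fun u hu => b5_alive_of_per (hC.pos x hx) ?_⟩
  have h3 := h2 u u hu hu
  rwa [add_sub_cancel_right] at h3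

private theorem b5_point {x z : X} {u : ℂ} (hu : ‖u‖ < M.rad x) {s : ℝ} (hs : s ∈ Icc (0 : ℝ) 1)
    (h : M.Seg x ((s : ℂ) * u) z) : z = M.add x ((s : ℂ) * u) := by
  have h1 : ‖(s : ℂ) * u‖ < M.rad x := by
    rw [norm_mul, Complex.norm_real, Real.norm_eq_abs, abs_of_nonneg hs.1]
    have h2 : s * ‖u‖ ≤ 1 * ‖u‖ := mul_le_mul_of_nonneg_right hs.2 (norm_nonneg u)
    linarith
  exact seg_unique h (seg_add h1)

/-- points near `x` off the leaf of `x` lie on full leaves -/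
private theorem b5_near_alive {θ : ℂ} (hθ : ‖θ‖ = 1) {L : X → ℝ} (hC : M.Cyl θ L) (x : X) :
    ∃ ε > 0, ε ≤ M.rad x ∧ ∀ u : ℂ, ‖u‖ < ε → cr u θ ≠ 0 → M.Alive θ (M.add x u) := by
  have hrad := M.rad_pos x
  have hn2 : θ.re ^ 2 + θ.im ^ 2 = 1 := by
    have h1 := Complex.sq_norm θ
    rw [hθ, Complex.normSq_apply] at h1
    nlinarith
  -- one side
  have side : ∀ η : ℝ, (η = 1 ∨ η = -1) → ∃ ε > 0, ∀ a : ℝ, 0 < a → a < ε →
      M.Alive θ (M.add x (((η * a : ℝ) : ℂ) * (Complex.I * θ))) := by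
    intro η hη
    set W : ℂ := ((η * (M.rad x / 2) : ℝ) : ℂ) * (Complex.I * θ) with hW
    have hη2 : |η| = 1 := by
      rcases hη with h | h <;> rw [h] <;> simp
    have hWn : ‖W‖ = M.rad x / 2 := by
      rw [hW, norm_mul, Complex.norm_real, Real.norm_eq_abs, abs_mul, hη2, norm_mul,
        Complex.norm_I, hθ, abs_of_pos (by linarith)]
      ring
    have hWr : ‖W‖ < M.rad x := by rw [hWn]; linarith
    have hcr : cr W θ ≠ 0 := by
      have e : cr W θ = -(η * (M.rad x / 2)) * (θ.re ^ 2 + θ.im ^ 2) := by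
        rw [hW]
        simp only [cr, Complex.mul_re, Complex.mul_im, Complex.I_re, Complex.I_im,
          Complex.ofReal_re, Complex.ofReal_im]
        ring
      rw [e, hn2, mul_one]
      rcases hη with h | h <;> rw [h] <;> intro h0 <;> linarith
    have hfin := hC.fin x W _ (seg_add hWr) hcr
    obtain ⟨ε, hε, h1⟩ : ∃ ε > 0, ∀ s : ℝ, 0 < s → s < ε → s ∉ M.Sing θ x W ∩ Icc 0 1 := by
      have h2 : ∀ᶠ s : ℝ in nhdsWithin 0 (Ioi 0), s ∉ M.Sing θ x W ∩ Icc 0 1 := by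
        have h3 : ((M.Sing θ x W ∩ Icc 0 1) \ {0}).Finite := hfin.subset sdiff_subset
        have h4 : ∀ᶠ s : ℝ in nhds 0, s ∈ ((M.Sing θ x W ∩ Icc 0 1) \ {0})ᶜ := by
          apply h3.isClosed.isOpen_compl.mem_nhds
          simp
        filter_upwards [h4.filter_mono nhdsWithin_le_nhds, self_mem_nhdsWithin] with s hs hs0 hmem
        have hs0' : (0 : ℝ) < s := hs0
        exact hs ⟨hmem, by simpa using hs0'.ne'⟩
      rw [eventually_nhdsWithin_iff, Metric.eventually_nhds_iff] at h2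
      obtain ⟨ε, hε, h3⟩ := h2
      refine ⟨ε, hε, fun s hs0 hs1 => h3 ?_ hs0⟩
      rw [Real.dist_eq, sub_zero, abs_of_pos hs0]
      exact hs1
    refine ⟨min ε 1 * (M.rad x / 2), by positivity, fun a ha0 ha1 => ?_⟩
    set s : ℝ := a / (M.rad x / 2) with hs
    have hs0 : 0 < s := by positivity
    have hs1 : s < min ε 1 := by
      rw [hs, div_lt_iff₀ (by linarith)]
      exact ha1
    have hsε : s < ε := hs1.trans_le (min_le_left _ _)
    have hs1' : s < 1 := hs1.trans_le (min_le_right _ _)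
    have e : ((η * a : ℝ) : ℂ) * (Complex.I * θ) = (s : ℂ) * W := by
      have e1 : η * a = s * (η * (M.rad x / 2)) := by
        rw [hs]; field_simp
      rw [hW, e1]
      push_cast
      ring
    rw [e]
    have hsn : ‖(s : ℂ) * W‖ < M.rad x := by
      rw [norm_mul, Complex.norm_real, Real.norm_eq_abs, abs_of_pos hs0]
      have : s * ‖W‖ ≤ 1 * ‖W‖ := mul_le_mul_of_nonneg_right hs1'.le (norm_nonneg _)
      linarith
    by_contra hcon
    exact h1 s hs0 hsε ⟨⟨_, seg_add hsn, hcon⟩, hs0.le, hs1'.le⟩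
  obtain ⟨ε₁, h₁, k₁⟩ := side 1 (Or.inl rfl)
  obtain ⟨ε₂, h₂, k₂⟩ := side (-1) (Or.inr rfl)
  refine ⟨min (min ε₁ ε₂) (M.rad x / 2), by positivity, (min_le_right _ _).trans (by linarith), ?_⟩
  intro u hu hcr
  -- decomposition
  set a : ℝ := - cr u θ with ha
  set b : ℝ := u.re * θ.re + u.im * θ.im with hb
  have hu1 : u = (a : ℂ) * (Complex.I * θ) + (b : ℂ) * θ := by
    apply Complex.ext
    · simp only [ha, hb, cr, Complex.add_re, Complex.mul_re, Complex.mul_im, Complex.I_re,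
        Complex.I_im, Complex.ofReal_re, Complex.ofReal_im]
      linear_combination -(u.re) * hn2
    · simp only [ha, hb, cr, Complex.add_im, Complex.mul_re, Complex.mul_im, Complex.I_re,
        Complex.I_im, Complex.ofReal_re, Complex.ofReal_im]
      linear_combination -(u.im) * hn2
  have hnorm : a ^ 2 + b ^ 2 = ‖u‖ ^ 2 := by
    rw [Complex.sq_norm, Complex.normSq_apply, ha, hb]
    simp only [cr]
    linear_combination (u.re ^ 2 + u.im ^ 2) * hn2
  have ha1 : |a| ≤ ‖u‖ := abs_le_of_sq_le_sq (by nlinarith [sq_nonneg b]) (norm_nonneg u)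
  have hb1 : |b| ≤ ‖u‖ := abs_le_of_sq_le_sq (by nlinarith [sq_nonneg a]) (norm_nonneg u)
  have hu2 : ‖u‖ < ε₁ := hu.trans_le ((min_le_left _ _).trans (min_le_left _ _))
  have hu3 : ‖u‖ < ε₂ := hu.trans_le ((min_le_left _ _).trans (min_le_right _ _))
  have hu4 : ‖u‖ < M.rad x / 2 := hu.trans_le (min_le_right _ _)
  have hna : ‖(a : ℂ) * (Complex.I * θ)‖ = |a| := by
    rw [norm_mul, norm_mul, Complex.norm_real, Complex.norm_I, hθ, Real.norm_eq_abs]; ring
  have hnb : ‖(b : ℂ) * θ‖ = |b| := by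
    rw [norm_mul, Complex.norm_real, hθ, Real.norm_eq_abs]; ring
  have halive : M.Alive θ (M.add x ((a : ℂ) * (Complex.I * θ))) := by
    have ha0 : a ≠ 0 := neg_ne_zero.2 hcr
    rcases lt_or_gt_of_ne ha0 with h | h
    · have h3 := k₂ (-a) (by linarith) (by rw [← abs_of_neg h]; linarith)
      have e : ((-1 * -a : ℝ) : ℂ) = (a : ℂ) := by push_cast; ring
      rwa [e] at h3
    · have h3 := k₁ a h (by rw [← abs_of_pos h]; linarith)
      have e : ((1 * a : ℝ) : ℂ) = (a : ℂ) := by push_cast; ring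
      rwa [e] at h3
  have hadd : M.add (M.add x ((a : ℂ) * (Complex.I * θ))) ((b : ℂ) * θ) = M.add x u := by
    rw [M.add_add x _ _ (by rw [hna, hnb]; linarith), ← hu1]
  have hrad2 : ‖(b : ℂ) * θ‖ < M.rad (M.add x ((a : ℂ) * (Complex.I * θ))) := by
    have h3 := M.rad_add x ((a : ℂ) * (Complex.I * θ)) (by rw [hna]; linarith)
    rw [hna] at h3
    rw [hnb]
    linarith
  have hseg := seg_add hrad2
  rw [hadd] at hseg
  exact (alive_leaf hseg).1 halive

/-- the field contains the data of the points of `Q` -/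
private structure B5Data (M : TSurf X) (θ : ℂ) (L : X → ℝ) (pos : X → ℂ) (Q : Set X)
    (F : Subfield ℝ) : Prop where
  norm : ‖θ‖ = 1
  cyl : M.Cyl θ L
  near : ∀ x, ∀ ε > 0, ∃ x₀ ∈ Q, ∃ u : ℂ, ‖u‖ < ε ∧ ‖u‖ < M.rad x ∧ x₀ = M.add x u ∧
    pos x₀ = pos x + u ∧ cr u θ ≠ 0
  re : θ.re ∈ F
  im : θ.im ∈ F
  posre : ∀ x ∈ Q, (pos x).re ∈ F
  posim : ∀ x ∈ Q, (pos x).im ∈ F
  per : ∀ x ∈ Q, L x ∈ F
  bd : ∀ x ∈ Q, ∀ η r : ℝ, (η = 1 ∨ η = -1) → M.Bd θ η x r → r ∈ F

private theorem B5Data.cr_mem {θ : ℂ} {L : X → ℝ} {pos : X → ℂ} {Q : Set X} {F : Subfield ℝ}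
    (h : B5Data M θ L pos Q F) {x : X} (hx : x ∈ Q) : cr (pos x) θ ∈ F :=
  F.sub_mem (F.mul_mem (h.posre x hx) h.im) (F.mul_mem (h.posim x hx) h.re)

private theorem b5_cr_add (a b θ : ℂ) : cr (a + b) θ = cr a θ + cr b θ := by
  simp only [cr, Complex.add_re, Complex.add_im]; ring

/-- a point of `Q` in the same strip -/
private theorem B5Data.strip {θ : ℂ} {L : X → ℝ} {pos : X → ℂ} {Q : Set X} {F : Subfield ℝ}
    (h : B5Data M θ L pos Q F) {x : X} (hx : M.Alive θ x) :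
    ∃ x₀ ∈ Q, ∃ u : ℂ, M.Seg x u x₀ ∧ pos x₀ = pos x + u ∧ L x = L x₀ ∧
      ∀ s ∈ Icc (0 : ℝ) 1, ∀ z, M.Seg x ((s : ℂ) * u) z → M.Alive θ z := by
  obtain ⟨ε, hε, hεr, h1⟩ := b5_alive_open h.cyl hx
  obtain ⟨x₀, hx₀, u, hu, hur, he, hp, _⟩ := h.near x ε hε
  have hal : ∀ s ∈ Icc (0 : ℝ) 1, ∀ z, M.Seg x ((s : ℂ) * u) z → M.Alive θ z := by
    intro s hs z hz
    rw [b5_point hur hs hz]
    apply h1
    rw [norm_mul, Complex.norm_real, Real.norm_eq_abs, abs_of_nonneg hs.1]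
    have h2 : s * ‖u‖ ≤ 1 * ‖u‖ := mul_le_mul_of_nonneg_right hs.2 (norm_nonneg u)
    linarith
  have hseg : M.Seg x u x₀ := by
    rw [he]
    exact seg_add hur
  exact ⟨x₀, hx₀, u, hseg, hp, h.cyl.const x u x₀ hseg hal, hal⟩

private theorem B5Data.per_mem {θ : ℂ} {L : X → ℝ} {pos : X → ℂ} {Q : Set X} {F : Subfield ℝ}
    (h : B5Data M θ L pos Q F) {x : X} (hx : M.Alive θ x) : L x ∈ F := by
  obtain ⟨x₀, hx₀, u, _, _, he, _⟩ := h.strip hx
  rw [he]
  exact h.per x₀ hx₀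

private theorem B5Data.bd_value {θ : ℂ} {L : X → ℝ} {pos : X → ℂ} {Q : Set X} {F : Subfield ℝ}
    (h : B5Data M θ L pos Q F) {x : X} (hx : M.Alive θ x) {η r : ℝ} (hη : η = 1 ∨ η = -1)
    (hb : M.Bd θ η x r) : ∃ a ∈ F, r = a + η * cr (pos x) θ := by
  obtain ⟨x₀, hx₀, u, hseg, hp, _, hal⟩ := h.strip hx
  have h1 := bd_move h.norm hη hseg hal hb
  have h2 := h.bd x₀ hx₀ η _ hη h1
  have hηF : η ∈ F := by
    rcases hη with h3 | h3 <;> rw [h3]
    · exact F.one_mem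
    · exact F.neg_mem F.one_mem
  refine ⟨(r + η * cr u θ) - η * cr (pos x₀) θ, F.sub_mem h2 (F.mul_mem hηF (h.cr_mem hx₀)), ?_⟩
  rw [hp, b5_cr_add]
  ring

private theorem B5Data.dead_mem {θ : ℂ} {L : X → ℝ} {pos : X → ℂ} {Q : Set X} {F : Subfield ℝ}
    (h : B5Data M θ L pos Q F) {x : X} (hx : ¬ M.Alive θ x) : cr (pos x) θ ∈ F := by
  obtain ⟨ε, hε, hεr, h1⟩ := b5_near_alive h.norm h.cyl x
  obtain ⟨x₀, hx₀, u, hu, hur, he, hp, hcr⟩ := h.near x ε hε
  have hseg : M.Seg x u x₀ := by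
    rw [he]
    exact seg_add hur
  have hback := seg_symm hseg
  have hcr' : cr (-u) θ ≠ 0 := by
    have e : cr (-u) θ = - cr u θ := by
      simp only [cr, Complex.neg_re, Complex.neg_im]; ring
    rw [e]
    exact neg_ne_zero.2 hcr
  have hB := bd_of_seg (M := M) (x := x₀) (W := -u) (s := 1) h.norm hcr' one_pos ?_ ?_
  · have h2 := h.bd x₀ hx₀ _ _ (by split_ifs; exacts [Or.inl rfl, Or.inr rfl]) hB
    rw [mul_one] at h2
    have h3 : cr (-u) θ ∈ F := by
      rcases abs_choice (cr (-u) θ) with h4 | h4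
      · rwa [h4] at h2
      · rw [h4] at h2
        have h5 := F.neg_mem h2
        rwa [neg_neg] at h5
    have h4 : cr (pos x) θ = cr (pos x₀) θ + cr (-u) θ := by
      rw [hp]
      simp only [cr, Complex.add_re, Complex.add_im, Complex.neg_re, Complex.neg_im]
      ring
    rw [h4]
    exact F.add_mem (h.cr_mem hx₀) h3
  · intro r hr
    -- the point at the parameter `r` from `x₀` is `add x ((1 - r) u)`
    have hs : (1 - r) ∈ Icc (0 : ℝ) 1 := ⟨by linarith [hr.2], by linarith [hr.1]⟩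
    obtain ⟨z, hz1, hz2⟩ := seg_split hseg hs
    have hz3 := b5_point hur hs hz1
    refine ⟨z, ?_, ?_⟩
    · have h2 := seg_symm hz2
      have h3 : M.Seg x₀ (-u) x := hback
      obtain ⟨z', hz'1, hz'2⟩ := seg_split h3 (s := r) ⟨hr.1, hr.2.le⟩
      -- both are the same point
      have h4 : -((((1 - (1 - r) : ℝ) : ℂ)) * u) = (r : ℂ) * -u := by push_cast; ring
      rw [h4] at h2
      exact h2
    · rw [hz3]
      apply h1
      · rw [norm_mul, Complex.norm_real, Real.norm_eq_abs, abs_of_nonneg hs.1]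
        have h2 : (1 - r) * ‖u‖ ≤ 1 * ‖u‖ := mul_le_mul_of_nonneg_right hs.2 (norm_nonneg u)
        linarith
      · have e : cr (((1 - r : ℝ) : ℂ) * u) θ = (1 - r) * cr u θ := by
          simp only [cr, Complex.mul_re, Complex.mul_im, Complex.ofReal_re, Complex.ofReal_im]
          ring
        rw [e]
        have h9 : (0 : ℝ) < 1 - r := by linarith [hr.2]
        exact mul_ne_zero h9.ne' hcr
  · rintro ⟨z, hz1, hz2⟩
    have h2 : ((1 : ℝ) : ℂ) * -u = -u := by push_cast; ring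
    rw [h2] at hz1
    rw [seg_unique hz1 hback] at hz2
    exact hx hz2

/-- the field as a `ℚ`-submodule -/
private def b5K (F : Subfield ℝ) : Submodule ℚ ℝ where
  carrier := F
  add_mem' := fun ha hb => F.add_mem ha hb
  zero_mem' := F.zero_mem
  smul_mem' := fun c x hx => by
    rw [Rat.smul_def]
    exact F.mul_mem (SubfieldClass.ratCast_mem F c) hx

private theorem b5_mem_K {F : Subfield ℝ} {x : ℝ} : x ∈ b5K F ↔ x ∈ F := Iff.rfl

private theorem B5Data.ratios {θ : ℂ} {L : X → ℝ} {pos : X → ℂ} {Q : Set X} {F : Subfield ℝ}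
    (h : B5Data M θ L pos Q F) : M.Ratios θ L (b5K F) := by
  intro z r r' hz hb hb'
  obtain ⟨a, ha, h1⟩ := h.bd_value hz (Or.inl rfl) hb
  obtain ⟨a', ha', h2⟩ := h.bd_value hz (Or.inr rfl) hb'
  rw [b5_mem_K]
  have e : r + r' = a + a' := by rw [h1, h2]; ring
  rw [e]
  exact F.div_mem (F.add_mem ha ha') (h.per_mem hz)

private theorem b5_indep {θ : ℂ} {L : X → ℝ} {pos : X → ℂ} {Q : Set X} {F : Subfield ℝ}
    (h : B5Data M θ L pos Q F) {q : ℂ} (hq : Indep3 F q) : cr q θ ∉ F := by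
  intro h1
  obtain ⟨_, h2, h3⟩ := hq (-(cr q θ)) θ.im (-θ.re) (F.neg_mem h1) h.im (F.neg_mem h.re) (by
    simp only [cr]; ring)
  have h4 : θ = 0 := Complex.ext (by simpa using h3) (by simpa using h2)
  have h5 := h.norm
  rw [h4] at h5
  simp at h5

private theorem B5Data.alive_q {θ : ℂ} {L : X → ℝ} {pos : X → ℂ} {Q : Set X} {F : Subfield ℝ}
    (h : B5Data M θ L pos Q F) {q : X} (hq : Indep3 F (pos q)) : M.Alive θ q := by
  by_contra h1
  exact b5_indep h hq (h.dead_mem h1)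

private theorem B5Data.free_q {θ : ℂ} {L : X → ℝ} {pos : X → ℂ} {Q : Set X} {F : Subfield ℝ}
    (h : B5Data M θ L pos Q F) {q : X} (hq : Indep3 F (pos q)) : M.Free θ L (b5K F) q := by
  have hqa := h.alive_q hq
  have hqn := b5_indep h hq
  refine ⟨hqa, fun η r hη hb h1 => hqn ?_⟩
  obtain ⟨a, ha, h2⟩ := h.bd_value hqa hη hb
  rw [b5_mem_K] at h1
  have hL := h.cyl.pos q hqa
  have h3 : r ∈ F := by
    have h4 := F.mul_mem h1 (h.per_mem hqa)
    rwa [div_mul_cancel₀ _ hL.ne'] at h4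
  have h4 : η * cr (pos q) θ ∈ F := by
    have h5 := F.sub_mem h3 ha
    have e : r - a = η * cr (pos q) θ := by rw [h2]; ring
    rwa [e] at h5
  rcases hη with h5 | h5 <;> rw [h5] at h4
  · rwa [one_mul] at h4
  · have h6 := F.neg_mem h4
    have e : -(-1 * cr (pos q) θ) = cr (pos q) θ := by ring
    rwa [e] at h6

/-- the submodule for a target, and the alternative free or dependent -/
private theorem B5Data.target {θ : ℂ} {L : X → ℝ} {pos : X → ℂ} {Q : Set X} {F : Subfield ℝ}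
    (h : B5Data M θ L pos Q F) (hFc : (F : Set ℝ).Countable) {q : X} (hq : Indep3 F (pos q))
    {κ : M.Germ} {y : X} (hκ : M.At κ y) :
    ∃ K : Submodule ℚ ℝ, (K : Set ℝ).Countable ∧ M.Ratios θ L K ∧ M.Ok θ L K κ ∧
      (M.Free θ L K q ∨ ∃ l e : ℝ, l ∈ F ∧ e ∈ F ∧ l ≠ 0 ∧
        cr (pos y) θ = l * cr (pos q) θ + e) := by
  have hqa := h.alive_q hq
  have hqn := b5_indep h hq
  have hfree := h.free_q hq
  by_cases hy : M.Alive θ y
  · by_cases hB : ∃ η₀ r₀ : ℝ, (η₀ = 1 ∨ η₀ = -1) ∧ M.Bd θ η₀ y r₀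
    · obtain ⟨η₀, r₀, hη₀, hB₀⟩ := hB
      set ρ : ℝ := r₀ / L y with hρ
      set K : Submodule ℚ ℝ := b5K F ⊔ Submodule.span ℚ {ρ} with hK
      have hle : b5K F ≤ K := le_sup_left
      have hρK : ρ ∈ K := Submodule.mem_sup_right (Submodule.mem_span_singleton_self ρ)
      have hKmem : ∀ x ∈ K, ∃ f ∈ F, ∃ c : ℚ, x = f + c * ρ := by
        intro x hx
        obtain ⟨f, hf, g, hg, h1⟩ := Submodule.mem_sup.1 hx
        obtain ⟨c, hc⟩ := Submodule.mem_span_singleton.1 hg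
        refine ⟨f, hf, c, ?_⟩
        rw [← h1, ← hc, Rat.smul_def]
      have hcount : (K : Set ℝ).Countable := by
        have h1 : (K : Set ℝ) ⊆ (fun p : ℝ × ℚ => p.1 + p.2 * ρ) '' ((F : Set ℝ) ×ˢ univ) := by
          intro x hx
          obtain ⟨f, hf, c, hc⟩ := hKmem x hx
          exact ⟨(f, c), ⟨hf, mem_univ _⟩, hc.symm⟩
        exact ((hFc.prod (countable_univ)).image _).mono h1
      have hR : M.Ratios θ L K := fun z r r' hz hb hb' => hle (h.ratios z r r' hz hb hb')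
      have hOk : M.Ok θ L K κ := by
        refine ok_alive h.norm h.cyl hκ hy ?_
        intro η r hη hb
        rcases hη with h1 | h1 <;> rcases hη₀ with h2 | h2
        · rw [h1] at hb
          rw [h2] at hB₀
          rw [bd_unique hb hB₀]
          exact hρK
        · rw [h1] at hb
          rw [h2] at hB₀
          have h3 := hR y r r₀ hy hb hB₀
          have e : r / L y = (r + r₀) / L y - ρ := by rw [hρ]; ring
          rw [e]
          exact K.sub_mem h3 hρK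
        · rw [h1] at hb
          rw [h2] at hB₀
          have h3 := hR y r₀ r hy hB₀ hb
          have e : r / L y = (r₀ + r) / L y - ρ := by rw [hρ]; ring
          rw [e]
          exact K.sub_mem h3 hρK
        · rw [h1] at hb
          rw [h2] at hB₀
          rw [bd_unique hb hB₀]
          exact hρK
      refine ⟨K, hcount, hR, hOk, ?_⟩
      by_cases hf : M.Free θ L K q
      · exact Or.inl hf
      · right
        have hex : ∃ η r : ℝ, (η = 1 ∨ η = -1) ∧ M.Bd θ η q r ∧ r / L q ∈ K := by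
          by_contra hcon
          push Not at hcon
          exact hf ⟨hqa, fun η r hη hb => hcon η r hη hb⟩
        obtain ⟨η, r, hη, hb, hmem⟩ := hex
        obtain ⟨f, hfF, c, hc⟩ := hKmem _ hmem
        obtain ⟨a, ha, h1⟩ := h.bd_value hqa hη hb
        obtain ⟨b, hbF, h2⟩ := h.bd_value hy hη₀ hB₀
        have hLq := h.cyl.pos q hqa
        have hLy := h.cyl.pos y hy
        have hLqF := h.per_mem hqa
        have hLyF := h.per_mem hy
        have hcF : (c : ℝ) ∈ F := SubfieldClass.ratCast_mem F c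
        have hηF : η ∈ F := by
          rcases hη with h3 | h3 <;> rw [h3]
          · exact F.one_mem
          · exact F.neg_mem F.one_mem
        have hη₀F : η₀ ∈ F := by
          rcases hη₀ with h3 | h3 <;> rw [h3]
          · exact F.one_mem
          · exact F.neg_mem F.one_mem
        have hηη : η * η = 1 := by rcases hη with h3 | h3 <;> rw [h3] <;> ring
        have hηη₀ : η₀ * η₀ = 1 := by rcases hη₀ with h3 | h3 <;> rw [h3] <;> ring
        have hc0 : (c : ℝ) ≠ 0 := by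
          intro h0
          rw [h0, zero_mul, _root_.add_zero] at hc
          exact hfree.2 η r hη hb (by rw [hc]; exact hfF)
        -- the equation
        have heq : (a + η * cr (pos q) θ) / L q = f + c * ((b + η₀ * cr (pos y) θ) / L y) := by
          rw [← h1, ← h2, hc, hρ]
        refine ⟨η₀ * η * L y / (L q * c), η₀ * ((a / L q - f) * L y / c - b), ?_, ?_, ?_, ?_⟩
        · exact F.div_mem (F.mul_mem (F.mul_mem hη₀F hηF) hLyF) (F.mul_mem hLqF hcF)
        · exact F.mul_mem hη₀F (F.sub_mem (F.div_mem (F.mul_mem (F.sub_mem (F.div_mem ha hLqF) hfF)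
            hLyF) hcF) hbF)
        · have h3 : η ≠ 0 := by rintro rfl; simp at hηη
          have h4 : η₀ ≠ 0 := by rintro rfl; simp at hηη₀
          exact div_ne_zero (mul_ne_zero (mul_ne_zero h4 h3) hLy.ne') (mul_ne_zero hLq.ne' hc0)
        · set A := cr (pos q) θ
          set Y := cr (pos y) θ
          have h5 : (a + η * A) * L y = (f * L y + c * (b + η₀ * Y)) * L q := by
            field_simp at heq
            linear_combination heq
          have h6 : Y = η₀ * (η₀ * Y) := by rw [← mul_assoc, hηη₀, one_mul]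
          rw [h6]
          have h7 : η₀ * Y = (a + η * A) * L y / (L q * c) - f * L y / c - b := by
            field_simp
            linear_combination -h5
          rw [h7]
          field_simp
          ring
    · refine ⟨b5K F, hFc, h.ratios, ok_alive h.norm h.cyl hκ hy ?_, Or.inl hfree⟩
      intro η r hη hb
      exact absurd ⟨η, r, hη, hb⟩ hB
  · exact ⟨b5K F, hFc, h.ratios, ok_dead h.norm h.cyl hκ hy h.ratios, Or.inl hfree⟩

/-- chunk B5: result of part IV -/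
theorem generic (hM : M.Conn) {θ : Fin 3 → ℂ} (hn : ∀ k, ‖θ k‖ = 1)
    (hθ : ∀ k l, k ≠ l → cr (θ k) (θ l) ≠ 0) {L : Fin 3 → X → ℝ} (hC : ∀ k, M.Cyl (θ k) (L k))
    {pos : X → ℂ} {Q : Set X} (hP : M.Pos θ pos Q) (G : ℂ →ₗ[ℝ] ℂ)
    (hG : ∀ c : ℝ, ∃ z, G z ≠ (c : ℂ) * z) :
    ∃ F : Subfield ℝ, (F : Set ℝ).Countable ∧ ∀ q : X, Indep3 F (pos q) →
      (∀ B : Finset ℂ, (∀ b ∈ B, ∀ k, cr (θ k) b ≠ 0) → ∀ y y' : X, pos y' = G (pos y) →
        (∃ W, M.Seg q W y ∧ ∀ b ∈ B, cr W b ≠ 0) ∨ ∃ W, M.Seg q W y' ∧ ∀ b ∈ B, cr W b ≠ 0) ∧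
      (∀ κ : M.Germ, M.Vert κ → ∀ k, ∀ σ : ℝ, (σ = 1 ∨ σ = -1) → cr (θ k) κ.h = 0 → ∀ ε > 0,
        ∃ W, M.Sees q W κ ∧ ‖W - ((‖W‖ * σ : ℝ) : ℂ) * θ k‖ < ε * ‖W‖) := by
  classical
  set S : Set ℝ := (range fun k => (θ k).re) ∪ ((range fun k => (θ k).im) ∪
    (((fun x => (pos x).re) '' Q) ∪ (((fun x => (pos x).im) '' Q) ∪ ((⋃ k, L k '' Q) ∪
    ((⋃ k, ⋃ x ∈ Q, {r | M.Bd (θ k) 1 x r}) ∪ ((⋃ k, ⋃ x ∈ Q, {r | M.Bd (θ k) (-1) x r}) ∪
    {(G 1).re, (G 1).im, (G Complex.I).re, (G Complex.I).im})))))) with hS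
  have hbd : ∀ η : ℝ, (⋃ k, ⋃ x ∈ Q, {r | M.Bd (θ k) η x r}).Countable := by
    intro η
    refine countable_iUnion fun k => hP.countable.biUnion fun x _ => ?_
    exact Set.Subsingleton.countable fun r hr r' hr' => bd_unique hr hr'
  have hSc : S.Countable := by
    refine (countable_range _).union ((countable_range _).union ((hP.countable.image _).union
      ((hP.countable.image _).union ((countable_iUnion fun k => hP.countable.image _).union
      ((hbd 1).union ((hbd (-1)).union (Set.toFinite _).countable))))))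
  set F : Subfield ℝ := Subfield.closure S with hF
  have hFc : (F : Set ℝ).Countable := by
    rw [← Cardinal.le_aleph0_iff_set_countable]
    have h1 := Subfield.cardinalMk_closure_le_max S
    have h2 : Cardinal.mk S ≤ Cardinal.aleph0 := Cardinal.le_aleph0_iff_set_countable.2 hSc
    exact h1.trans (max_le h2 le_rfl)
  have hsub : S ⊆ F := Subfield.subset_closure
  have mem1 : ∀ k, (θ k).re ∈ F := fun k => hsub (Or.inl ⟨k, rfl⟩)
  have mem2 : ∀ k, (θ k).im ∈ F := fun k => hsub (Or.inr (Or.inl ⟨k, rfl⟩))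
  have mem3 : ∀ x ∈ Q, (pos x).re ∈ F := fun x hx => hsub (Or.inr (Or.inr (Or.inl ⟨x, hx, rfl⟩)))
  have mem4 : ∀ x ∈ Q, (pos x).im ∈ F :=
    fun x hx => hsub (Or.inr (Or.inr (Or.inr (Or.inl ⟨x, hx, rfl⟩))))
  have mem5 : ∀ k, ∀ x ∈ Q, L k x ∈ F := fun k x hx =>
    hsub (Or.inr (Or.inr (Or.inr (Or.inr (Or.inl (mem_iUnion.2 ⟨k, x, hx, rfl⟩))))))
  have mem6 : ∀ k, ∀ x ∈ Q, ∀ r, M.Bd (θ k) 1 x r → r ∈ F := fun k x hx r hr =>
    hsub (Or.inr (Or.inr (Or.inr (Or.inr (Or.inr (Or.inl (mem_iUnion.2 ⟨k, mem_iUnion₂.2 ⟨x, hx, hr⟩⟩)))))))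
  have mem7 : ∀ k, ∀ x ∈ Q, ∀ r, M.Bd (θ k) (-1) x r → r ∈ F := fun k x hx r hr =>
    hsub (Or.inr (Or.inr (Or.inr (Or.inr (Or.inr (Or.inr
      (Or.inl (mem_iUnion.2 ⟨k, mem_iUnion₂.2 ⟨x, hx, hr⟩⟩))))))))
  have mem8 : ({(G 1).re, (G 1).im, (G Complex.I).re, (G Complex.I).im} : Set ℝ) ⊆ F := fun x hx =>
    hsub (Or.inr (Or.inr (Or.inr (Or.inr (Or.inr (Or.inr (Or.inr hx)))))))
  have hGF : (G 1).re ∈ F ∧ (G 1).im ∈ F ∧ (G Complex.I).re ∈ F ∧ (G Complex.I).im ∈ F :=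
    ⟨mem8 (Or.inl rfl), mem8 (Or.inr (Or.inl rfl)), mem8 (Or.inr (Or.inr (Or.inl rfl))),
      mem8 (Or.inr (Or.inr (Or.inr rfl)))⟩
  have hD : ∀ k, B5Data M (θ k) (L k) pos Q F := by
    intro k
    refine ⟨hn k, hC k, ?_, mem1 k, mem2 k, mem3, mem4, mem5 k, ?_⟩
    · intro x ε hε
      obtain ⟨x₀, hx₀, u, h1, h2, h3, h4, h5⟩ := hP.near x ε hε
      exact ⟨x₀, hx₀, u, h1, h2, h3, h4, h5 k⟩
    · intro x hx η r hη hb
      rcases hη with h1 | h1
      · rw [h1] at hb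
        exact mem6 k x hx r hb
      · rw [h1] at hb
        exact mem7 k x hx r hb
  have hk1 : ∀ k : Fin 3, k ≠ k + 1 := by decide
  refine ⟨F, hFc, fun q hq => ⟨?_, ?_⟩⟩
  · intro B hB
    have dep : ∀ z : X, (¬ ∃ W, M.Seg q W z ∧ ∀ b ∈ B, cr W b ≠ 0) → ∀ k, ∃ l e : ℝ, l ∈ F ∧
        e ∈ F ∧ l ≠ 0 ∧ cr (pos z) (θ k) = l * cr (pos q) (θ k) + e := by
      intro z hz k
      have hκ := germOf_at (M := M) z 1 one_ne_zero
      obtain ⟨K₀, c₀, R₀, O₀, h₀⟩ := (hD k).target hFc hq hκ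
      rcases h₀ with hf | hdep
      · exfalso
        obtain ⟨K₁, c₁, R₁, O₁, _⟩ := (hD (k + 1)).target hFc hq hκ
        have hne : k ≠ k + 1 := hk1 k
        obtain ⟨W₀, hW₀, hcW, _⟩ := sees_of_free hM (hn k) (hn (k + 1)) (hθ k (k + 1) hne) (hC k)
          (hC (k + 1)) c₀ c₁ R₀ R₁ (M.germOf z 1 one_ne_zero) O₀ O₁ hf
        obtain ⟨σ, hσ, hσκ⟩ : ∃ σ : ℝ, (σ = 1 ∨ σ = -1) ∧
            0 ≤ cr (-((σ : ℂ) * θ k)) (M.germOf z 1 one_ne_zero).h := by
          have e : ∀ σ : ℝ, cr (-((σ : ℂ) * θ k)) (M.germOf z 1 one_ne_zero).h =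
              -σ * cr (θ k) (M.germOf z 1 one_ne_zero).h := by
            intro σ
            simp only [cr, Complex.neg_re, Complex.neg_im, Complex.mul_re, Complex.mul_im,
              Complex.ofReal_re, Complex.ofReal_im]
            ring
          rcases le_total 0 (cr (θ k) (M.germOf z 1 one_ne_zero).h) with h1 | h1
          · refine ⟨-1, Or.inr rfl, ?_⟩
            rw [e]
            linarith
          · refine ⟨1, Or.inl rfl, ?_⟩
            rw [e]
            linarith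
        have hx' : M.Seg q (((0 : ℝ) : ℂ) * θ k) q := by
          rw [Complex.ofReal_zero, zero_mul]
          exact seg_refl q
        obtain ⟨T, hT, hST⟩ := move (hn k) (hC k) _ K₀ R₀ O₀ hW₀ hf hcW 0 hx' σ hσ hσκ
          (∑ b ∈ B, |cr W₀ b| / |cr (θ k) b|)
        refine hz ⟨W₀ + (T : ℂ) * θ k, hκ q _ hST, fun b hb h0 => ?_⟩
        have h1 : |cr W₀ b| / |cr (θ k) b| ≤ ∑ b ∈ B, |cr W₀ b| / |cr (θ k) b| :=
          Finset.single_le_sum (f := fun b => |cr W₀ b| / |cr (θ k) b|)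
            (fun b _ => div_nonneg (abs_nonneg _) (abs_nonneg _)) hb
        have h2 : 0 < |cr (θ k) b| := abs_pos.2 (hB b hb k)
        have h3 : |cr W₀ b| / |cr (θ k) b| < |T| := by
          refine (h1.trans_lt hT).trans_le ?_
          rcases hσ with h | h <;> rw [h]
          · rw [one_mul]
            exact le_abs_self T
          · have := neg_le_abs T
            linarith
        rw [div_lt_iff₀ h2, ← abs_mul] at h3
        have h4 : cr W₀ b = -(T * cr (θ k) b) := by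
          simp only [cr, Complex.add_re, Complex.add_im, Complex.mul_re, Complex.mul_im,
            Complex.ofReal_re, Complex.ofReal_im] at h0 ⊢
          linarith
        rw [h4, abs_neg] at h3
        exact lt_irrefl _ h3
      · exact hdep
    intro y y' hyy'
    by_contra hcon
    push Not at hcon
    have h1 := dep y (fun ⟨W, hW, hW'⟩ => by
      obtain ⟨b, hb, h3⟩ := hcon.1 W hW
      exact hW' b hb h3)
    have h2 := dep y' (fun ⟨W, hW, hW'⟩ => by
      obtain ⟨b, hb, h3⟩ := hcon.2 W hW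
      exact hW' b hb h3)
    rw [hyy'] at h2
    exact no_dependence F (pos q) hq θ (fun k => ⟨mem1 k, mem2 k⟩) hθ G hGF hG (pos y) h1 h2
  · intro κ hκ k σ hσ hcr ε hε
    have hne : k ≠ k + 1 := hk1 k
    have hO : ∀ k, M.Ok (θ k) (L k) (b5K F) κ := fun k => ok_vert (hn k) (hC k) hκ (hD k).ratios
    obtain ⟨W₀, hW₀, hcW, _⟩ := sees_of_free hM (hn k) (hn (k + 1)) (hθ k (k + 1) hne) (hC k)
      (hC (k + 1)) (K₀ := b5K F) (K₁ := b5K F) hFc hFc (hD k).ratios (hD (k + 1)).ratios κ (hO k)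
      (hO (k + 1)) ((hD k).free_q hq)
    have hx' : M.Seg q (((0 : ℝ) : ℂ) * θ k) q := by
      rw [Complex.ofReal_zero, zero_mul]
      exact seg_refl q
    have hσκ : 0 ≤ cr (-((σ : ℂ) * θ k)) κ.h := by
      have e : cr (-((σ : ℂ) * θ k)) κ.h = -σ * cr (θ k) κ.h := by
        simp only [cr, Complex.neg_re, Complex.neg_im, Complex.mul_re, Complex.mul_im,
          Complex.ofReal_re, Complex.ofReal_im]
        ring
      rw [e, hcr, mul_zero]
    obtain ⟨T, hT, hST⟩ := move (hn k) (hC k) κ (b5K F) (hD k).ratios (hO k) hW₀ ((hD k).free_q hq)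
      hcW 0 hx' σ hσ hσκ (‖W₀‖ + 2 * ‖W₀‖ / ε)
    refine ⟨W₀ + (T : ℂ) * θ k, hST, ?_⟩
    have hw0 := norm_nonneg W₀
    have hq0 : 0 ≤ 2 * ‖W₀‖ / ε := by positivity
    have hσσ : σ * σ = 1 := by rcases hσ with h | h <;> rw [h] <;> ring
    have hTn : ‖(T : ℂ) * θ k‖ = σ * T := by
      rw [norm_mul, hn k, mul_one, Complex.norm_real, Real.norm_eq_abs]
      rcases hσ with h | h
      · rw [h] at hT ⊢
        rw [abs_of_pos (by linarith), one_mul]
      · rw [h] at hT ⊢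
        rw [abs_of_neg (by linarith)]
        ring
    set W := W₀ + (T : ℂ) * θ k with hW
    have h1 : ‖W‖ ≤ ‖W₀‖ + σ * T := by
      rw [← hTn]
      exact norm_add_le _ _
    have h2 : σ * T - ‖W₀‖ ≤ ‖W‖ := by
      rw [← hTn]
      have h3 : (T : ℂ) * θ k = W - W₀ := by rw [hW]; ring
      rw [h3]
      have := norm_sub_le W W₀
      linarith
    have h3 : W - ((‖W‖ * σ : ℝ) : ℂ) * θ k = W₀ + ((T - ‖W‖ * σ : ℝ) : ℂ) * θ k := by
      rw [hW]
      push_cast
      ring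
    have h4 : ‖((T - ‖W‖ * σ : ℝ) : ℂ) * θ k‖ ≤ ‖W₀‖ := by
      rw [norm_mul, hn k, mul_one, Complex.norm_real, Real.norm_eq_abs]
      have h5 : |T - ‖W‖ * σ| = |σ * T - ‖W‖| := by
        rcases hσ with h | h
        · rw [h, mul_one, one_mul]
        · rw [h]
          have e : (-1 : ℝ) * T - ‖W‖ = -(T - ‖W‖ * -1) := by ring
          rw [e, abs_neg]
      rw [h5, abs_le]
      constructor <;> linarith
    rw [h3]
    have h5 : ε * (2 * ‖W₀‖ / ε) = 2 * ‖W₀‖ := by field_simp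
    have h6 : ε * (2 * ‖W₀‖ / ε) < ε * ‖W‖ := mul_lt_mul_of_pos_left (by linarith) hε
    have h7 := norm_add_le W₀ (((T - ‖W‖ * σ : ℝ) : ℂ) * θ k)
    linarith

end TSurf

end Pool.Agent.Lib.H25D
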