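import Pool.Agent.Lib.H25D.Leaf

/-!
# H25D, chunk B0: germs
-/

open Set

namespace Pool.Agent.Lib.H25D.TSurf

variable {X : Type} {M : TSurf X} {θ : ℂ}

private theorem cr_smul_left (t : ℝ) (a b : ℂ) : cr ((t : ℂ) * a) b = t * cr a b := by
  simp only [cr, Complex.mul_re, Complex.mul_im, Complex.ofReal_re, Complex.ofReal_im]
  ring

private theorem cr_add_left (a b c : ℂ) : cr (a + b) c = cr a c + cr b c := by
  simp only [cr, Complex.add_re, Complex.add_im]
  ring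

private theorem cr_neg_left (a c : ℂ) : cr (-a) c = - cr a c := by
  simp only [cr, Complex.neg_re, Complex.neg_im]
  ring

private theorem zero_notMem_of_cr {w w' h : ℂ} (h1 : 0 < cr w h) (h2 : 0 < cr w' h) :
    (0 : ℂ) ∉ segment ℝ w w' := by
  rintro ⟨a, b, ha, hb, hab, h0⟩
  have e : a * cr w h + b * cr w' h = 0 := by
    rw [← cr_smul_left, ← cr_smul_left, ← cr_add_left, ← Complex.real_smul, ← Complex.real_smul, h0]
    simp [cr]
  rcases eq_or_lt_of_le ha with h3 | h3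
  · have h4 : b = 1 := by linarith
    rw [← h3, h4] at e
    linarith
  · have := mul_pos h3 h1
    have := mul_nonneg hb h2.le
    linarith

/-- segments in a disc -/
private theorem seg_ball (y : X) {w w' : ℂ} (hw : ‖w‖ < M.rad y) (hw' : ‖w'‖ < M.rad y) :
    M.Seg (M.add y w) (w' - w) (M.add y w') := by
  refine ⟨fun s => M.add y (w + (s : ℂ) * (w' - w)), by simp, by simp, ?_⟩
  intro s hs
  have hn : ‖w + (s : ℂ) * (w' - w)‖ < M.rad y := by
    have hm : w + (s : ℂ) * (w' - w) ∈ segment ℝ w w' := by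
      rw [segment_eq_image]
      refine ⟨s, hs, ?_⟩
      show (1 - s) • w + s • w' = _
      simp only [Complex.real_smul]
      push_cast
      ring
    have hb : segment ℝ w w' ⊆ Metric.ball 0 (M.rad y) :=
      (convex_ball (0 : ℂ) (M.rad y)).segment_subset (by simpa using hw) (by simpa using hw')
    simpa using hb hm
  set c := M.rad y - ‖w + (s : ℂ) * (w' - w)‖ with hc
  have hc0 : 0 < c := by rw [hc]; linarith
  refine ⟨c / (‖w' - w‖ + 1), by positivity, fun s' _ hss => ?_⟩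
  have h1 : ‖((s' - s : ℝ) : ℂ) * (w' - w)‖ < c := by
    rw [norm_mul, Complex.norm_real, Real.norm_eq_abs]
    have h2 : |s' - s| * (‖w' - w‖ + 1) < c := by
      rwa [lt_div_iff₀ (by positivity)] at hss
    nlinarith [abs_nonneg (s' - s), norm_nonneg (w' - w)]
  rw [M.add_add y _ _ (by linarith)]
  exact congrArg (M.add y) (by push_cast; ring)

/-- the half disc around a point of the surface -/
noncomputable def germOf (M : TSurf X) (y : X) (h : ℂ) (hh : h ≠ 0) : M.Germ where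
  h := h
  e := M.rad y / 2
  k := fun w => M.add y w
  hh := hh
  he := half_pos (M.rad_pos y)
  seg := by
    intro w w' _ _ h1 h2 _
    have := M.rad_pos y
    exact seg_ball y (by linarith) (by linarith)

private theorem sees_cr {x : X} {W : ℂ} {κ : M.Germ} (h : M.Sees x W κ) {t : ℝ} (ht : 0 < t) :
    0 < cr (-((t : ℂ) * W)) κ.h := by
  have h1 := h.1
  have e : -((t : ℂ) * W) = (t : ℂ) * (-W) := by ring
  rw [e, cr_smul_left]
  exact mul_pos ht h1

private theorem seg_cast {x y : X} {W W' : ℂ} (h : M.Seg x W y) (e : W = W') : M.Seg x W' y := e ▸ h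

/-- a part of a straight line in the germ -/
private theorem germ_line {x : X} {W : ℂ} {κ : M.Germ} (h : M.Sees x W κ) {s t : ℝ} (hs : 0 < s)
    (ht : 0 < t) (hse : s * ‖W‖ < κ.e) (hte : t * ‖W‖ < κ.e) :
    M.Seg (κ.k (-((s : ℂ) * W))) (((s - t : ℝ) : ℂ) * W) (κ.k (-((t : ℂ) * W))) := by
  have h1 := sees_cr h hs
  have h2 := sees_cr h ht
  have hn : ∀ t : ℝ, 0 < t → ‖-((t : ℂ) * W)‖ = t * ‖W‖ := by
    intro t ht
    rw [norm_neg, norm_mul, Complex.norm_real, Real.norm_eq_abs, abs_of_pos ht]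
  have h3 := κ.seg _ _ h1.le h2.le (by rw [hn s hs]; exact hse) (by rw [hn t ht]; exact hte)
    (zero_notMem_of_cr h1 h2)
  refine seg_cast h3 ?_
  push_cast
  ring

theorem germOf_at (y : X) (h : ℂ) (hh : h ≠ 0) : M.At (M.germOf y h hh) y := by
  rintro x W ⟨_, s, hs0, hs1, hse, hseg⟩
  have hy := M.rad_pos y
  have hse' : s * ‖W‖ < M.rad y / 2 := hse
  have h1 : M.Seg (M.add y (-((s : ℂ) * W))) (0 - -((s : ℂ) * W)) (M.add y 0) := by
    apply seg_ball
    · rw [norm_neg, norm_mul, Complex.norm_real, Real.norm_eq_abs, abs_of_pos hs0]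
      linarith
    · rw [norm_zero]; exact hy
  rw [M.add_zero] at h1
  have h2 : M.Seg (M.add y (-((s : ℂ) * W))) ((s : ℂ) * W) y := seg_cast h1 (by ring)
  have h3 := seg_line hseg h2
  refine seg_cast h3 ?_
  push_cast
  ring

/-- the last part of the segment runs in the half disc -/
theorem sees_last {x : X} {W : ℂ} {κ : M.Germ} (h : M.Sees x W κ) : ∃ s₀ : ℝ, 0 < s₀ ∧ s₀ ≤ 1 ∧
    ∀ s : ℝ, 0 < s → s ≤ s₀ → s * ‖W‖ < κ.e ∧ M.Seg x (((1 - s : ℝ) : ℂ) * W) (κ.k (-((s : ℂ) * W))) := by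
  obtain ⟨s₀, h0, h1, h2, h3⟩ := h.2
  refine ⟨s₀, h0, h1, fun s hs0 hs1 => ?_⟩
  have h4 : s * ‖W‖ < κ.e := lt_of_le_of_lt (mul_le_mul_of_nonneg_right hs1 (norm_nonneg _)) h2
  refine ⟨h4, ?_⟩
  have h5 := seg_line h3 (germ_line h h0 hs0 h2 h4)
  refine seg_cast h5 ?_
  push_cast
  ring

/-- prolongation of `Sees` backwards along the line -/
theorem sees_back {x z : X} {W : ℂ} {κ : M.Germ} {s : ℝ} (hs : s ∈ Ico (0 : ℝ) 1)
    (h : M.Seg x ((s : ℂ) * W) z) (h' : M.Sees z (((1 - s : ℝ) : ℂ) * W) κ) : M.Sees x W κ := by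
  obtain ⟨h1, s₀, h2, h3, h4, h5⟩ := h'
  have hs1 : 0 < 1 - s := by linarith [hs.2]
  have e : -(((1 - s : ℝ) : ℂ) * W) = ((1 - s : ℝ) : ℂ) * (-W) := by ring
  rw [e, cr_smul_left] at h1
  refine ⟨pos_of_mul_pos_right h1 hs1.le, s₀ * (1 - s), mul_pos h2 hs1, ?_, ?_, ?_⟩
  · nlinarith [hs.1]
  · rw [norm_mul, Complex.norm_real, Real.norm_eq_abs, abs_of_pos hs1, ← mul_assoc] at h4
    exact h4
  · have e1 : ((1 - s₀ : ℝ) : ℂ) * (((1 - s : ℝ) : ℂ) * W) = (((1 - s₀) * (1 - s) : ℝ) : ℂ) * W := by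
      push_cast; ring
    have e2 : ((s₀ : ℂ)) * (((1 - s : ℝ) : ℂ) * W) = ((s₀ * (1 - s) : ℝ) : ℂ) * W := by
      push_cast; ring
    rw [e1, e2] at h5
    refine seg_cast (seg_line h h5) ?_
    push_cast
    ring

/-- points of the open half disc see the centre -/
theorem sees_germ (κ : M.Germ) {w : ℂ} (hw : 0 < cr w κ.h) (hw' : ‖w‖ < κ.e) :
    M.Sees (κ.k w) (-w) κ := by
  refine ⟨by rwa [neg_neg], 1, one_pos, le_rfl, by rwa [one_mul, norm_neg], ?_⟩
  have e1 : ((1 - 1 : ℝ) : ℂ) * (-w) = 0 := by push_cast; ring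
  have e2 : -(((1 : ℝ) : ℂ) * (-w)) = w := by push_cast; ring
  rw [e1, e2]
  exact seg_refl _

/-- all points of the segment before the centre exist -/
theorem sees_seg {x : X} {W : ℂ} {κ : M.Germ} (h : M.Sees x W κ) {s : ℝ} (hs : s ∈ Ico (0 : ℝ) 1) :
    ∃ z, M.Seg x ((s : ℂ) * W) z ∧ M.Sees z (((1 - s : ℝ) : ℂ) * W) κ := by
  obtain ⟨s₀, h0, h1, h2⟩ := sees_last h
  have hs1 : 0 < 1 - s := by linarith [hs.2]
  rcases le_or_gt s (1 - s₀) with hc | hc
  · obtain ⟨h3, h4⟩ := h2 s₀ h0 le_rfl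
    obtain ⟨z, hz1, hz2⟩ := seg_part h4 (s := s) (by
      rw [uIcc_of_le (by linarith)]
      exact ⟨hs.1, hc⟩)
    refine ⟨z, hz1, ?_, s₀ / (1 - s), div_pos h0 hs1, ?_, ?_, ?_⟩
    · exact sees_cr h hs1
    · rw [div_le_one hs1]; linarith
    · rw [norm_mul, Complex.norm_real, Real.norm_eq_abs, abs_of_pos hs1, ← mul_assoc,
        div_mul_cancel₀ _ hs1.ne']
      exact h3
    · have hne : (1 - (s : ℂ)) ≠ 0 := by
        have : ((1 - s : ℝ) : ℂ) ≠ 0 := by exact_mod_cast hs1.ne'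
        push_cast at this
        exact this
      have e2 : ((s₀ / (1 - s) : ℝ) : ℂ) * (((1 - s : ℝ) : ℂ) * W) = (s₀ : ℂ) * W := by
        push_cast
        field_simp
      rw [e2]
      refine seg_cast hz2 ?_
      push_cast
      field_simp
      ring
  · obtain ⟨h3, h4⟩ := h2 (1 - s) hs1 (by linarith)
    refine ⟨κ.k (-(((1 - s : ℝ) : ℂ) * W)), seg_cast h4 (by push_cast; ring), ?_⟩
    have h5 : ‖-(((1 - s : ℝ) : ℂ) * W)‖ < κ.e := by
      rw [norm_neg, norm_mul, Complex.norm_real, Real.norm_eq_abs, abs_of_pos hs1]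
      exact h3
    have h6 := sees_germ κ (sees_cr h hs1) h5
    rwa [neg_neg] at h6

/-- The set of the points that see the centre is open. -/
theorem sees_open {x : X} {W : ℂ} {κ : M.Germ} (h : M.Sees x W κ) : ∃ ε > 0, ∀ u : ℂ, ‖u‖ < ε →
    M.Sees (M.add x u) (W - u) κ := by
  obtain ⟨s, h0, h1, h2, h3⟩ := h.2
  set w₀ := -((s : ℂ) * W) with hw₀
  have hc₀ : 0 < cr w₀ κ.h := sees_cr h h0
  have hn₀ : ‖w₀‖ < κ.e := by
    rw [hw₀, norm_neg, norm_mul, Complex.norm_real, Real.norm_eq_abs, abs_of_pos h0]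
    exact h2
  obtain ⟨ε₁, hε₁, he1, he2, hop⟩ := seg_open h3
  have hH : 0 < ‖κ.h‖ := norm_pos_iff.2 κ.hh
  have hcr : ∀ a b : ℂ, |cr a b| ≤ 2 * (‖a‖ * ‖b‖) := by
    intro a b
    have a1 := Complex.abs_re_le_norm a
    have a2 := Complex.abs_im_le_norm a
    have b1 := Complex.abs_re_le_norm b
    have b2 := Complex.abs_im_le_norm b
    have p1 : |a.re * b.im| ≤ ‖a‖ * ‖b‖ := by
      rw [abs_mul]; exact mul_le_mul a1 b2 (abs_nonneg _) (norm_nonneg _)
    have p2 : |a.im * b.re| ≤ ‖a‖ * ‖b‖ := by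
      rw [abs_mul]; exact mul_le_mul a2 b1 (abs_nonneg _) (norm_nonneg _)
    calc |cr a b| = |a.re * b.im - a.im * b.re| := rfl
      _ ≤ |a.re * b.im| + |a.im * b.re| := abs_sub _ _
      _ ≤ 2 * (‖a‖ * ‖b‖) := by linarith
  set c₁ := cr w₀ κ.h / (2 * (‖κ.h‖ + 1)) with hc₁
  have hc₁0 : 0 < c₁ := by rw [hc₁]; positivity
  set c₂ := cr (-W) κ.h / (2 * (‖κ.h‖ + 1)) with hc₂
  have hc₂0 : 0 < c₂ := by
    rw [hc₂]
    exact div_pos h.1 (by positivity)
  refine ⟨min (min ε₁ (κ.e - ‖w₀‖)) (min c₁ c₂), by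
    refine lt_min (lt_min hε₁ (by linarith)) (lt_min hc₁0 hc₂0), fun u hu => ?_⟩
  have hu1 : ‖u‖ < ε₁ := lt_of_lt_of_le hu ((min_le_left _ _).trans (min_le_left _ _))
  have hu2 : ‖u‖ < κ.e - ‖w₀‖ := lt_of_lt_of_le hu ((min_le_left _ _).trans (min_le_right _ _))
  have hu3 : ‖u‖ < c₁ := lt_of_lt_of_le hu ((min_le_right _ _).trans (min_le_left _ _))
  have hu4 : ‖u‖ < c₂ := lt_of_lt_of_le hu ((min_le_right _ _).trans (min_le_right _ _))
  have hsu : ‖(s : ℂ) * u‖ ≤ ‖u‖ := by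
    rw [norm_mul, Complex.norm_real, Real.norm_eq_abs, abs_of_pos h0]
    nlinarith [norm_nonneg u]
  have hcrw : 0 < cr (w₀ + (s : ℂ) * u) κ.h := by
    rw [cr_add_left]
    have h5 := hcr ((s : ℂ) * u) κ.h
    have h6 : 2 * (‖(s : ℂ) * u‖ * ‖κ.h‖) < cr w₀ κ.h := by
      have h7 : c₁ * (2 * (‖κ.h‖ + 1)) = cr w₀ κ.h := by
        rw [hc₁]
        exact div_mul_cancel₀ _ (by positivity)
      nlinarith [norm_nonneg u, norm_nonneg ((s : ℂ) * u)]
    have := (abs_le.1 h5).1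
    linarith
  -- the end point
  have hend : M.add (κ.k w₀) ((s : ℂ) * u) = κ.k (w₀ + (s : ℂ) * u) := by
    have g1 := κ.seg w₀ (w₀ + (s : ℂ) * u) hc₀.le hcrw.le hn₀ (by
      have := norm_add_le w₀ ((s : ℂ) * u)
      linarith) (zero_notMem_of_cr hc₀ hcrw)
    rw [add_sub_cancel_left] at g1
    exact seg_unique (seg_add (by linarith)) g1
  have hseg := hop u ((s : ℂ) * u) hu1 (by linarith)
  rw [hend] at hseg
  refine ⟨?_, s, h0, h1, ?_, ?_⟩
  · have e : -(W - u) = -W + u := by ring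
    rw [e, cr_add_left]
    have h5 := hcr u κ.h
    have h6 : 2 * (‖u‖ * ‖κ.h‖) < cr (-W) κ.h := by
      have h7 : c₂ * (2 * (‖κ.h‖ + 1)) = cr (-W) κ.h := by
        rw [hc₂]
        exact div_mul_cancel₀ _ (by positivity)
      nlinarith [norm_nonneg u]
    have := (abs_le.1 h5).1
    linarith
  · have e : s * ‖W - u‖ = ‖w₀ + (s : ℂ) * u‖ := by
      have e1 : w₀ + (s : ℂ) * u = -((s : ℂ) * (W - u)) := by rw [hw₀]; ring
      rw [e1, norm_neg, norm_mul, Complex.norm_real, Real.norm_eq_abs, abs_of_pos h0]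
    rw [e]
    have := norm_add_le w₀ ((s : ℂ) * u)
    linarith
  · have e : -((s : ℂ) * (W - u)) = w₀ + (s : ℂ) * u := by rw [hw₀]; ring
    rw [e]
    refine seg_cast hseg ?_
    push_cast
    ring

end Pool.Agent.Lib.H25D.TSurf
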