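import Pool.Agent.Lib.H25D.GermBasic

/-!
# H25D, chunk B0b: finitely many singular parameters before the centre
-/

open Set

namespace Pool.Agent.Lib.H25D.TSurf

variable {X : Type} {M : TSurf X} {θ : ℂ}

private theorem h78_cr_smul (r : ℝ) (a b : ℂ) : cr ((r : ℂ) * a) b = r * cr a b := by
  simp [cr]
  ring

private theorem h78_cr_add (a a' b : ℂ) : cr (a + a') b = cr a b + cr a' b := by
  simp [cr]
  ring

private theorem h78_cr_neg (a b : ℂ) : cr (-a) b = -cr a b := by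
  simp [cr]
  ring

private theorem h78_cr_self (a : ℂ) : cr a a = 0 := by
  simp [cr]
  ring

/-- A vector with a nonzero coefficient of `θ` on the line parallel to `W` is nonzero. -/
private theorem h78_ne {W : ℂ} (hW : cr W θ ≠ 0) {a b : ℝ} (h : -((a : ℂ) * W) + (b : ℂ) * θ = 0) :
    a = 0 ∧ (b : ℂ) * θ = 0 := by
  have h1 : cr (-((a : ℂ) * W) + (b : ℂ) * θ) θ = 0 := by
    rw [h]
    simp [cr]
  rw [h78_cr_add, h78_cr_neg, h78_cr_smul, h78_cr_smul, h78_cr_self] at h1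
  have h2 : a * cr W θ = 0 := by linarith
  have h3 : a = 0 := by
    rcases mul_eq_zero.1 h2 with h | h
    · exact h
    · exact absurd h hW
  refine ⟨h3, ?_⟩
  rw [h3] at h
  simpa using h

/-- Only finitely many parameters before the centre are singular. -/
theorem germ_fin (hθ : ‖θ‖ = 1) {L : X → ℝ} (hC : M.Cyl θ L) {x : X} {W : ℂ} {κ : M.Germ}
    (h : M.Sees x W κ) (hW : cr W θ ≠ 0) : (M.Sing θ x W ∩ Ico 0 1).Finite := by
  obtain ⟨s₀, hs₀, hs₀1, hlast⟩ := sees_last h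
  have hcr : 0 < cr (-W) κ.h := h.1
  have he := κ.he
  have hn : 0 ≤ ‖W‖ := norm_nonneg W
  -- the length of the last part
  obtain ⟨η, hη, hηs, hηW⟩ : ∃ η : ℝ, 0 < η ∧ η ≤ s₀ / 2 ∧ η * ‖W‖ < κ.e / 2 := by
    refine ⟨min (s₀ / 2) (κ.e / (2 * (‖W‖ + 1))), lt_min (by linarith) (by positivity),
      min_le_left _ _, ?_⟩
    have h1 : min (s₀ / 2) (κ.e / (2 * (‖W‖ + 1))) * ‖W‖ ≤ κ.e / (2 * (‖W‖ + 1)) * ‖W‖ :=
      mul_le_mul_of_nonneg_right (min_le_right _ _) hn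
    refine lt_of_le_of_lt h1 ?_
    rw [div_mul_eq_mul_div, div_lt_div_iff₀ (by positivity) (by norm_num)]
    nlinarith
  have hη1 : η < 1 := by linarith
  have hηs' : η ≤ s₀ := by linarith
  -- the shift
  obtain ⟨τ, hτ0, hτn, hτh⟩ : ∃ τ : ℝ, τ ≠ 0 ∧ |τ| = κ.e / 2 ∧ 0 ≤ τ * cr θ κ.h := by
    rcases le_total 0 (cr θ κ.h) with h1 | h1
    · exact ⟨κ.e / 2, by positivity, abs_of_pos (by positivity), by positivity⟩
    · refine ⟨-(κ.e / 2), by simpa using he.ne', by rw [abs_neg, abs_of_pos (by positivity)], ?_⟩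
      nlinarith
  have hθ0 : θ ≠ 0 := by
    intro h1
    rw [h1] at hθ
    simp at hθ
  have hτθ : ((τ : ℂ) * θ) ≠ 0 := mul_ne_zero (by exact_mod_cast hτ0) hθ0
  have hτθn : ‖(τ : ℂ) * θ‖ = κ.e / 2 := by
    rw [norm_mul, hθ, mul_one, Complex.norm_real, Real.norm_eq_abs, hτn]
  -- points of the shifted part
  have hin : ∀ r : ℝ, 0 ≤ r → r ≤ η → 0 ≤ cr (-((r : ℂ) * W) + (τ : ℂ) * θ) κ.h ∧
      ‖-((r : ℂ) * W) + (τ : ℂ) * θ‖ < κ.e := by
    intro r hr hrη
    constructor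
    · rw [h78_cr_add, h78_cr_neg, h78_cr_smul, h78_cr_smul]
      rw [h78_cr_neg] at hcr
      nlinarith
    · refine lt_of_le_of_lt (norm_add_le _ _) ?_
      rw [norm_neg, norm_mul, Complex.norm_real, Real.norm_eq_abs, abs_of_nonneg hr, hτθn]
      have : r * ‖W‖ ≤ η * ‖W‖ := mul_le_mul_of_nonneg_right hrη hn
      linarith
  have hin0 : ∀ r : ℝ, 0 ≤ r → r ≤ η → 0 ≤ cr (-((r : ℂ) * W)) κ.h ∧
      ‖-((r : ℂ) * W)‖ < κ.e := by
    intro r hr hrη
    constructor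
    · rw [h78_cr_neg, h78_cr_smul]
      rw [h78_cr_neg] at hcr
      nlinarith
    · rw [norm_neg, norm_mul, Complex.norm_real, Real.norm_eq_abs, abs_of_nonneg hr]
      have : r * ‖W‖ ≤ η * ‖W‖ := mul_le_mul_of_nonneg_right hrη hn
      linarith
  -- the horizontal segments of the shifted part
  have hseg1 : ∀ r r' : ℝ, 0 ≤ r → r ≤ η → 0 ≤ r' → r' ≤ η →
      M.Seg (κ.k (-((r : ℂ) * W) + (τ : ℂ) * θ)) (((r - r' : ℝ) : ℂ) * W)
        (κ.k (-((r' : ℂ) * W) + (τ : ℂ) * θ)) := by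
    intro r r' hr hrη hr' hrη'
    have h1 := κ.seg (-((r : ℂ) * W) + (τ : ℂ) * θ) (-((r' : ℂ) * W) + (τ : ℂ) * θ)
      (hin r hr hrη).1 (hin r' hr' hrη').1 (hin r hr hrη).2 (hin r' hr' hrη').2 (by
        intro h0
        rw [segment_eq_image] at h0
        obtain ⟨t, -, ht⟩ := h0
        have h2 : -((((1 - t) * r + t * r' : ℝ) : ℂ) * W) + (τ : ℂ) * θ = 0 := by
          rw [← ht]
          simp only [Complex.real_smul]
          push_cast
          ring
        exact hτθ (h78_ne hW h2).2)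
    have h2 : -((r' : ℂ) * W) + (τ : ℂ) * θ - (-((r : ℂ) * W) + (τ : ℂ) * θ) =
        ((r - r' : ℝ) : ℂ) * W := by
      push_cast
      ring
    rwa [h2] at h1
  -- the leaves
  have hseg2 : ∀ r : ℝ, 0 < r → r ≤ η → M.Seg (κ.k (-((r : ℂ) * W))) ((τ : ℂ) * θ)
      (κ.k (-((r : ℂ) * W) + (τ : ℂ) * θ)) := by
    intro r hr hrη
    have h1 := κ.seg (-((r : ℂ) * W)) (-((r : ℂ) * W) + (τ : ℂ) * θ)
      (hin0 r hr.le hrη).1 (hin r hr.le hrη).1 (hin0 r hr.le hrη).2 (hin r hr.le hrη).2 (by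
        intro h0
        rw [segment_eq_image] at h0
        obtain ⟨t, -, ht⟩ := h0
        have h2 : -((r : ℂ) * W) + ((t * τ : ℝ) : ℂ) * θ = 0 := by
          rw [← ht]
          simp only [Complex.real_smul]
          push_cast
          ring
        exact hr.ne' (h78_ne hW h2).1)
    have h2 : -((r : ℂ) * W) + (τ : ℂ) * θ - (-((r : ℂ) * W)) = (τ : ℂ) * θ := by ring
    rwa [h2] at h1
  -- first part
  have hA : (M.Sing θ x W ∩ Icc 0 (1 - η)).Finite := by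
    have hb : M.Seg x (((1 - η : ℝ) : ℂ) * W) (κ.k (-((η : ℂ) * W))) := (hlast η hη hηs').2
    have hc : cr (((1 - η : ℝ) : ℂ) * W) θ ≠ 0 := by
      rw [h78_cr_smul]
      exact mul_ne_zero (by linarith) hW
    have hf := hC.fin _ _ _ hb hc
    refine (hf.image (fun u : ℝ => (1 - η) * u)).subset ?_
    rintro s ⟨⟨z, hz, hza⟩, hs0, hs1⟩
    have hne : (1 : ℝ) - η ≠ 0 := by
      have : 0 < 1 - η := by linarith
      exact this.ne'
    have h1 : (1 - η) * (s / (1 - η)) = s := by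
      field_simp
    refine ⟨s / (1 - η), ⟨⟨z, ?_, hza⟩, ?_, ?_⟩, h1⟩
    · have h2 : ((s / (1 - η) : ℝ) : ℂ) * (((1 - η : ℝ) : ℂ) * W) = (s : ℂ) * W := by
        rw [← mul_assoc, ← Complex.ofReal_mul, mul_comm (s / (1 - η)), h1]
      rw [h2]
      exact hz
    · exact div_nonneg hs0 (by linarith)
    · rw [div_le_one (by linarith)]
      exact hs1
  -- last part
  have hB : (M.Sing θ x W ∩ Ico (1 - η) 1).Finite := by
    have hb := hseg1 η 0 hη.le le_rfl le_rfl hη.le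
    have hc : cr (((η - 0 : ℝ) : ℂ) * W) θ ≠ 0 := by
      rw [h78_cr_smul, sub_zero]
      exact mul_ne_zero hη.ne' hW
    have hf := hC.fin _ _ _ hb hc
    refine (hf.image (fun u : ℝ => η * u + (1 - η))).subset ?_
    rintro s ⟨⟨z, hz, hza⟩, hs0, hs1⟩
    have hr : 0 < 1 - s := by linarith
    have hrη : 1 - s ≤ η := by linarith
    have h1 := (hlast (1 - s) hr (by linarith)).2
    rw [show ((1 - (1 - s) : ℝ) : ℂ) * W = (s : ℂ) * W by push_cast; ring] at h1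
    have h2 : z = κ.k (-(((1 - s : ℝ) : ℂ) * W)) := seg_unique hz h1
    have h3 := hseg2 (1 - s) hr hrη
    have h4 : ¬ M.Alive θ (κ.k (-(((1 - s : ℝ) : ℂ) * W) + (τ : ℂ) * θ)) := by
      rw [← alive_leaf h3, ← h2]
      exact hza
    have h5 := hseg1 η (1 - s) hη.le le_rfl hr.le hrη
    refine ⟨(s - (1 - η)) / η, ⟨⟨_, ?_, h4⟩, ?_, ?_⟩, ?_⟩
    · have h6 : (((s - (1 - η)) / η : ℝ) : ℂ) * (((η - 0 : ℝ) : ℂ) * W) =
          ((η - (1 - s) : ℝ) : ℂ) * W := by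
        rw [← mul_assoc, ← Complex.ofReal_mul]
        congr 2
        field_simp
        ring
      rw [h6]
      exact h5
    · exact div_nonneg (by linarith) hη.le
    · rw [div_le_one hη]
      linarith
    · show η * ((s - (1 - η)) / η) + (1 - η) = s
      field_simp
      ring
  refine (hA.union hB).subset ?_
  rintro s ⟨hs, hs0, hs1⟩
  rcases le_or_gt s (1 - η) with h1 | h1
  · exact Or.inl ⟨hs, hs0, h1⟩
  · exact Or.inr ⟨hs, h1.le, hs1⟩

end Pool.Agent.Lib.H25D.TSurf
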