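import Pool.Agent.Lib.H25D.GermFin
import Pool.Agent.Lib.H25R.Kron

/-!
# H25D, chunk B1: the H-move with a fixed target
-/

open Set

namespace Pool.Agent.Lib.H25D.TSurf

variable {X : Type} {M : TSurf X} {θ : ℂ}

/-- the system of approximate equations along a list of strips (displacement, period); the last
equation is exact -/
private def HChain (ε T : ℝ) : ℝ → List (ℝ × ℝ) → Prop
  | β, [] => β = 0
  | β, p :: l => |β| < ε ∧ ∃ n : ℤ, HChain ε T (β + T * p.1 - n * p.2) l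

private theorem hchain_mono {ε ε' T : ℝ} (h : ε ≤ ε') : ∀ (l : List (ℝ × ℝ)) (β : ℝ),
    HChain ε T β l → HChain ε' T β l := by
  intro l
  induction l with
  | nil => intro β hβ; exact hβ
  | cons p l ih =>
    intro β hβ
    obtain ⟨h1, n, h2⟩ := hβ
    exact ⟨lt_of_lt_of_le h1 h, n, ih _ h2⟩

private theorem hchain_of_approx {ε₁ T : ℝ} : ∀ l : List (ℝ × ℝ),
    (∀ p ∈ l, 0 < p.1 ∧ ∃ n : ℤ, |T * p.1 - n * p.2| < ε₁) →
    ∃ Δ : ℝ, |Δ| ≤ l.length * ε₁ ∧ ∀ ε η β : ℝ, β + Δ + η * (l.map Prod.fst).sum = 0 →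
      |β| + l.length * ε₁ + |η| * (l.map Prod.fst).sum < ε → HChain ε (T + η) β l := by
  intro l
  induction l with
  | nil =>
    intro _
    refine ⟨0, by simp, ?_⟩
    intro ε η β h _
    have h1 : β = 0 := by simpa using h
    exact h1
  | cons p l ih =>
    intro hl
    obtain ⟨hp, n, hn⟩ := hl p List.mem_cons_self
    obtain ⟨Δ, hΔ, ih⟩ := ih fun q hq => hl q (List.mem_cons_of_mem _ hq)
    have hsum : 0 ≤ (l.map Prod.fst).sum := by
      apply List.sum_nonneg
      intro a ha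
      obtain ⟨q, hq, rfl⟩ := List.mem_map.mp ha
      exact (hl q (List.mem_cons_of_mem _ hq)).1.le
    refine ⟨(T * p.1 - n * p.2) + Δ, ?_, ?_⟩
    · have := abs_add_le (T * p.1 - n * p.2) Δ
      rw [List.length_cons]
      push_cast
      linarith
    · intro ε η β h1 h2
      rw [List.map_cons, List.sum_cons] at h1 h2
      rw [List.length_cons] at h2
      push_cast at h2
      have hε₁ : 0 < ε₁ := lt_of_le_of_lt (abs_nonneg _) hn
      have hl0 : (0 : ℝ) ≤ (l.length : ℝ) := Nat.cast_nonneg _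
      have h3 : 0 ≤ (l.length : ℝ) * ε₁ := mul_nonneg hl0 hε₁.le
      have h4 : 0 ≤ |η| * (l.map Prod.fst).sum := mul_nonneg (abs_nonneg _) hsum
      have h5 : 0 ≤ |η| * p.1 := mul_nonneg (abs_nonneg _) hp.le
      refine ⟨by nlinarith, n, ?_⟩
      apply ih
      · linear_combination h1
      · have h6 : β + (T + η) * p.1 - n * p.2 = β + (T * p.1 - n * p.2) + η * p.1 := by ring
        rw [h6]
        have h7 := abs_add_le (β + (T * p.1 - n * p.2)) (η * p.1)
        have h8 := abs_add_le β (T * p.1 - n * p.2)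
        rw [abs_mul η p.1, abs_of_pos hp] at h7
        nlinarith

/-- points before the centre -/
private theorem hm_pt {x : X} {W : ℂ} {c : ℝ} {κ : M.Germ} (hc : 0 < c)
    (h : M.Sees x ((c : ℂ) * W) κ) {s : ℝ} (hs0 : 0 ≤ s) (hs : s < c) :
    ∃ z, M.Seg x ((s : ℂ) * W) z ∧ M.Sees z (((c - s : ℝ) : ℂ) * W) κ := by
  obtain ⟨z, h1, h2⟩ := sees_seg h (s := s / c) ⟨div_nonneg hs0 hc.le, (div_lt_one hc).mpr hs⟩
  have hc' : (c : ℂ) ≠ 0 := by exact_mod_cast hc.ne'
  refine ⟨z, ?_, ?_⟩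
  · have e : ((s / c : ℝ) : ℂ) * ((c : ℂ) * W) = (s : ℂ) * W := by
      push_cast
      field_simp
    rw [e] at h1
    exact h1
  · have e : ((1 - s / c : ℝ) : ℂ) * ((c : ℂ) * W) = ((c - s : ℝ) : ℂ) * W := by
      push_cast
      field_simp
    rw [e] at h2
    exact h2

private theorem hm_back {x z : X} {V : ℂ} {c s : ℝ} {κ : M.Germ} (hc : 0 < c) (hs0 : 0 ≤ s)
    (hs : s < c) (h1 : M.Seg x ((s : ℂ) * V) z) (h2 : M.Sees z (((c - s : ℝ) : ℂ) * V) κ) :
    M.Sees x ((c : ℂ) * V) κ := by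
  have hc' : (c : ℂ) ≠ 0 := by exact_mod_cast hc.ne'
  have e1 : ((s / c : ℝ) : ℂ) * ((c : ℂ) * V) = (s : ℂ) * V := by
    push_cast
    field_simp
  have e2 : ((1 - s / c : ℝ) : ℂ) * ((c : ℂ) * V) = ((c - s : ℝ) : ℂ) * V := by
    push_cast
    field_simp
  refine sees_back (s := s / c) ⟨div_nonneg hs0 hc.le, (div_lt_one hc).mpr hs⟩ (z := z) ?_ ?_
  · rw [e1]
    exact h1
  · rw [e2]
    exact h2

private theorem hm_shift {x z : X} {W : ℂ} {r s : ℝ} (h : M.Seg x ((r : ℂ) * W) z) :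
    s ∈ M.Sing θ z W ↔ r + s ∈ M.Sing θ x W := by
  constructor
  · rintro ⟨y, h1, h2⟩
    exact ⟨y, seg_line h h1, h2⟩
  · rintro ⟨y, h1, h2⟩
    refine ⟨y, ?_, h2⟩
    have h3 := seg_symm h
    have h4 : -((r : ℂ) * W) = ((-r : ℝ) : ℂ) * W := by
      push_cast
      ring
    rw [h4] at h3
    have h5 := seg_line h3 h1
    have h6 : (-r + (r + s)) = s := by ring
    rw [h6] at h5
    exact h5

private theorem hm_al {x : X} {W : ℂ} {r : ℝ} (hr : 0 ≤ r)
    (h : ∀ s, 0 ≤ s → s ≤ r → s ∉ M.Sing θ x W) :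
    ∀ s ∈ Icc (0 : ℝ) 1, ∀ z, M.Seg x ((s : ℂ) * ((r : ℂ) * W)) z → M.Alive θ z := by
  intro s hs z hz
  by_contra hcon
  refine h (s * r) (mul_nonneg hs.1 hr) (by nlinarith [hs.2]) ⟨z, ?_, hcon⟩
  have e : ((s * r : ℝ) : ℂ) * W = (s : ℂ) * ((r : ℂ) * W) := by
    push_cast
    ring
  rw [e]
  exact hz

/-- two points of a disc -/
private theorem hm_disc {z : X} {u v : ℂ} (h : ‖u‖ + ‖v‖ < M.rad z) :
    M.Seg (M.add z u) v (M.add z (u + v)) := by
  have h1 := M.rad_add z u (by linarith [norm_nonneg v])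
  have h2 : M.Seg (M.add z u) v (M.add (M.add z u) v) := seg_add (by linarith)
  rw [M.add_add z u v h] at h2
  exact h2

private theorem hm_cr (a b h : ℂ) : cr (a + b) h = cr a h + cr b h := by
  unfold cr
  rw [Complex.add_re, Complex.add_im]
  ring

private theorem hm_cr' (t : ℝ) (a h : ℂ) : cr ((t : ℂ) * a) h = t * cr a h := by
  unfold cr
  rw [Complex.re_ofReal_mul, Complex.im_ofReal_mul]
  ring

/-- the base case: no singular parameter -/
private theorem hm_base {L : X → ℝ} (hC : M.Cyl θ L) (κ : M.Germ)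
    {x : X} {W : ℂ} {c : ℝ} (hc : 0 < c) (hs : M.Sees x ((c : ℂ) * W) κ)
    (hno : ∀ s, 0 ≤ s → s < c → s ∉ M.Sing θ x W) {T α : ℝ} {x' : X} {n : ℤ}
    (hT : 0 ≤ cr (-((T : ℂ) * θ)) κ.h) (hx' : M.Seg x ((α : ℂ) * θ) x')
    (he : α + T * c = n * L x) : M.Sees x' ((c : ℂ) * (W + (T : ℂ) * θ)) κ := by
  obtain ⟨s₀, hs₀, hs₀1, hlast⟩ := sees_last hs
  have hW : 0 < cr (-((c : ℂ) * W)) κ.h := hs.1
  have hcW : cr (-((c : ℂ) * (W + (T : ℂ) * θ))) κ.h = cr (-((c : ℂ) * W)) κ.h +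
      c * cr (-((T : ℂ) * θ)) κ.h := by
    rw [← hm_cr', ← hm_cr]
    congr 1
    ring
  have hpos : 0 < cr (-((c : ℂ) * (W + (T : ℂ) * θ))) κ.h := by
    rw [hcW]
    have := mul_nonneg hc.le hT
    linarith
  set N : ℝ := ‖(c : ℂ) * (W + (T : ℂ) * θ)‖ with hN
  have hN0 : 0 ≤ N := norm_nonneg _
  have he0 := κ.he
  set s : ℝ := min (min s₀ (1 / 2)) (κ.e / (2 * (N + 1))) with hsdef
  have hspos : 0 < s := lt_min (lt_min hs₀ (by norm_num)) (by positivity)
  have hs1 : s ≤ s₀ := (min_le_left _ _).trans (min_le_left _ _)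
  have hs2 : s ≤ 1 / 2 := (min_le_left _ _).trans (min_le_right _ _)
  have hs3 : s ≤ κ.e / (2 * (N + 1)) := min_le_right _ _
  have hs4 : s * N < κ.e := by
    have h1 : s * (2 * (N + 1)) ≤ κ.e := (le_div_iff₀ (by positivity)).mp hs3
    nlinarith
  obtain ⟨hl1, hl2⟩ := hlast s hspos hs1
  refine ⟨hpos, s, hspos, by linarith, hs4, ?_⟩
  -- the germ segment
  have hw1 : 0 < cr (-((s : ℂ) * ((c : ℂ) * W))) κ.h := by
    have e : -((s : ℂ) * ((c : ℂ) * W)) = (s : ℂ) * (-((c : ℂ) * W)) := by ring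
    rw [e, hm_cr']
    exact mul_pos hspos hW
  have hw2 : 0 < cr (-((s : ℂ) * ((c : ℂ) * (W + (T : ℂ) * θ)))) κ.h := by
    have e : -((s : ℂ) * ((c : ℂ) * (W + (T : ℂ) * θ))) =
        (s : ℂ) * (-((c : ℂ) * (W + (T : ℂ) * θ))) := by ring
    rw [e, hm_cr']
    exact mul_pos hspos hpos
  have hn1 : ‖-((s : ℂ) * ((c : ℂ) * W))‖ < κ.e := by
    rw [norm_neg, norm_mul, Complex.norm_real, Real.norm_of_nonneg hspos.le]
    exact hl1
  have hn2 : ‖-((s : ℂ) * ((c : ℂ) * (W + (T : ℂ) * θ)))‖ < κ.e := by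
    rw [norm_neg, norm_mul, Complex.norm_real, Real.norm_of_nonneg hspos.le]
    exact hs4
  have hseg := κ.seg _ _ hw1.le hw2.le hn1 hn2 (by
    rintro ⟨a, b, ha, hb, hab, h0⟩
    have h1 : cr ((a : ℂ) * (-((s : ℂ) * ((c : ℂ) * W))) +
        (b : ℂ) * (-((s : ℂ) * ((c : ℂ) * (W + (T : ℂ) * θ))))) κ.h = 0 := by
      rw [Complex.real_smul, Complex.real_smul] at h0
      rw [h0]
      unfold cr
      simp
    rw [hm_cr, hm_cr', hm_cr'] at h1
    rcases eq_or_lt_of_le ha with ha' | ha'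
    · have hb' : b = 1 := by linarith
      rw [← ha', hb'] at h1
      linarith
    · have h2 := mul_pos ha' hw1
      have h3 := mul_nonneg hb hw2.le
      linarith)
  have hdisp : -((s : ℂ) * ((c : ℂ) * (W + (T : ℂ) * θ))) - -((s : ℂ) * ((c : ℂ) * W)) =
      ((-(s * c * T) : ℝ) : ℂ) * θ := by
    push_cast
    ring
  rw [hdisp] at hseg
  -- the point before the centre
  have hz : M.Seg x ((((1 - s) * c : ℝ) : ℂ) * W) (κ.k (-((s : ℂ) * ((c : ℂ) * W)))) := by
    have e : (((1 - s) * c : ℝ) : ℂ) * W = ((1 - s : ℝ) : ℂ) * ((c : ℂ) * W) := by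
      push_cast
      ring
    rw [e]
    exact hl2
  have h1s : 0 ≤ (1 - s) * c := mul_nonneg (by linarith) hc.le
  have hal := hm_al (θ := θ) (x := x) (W := W) h1s fun s' h1 h2 => hno s' h1 (by nlinarith)
  have hLz := hC.const _ _ _ hz hal
  have hzal : M.Alive θ (κ.k (-((s : ℂ) * ((c : ℂ) * W)))) := by
    refine hal 1 ⟨zero_le_one, le_rfl⟩ _ ?_
    rw [Complex.ofReal_one, one_mul]
    exact hz
  have hper := per_int (hC.per _ hzal) n
  rw [← hLz] at hper
  have hline := seg_line hper hseg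
  have hb := seg_shear_alive (a := α) (b := T * c * (1 - s)) hz hal hx' (by
    have e : α + T * c * (1 - s) = n * L x + -(s * c * T) := by
      rw [← he]
      ring
    rw [e]
    exact hline)
  have e : (((1 - s) * c : ℝ) : ℂ) * W + ((T * c * (1 - s) : ℝ) : ℂ) * θ =
      ((1 - s : ℝ) : ℂ) * ((c : ℂ) * (W + (T : ℂ) * θ)) := by
    push_cast
    ring
  rw [e] at hb
  exact hb

/-- crossing one singular point -/
private theorem hm_cross {L : X → ℝ} (hC : M.Cyl θ L) (hθ : ‖θ‖ = 1)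
    {x z zr : X} {W : ℂ} {s₁ r : ℝ} (hs₁ : 0 < s₁) (hr : s₁ < r)
    (hz : M.Seg x ((s₁ : ℂ) * W) z) (hzr : M.Seg x ((r : ℂ) * W) zr)
    (hno1 : ∀ s, 0 ≤ s → s < s₁ → s ∉ M.Sing θ x W)
    (hno2 : ∀ s, s₁ < s → s ≤ r → s ∉ M.Sing θ x W) :
    ∃ ε > 0, ∀ (T α : ℝ) (x' : X) (n : ℤ), M.Seg x ((α : ℂ) * θ) x' →
      |α + T * s₁ - n * L x| < ε → ∃ y, M.Seg zr (((α + T * r - n * L x : ℝ) : ℂ) * θ) y ∧
        M.Seg x' ((r : ℂ) * (W + (T : ℂ) * θ)) y := by
  have hρ := M.rad_pos z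
  refine ⟨M.rad z / 4, by linarith, ?_⟩
  intro T α x' n hx' hβ
  set β : ℝ := α + T * s₁ - n * L x with hβdef
  set N : ℝ := ‖W‖ + |T| + 1 with hN
  have hN1 : 1 ≤ N := by
    have := norm_nonneg W
    have := abs_nonneg T
    linarith
  have hN0 : 0 < N := by linarith
  set τ : ℝ := min (min (s₁ / 2) ((r - s₁) / 2)) (M.rad z / (16 * N)) with hτ
  have hτ0 : 0 < τ := lt_min (lt_min (by linarith) (by linarith)) (by positivity)
  have hτ1 : τ ≤ s₁ / 2 := (min_le_left _ _).trans (min_le_left _ _)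
  have hτ2 : τ ≤ (r - s₁) / 2 := (min_le_left _ _).trans (min_le_right _ _)
  have hτ3 : τ * N ≤ M.rad z / 16 := by
    have h1 : τ ≤ M.rad z / (16 * N) := min_le_right _ _
    have h2 : τ * (16 * N) ≤ M.rad z := (le_div_iff₀ (by positivity)).mp h1
    nlinarith
  have hτW : τ * ‖W‖ ≤ M.rad z / 16 := by
    have := mul_nonneg hτ0.le (abs_nonneg T)
    have e : τ * N = τ * ‖W‖ + τ * |T| + τ := by rw [hN]; ring
    linarith
  have hτT : τ * |T| ≤ M.rad z / 16 := by
    have := mul_nonneg hτ0.le (norm_nonneg W)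
    have e : τ * N = τ * ‖W‖ + τ * |T| + τ := by rw [hN]; ring
    linarith
  -- norms
  have hnθ : ∀ t : ℝ, ‖(t : ℂ) * θ‖ = |t| := fun t => by
    rw [norm_mul, hθ, mul_one, Complex.norm_real, Real.norm_eq_abs]
  have hnW : ∀ t : ℝ, ‖(t : ℂ) * W‖ = |t| * ‖W‖ := fun t => by
    rw [norm_mul, Complex.norm_real, Real.norm_eq_abs]
  have habsτ : |τ| = τ := abs_of_pos hτ0
  have habsτ' : |-τ| = τ := by rw [abs_neg, habsτ]
  have hb1 : |β - T * τ| ≤ M.rad z / 4 + M.rad z / 16 := by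
    have h1 := abs_sub β (T * τ)
    rw [abs_mul, habsτ] at h1
    linarith
  have hb2 : |β + T * τ| ≤ M.rad z / 4 + M.rad z / 16 := by
    have h1 := abs_add_le β (T * τ)
    rw [abs_mul, habsτ] at h1
    linarith
  -- the points of the old segment
  have hz1 : M.Seg z (((-τ : ℝ) : ℂ) * W) (M.add z (((-τ : ℝ) : ℂ) * W)) := by
    apply seg_add
    rw [hnW, habsτ']
    linarith
  have hz2 : M.Seg z ((τ : ℂ) * W) (M.add z ((τ : ℂ) * W)) := by
    apply seg_add
    rw [hnW, habsτ]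
    linarith
  have hx1 := seg_line hz hz1
  have hx2 := seg_line hz hz2
  -- the points of the new segment
  have hy1 : M.Seg (M.add z (((-τ : ℝ) : ℂ) * W)) (((β - T * τ : ℝ) : ℂ) * θ)
      (M.add z (((-τ : ℝ) : ℂ) * W + ((β - T * τ : ℝ) : ℂ) * θ)) := by
    apply hm_disc
    rw [hnW, hnθ, habsτ']
    linarith
  have hy2 : M.Seg (M.add z ((τ : ℂ) * W)) (((β + T * τ : ℝ) : ℂ) * θ)
      (M.add z ((τ : ℂ) * W + ((β + T * τ : ℝ) : ℂ) * θ)) := by
    apply hm_disc
    rw [hnW, hnθ, habsτ]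
    linarith
  have hmid : M.Seg (M.add z (((-τ : ℝ) : ℂ) * W + ((β - T * τ : ℝ) : ℂ) * θ))
      (((2 * τ : ℝ) : ℂ) * (W + (T : ℂ) * θ))
      (M.add z ((τ : ℂ) * W + ((β + T * τ : ℝ) : ℂ) * θ)) := by
    have e : (τ : ℂ) * W + ((β + T * τ : ℝ) : ℂ) * θ = (((-τ : ℝ) : ℂ) * W +
        ((β - T * τ : ℝ) : ℂ) * θ) + ((2 * τ : ℝ) : ℂ) * (W + (T : ℂ) * θ) := by
      push_cast
      ring
    rw [e]
    apply hm_disc
    have h1 := norm_add_le (((-τ : ℝ) : ℂ) * W) (((β - T * τ : ℝ) : ℂ) * θ)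
    rw [hnW, hnθ, habsτ'] at h1
    have h2 : ‖((2 * τ : ℝ) : ℂ) * (W + (T : ℂ) * θ)‖ ≤ 2 * (τ * ‖W‖) + 2 * (τ * |T|) := by
      rw [norm_mul, Complex.norm_real, Real.norm_eq_abs, abs_of_pos (by linarith : 0 < 2 * τ)]
      have h3 := norm_add_le W ((T : ℂ) * θ)
      rw [hnθ] at h3
      have h4 := mul_le_mul_of_nonneg_left h3 (by linarith : 0 ≤ 2 * τ)
      linarith
    linarith
  -- part 1: the shear before the singular point
  have hx1' : M.Seg x (((s₁ - τ : ℝ) : ℂ) * W) (M.add z (((-τ : ℝ) : ℂ) * W)) := by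
    have e : s₁ + -τ = s₁ - τ := by ring
    rw [e] at hx1
    exact hx1
  have hal1 := hm_al (θ := θ) (x := x) (W := W) (r := s₁ - τ) (by linarith)
    fun s h1 h2 => hno1 s h1 (by linarith)
  have hL1 := hC.const _ _ _ hx1' hal1
  have hal1' : M.Alive θ (M.add z (((-τ : ℝ) : ℂ) * W)) := by
    refine hal1 1 ⟨zero_le_one, le_rfl⟩ _ ?_
    rw [Complex.ofReal_one, one_mul]
    exact hx1'
  have hper1 := per_int (hC.per _ hal1') n
  rw [← hL1] at hper1
  have hl1 := seg_line hper1 hy1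
  have hp1 := seg_shear_alive (a := α) (b := T * (s₁ - τ)) hx1' hal1 hx' (by
    have e : α + T * (s₁ - τ) = n * L x + (β - T * τ) := by
      rw [hβdef]
      ring
    rw [e]
    exact hl1)
  have e1 : ((s₁ - τ : ℝ) : ℂ) * W + ((T * (s₁ - τ) : ℝ) : ℂ) * θ =
      ((s₁ - τ : ℝ) : ℂ) * (W + (T : ℂ) * θ) := by
    push_cast
    ring
  rw [e1] at hp1
  -- part 3: the shear behind the singular point
  have hx2' : M.Seg (M.add z ((τ : ℂ) * W)) (((r - (s₁ + τ) : ℝ) : ℂ) * W) zr := by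
    have h1 := seg_symm hx2
    have h2 : -(((s₁ + τ : ℝ) : ℂ) * W) = ((-(s₁ + τ) : ℝ) : ℂ) * W := by
      push_cast
      ring
    rw [h2] at h1
    have h3 := seg_line h1 hzr
    have h4 : -(s₁ + τ) + r = r - (s₁ + τ) := by ring
    rw [h4] at h3
    exact h3
  have hal2 := hm_al (θ := θ) (x := M.add z ((τ : ℂ) * W)) (W := W) (r := r - (s₁ + τ))
    (by linarith) fun s h1 h2 => by
      rw [hm_shift hx2]
      exact hno2 _ (by linarith) (by linarith)
  have halr : M.Alive θ zr := by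
    refine hal2 1 ⟨zero_le_one, le_rfl⟩ _ ?_
    rw [Complex.ofReal_one, one_mul]
    exact hx2'
  obtain ⟨y, hy⟩ := halr (α + T * r - n * L x)
  refine ⟨y, hy, ?_⟩
  have hp2 := seg_shear_alive (a := β + T * τ) (b := T * (r - (s₁ + τ))) hx2' hal2 hy2 (by
    have e : β + T * τ + T * (r - (s₁ + τ)) = α + T * r - n * L x := by
      rw [hβdef]
      ring
    rw [e]
    exact hy)
  have e2 : ((r - (s₁ + τ) : ℝ) : ℂ) * W + ((T * (r - (s₁ + τ)) : ℝ) : ℂ) * θ =
      ((r - (s₁ + τ) : ℝ) : ℂ) * (W + (T : ℂ) * θ) := by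
    push_cast
    ring
  rw [e2] at hp2
  have hfin := seg_line (seg_line hp1 hmid) hp2
  have e3 : s₁ - τ + 2 * τ + (r - (s₁ + τ)) = r := by ring
  rw [e3] at hfin
  exact hfin

/-- the induction over the singular parameters -/
private theorem hm_main (hθ : ‖θ‖ = 1) {L : X → ℝ} (hC : M.Cyl θ L) (κ : M.Germ)
    (K : Submodule ℚ ℝ) (W : ℂ) : ∀ (k : ℕ) (x : X) (c : ℝ), 0 < c →
    M.Sees x ((c : ℂ) * W) κ → M.Alive θ x → (M.Sing θ x W ∩ Ico 0 c).Finite →
    (M.Sing θ x W ∩ Ico 0 c).ncard = k →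
    (∀ (s s' : ℝ) z, 0 < s → s < s' → s' < c → s ∈ M.Sing θ x W → s' ∈ M.Sing θ x W →
      (∀ r ∈ Ioo s s', r ∉ M.Sing θ x W) → M.Seg x ((((s + s') / 2 : ℝ) : ℂ) * W) z →
      |cr W θ| * (s' - s) / L z ∈ K) →
    (∀ (s : ℝ) z, 0 < s → s < c → s ∈ M.Sing θ x W →
      (∀ r ∈ Ioo s c, r ∉ M.Sing θ x W) → M.Seg x ((((s + c) / 2 : ℝ) : ℂ) * W) z →
      |cr W θ| * (c - s) / L z ∈ K) →
    ∃ (d : ℝ) (l : List (ℝ × ℝ)), 0 < d ∧ d ≤ c ∧ (d < c → d ∈ M.Sing θ x W) ∧
      (∀ r, 0 ≤ r → r < d → r ∉ M.Sing θ x W) ∧ (l = [] → d = c) ∧ (l ≠ [] → d < c) ∧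
      (∀ p ∈ l, 0 < p.1 ∧ 0 < p.2 ∧ |cr W θ| * p.1 / p.2 ∈ K) ∧
      d + (l.map Prod.fst).sum = c ∧ ∃ ε > 0, ∀ (T α : ℝ) (x' : X) (n : ℤ),
        0 ≤ cr (-((T : ℂ) * θ)) κ.h → M.Seg x ((α : ℂ) * θ) x' →
        HChain ε T (α + T * d - n * L x) l → M.Sees x' ((c : ℂ) * (W + (T : ℂ) * θ)) κ := by
  intro k
  induction k using Nat.strong_induction_on with
  | _ k ih =>
  intro x c hc hs hx hfin hk hmid hlast
  have h0 : (0 : ℝ) ∉ M.Sing θ x W := by
    rintro ⟨z, h1, h2⟩
    rw [Complex.ofReal_zero, zero_mul] at h1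
    have := seg_unique h1 (seg_refl x)
    rw [this] at h2
    exact h2 hx
  by_cases hemp : M.Sing θ x W ∩ Ico 0 c = ∅
  · -- no singular parameter
    have hno : ∀ s, 0 ≤ s → s < c → s ∉ M.Sing θ x W := fun s h1 h2 h3 => by
      have : s ∈ M.Sing θ x W ∩ Ico 0 c := ⟨h3, h1, h2⟩
      rw [hemp] at this
      exact this
    refine ⟨c, [], hc, le_rfl, fun h => absurd h (lt_irrefl _), hno, fun _ => rfl,
      fun h => absurd rfl h, fun p hp => absurd hp (List.not_mem_nil), by simp, 1, one_pos, ?_⟩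
    intro T α x' n hT hx' hch
    have h1 : α + T * c - n * L x = 0 := hch
    exact hm_base hC κ hc hs hno hT hx' (by linarith)
  -- the first singular parameter
  have hne : (M.Sing θ x W ∩ Ico 0 c).Nonempty := Set.nonempty_iff_ne_empty.mpr hemp
  obtain ⟨s₁, ⟨hs₁S, hs₁0, hs₁c⟩, hs₁min⟩ := hfin.exists_minimalFor (fun s : ℝ => s) _ hne
  have hs₁min' : ∀ s, 0 ≤ s → s < s₁ → s ∉ M.Sing θ x W := fun s h1 h2 h3 => by
    have h4 := hs₁min ⟨h3, h1, h2.trans hs₁c⟩ h2.le
    exact absurd h4 (not_le.mpr h2)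
  have hs₁pos : 0 < s₁ := lt_of_le_of_ne hs₁0 fun h => h0 (h ▸ hs₁S)
  -- a parameter r behind s₁
  obtain ⟨r, hr1, hrc, hr2⟩ : ∃ r, s₁ < r ∧ r < c ∧ ∀ s, s₁ < s → s ≤ r → s ∉ M.Sing θ x W := by
    by_cases hem2 : M.Sing θ x W ∩ Ioo s₁ c = ∅
    · refine ⟨(s₁ + c) / 2, by linarith, by linarith, fun s h1 h2 h3 => ?_⟩
      have : s ∈ M.Sing θ x W ∩ Ioo s₁ c := ⟨h3, h1, by linarith⟩
      rw [hem2] at this
      exact this
    · have hfin2 : (M.Sing θ x W ∩ Ioo s₁ c).Finite :=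
        hfin.subset fun s hs => ⟨hs.1, hs₁0.trans hs.2.1.le, hs.2.2⟩
      obtain ⟨s₂, ⟨hs₂S, hs₂1, hs₂c⟩, hs₂min⟩ := hfin2.exists_minimalFor (fun s : ℝ => s) _
        (Set.nonempty_iff_ne_empty.mpr hem2)
      refine ⟨(s₁ + s₂) / 2, by linarith, by linarith, fun s h1 h2 h3 => ?_⟩
      have h4 : s < s₂ := by linarith
      exact absurd (hs₂min ⟨h3, h1, h4.trans hs₂c⟩ h4.le) (not_le.mpr h4)
  have hr0 : 0 < r := hs₁pos.trans hr1
  obtain ⟨z₁, hz₁, -⟩ := hm_pt hc hs hs₁0 hs₁c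
  obtain ⟨zr, hzr, hzrs⟩ := hm_pt hc hs hr0.le hrc
  have halr : M.Alive θ zr := by
    by_contra hcon
    exact hr2 r hr1 le_rfl ⟨zr, hzr, hcon⟩
  have hshift : ∀ s : ℝ, s ∈ M.Sing θ zr W ↔ r + s ∈ M.Sing θ x W := fun s => hm_shift hzr
  -- the smaller set
  have himg : (fun s : ℝ => r + s) '' (M.Sing θ zr W ∩ Ico 0 (c - r)) ⊆
      M.Sing θ x W ∩ Ico 0 c := by
    rintro _ ⟨s, ⟨h1, h2, h3⟩, rfl⟩
    exact ⟨(hshift s).mp h1, by positivity, by linarith⟩
  have hinj : Set.InjOn (fun s : ℝ => r + s) (M.Sing θ zr W ∩ Ico 0 (c - r)) :=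
    fun a _ b _ hab => add_left_cancel hab
  have hfin' : (M.Sing θ zr W ∩ Ico 0 (c - r)).Finite :=
    Set.Finite.of_finite_image (hfin.subset himg) hinj
  have hcard : (M.Sing θ zr W ∩ Ico 0 (c - r)).ncard < k := by
    rw [← hk, ← hinj.ncard_image]
    refine Set.ncard_lt_ncard ⟨himg, fun hsub => ?_⟩ hfin
    obtain ⟨s, ⟨-, h2, -⟩, h3⟩ := hsub ⟨hs₁S, hs₁0, hs₁c⟩
    have h4 : r + s = s₁ := h3
    linarith
  obtain ⟨d, l, hd0, hdc, hdS, hdno, hl1, hl2, hlK, hlsum, ε, hε, hgood⟩ :=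
    ih _ hcard zr (c - r) (by linarith) hzrs halr hfin' rfl (by
      intro s s' z h1 h2 h3 h4 h5 h6 h7
      have h8 : r + (s + s') / 2 = ((r + s) + (r + s')) / 2 := by ring
      have h9 := hmid (r + s) (r + s') z (by linarith) (by linarith) (by linarith)
        ((hshift s).mp h4) ((hshift s').mp h5) (fun t ht => by
          have h10 := h6 (t - r) ⟨by linarith [ht.1], by linarith [ht.2]⟩
          rw [hshift] at h10
          have h11 : r + (t - r) = t := by ring
          rw [h11] at h10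
          exact h10) (by
          rw [← h8]
          exact seg_line hzr h7)
      have h12 : r + s' - (r + s) = s' - s := by ring
      rw [h12] at h9
      exact h9) (by
      intro s z h1 h2 h4 h6 h7
      have h8 : r + (s + (c - r)) / 2 = ((r + s) + c) / 2 := by ring
      have h9 := hlast (r + s) z (by linarith) (by linarith) ((hshift s).mp h4) (fun t ht => by
          have h10 := h6 (t - r) ⟨by linarith [ht.1], by linarith [ht.2]⟩
          rw [hshift] at h10
          have h11 : r + (t - r) = t := by ring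
          rw [h11] at h10
          exact h10) (by
          rw [← h8]
          exact seg_line hzr h7)
      have h12 : c - (r + s) = c - r - s := by ring
      rw [h12] at h9
      exact h9)
  -- the second singular parameter
  have hno12 : ∀ t, s₁ < t → t < r + d → t ∉ M.Sing θ x W := by
    intro t h1 h2
    by_cases h3 : t ≤ r
    · exact hr2 t h1 h3
    · have h4 := hdno (t - r) (by linarith) (by linarith)
      rw [hshift] at h4
      have h5 : r + (t - r) = t := by ring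
      rw [h5] at h4
      exact h4
  have hs12 : |cr W θ| * (r + d - s₁) / L zr ∈ K := by
    -- the middle point
    have hm0 : 0 ≤ (s₁ + (r + d)) / 2 := by linarith
    have hm1 : (s₁ + (r + d)) / 2 < c := by linarith
    obtain ⟨zm, hzm, -⟩ := hm_pt hc hs hm0 hm1
    have hLm : L zr = L zm := by
      -- both on one alive segment
      rcases le_total r ((s₁ + (r + d)) / 2) with hle | hle
      · have h1 : M.Seg zr ((((s₁ + (r + d)) / 2 - r : ℝ) : ℂ) * W) zm := by
          have h1 := seg_symm hzr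
          have h2 : -((r : ℂ) * W) = ((-r : ℝ) : ℂ) * W := by
            push_cast
            ring
          rw [h2] at h1
          have h3 := seg_line h1 hzm
          have h4 : -r + (s₁ + (r + d)) / 2 = (s₁ + (r + d)) / 2 - r := by ring
          rw [h4] at h3
          exact h3
        refine hC.const _ _ _ h1 (hm_al (by linarith) fun s h2 h3 => ?_)
        rw [hshift]
        exact hno12 _ (by linarith) (by linarith)
      · have h1 : M.Seg zm (((r - (s₁ + (r + d)) / 2 : ℝ) : ℂ) * W) zr := by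
          have h1 := seg_symm hzm
          have h2 : -((((s₁ + (r + d)) / 2 : ℝ) : ℂ) * W) =
              ((-((s₁ + (r + d)) / 2) : ℝ) : ℂ) * W := by
            push_cast
            ring
          rw [h2] at h1
          have h3 := seg_line h1 hzr
          have h4 : -((s₁ + (r + d)) / 2) + r = r - (s₁ + (r + d)) / 2 := by ring
          rw [h4] at h3
          exact h3
        refine (hC.const _ _ _ h1 (hm_al (by linarith) fun s h2 h3 => ?_)).symm
        rw [hm_shift hzm]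
        exact hno12 _ (by linarith) (by linarith)
    rw [hLm]
    by_cases hdc' : d < c - r
    · exact hmid s₁ (r + d) zm hs₁pos (by linarith) (by linarith) hs₁S
        ((hshift d).mp (hdS hdc')) (fun t ht => hno12 t ht.1 ht.2) hzm
    · have hdc'' : r + d = c := by linarith
      rw [hdc''] at hzm hno12 ⊢
      exact hlast s₁ zm hs₁pos hs₁c hs₁S (fun t ht => hno12 t ht.1 ht.2) hzm
  obtain ⟨ε', hε', hcross⟩ := hm_cross hC hθ hs₁pos hr1 hz₁ hzr hs₁min' hr2
  refine ⟨s₁, (r + d - s₁, L zr) :: l, hs₁pos, hs₁c.le, fun _ => hs₁S, hs₁min',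
    fun h => absurd h (List.cons_ne_nil _ _), fun _ => hs₁c, ?_, ?_, min ε ε', lt_min hε hε', ?_⟩
  · intro p hp
    rcases List.mem_cons.mp hp with rfl | hp
    · exact ⟨by show 0 < r + d - s₁; linarith, hC.pos _ halr, hs12⟩
    · exact hlK p hp
  · rw [List.map_cons, List.sum_cons]
    show s₁ + ((r + d - s₁) + _) = c
    linarith
  · intro T α x' n hT hx' hch
    obtain ⟨hβ, n', hch'⟩ := hch
    obtain ⟨y, hy1, hy2⟩ := hcross T α x' n hx' (lt_of_lt_of_le hβ (min_le_right _ _))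
    have h1 := hgood T (α + T * r - n * L x) y n' hT hy1 (hchain_mono (min_le_left _ _) _ _ (by
      have e : α + T * r - n * L x + T * d - n' * L zr =
          α + T * s₁ - n * L x + T * (r + d - s₁) - n' * L zr := by ring
      rw [e]
      exact hch'))
    exact hm_back hc hr0.le hrc hy2 h1

theorem hmove (hθ : ‖θ‖ = 1) {L : X → ℝ} (hC : M.Cyl θ L) (κ : M.Germ) (K : Submodule ℚ ℝ)
    {x : X} {W : ℂ} (hs : M.Sees x W κ) (hx : M.Alive θ x) (hW : cr W θ ≠ 0)
    (hmid : ∀ (s s' : ℝ) z, 0 < s → s < s' → s' < 1 → s ∈ M.Sing θ x W → s' ∈ M.Sing θ x W →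
      (∀ r ∈ Ioo s s', r ∉ M.Sing θ x W) → M.Seg x ((((s + s') / 2 : ℝ) : ℂ) * W) z →
      |cr W θ| * (s' - s) / L z ∈ K)
    (hlast : ∀ (s : ℝ) z, 0 < s → s < 1 → s ∈ M.Sing θ x W →
      (∀ r ∈ Ioo s 1, r ∉ M.Sing θ x W) → M.Seg x ((((s + 1) / 2 : ℝ) : ℂ) * W) z →
      |cr W θ| * (1 - s) / L z ∈ K)
    (hfirst : ∀ s : ℝ, 0 < s → s < 1 → s ∈ M.Sing θ x W → (∀ r ∈ Ioo 0 s, r ∉ M.Sing θ x W) →
      |cr W θ| * s / L x ∉ K)
    (α : ℝ) {x' : X} (hx' : M.Seg x ((α : ℂ) * θ) x') (σ : ℝ) (hσ : σ = 1 ∨ σ = -1)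
    (hσκ : 0 ≤ cr (-((σ : ℂ) * θ)) κ.h) (T0 : ℝ) :
    ∃ T : ℝ, T0 < σ * T ∧ M.Sees x' (W + (T : ℂ) * θ) κ := by
  have hσσ : σ * σ = 1 := by rcases hσ with rfl | rfl <;> norm_num
  have hs' : M.Sees x (((1 : ℝ) : ℂ) * W) κ := by
    rw [Complex.ofReal_one, one_mul]
    exact hs
  have hfin := germ_fin hθ hC hs hW
  obtain ⟨d, l, hd0, hd1, hdS, hdno, hl1, hl2, hlK, hlsum, ε, hε, hgood⟩ :=
    hm_main hθ hC κ K W _ x 1 one_pos hs' hx hfin rfl hmid hlast
  have hLx := hC.pos x hx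
  have hTcr : ∀ T : ℝ, 0 ≤ σ * T → 0 ≤ cr (-((T : ℂ) * θ)) κ.h := by
    intro T hT
    have e : -((T : ℂ) * θ) = ((σ * T : ℝ) : ℂ) * (-((σ : ℂ) * θ)) := by
      have h1 : (σ : ℂ) * (σ : ℂ) = 1 := by exact_mod_cast hσσ
      push_cast
      linear_combination (T : ℂ) * θ * h1
    rw [e, hm_cr']
    exact mul_nonneg hT hσκ
  by_cases hl : l = []
  · -- no singular parameter: T = n L - α
    have hd := hl1 hl
    obtain ⟨k, hk⟩ := exists_nat_gt ((max T0 0 + σ * α) / L x)
    have hk' : max T0 0 + σ * α < k * L x := (div_lt_iff₀ hLx).mp hk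
    obtain ⟨n, hn⟩ : ∃ n : ℤ, (n : ℝ) = σ * k := by
      rcases hσ with rfl | rfl
      · exact ⟨k, by push_cast; ring⟩
      · exact ⟨-k, by push_cast; ring⟩
    have hT : σ * (n * L x - α) = k * L x - σ * α := by
      rw [hn]
      linear_combination (k * L x) * hσσ
    refine ⟨n * L x - α, ?_, ?_⟩
    · rw [hT]
      have := le_max_left T0 0
      linarith
    · have h1 := hgood (n * L x - α) α x' n (hTcr _ (by
        rw [hT]
        have := le_max_right T0 0
        linarith)) hx' (by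
        rw [hl, hd]
        show α + (n * L x - α) * 1 - n * L x = 0
        ring)
      rw [Complex.ofReal_one, one_mul] at h1
      exact h1
  · -- Kronecker
    have hd := hl2 hl
    have hcr : 0 < |cr W θ| := abs_pos.mpr hW
    set ε₁ : ℝ := ε / (4 * (l.length + 1)) with hε₁
    have hlen : (0 : ℝ) ≤ (l.length : ℝ) := Nat.cast_nonneg _
    have hε₁0 : 0 < ε₁ := by positivity
    -- a common bound of the periods
    obtain ⟨B, hB0, hBx, hBl⟩ : ∃ B : ℝ, 0 < B ∧ L x ≤ B ∧ ∀ p ∈ l, p.2 ≤ B := by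
      have hbd : ∀ l' : List (ℝ × ℝ), ∃ B : ℝ, ∀ p ∈ l', p.2 ≤ B := by
        intro l'
        induction l' with
        | nil => exact ⟨0, fun p hp => absurd hp List.not_mem_nil⟩
        | cons q l' ih' =>
          obtain ⟨B, hB⟩ := ih'
          refine ⟨max B q.2, fun p hp => ?_⟩
          rcases List.mem_cons.mp hp with rfl | hp
          · exact le_max_right _ _
          · exact (hB p hp).trans (le_max_left _ _)
      obtain ⟨B, hB⟩ := hbd l
      exact ⟨max B (L x), lt_of_lt_of_le hLx (le_max_right _ _), le_max_right _ _,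
        fun p hp => (hB p hp).trans (le_max_left _ _)⟩
    set al : Option (Fin l.length) → ℝ := fun o => match o with
      | none => d / L x
      | some i => (l.get i).1 / (l.get i).2 with hal
    set be : Option (Fin l.length) → ℝ := fun o => match o with
      | none => -(σ * α / L x)
      | some _ => 0 with hbe
    have hHyp : ∀ n : Option (Fin l.length) → ℤ, ∑ i, (n i : ℝ) * al i = 0 →
        ∃ m : ℤ, ∑ i, (n i : ℝ) * be i = m := by
      intro n hn
      rw [Fintype.sum_option] at hn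
      have hnn : n none = 0 := by
        by_contra hne
        have hne' : (n none : ℝ) ≠ 0 := by exact_mod_cast hne
        refine hfirst d hd0 hd (hdS hd) (fun r hr => hdno r hr.1.le hr.2) ?_
        have hsum : (∑ i : Fin l.length, (n (some i) : ℝ) * (|cr W θ| * (l.get i).1 / (l.get i).2))
            ∈ K := by
          refine Submodule.sum_mem _ fun i _ => ?_
          have h1 := (hlK (l.get i) (List.get_mem l i)).2.2
          have h2 := K.smul_mem (n (some i) : ℚ) h1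
          rw [Rat.smul_def] at h2
          push_cast at h2
          exact h2
        have h3 := K.smul_mem (-(1 / (n none : ℚ))) hsum
        rw [Rat.smul_def] at h3
        have h4 : ((-(1 / (n none : ℚ)) : ℚ) : ℝ) *
            (∑ i : Fin l.length, (n (some i) : ℝ) * (|cr W θ| * (l.get i).1 / (l.get i).2)) =
            |cr W θ| * d / L x := by
          have h5 : (∑ i : Fin l.length, (n (some i) : ℝ) *
              (|cr W θ| * (l.get i).1 / (l.get i).2)) =
              |cr W θ| * ∑ i : Fin l.length, (n (some i) : ℝ) * al (some i) := by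
            rw [Finset.mul_sum]
            refine Finset.sum_congr rfl fun i _ => ?_
            show _ = |cr W θ| * ((n (some i) : ℝ) * ((l.get i).1 / (l.get i).2))
            ring
          have h6 : (∑ i : Fin l.length, (n (some i) : ℝ) * al (some i)) =
              -((n none : ℝ) * (d / L x)) := by
            have h7 : (n none : ℝ) * al none = (n none : ℝ) * (d / L x) := rfl
            rw [h7] at hn
            linarith
          rw [h5, h6]
          push_cast
          field_simp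
        rw [h4] at h3
        exact h3
      refine ⟨0, ?_⟩
      rw [Fintype.sum_option, hnn]
      simp [hbe]
    obtain ⟨t, ht, hkr⟩ := H25R.kronecker al be hHyp (ε₁ / B) (div_pos hε₁0 hB0)
      (max T0 0 + ε)
    -- the approximations
    have happ : ∀ p ∈ l, 0 < p.1 ∧ ∃ n : ℤ, |σ * t * p.1 - n * p.2| < ε₁ := by
      intro p hp
      refine ⟨(hlK p hp).1, ?_⟩
      obtain ⟨i, hi⟩ := List.get_of_mem hp
      obtain ⟨m, hm⟩ := hkr (some i)
      have hm' : |t * (p.1 / p.2) - 0 - m| < ε₁ / B := by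
        rw [← hi]
        exact hm
      have hp2 := (hlK p hp).2.1
      obtain ⟨n, hn⟩ : ∃ n : ℤ, (n : ℝ) = σ * m := by
        rcases hσ with rfl | rfl
        · exact ⟨m, by ring⟩
        · exact ⟨-m, by push_cast; ring⟩
      refine ⟨n, ?_⟩
      have e : σ * t * p.1 - n * p.2 = σ * ((t * (p.1 / p.2) - 0 - m) * p.2) := by
        rw [hn]
        field_simp
        ring
      rw [e, abs_mul, abs_mul, abs_of_pos hp2]
      have hσ1 : |σ| = 1 := by rcases hσ with rfl | rfl <;> simp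
      rw [hσ1, one_mul]
      calc |t * (p.1 / p.2) - 0 - m| * p.2 < ε₁ / B * p.2 := mul_lt_mul_of_pos_right hm' hp2
        _ ≤ ε₁ / B * B := mul_le_mul_of_nonneg_left (hBl p hp) (div_pos hε₁0 hB0).le
        _ = ε₁ := div_mul_cancel₀ _ hB0.ne'
    obtain ⟨n, hn⟩ : ∃ n : ℤ, |α + σ * t * d - n * L x| < ε₁ := by
      obtain ⟨m, hm⟩ := hkr none
      have hm' : |t * (d / L x) - -(σ * α / L x) - m| < ε₁ / B := hm
      obtain ⟨n, hn⟩ : ∃ n : ℤ, (n : ℝ) = σ * m := by
        rcases hσ with rfl | rfl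
        · exact ⟨m, by ring⟩
        · exact ⟨-m, by push_cast; ring⟩
      refine ⟨n, ?_⟩
      have e : α + σ * t * d - n * L x = σ * ((t * (d / L x) - -(σ * α / L x) - m) * L x) := by
        rw [hn]
        have e1 : (t * (d / L x) - -(σ * α / L x) - m) * L x = t * d + σ * α - m * L x := by
          field_simp
          ring
        rw [e1]
        linear_combination (-α) * hσσ
      rw [e, abs_mul, abs_mul, abs_of_pos hLx]
      have hσ1 : |σ| = 1 := by rcases hσ with rfl | rfl <;> simp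
      rw [hσ1, one_mul]
      calc |t * (d / L x) - -(σ * α / L x) - m| * L x < ε₁ / B * L x :=
            mul_lt_mul_of_pos_right hm' hLx
        _ ≤ ε₁ / B * B := mul_le_mul_of_nonneg_left hBx (div_pos hε₁0 hB0).le
        _ = ε₁ := div_mul_cancel₀ _ hB0.ne'
    obtain ⟨Δ, hΔ, hchain⟩ := hchain_of_approx l happ
    set β₀ : ℝ := α + σ * t * d - n * L x with hβ₀
    set η : ℝ := -(β₀ + Δ) with hη
    have hηabs : |η| ≤ (l.length + 1) * ε₁ := by
      rw [hη, abs_neg]
      have := abs_add_le β₀ Δ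
      linarith
    have hε₁' : (l.length + 1) * ε₁ = ε / 4 := by
      rw [hε₁]
      field_simp
    have hsum0 : 0 ≤ (l.map Prod.fst).sum := by
      apply List.sum_nonneg
      intro a ha
      obtain ⟨q, hq, rfl⟩ := List.mem_map.mp ha
      exact (hlK q hq).1.le
    have hch : HChain ε (σ * t + η) (α + (σ * t + η) * d - n * L x) l := by
      apply hchain
      · have e : α + (σ * t + η) * d - n * L x + Δ + η * (l.map Prod.fst).sum =
            β₀ + Δ + η * (d + (l.map Prod.fst).sum) := by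
          rw [hβ₀]
          ring
        rw [e, hlsum, hη]
        ring
      · have e : α + (σ * t + η) * d - n * L x = β₀ + η * d := by
          rw [hβ₀]
          ring
        rw [e]
        have h1 := abs_add_le β₀ (η * d)
        rw [abs_mul, abs_of_pos hd0] at h1
        have h2 : |η| * d + |η| * (l.map Prod.fst).sum = |η| := by
          rw [← mul_add, hlsum, mul_one]
        linarith
    have hσT : σ * (σ * t + η) = t + σ * η := by
      linear_combination t * hσσ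
    have hση : |σ * η| ≤ ε / 4 := by
      rw [abs_mul]
      have hσ1 : |σ| = 1 := by rcases hσ with rfl | rfl <;> simp
      rw [hσ1, one_mul]
      linarith
    have hση' := (abs_le.mp hση).1
    have hm1 := le_max_left T0 0
    have hm2 := le_max_right T0 0
    refine ⟨σ * t + η, by rw [hσT]; linarith, ?_⟩
    have h1 := hgood (σ * t + η) α x' n (hTcr _ (by rw [hσT]; linarith)) hx' hch
    rw [Complex.ofReal_one, one_mul] at h1
    exact h1

end Pool.Agent.Lib.H25D.TSurf
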