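import Pool.Agent.Lib.H25D.Defs

/-!
# H25D, chunks B4a, B4b: points independent over a countable field; linear algebra
-/

open Set

namespace Pool.Agent.Lib.H25D

/-- `1`, `q.re`, `q.im` are linearly independent over the subfield `F` of `ℝ`. -/
def Indep3 (F : Subfield ℝ) (q : ℂ) : Prop :=
  ∀ a b c : ℝ, a ∈ F → b ∈ F → c ∈ F → a + b * q.re + c * q.im = 0 → a = 0 ∧ b = 0 ∧ c = 0

/-- chunk B4a: for a countable field there are many such points -/
theorem exists_indep3 (F : Subfield ℝ) (hF : (F : Set ℝ).Countable) (U : Set ℂ) (hU : IsOpen U)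
    (hne : U.Nonempty) : ∃ q ∈ U, Indep3 F q := by
  obtain ⟨z, hz⟩ := hne
  obtain ⟨ε, hε, hb⟩ := Metric.isOpen_iff.1 hU z hz
  have hδ : 0 < ε / 2 := half_pos hε
  -- the real part
  have hd1 : Dense ((F : Set ℝ)ᶜ) := hF.dense_compl ℝ
  obtain ⟨x, hx1, hx2⟩ := hd1.inter_open_nonempty (Ioo (z.re - ε / 2) (z.re + ε / 2)) isOpen_Ioo
    ⟨z.re, by constructor <;> linarith⟩
  -- the imaginary part
  have hS : (((fun p : ℝ × ℝ × ℝ => -(p.1 + p.2.1 * x) / p.2.2) ''
      ((F : Set ℝ) ×ˢ ((F : Set ℝ) ×ˢ (F : Set ℝ))))).Countable :=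
    (hF.prod (hF.prod hF)).image _
  have hd2 := hS.dense_compl ℝ
  obtain ⟨y, hy1, hy2⟩ := hd2.inter_open_nonempty (Ioo (z.im - ε / 2) (z.im + ε / 2)) isOpen_Ioo
    ⟨z.im, by constructor <;> linarith⟩
  refine ⟨⟨x, y⟩, hb ?_, ?_⟩
  · rw [Metric.mem_ball, dist_eq_norm]
    have h1 := Complex.norm_le_abs_re_add_abs_im ((⟨x, y⟩ : ℂ) - z)
    have h2 : |((⟨x, y⟩ : ℂ) - z).re| < ε / 2 := by
      rw [Complex.sub_re, abs_lt]
      constructor
      · linarith [hx1.1]
      · linarith [hx1.2]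
    have h3 : |((⟨x, y⟩ : ℂ) - z).im| < ε / 2 := by
      rw [Complex.sub_im, abs_lt]
      constructor
      · linarith [hy1.1]
      · linarith [hy1.2]
    linarith
  · intro a b c ha hb' hc h
    change a + b * x + c * y = 0 at h
    have hc0 : c = 0 := by
      by_contra hc0
      apply hy2
      refine ⟨(a, b, c), ⟨ha, hb', hc⟩, ?_⟩
      show -(a + b * x) / c = y
      rw [div_eq_iff hc0]
      linarith
    have hb0 : b = 0 := by
      by_contra hb0
      apply hx2
      have h1 : x = -a / b := by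
        rw [eq_div_iff hb0]
        rw [hc0] at h
        linarith
      rw [h1]
      exact F.div_mem (F.neg_mem ha) hb'
    refine ⟨?_, hb0, hc0⟩
    rw [hb0, hc0] at h
    linarith

end Pool.Agent.Lib.H25D
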