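import Pool.Agent.Lib.H25D.HMove
import Pool.Agent.Lib.H25D.Bdry

/-!
# H25D, chunk B2: the H-move for free points, and the condition `Ok` at the centre
-/

open Set

namespace Pool.Agent.Lib.H25D.TSurf

variable {X : Type} {M : TSurf X} {θ : ℂ}

private theorem mv_cast (t : ℝ) (W : ℂ) : -((t : ℂ) * W) = ((-t : ℝ) : ℂ) * W := by
  push_cast
  ring

/-- the point between two points of a line -/
private theorem mv_rel {x z z' : X} {W : ℂ} {m r : ℝ} (h : M.Seg x ((m : ℂ) * W) z)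
    (h' : M.Seg x ((r : ℂ) * W) z') : M.Seg z (((r - m : ℝ) : ℂ) * W) z' := by
  have h1 := seg_symm h
  rw [mv_cast] at h1
  have h2 := seg_line h1 h'
  have e : -m + r = r - m := by ring
  rw [e] at h2
  exact h2

private theorem mv_exists {x : X} {W : ℂ} {s r : ℝ} (h : s ∈ M.Sing θ x W) (hr0 : 0 ≤ r)
    (hrs : r ≤ s) : ∃ z, M.Seg x ((r : ℂ) * W) z := by
  obtain ⟨z, hz, -⟩ := h
  obtain ⟨z', hz', -⟩ := seg_part hz (s := r) (by
    rw [uIcc_of_le (hr0.trans hrs)]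
    exact ⟨hr0, hrs⟩)
  exact ⟨z', hz'⟩

private theorem mv_alive {x z : X} {W : ℂ} {r : ℝ} (h : M.Seg x ((r : ℂ) * W) z)
    (hr : r ∉ M.Sing θ x W) : M.Alive θ z := by
  by_contra hno
  exact hr ⟨z, h, hno⟩

private theorem mv_not {x z : X} {W : ℂ} {m s : ℝ} (h : M.Seg x ((m : ℂ) * W) z)
    (hs : s ∈ M.Sing θ x W) : ¬ ∃ z', M.Seg z (((s - m : ℝ) : ℂ) * W) z' ∧ M.Alive θ z' := by
  rintro ⟨z', hz', hal⟩
  obtain ⟨z'', hz'', hno⟩ := hs
  have h1 := seg_line h hz'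
  have e : m + (s - m) = s := by ring
  rw [e] at h1
  rw [seg_unique hz'' h1] at hno
  exact hno hal

private theorem mv_cr_neg (W θ : ℂ) : cr (-W) θ = -cr W θ := by
  simp [cr]
  ring

/-- the strip around `z` on the segment, forward part -/
private theorem mv_fwd (hθ : ‖θ‖ = 1) {x z : X} {W : ℂ} (hW : cr W θ ≠ 0) {m b : ℝ}
    (hmb : m < b) (hz : M.Seg x ((m : ℂ) * W) z)
    (hex : ∀ r, m ≤ r → r < b → ∃ z', M.Seg x ((r : ℂ) * W) z' ∧ M.Alive θ z')
    (hno : ¬ ∃ z', M.Seg z (((b - m : ℝ) : ℂ) * W) z' ∧ M.Alive θ z') :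
    M.Bd θ (if cr W θ < 0 then 1 else -1) z (|cr W θ| * (b - m)) := by
  refine bd_of_seg hθ hW (sub_pos.2 hmb) (fun r hr => ?_) hno
  obtain ⟨z', hz', hal⟩ := hex (m + r) (by linarith [hr.1]) (by linarith [hr.2])
  have h1 := mv_rel hz hz'
  have e : m + r - m = r := by ring
  rw [e] at h1
  exact ⟨z', h1, hal⟩

/-- the strip around `z` on the segment, backward part -/
private theorem mv_bwd (hθ : ‖θ‖ = 1) {x z : X} {W : ℂ} (hW : cr W θ ≠ 0) {a m : ℝ}
    (ham : a < m) (hz : M.Seg x ((m : ℂ) * W) z)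
    (hex : ∀ r, a < r → r ≤ m → ∃ z', M.Seg x ((r : ℂ) * W) z' ∧ M.Alive θ z')
    (hno : a ∈ M.Sing θ x W) :
    M.Bd θ (if cr W θ < 0 then -1 else 1) z (|cr W θ| * (m - a)) := by
  have hW' : cr (-W) θ ≠ 0 := by
    rw [mv_cr_neg]
    exact neg_ne_zero.2 hW
  have h := bd_of_seg (M := M) (x := z) hθ hW' (sub_pos.2 ham) (fun r hr => by
    obtain ⟨z', hz', hal⟩ := hex (m - r) (by linarith [hr.2]) (by linarith [hr.1])
    have h1 := mv_rel hz hz'
    have e : ((m - r - m : ℝ) : ℂ) * W = (r : ℂ) * -W := by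
      push_cast
      ring
    rw [e] at h1
    exact ⟨z', h1, hal⟩) (by
    intro hcon
    have e : ((m - a : ℝ) : ℂ) * -W = ((a - m : ℝ) : ℂ) * W := by
      push_cast
      ring
    rw [e] at hcon
    exact mv_not hz hno hcon)
  rw [mv_cr_neg, abs_neg] at h
  have e : (if -cr W θ < 0 then (1 : ℝ) else -1) = if cr W θ < 0 then -1 else 1 := by
    rcases lt_or_gt_of_ne hW with h1 | h1
    · rw [if_pos h1, if_neg (by linarith)]
    · rw [if_pos (by linarith), if_neg (by linarith)]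
  rw [e] at h
  exact h

private theorem mv_ratio {L : X → ℝ} {K : Submodule ℚ ℝ} (hR : M.Ratios θ L K) {z : X}
    (hz : M.Alive θ z) {c r r' : ℝ} (h1 : M.Bd θ (if c < 0 then 1 else -1) z r)
    (h2 : M.Bd θ (if c < 0 then -1 else 1) z r') : (r + r') / L z ∈ K := by
  by_cases hc : c < 0
  · rw [if_pos hc] at h1 h2
    exact hR z r r' hz h1 h2
  · rw [if_neg hc] at h1 h2
    rw [add_comm]
    exact hR z r' r hz h2 h1

private theorem mv_ok (hθ : ‖θ‖ = 1) {L : X → ℝ} {κ : M.Germ}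
    {K : Submodule ℚ ℝ} (hR : M.Ratios θ L K)
    (hEnd : ∀ x W y, M.Sees x W κ → M.Seg x W y → ¬ M.Alive θ y) : M.Ok θ L K κ := by
  intro x W s z hs hW h0 h1 hsing hno hz
  have hms : s < (s + 1) / 2 := by linarith
  have hm1 : (s + 1) / 2 < 1 := by linarith
  have hex : ∀ r : ℝ, s < r → r < 1 → ∃ z', M.Seg x ((r : ℂ) * W) z' ∧ M.Alive θ z' := by
    intro r hr0 hr1
    obtain ⟨z', hz', -⟩ := sees_seg hs (s := r) ⟨by linarith, hr1⟩
    exact ⟨z', hz', mv_alive hz' (hno r ⟨hr0, hr1⟩)⟩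
  have hzal : M.Alive θ z := mv_alive hz (hno _ ⟨hms, hm1⟩)
  have k1 := mv_fwd hθ hW hm1 hz (fun r hr hr' => hex r (by linarith) hr') (by
    rintro ⟨z', hz', hal⟩
    have h2 := seg_line hz hz'
    have e : (((s + 1) / 2 + (1 - (s + 1) / 2) : ℝ) : ℂ) * W = W := by
      push_cast
      ring
    rw [e] at h2
    exact hEnd x W z' hs h2 hal)
  have k2 := mv_bwd hθ hW hms hz (fun r hr hr' => hex r hr (by linarith)) hsing
  have k3 := mv_ratio hR hzal k1 k2
  have e : |cr W θ| * (1 - (s + 1) / 2) + |cr W θ| * ((s + 1) / 2 - s) = |cr W θ| * (1 - s) := by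
    ring
  rw [e] at k3
  exact k3

/-- The H-move in the form in which it is used. -/
theorem move (hθ : ‖θ‖ = 1) {L : X → ℝ} (hC : M.Cyl θ L) (κ : M.Germ) (K : Submodule ℚ ℝ)
    (hR : M.Ratios θ L K) (hOk : M.Ok θ L K κ) {x : X} {W : ℂ} (hs : M.Sees x W κ)
    (hx : M.Free θ L K x) (hW : cr W θ ≠ 0) (α : ℝ) {x' : X} (hx' : M.Seg x ((α : ℂ) * θ) x')
    (σ : ℝ) (hσ : σ = 1 ∨ σ = -1) (hσκ : 0 ≤ cr (-((σ : ℂ) * θ)) κ.h) (T0 : ℝ) :
    ∃ T : ℝ, T0 < σ * T ∧ M.Sees x' (W + (T : ℂ) * θ) κ := by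
  refine hmove hθ hC κ K hs hx.1 hW ?_ (fun s z h0 h1 hsing hno hz =>
    hOk x W s z hs hW h0 h1 hsing hno hz) ?_ α hx' σ hσ hσκ T0
  · intro s s' z h0 hss h1 hsing hsing' hno hz
    have hms : s < (s + s') / 2 := by linarith
    have hm1 : (s + s') / 2 < s' := by linarith
    have hex : ∀ r : ℝ, s < r → r < s' → ∃ z', M.Seg x ((r : ℂ) * W) z' ∧ M.Alive θ z' := by
      intro r hr0 hr1
      obtain ⟨z', hz'⟩ := mv_exists hsing' (r := r) (by linarith) hr1.le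
      exact ⟨z', hz', mv_alive hz' (hno r ⟨hr0, hr1⟩)⟩
    have hzal : M.Alive θ z := mv_alive hz (hno _ ⟨hms, hm1⟩)
    have k1 := mv_fwd hθ hW hm1 hz (fun r hr hr' => hex r (by linarith) hr') (mv_not hz hsing')
    have k2 := mv_bwd hθ hW hms hz (fun r hr hr' => hex r hr (by linarith)) hsing
    have k3 := mv_ratio hR hzal k1 k2
    have e : |cr W θ| * (s' - (s + s') / 2) + |cr W θ| * ((s + s') / 2 - s) =
        |cr W θ| * (s' - s) := by ring
    rw [e] at k3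
    exact k3
  · intro s h0 h1 hsing hno
    have h00 : M.Seg x (((0 : ℝ) : ℂ) * W) x := by
      have := seg_refl (M := M) x
      simpa using this
    have k1 := mv_fwd hθ hW h0 h00 (fun r hr hr' => by
      rcases hr.eq_or_lt with h2 | h2
      · rw [← h2]
        exact ⟨x, h00, hx.1⟩
      · obtain ⟨z', hz'⟩ := mv_exists hsing (r := r) hr hr'.le
        exact ⟨z', hz', mv_alive hz' (hno r ⟨h2, hr'⟩)⟩) (mv_not h00 hsing)
    rw [sub_zero] at k1
    refine hx.2 _ _ ?_ k1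
    by_cases hc : cr W θ < 0
    · rw [if_pos hc]
      exact Or.inl rfl
    · rw [if_neg hc]
      exact Or.inr rfl

/-- the centre is a vertex -/
theorem ok_vert (hθ : ‖θ‖ = 1) {L : X → ℝ} (hC : M.Cyl θ L) {κ : M.Germ} (hκ : M.Vert κ)
    {K : Submodule ℚ ℝ} (hR : M.Ratios θ L K) : M.Ok θ L K κ := by
  exact mv_ok hθ hR fun x W y hs hy _ => hκ x W hs ⟨y, hy⟩

/-- the centre is a point of the surface whose leaf ends in a vertex -/
theorem ok_dead (hθ : ‖θ‖ = 1) {L : X → ℝ} (hC : M.Cyl θ L) {κ : M.Germ} {y : X}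
    (hκ : M.At κ y) (hy : ¬ M.Alive θ y) {K : Submodule ℚ ℝ} (hR : M.Ratios θ L K) :
    M.Ok θ L K κ := by
  refine mv_ok hθ hR fun x W y' hs hy' hal => hy ?_
  rw [seg_unique (hκ x W hs) hy']
  exact hal

/-- the centre is a point of the surface on a full leaf -/
theorem ok_alive (hθ : ‖θ‖ = 1) {L : X → ℝ} (hC : M.Cyl θ L) {κ : M.Germ} {y : X}
    (hκ : M.At κ y) (hy : M.Alive θ y) {K : Submodule ℚ ℝ}
    (hK : ∀ η r : ℝ, (η = 1 ∨ η = -1) → M.Bd θ η y r → r / L y ∈ K) :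
    M.Ok θ L K κ := by
  intro x W s z hs hW h0 h1 hsing hno hz
  have hxy : M.Seg x W y := hκ x W hs
  have hxy1 : M.Seg x (((1 : ℝ) : ℂ) * W) y := by simpa using hxy
  have hms : s < (s + 1) / 2 := by linarith
  have hm1 : (s + 1) / 2 < 1 := by linarith
  have hex : ∀ r : ℝ, s < r → r ≤ 1 → ∃ z', M.Seg x ((r : ℂ) * W) z' ∧ M.Alive θ z' := by
    intro r hr0 hr1
    rcases hr1.eq_or_lt with h2 | h2
    · rw [h2]
      exact ⟨y, hxy1, hy⟩
    · obtain ⟨z', hz', -⟩ := sees_seg hs (s := r) ⟨by linarith, h2⟩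
      exact ⟨z', hz', mv_alive hz' (hno r ⟨hr0, h2⟩)⟩
  have k1 := mv_bwd hθ hW h1 hxy1 hex hsing
  have k2 := hK _ _ (by
    by_cases hc : cr W θ < 0
    · rw [if_pos hc]
      exact Or.inr rfl
    · rw [if_neg hc]
      exact Or.inl rfl) k1
  have hzy := mv_rel hz hxy1
  have hL : L z = L y := by
    refine hC.const _ _ _ hzy fun t ht z' hz' => ?_
    have h2 : M.Seg z (((t * (1 - (s + 1) / 2) : ℝ) : ℂ) * W) z' := by
      have e : ((t * (1 - (s + 1) / 2) : ℝ) : ℂ) * W =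
          (t : ℂ) * (((1 - (s + 1) / 2 : ℝ) : ℂ) * W) := by
        push_cast
        ring
      rw [e]
      exact hz'
    have h3 := seg_line hz h2
    obtain ⟨z'', hz'', hal⟩ := hex ((s + 1) / 2 + t * (1 - (s + 1) / 2)) (by
      have : 0 ≤ t * (1 - (s + 1) / 2) := mul_nonneg ht.1 (by linarith)
      linarith) (by nlinarith [ht.2])
    rw [seg_unique h3 hz'']
    exact hal
  rw [hL]
  exact k2

end Pool.Agent.Lib.H25D.TSurf
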