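import Pool.Agent.Lib.H25D.Indep3

/-!
# H25D: the exceptional points form a null set
-/

open Set MeasureTheory

namespace Pool.Agent.Lib.H25D

/-- the line `a + b * re q + c * im q = 0` -/
def lineS (a b c : ℝ) : AffineSubspace ℝ ℂ where
  carrier := {q : ℂ | a + b * q.re + c * q.im = 0}
  smul_vsub_vadd_mem' := by
    intro t p₁ p₂ p₃ h₁ h₂ h₃
    simp only [mem_ofPred_eq] at h₁ h₂ h₃ ⊢
    simp only [vsub_eq_sub, vadd_eq_add, Complex.add_re, Complex.add_im, Complex.smul_re,
      Complex.smul_im, Complex.sub_re, Complex.sub_im, smul_eq_mul]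
    linear_combination t * h₁ - t * h₂ + h₃

theorem lineS_null (a b c : ℝ) (h : b ≠ 0 ∨ c ≠ 0) :
    volume {q : ℂ | a + b * q.re + c * q.im = 0} = 0 := by
  have h1 : lineS a b c ≠ ⊤ := by
    intro hcon
    have h2 : ∀ q : ℂ, a + b * q.re + c * q.im = 0 := by
      intro q
      have : q ∈ lineS a b c := by rw [hcon]; exact AffineSubspace.mem_top ℝ ℂ q
      exact this
    have h3 := h2 0
    have h4 := h2 1
    have h5 := h2 Complex.I
    simp at h3 h4 h5
    rcases h with h | h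
    · apply h; linarith
    · apply h; linarith
  exact Measure.addHaar_affineSubspace volume (lineS a b c) h1

/-- The points that are not independent over a countable field form a null set. -/
theorem null_indep3 (F : Subfield ℝ) (hF : (F : Set ℝ).Countable) :
    volume {q : ℂ | ¬ Indep3 F q} = 0 := by
  have : Countable F := hF
  have hsub : {q : ℂ | ¬ Indep3 F q} ⊆ ⋃ x : {x : F × F × F // (x.2.1 : ℝ) ≠ 0 ∨ (x.2.2 : ℝ) ≠ 0},
      {q : ℂ | (x.1.1 : ℝ) + (x.1.2.1 : ℝ) * q.re + (x.1.2.2 : ℝ) * q.im = 0} := by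
    intro q hq
    simp only [mem_ofPred_eq, Indep3] at hq
    push Not at hq
    obtain ⟨a, b, c, ha, hb, hc, h0, h1⟩ := hq
    rw [mem_iUnion]
    have hbc : b ≠ 0 ∨ c ≠ 0 := by
      by_contra hcon
      push Not at hcon
      obtain ⟨hb0, hc0⟩ := hcon
      have ha0 : a = 0 := by rw [hb0, hc0] at h0; simpa using h0
      exact h1 ha0 hb0 hc0
    exact ⟨⟨(⟨a, ha⟩, ⟨b, hb⟩, ⟨c, hc⟩), hbc⟩, h0⟩
  refine measure_mono_null hsub ?_
  rw [measure_iUnion_null_iff]
  intro x
  exact lineS_null _ _ _ x.2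

end Pool.Agent.Lib.H25D
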