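import Pool.Agent.Lib.H25D.PRefl

/-!
# H25D, chunk P7: the arcs of fixed points
-/

open Set

namespace Pool.Agent.Lib.H25D

open Pool.Agent.Lib.H42I (IsPolygon Ray RayS)
open Pool.Agent.Lib.H45Z
open Pool.Agent.H52W (cdet)
open Pool.Agent.Lib.H23D (E Gon)

variable {n N : ℕ} [NeZero n] [NeZero N] {P : Set ℂ} {v : ZMod n → ℂ} {kap : ZMod n → ZMod N}

private theorem h67_open {a b : ℂ} {t : ℝ} (ht : t ∈ Ioo (0 : ℝ) 1) :
    a + (t : ℂ) * (b - a) ∈ openSegment ℝ a b := by
  refine ⟨1 - t, t, by linarith [ht.2], ht.1, by ring, ?_⟩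
  simp only [Complex.real_smul]
  push_cast
  ring

/-- the point of the surface over the point with the parameter `t` on side `i`, with the frame
`(k, false)` -/
private noncomputable def h67_mk (hP : IsPolygon P v) (i : ZMod n) (k : ZMod N) (t : ℝ)
    (ht : t ∈ Ioo (0 : ℝ) 1) : SPt P v N where
  p := v i + (t : ℂ) * (v (i + 1) - v i)
  g := (k, false)
  mem := (side_mem hP (openSegment_subset_segment _ _ _ (h67_open ht))).1
  nv := fun k h => Pool.Agent.H52W.not_vertex_of_open hP i _ (h67_open ht) k h.symm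
  bit := fun _ => rfl

theorem arcs_pg (hP : IsPolygon P v) (hg : Gon v kap) (e : ZMod N) :
    ∃ (J : Type) (_ : Finite J) (_ : Nonempty J) (l : J → ℝ) (η : J → ℝ)
      (c : J → ℝ → SPt P v N), (∀ j, 0 < l j) ∧ (∀ j, η j = 1 ∨ η j = -1) ∧
      (∀ j, ∀ s ∈ Ioo 0 (l j), pg kap e (c j s) = c j s) ∧
      (∀ j, ∀ s ∈ Ioo 0 (l j), ∀ s' ∈ Ioo 0 (l j), (PS hP (par_of_gon hg)).Seg (c j s)
        (((η j * (s' - s) : ℝ) : ℂ) * (Complex.I * (Complex.I * E e))) (c j s')) ∧
      (∀ x, pg kap e x = x → ∃ j, ∃ s ∈ Ioo 0 (l j), x = c j s) := by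
  choose r hr0 hr using hg.par
  have hl : ∀ i, 0 < |r i| := fun i => abs_pos.2 (hr0 i)
  have hdiv : ∀ i, ∀ s ∈ Ioo 0 |r i|, s / |r i| ∈ Ioo (0 : ℝ) 1 := by
    intro i s hs
    exact ⟨div_pos hs.1 (hl i), (div_lt_one (hl i)).2 hs.2⟩
  set c : ZMod n → ℝ → SPt P v N := fun i s =>
    open Classical in if h : s ∈ Ioo 0 |r i| then h67_mk hP i (kap i - e) (s / |r i|) (hdiv i s h)
      else h67_mk hP i (kap i - e) (1 / 2) ⟨by norm_num, by norm_num⟩ with hc
  have hcs : ∀ i, ∀ s (h : s ∈ Ioo 0 |r i|), c i s = h67_mk hP i (kap i - e) (s / |r i|) (hdiv i s h) := by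
    intro i s h
    rw [hc]
    simp only
    rw [dif_pos h]
  refine ⟨ZMod n, inferInstance, inferInstance, fun i => |r i|, fun i => -(r i / |r i|), c, hl,
    fun i => ?_, fun i s hs => ?_, fun i s hs s' hs' => ?_, fun x hx => ?_⟩
  · -- the sign
    show -(r i / |r i|) = 1 ∨ -(r i / |r i|) = -1
    rcases lt_or_gt_of_ne (hr0 i) with h | h
    · left
      rw [abs_of_neg h, div_neg, div_self h.ne, neg_neg]
    · right
      rw [abs_of_pos h, div_self h.ne']
  · -- fixed points
    rw [hcs i s hs]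
    refine (pg_fixed_iff hP hg e _).2 ⟨i, h67_open (hdiv i s hs), ?_⟩
    simp only [h67_mk]
    ring
  · -- segments
    have hmem : ∀ σ ∈ Icc (0 : ℝ) 1, s + σ * (s' - s) ∈ Ioo 0 |r i| := by
      intro σ hσ
      have := (convex_Ioo (0 : ℝ) |r i|) hs hs' (sub_nonneg.2 hσ.2) hσ.1 (by ring)
      simp only [smul_eq_mul] at this
      have e1 : (1 - σ) * s + σ * s' = s + σ * (s' - s) := by ring
      rwa [e1] at this
    refine ⟨fun σ => c i (s + σ * (s' - s)), by simp, by simp, fun σ hσ => ?_⟩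
    have hρ := rho2_pos hP (c i (s + σ * (s' - s))).p (c i (s + σ * (s' - s))).nv
    refine ⟨rho2 v (c i (s + σ * (s' - s))).p / (|s' - s| + 1), by positivity, fun σ' hσ' hd => ?_⟩
    have hE : ‖E e‖ = 1 := norm_E e
    have hη : |-(r i / |r i|)| = 1 := by
      rw [abs_neg, abs_div, abs_abs, div_self (hl i).ne']
    have hu : ‖((σ' - σ : ℝ) : ℂ) * (((-(r i / |r i|) * (s' - s) : ℝ) : ℂ) *
        (Complex.I * (Complex.I * E e)))‖ < rho2 v (c i (s + σ * (s' - s))).p := by
      rw [norm_mul, norm_mul, norm_mul, norm_mul, Complex.norm_I, hE, Complex.norm_real, Complex.norm_real,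
        Real.norm_eq_abs, Real.norm_eq_abs, abs_mul, hη]
      rw [lt_div_iff₀ (by positivity)] at hd
      have h1 : 0 ≤ |σ' - σ| := abs_nonneg _
      nlinarith
    have h1 := sadd_eq hP (par_of_gon hg) (c i (s + σ * (s' - s))) _ hu
    have h2 := hmem σ hσ
    have h3 := hmem σ' hσ'
    have hx : (c i (s + σ * (s' - s))) = h67_mk hP i (kap i - e) ((s + σ * (s' - s)) / |r i|) (hdiv i _ h2) :=
      hcs i _ h2
    have hy : (c i (s + σ' * (s' - s))) = h67_mk hP i (kap i - e) ((s + σ' * (s' - s)) / |r i|) (hdiv i _ h3) :=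
      hcs i _ h3
    have hEE : E (kap i - e) * E e = E (kap i) := by
      rw [← Pool.Agent.Lib.H23D.E_add, sub_add_cancel]
    have hpt : (c i (s + σ * (s' - s))).p + fr (c i (s + σ * (s' - s))).g
        (((σ' - σ : ℝ) : ℂ) * (((-(r i / |r i|) * (s' - s) : ℝ) : ℂ) *
        (Complex.I * (Complex.I * E e)))) = (c i (s + σ' * (s' - s))).p := by
      rw [hx, hy]
      have hfr : fr ((kap i - e, false) : Fr N) (((σ' - σ : ℝ) : ℂ) * (((-(r i / |r i|) * (s' - s) : ℝ) : ℂ) *
        (Complex.I * (Complex.I * E e)))) = (((σ' - σ) * (s' - s) / |r i| : ℝ) : ℂ) * (r i * E (kap i)) := by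
        rw [← hEE]
        unfold fr
        simp only [Bool.false_eq_true, if_false]
        push_cast
        linear_combination (-(E (kap i - e) * E e * (σ' - σ) * (s' - s) * ((r i : ℂ) / ((|r i| : ℝ) : ℂ)))) *
          Complex.I_sq
      simp only [h67_mk]
      rw [hfr, hr i]
      push_cast
      ring
    have hgx : (c i (s + σ * (s' - s))).g = (kap i - e, false) := by rw [hx]; rfl
    have hgy : (c i (s + σ' * (s' - s))).g = (kap i - e, false) := by rw [hy]; rfl
    have hop : (c i (s + σ' * (s' - s))).p ∈ openSegment ℝ (v i) (v (i + 1)) := by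
      rw [hy]; exact h67_open (hdiv i _ h3)
    have hsm := side_mem hP (openSegment_subset_segment _ _ _ hop)
    rw [hpt, hgx, fold_side hsm.2 hsm.1] at h1
    simp only [Bool.false_eq_true, if_false] at h1
    show c i (s + σ' * (s' - s)) = sadd hP (par_of_gon hg) (c i (s + σ * (s' - s))) _
    refine SPt.ext ?_ ?_
    · exact (congrArg Prod.fst h1).symm
    · rw [hgy]
      exact (congrArg Prod.snd h1).symm
  · -- all fixed points
    obtain ⟨i, hi, hk⟩ := (pg_fixed_iff hP hg e x).1 hx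
    obtain ⟨a, b, ha, hb, hab, hxp⟩ := hi
    have hb1 : b < 1 := by linarith
    have hs : b * |r i| ∈ Ioo 0 |r i| := ⟨mul_pos hb (hl i), by nlinarith [hl i]⟩
    refine ⟨i, b * |r i|, hs, ?_⟩
    rw [hcs i _ hs]
    have hsm := side_mem hP (openSegment_subset_segment ℝ (v i) (v (i + 1)) ⟨a, b, ha, hb, hab, hxp⟩)
    refine SPt.ext ?_ ?_
    · simp only [h67_mk]
      rw [mul_div_assoc, div_self (hl i).ne', mul_one, ← hxp]
      have : (a : ℂ) = 1 - b := by
        have : a = 1 - b := by linarith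
        rw [this]; push_cast; ring
      simp only [Complex.real_smul]
      rw [this]
      ring
    · simp only [h67_mk]
      refine Prod.ext ?_ (x.bit hsm.2)
      simp only
      rw [← hk]; ring

end Pool.Agent.Lib.H25D
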