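import Pool.Agent.Lib.H25D.PInt
import Pool.Agent.Lib.H32D.Conn

/-!
# H25D, chunk P2: the surface is connected
-/

open Set

namespace Pool.Agent.Lib.H25D

open Pool.Agent.Lib.H42I (IsPolygon Ray RayS)
open Pool.Agent.Lib.H45Z
open Pool.Agent.H52W (cdet)
open Pool.Agent.Lib.H23D (E Gon)

variable {n N : ℕ} [NeZero n] [NeZero N] {P : Set ℂ} {v : ZMod n → ℂ} {kap : ZMod n → ZMod N}

theorem conn_PS (hP : IsPolygon P v) (hg : Gon v kap) : (PS hP (par_of_gon hg)).Conn :=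
  Pool.Agent.Lib.H32D.conn hP (par_of_gon hg) hg.prime hg.odd ⟨0, hg.turn 0⟩

end Pool.Agent.Lib.H25D
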