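import Pool.Agent.Lib.H25D.PS
import Pool.Agent.Lib.H45Z.Surf2

/-!
# H25D, chunk P3: compactness
-/

open Set

namespace Pool.Agent.Lib.H25D

open Pool.Agent.Lib.H42I (IsPolygon Ray RayS)
open Pool.Agent.Lib.H45Z
open Pool.Agent.H52W (cdet)
open Pool.Agent.Lib.H23D (E Gon)

variable {n N : ℕ} [NeZero n] [NeZero N] {P : Set ℂ} {v : ZMod n → ℂ} {kap : ZMod n → ZMod N}

private theorem h75_eq_add (hP : IsPolygon P v) (hk : Par v kap) (x y : SPt P v N)
    (hg : y.g = x.g) (hr : ‖y.p - x.p‖ < rho2 v x.p) :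
    y = sadd hP hk x (fri x.g (y.p - x.p)) := by
  have hn : ‖fri x.g (y.p - x.p)‖ = ‖y.p - x.p‖ := by
    have := norm_fr x.g (fri x.g (y.p - x.p))
    rw [fr_fri] at this
    exact this.symm
  have h := sadd_eq hP hk x (fri x.g (y.p - x.p)) (by rw [hn]; exact hr)
  rw [fr_fri, add_sub_cancel] at h
  have h2 : fold P v kap (ns v x.p) (y.p, x.g) = (y.p, x.g) := by
    by_cases hi : y.p ∈ interior P
    · exact fold_int hi
    · have hb := y.bit hi
      rw [hg] at hb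
      rw [fold_side hi y.mem, hb]
      simp
  rw [h2] at h
  apply SPt.ext
  · exact (congrArg Prod.fst h).symm
  · rw [hg]; exact (congrArg Prod.snd h).symm

theorem cpt_PS (hP : IsPolygon P v) (hk : Par v kap) : ∀ ε > 0, ∀ x : ℕ → SPt P v N,
    (∀ m, ε ≤ (PS hP hk).rad (x m)) → ∀ ε' > 0, ∃ m m' : ℕ, m < m' ∧
      ∃ u, ‖u‖ < ε' ∧ x m' = (PS hP hk).add (x m) u := by
  intro ε hε x hx ε' hε'
  obtain ⟨a, -, φ, hφ, hlim⟩ := hP.compact.tendsto_subseq (x := fun m => (x m).p)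
    (fun m => (x m).mem)
  have hfin : Finite (Fr N) := inferInstanceAs (Finite (ZMod N × Bool))
  obtain ⟨g0, hg0⟩ := Finite.exists_infinite_fiber (fun k : ℕ => (x (φ k)).g)
  have hd : 0 < min ε ε' / 2 := by
    have := lt_min hε hε'
    linarith
  obtain ⟨K, hK⟩ := (Metric.tendsto_atTop.1 hlim) _ hd
  have hinf : ((fun k : ℕ => (x (φ k)).g) ⁻¹' {g0}).Infinite := Set.infinite_coe_iff.1 hg0
  obtain ⟨k1, hk1, hKk1⟩ := hinf.exists_gt K
  obtain ⟨k2, hk2, hk12⟩ := hinf.exists_gt k1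
  have e1 : (x (φ k1)).g = g0 := hk1
  have e2 : (x (φ k2)).g = g0 := hk2
  have h1 := hK k1 hKk1.le
  have h2 := hK k2 (hKk1.trans hk12).le
  simp only [Function.comp_apply] at h1 h2
  have hdist : ‖(x (φ k2)).p - (x (φ k1)).p‖ < min ε ε' := by
    rw [← dist_eq_norm]
    calc dist (x (φ k2)).p (x (φ k1)).p ≤ dist (x (φ k2)).p a + dist (x (φ k1)).p a :=
          dist_triangle_right _ _ _
      _ < min ε ε' / 2 + min ε ε' / 2 := add_lt_add h2 h1
      _ = min ε ε' := by ring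
  have hr : ‖(x (φ k2)).p - (x (φ k1)).p‖ < rho2 v (x (φ k1)).p :=
    (hdist.trans_le (min_le_left _ _)).trans_le (hx (φ k1))
  refine ⟨φ k1, φ k2, hφ hk12, fri (x (φ k1)).g ((x (φ k2)).p - (x (φ k1)).p), ?_, ?_⟩
  · have hn : ‖fri (x (φ k1)).g ((x (φ k2)).p - (x (φ k1)).p)‖ =
        ‖(x (φ k2)).p - (x (φ k1)).p‖ := by
      have := norm_fr (x (φ k1)).g (fri (x (φ k1)).g ((x (φ k2)).p - (x (φ k1)).p))
      rw [fr_fri] at this
      exact this.symm
    rw [hn]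
    exact hdist.trans_le (min_le_right _ _)
  · exact h75_eq_add hP hk (x (φ k1)) (x (φ k2)) (e2.trans e1.symm) hr

end Pool.Agent.Lib.H25D
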