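import Pool.Agent.Lib.H25D.PInt
import Pool.Agent.Lib.H42D.Corner
import Pool.Agent.Lib.H82D.VGerm

/-!
# H25D, chunk P12: half discs at the vertices
-/

open Set

namespace Pool.Agent.Lib.H25D

open Pool.Agent.Lib.H42I (IsPolygon Ray RayS)
open Pool.Agent.Lib.H45Z
open Pool.Agent.H52W (cdet)
open Pool.Agent.Lib.H23D (E Gon)

variable {n N : ℕ} [NeZero n] [NeZero N] {P : Set ℂ} {v : ZMod n → ℂ} {kap : ZMod n → ZMod N}

/-- At every vertex there is a half disc of the surface, with the boundary direction `I`, such that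
segments which arrive in a direction close to `σ * I` arrive in the polygon through the good
sector. -/
theorem germ_PS (hP : IsPolygon P v) (hg : Gon v kap) (i : ZMod n) :
    ∃ (κ : (PS hP (par_of_gon hg)).Germ) (σ : ℝ), (PS hP (par_of_gon hg)).Vert κ ∧
      (σ = 1 ∨ σ = -1) ∧ cr Complex.I κ.h = 0 ∧ ∃ ε > 0, ∀ (x : SPt P v N) (W : ℂ),
      (PS hP (par_of_gon hg)).Sees x W κ → ‖W - ((‖W‖ * σ : ℝ) : ℂ) * Complex.I‖ < ε * ‖W‖ →
      ∃ (z : SPt P v N) (s : ℝ), 0 < s ∧ s < 1 ∧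
        (PS hP (par_of_gon hg)).Seg x (((1 - s : ℝ) : ℂ) * W) z ∧
        z.p = v i - (s : ℂ) * fr z.g W ∧ z.p ∈ interior P ∧
        openSegment ℝ z.p (v i) ⊆ interior P ∧
        Pool.Agent.Lib.H32W.GoodArr v (v i) (fr z.g W) := by
  obtain ⟨κ, g0, τ, r, K, hτ, hV, hcr, hK, hkw, her⟩ :=
    Pool.Agent.Lib.H82D.vgerm hP hg (par_of_gon hg) i (0 : ZMod N)
  have hE : (Complex.I * E (0 : ZMod N)) = Complex.I := by
    rw [Pool.Agent.Lib.H23D.E_zero, mul_one]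
  rw [hE] at hcr hK
  refine ⟨κ, -τ, hV, ?_, hcr, ?_⟩
  · rcases hτ with h | h
    · right; rw [h]
    · left; rw [h]; norm_num
  obtain ⟨ε, hε, hball⟩ := Metric.isOpen_iff.1 hK.isOpen _ hK.mem
  refine ⟨ε, hε, fun x W hs hW => ?_⟩
  have hW0 : W ≠ 0 := by
    rintro rfl
    simp at hW
  have hWn : 0 < ‖W‖ := norm_pos_iff.2 hW0
  -- `fr g0 (-W)` is in the cone
  have hKW : fr g0 (-W) ∈ K := by
    have h1 : fr g0 (((1 / ‖W‖ : ℝ) : ℂ) * (-W)) ∈ K := by
      apply hball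
      rw [Metric.mem_ball, dist_eq_norm, ← fr_sub, norm_fr]
      have h2 : ((1 / ‖W‖ : ℝ) : ℂ) * (-W) - (τ : ℂ) * Complex.I =
          -(((1 / ‖W‖ : ℝ) : ℂ) * (W - ((‖W‖ * (-τ) : ℝ) : ℂ) * Complex.I)) := by
        have h3 : ((‖W‖ : ℝ) : ℂ) ≠ 0 := by exact_mod_cast hWn.ne'
        push_cast
        field_simp
        ring
      rw [h2, norm_neg, norm_mul, Complex.norm_real, Real.norm_of_nonneg (by positivity), one_div,
        inv_mul_lt_iff₀ hWn]
      calc ‖W - ((‖W‖ * (-τ) : ℝ) : ℂ) * Complex.I‖ < ε * ‖W‖ := hW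
        _ = ‖W‖ * ε := mul_comm _ _
    have h2 := hK.smul _ h1 ‖W‖ hWn
    rw [← fr_real] at h2
    have h3 : ((‖W‖ : ℝ) : ℂ) * (((1 / ‖W‖ : ℝ) : ℂ) * (-W)) = -W := by
      have h3 : ((‖W‖ : ℝ) : ℂ) ≠ 0 := by exact_mod_cast hWn.ne'
      push_cast
      field_simp
    rwa [h3] at h2
  obtain ⟨s₀, hs₀, hs₀1, hlast⟩ := TSurf.sees_last hs
  set s : ℝ := min s₀ (1 / 2) with hsdef
  have hs0 : 0 < s := lt_min hs₀ (by norm_num)
  have hs1 : s < 1 := lt_of_le_of_lt (min_le_right _ _) (by norm_num)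
  obtain ⟨h1, h2⟩ := hlast s hs0 (min_le_left _ _)
  have hw : -((s : ℂ) * W) = (s : ℂ) * (-W) := by ring
  have hwn : ‖-((s : ℂ) * W)‖ < κ.e := by
    rw [norm_neg, norm_mul, Complex.norm_real, Real.norm_of_nonneg hs0.le]
    exact h1
  have hwc : 0 < cr (-((s : ℂ) * W)) κ.h := by
    have h6 : cr (-((s : ℂ) * W)) κ.h = s * cr (-W) κ.h := by
      simp only [cr, Complex.neg_re, Complex.neg_im, Complex.re_ofReal_mul, Complex.im_ofReal_mul]
      ring
    rw [h6]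
    exact mul_pos hs0 hs.1
  have hwK : fr g0 (-((s : ℂ) * W)) ∈ K := by
    rw [hw, fr_real]
    exact hK.smul _ hKW s hs0
  obtain ⟨hp, hgg⟩ := hkw _ hwc hwn hwK
  have hpz : (κ.k (-((s : ℂ) * W))).p = v i - (s : ℂ) * fr (κ.k (-((s : ℂ) * W))).g W := by
    rw [hp, hgg, fr_neg, fr_real]
    ring
  refine ⟨κ.k (-((s : ℂ) * W)), s, hs0, hs1, h2, hpz, ?_, ?_, ?_⟩
  · rw [hp]
    exact hK.inside _ hwK (by rw [norm_fr]; exact hwn.trans_le her)
  · rintro y ⟨a, b, ha, hb, hab, rfl⟩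
    have ha1 : a < 1 := by linarith
    have h3 : a • (κ.k (-((s : ℂ) * W))).p + b • v i = v i + (a : ℂ) * fr g0 (-((s : ℂ) * W)) := by
      have hb' : b = 1 - a := by linarith
      rw [hp, hb']
      simp only [Complex.real_smul]
      push_cast
      ring
    rw [h3]
    apply hK.inside _ (hK.smul _ hwK a ha)
    rw [norm_mul, Complex.norm_real, Real.norm_of_nonneg ha.le, norm_fr]
    have := norm_nonneg (-((s : ℂ) * W))
    nlinarith
  · rw [hgg]
    have h3 := hK.good _ hKW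
    rwa [fr_neg, neg_neg] at h3

end Pool.Agent.Lib.H25D
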