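import Pool.Agent.Lib.H25D.PInt

/-!
# H25D, chunk P5: recurrence away from the vertices
-/

open Set

namespace Pool.Agent.Lib.H25D

open Pool.Agent.Lib.H42I (IsPolygon Ray RayS)
open Pool.Agent.Lib.H45Z
open Pool.Agent.H52W (cdet)
open Pool.Agent.Lib.H23D (E Gon)

variable {n N : ℕ} [NeZero n] [NeZero N] {P : Set ℂ} {v : ZMod n → ℂ} {kap : ZMod n → ZMod N}

theorem recur_PS (hP : IsPolygon P v) (hk : Par v kap) (θ : ℂ) (hθ : ‖θ‖ = 1) :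
    ∃ ε > 0, ∃ C : ℝ, 0 < C ∧ ∀ x : SPt P v N, ¬ (PS hP hk).Dead θ x C → ∃ t ∈ Icc 0 C, ∃ y,
      (PS hP hk).Seg x ((t : ℂ) * θ) y ∧ ε ≤ (PS hP hk).rad y := by
  obtain ⟨r₀, hr₀, hns⟩ := near_seg (N := N) hP hk
  obtain ⟨d, hd, hdv⟩ : ∃ d > 0, ∀ i j : ZMod n, i ≠ j → d ≤ ‖v i - v j‖ := by
    classical
    by_cases hne : ∃ p : ZMod n × ZMod n, p.1 ≠ p.2
    · obtain ⟨m, hm, hmin⟩ := (Set.toFinite {p : ZMod n × ZMod n | p.1 ≠ p.2}).exists_minimalFor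
        (fun p => ‖v p.1 - v p.2‖) _ hne
      refine ⟨‖v m.1 - v m.2‖, norm_pos_iff.2 (sub_ne_zero.2 fun h => hm (hP.inj h)), ?_⟩
      intro i j hij
      by_contra hcon
      rw [not_le] at hcon
      exact absurd (hmin (j := (i, j)) hij hcon.le) (not_le.2 hcon)
    · exact ⟨1, one_pos, fun i j hij => absurd ⟨(i, j), hij⟩ hne⟩
  set r₁ : ℝ := min r₀ d with hr₁
  have hr₁pos : 0 < r₁ := lt_min hr₀ hd
  have hr₁0 : r₁ ≤ r₀ := min_le_left _ _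
  have hr₁d : r₁ ≤ d := min_le_right _ _
  -- lower bound of the radius away from the vertices
  obtain ⟨ε, hε, hεb⟩ : ∃ ε > 0, ∀ p ∈ P, (∀ i, r₁ / 4 ≤ ‖p - v i‖) → ε ≤ rho2 v p := by
    have hclosed : IsClosed {p : ℂ | ∀ i, r₁ / 4 ≤ ‖p - v i‖} := by
      have e : {p : ℂ | ∀ i, r₁ / 4 ≤ ‖p - v i‖} = ⋂ i, {p : ℂ | r₁ / 4 ≤ ‖p - v i‖} := by
        ext p; simp
      rw [e]
      exact isClosed_iInter fun i => isClosed_le continuous_const (by fun_prop)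
    have hK : IsCompact (P ∩ {p : ℂ | ∀ i, r₁ / 4 ≤ ‖p - v i‖}) := hP.compact.inter_right hclosed
    rcases (P ∩ {p : ℂ | ∀ i, r₁ / 4 ≤ ‖p - v i‖}).eq_empty_or_nonempty with h0 | h0
    · refine ⟨1, one_pos, fun p hp hpi => ?_⟩
      have : p ∈ P ∩ {p : ℂ | ∀ i, r₁ / 4 ≤ ‖p - v i‖} := ⟨hp, hpi⟩
      rw [h0] at this
      exact absurd this (Set.notMem_empty p)
    · obtain ⟨m, hm, hmin⟩ := hK.exists_isMinOn h0 (rho2_continuous hP.three_le v).continuousOn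
      refine ⟨rho2 v m, rho2_pos hP m ?_, fun p hp hpi => hmin ⟨hp, hpi⟩⟩
      intro i hi
      have := hm.2 i
      rw [hi, sub_self, norm_zero] at this
      linarith
  refine ⟨ε, hε, r₁ / 2, by linarith, fun x hx => ?_⟩
  by_cases hfar : ∀ i, r₁ / 4 ≤ ‖x.p - v i‖
  · refine ⟨0, ⟨le_rfl, by linarith⟩, x, ?_, hεb x.p x.mem hfar⟩
    have e : ((0 : ℝ) : ℂ) * θ = 0 := by simp
    rw [e]
    exact TSurf.seg_refl x
  · push Not at hfar
    obtain ⟨i, hi⟩ := hfar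
    unfold TSurf.Dead at hx
    rw [not_not] at hx
    obtain ⟨y, hy⟩ := hx
    have hnW : ‖fr x.g (((r₁ / 2 : ℝ) : ℂ) * θ)‖ = r₁ / 2 := by
      rw [norm_fr, norm_mul, hθ, mul_one, Complex.norm_real, Real.norm_eq_abs, abs_of_pos (by linarith)]
    have hseg := (hns i x y _ (fun s hs => by
      have h1 : ‖x.p + (s : ℂ) * fr x.g (((r₁ / 2 : ℝ) : ℂ) * θ) - v i‖ ≤
          ‖x.p - v i‖ + ‖(s : ℂ) * fr x.g (((r₁ / 2 : ℝ) : ℂ) * θ)‖ := by
        have e : x.p + (s : ℂ) * fr x.g (((r₁ / 2 : ℝ) : ℂ) * θ) - v i =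
            (x.p - v i) + (s : ℂ) * fr x.g (((r₁ / 2 : ℝ) : ℂ) * θ) := by ring
        rw [e]
        exact norm_add_le _ _
      have h2 : ‖(s : ℂ) * fr x.g (((r₁ / 2 : ℝ) : ℂ) * θ)‖ ≤ r₁ / 2 := by
        rw [norm_mul, hnW, Complex.norm_real, Real.norm_eq_abs, abs_of_nonneg hs.1]
        nlinarith [hs.2]
      linarith) hy).1
    have hup : ‖y.p - v i‖ ≤ 3 / 4 * r₁ := by
      rw [hseg]
      have e : x.p + fr x.g (((r₁ / 2 : ℝ) : ℂ) * θ) - v i =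
          (x.p - v i) + fr x.g (((r₁ / 2 : ℝ) : ℂ) * θ) := by ring
      rw [e]
      have := norm_add_le (x.p - v i) (fr x.g (((r₁ / 2 : ℝ) : ℂ) * θ))
      rw [hnW] at this
      linarith
    have hlow : r₁ / 4 ≤ ‖y.p - v i‖ := by
      rw [hseg]
      have e : fr x.g (((r₁ / 2 : ℝ) : ℂ) * θ) =
          (x.p + fr x.g (((r₁ / 2 : ℝ) : ℂ) * θ) - v i) - (x.p - v i) := by ring
      have := norm_sub_le (x.p + fr x.g (((r₁ / 2 : ℝ) : ℂ) * θ) - v i) (x.p - v i)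
      rw [← e, hnW] at this
      linarith
    refine ⟨r₁ / 2, ⟨by linarith, le_rfl⟩, y, hy, hεb y.p y.mem fun j => ?_⟩
    by_cases hij : i = j
    · rw [← hij]; exact hlow
    · have h1 := hdv i j hij
      have h2 : ‖v i - v j‖ ≤ ‖y.p - v i‖ + ‖y.p - v j‖ := by
        have e : v i - v j = (y.p - v j) - (y.p - v i) := by ring
        rw [e]
        linarith [norm_sub_le (y.p - v j) (y.p - v i)]
      linarith

end Pool.Agent.Lib.H25D
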