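import Pool.Agent.Lib.H25D.T7

/-!
# H25D, chunk T8: complete periodicity (result of part III)
-/

open Set

namespace Pool.Agent.Lib.H25D.TSurf

variable {X : Type} {M : TSurf X} {θ : ℂ} {g : X → X}

private theorem h54_cr_smul (a b : ℂ) (s : ℝ) : cr ((s : ℂ) * a) b = s * cr a b := by
  simp only [cr, Complex.mul_re, Complex.mul_im, Complex.ofReal_re, Complex.ofReal_im]
  ring

private theorem h54_cr_self (a : ℂ) : cr a a = 0 := by
  simp only [cr]; ring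

/-- the leaf through `z` contains a fixed point `b`, which is bad if `z` is not on a full leaf -/
private theorem h54_bad (h : M.Inputs θ g) {T0 : ℝ} (hT0 : 0 < T0)
    (hdead : ∀ b, M.Bad θ g b → M.Dead θ b T0) {z : X} (hz : ¬ M.Alive θ z) :
    ∃ b, M.Bad θ g b ∧ ∃ t : ℝ, |t| < T0 ∧ M.Seg z ((t : ℂ) * θ) b := by
  obtain ⟨t, b, hb, hgb⟩ := all_hit h z
  have hb0 : M.Hit θ g b 0 := ⟨b, by simpa using seg_refl (M := M) b, hgb⟩
  have hbad : M.Bad θ g b := by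
    rcases no_inf h hgb with h1 | ⟨T, hT, hT1, -⟩
    · exact h1
    · exact absurd ((alive_leaf hb).2 (two_hits h.refl h.norm hb0 hT1 hT.ne).1) hz
  have hd := hdead b hbad
  have hd' : M.Dead θ b (-T0) := by
    rintro ⟨y, hy⟩
    have hm := mirror (M := M) h.refl h.norm (x := b) (t := 0) (s := -T0) hb0
      (by simpa using hy)
    apply hd
    refine ⟨g y, ?_⟩
    simpa using hm
  have hbz : M.Seg b (((-t : ℝ) : ℂ) * θ) z := by
    have := seg_symm hb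
    simpa using this
  refine ⟨b, hbad, t, ?_, hb⟩
  by_contra hcon
  push Not at hcon
  rcases le_abs.1 hcon with h1 | h1
  · exact dead_mono hd' (Or.inr ⟨by linarith, by linarith⟩) ⟨z, hbz⟩
  · exact dead_mono hd (Or.inl ⟨hT0.le, h1⟩) ⟨z, hbz⟩

theorem sing_fin (h : M.Inputs θ g) (x : X) (W : ℂ) (y : X) (hs : M.Seg x W y)
    (hW : cr W θ ≠ 0) : (M.Sing θ x W ∩ Icc 0 1).Finite := by
  obtain ⟨T0, hT0, -, hdead⟩ := ret_bound h
  obtain ⟨z, ρ, hρ, -, -, hrad, hseg, hadd⟩ := seg_path hs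
  have hBfin := bad_finite h
  have : Nonempty X := ⟨x⟩
  have key : ∀ s ∈ M.Sing θ x W ∩ Icc (0 : ℝ) 1, ∃ p : X × ℝ, M.Bad θ g p.1 ∧ |p.2| < T0 ∧
      M.Seg (z s) ((p.2 : ℂ) * θ) p.1 := by
    rintro s ⟨hs1, hs2⟩
    have hz : ¬ M.Alive θ (z s) := (sing_iff (hseg s hs2)).1 hs1
    obtain ⟨b, hb, t, ht, hbt⟩ := h54_bad h hT0 hdead hz
    exact ⟨(b, t), hb, ht, hbt⟩
  choose! p hp1 hp2 hp3 using key
  set δ : ℝ := ρ / (‖W‖ + 1) with hδ
  have hW1 : 0 < ‖W‖ + 1 := by positivity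
  have hδ0 : 0 < δ := by positivity
  have hδ1 : δ ≤ ρ := by
    rw [hδ, div_le_iff₀ hW1]
    nlinarith [norm_nonneg W]
  have hδ2 : δ * ‖W‖ < ρ := by
    have : δ * (‖W‖ + 1) = ρ := by rw [hδ]; field_simp
    nlinarith
  refine Set.Finite.of_injOn (t := {b | M.Bad θ g b} ×ˢ (Icc ⌊(0 : ℝ) / δ⌋ ⌊(1 : ℝ) / δ⌋ ×ˢ
    Icc ⌊-T0 / δ⌋ ⌊T0 / δ⌋)) (f := fun s => ((p s).1, ⌊s / δ⌋, ⌊(p s).2 / δ⌋)) ?_ ?_
    (hBfin.prod ((Set.finite_Icc _ _).prod (Set.finite_Icc _ _)))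
  · intro s hs
    have h2 := abs_lt.1 (hp2 s hs)
    refine ⟨hp1 s hs, ⟨?_, ?_⟩, ⟨?_, ?_⟩⟩
    · exact Int.floor_le_floor (div_le_div_of_nonneg_right hs.2.1 hδ0.le)
    · exact Int.floor_le_floor (div_le_div_of_nonneg_right hs.2.2 hδ0.le)
    · exact Int.floor_le_floor (div_le_div_of_nonneg_right h2.1.le hδ0.le)
    · exact Int.floor_le_floor (div_le_div_of_nonneg_right h2.2.le hδ0.le)
  · intro s hs s' hs' hff
    simp only [Prod.mk.injEq] at hff
    obtain ⟨hb, hf1, hf2⟩ := hff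
    have habs : ∀ a b : ℝ, ⌊a / δ⌋ = ⌊b / δ⌋ → |a - b| < δ := by
      intro a b hab
      have := Int.abs_sub_lt_one_of_floor_eq_floor hab
      rwa [← sub_div, abs_div, abs_of_pos hδ0, div_lt_one hδ0] at this
    have h1 := habs _ _ hf1
    have h2 := habs _ _ hf2
    have e1 : z s' = M.add (z s) (((s' - s : ℝ) : ℂ) * W) := by
      apply hadd s hs.2 s' hs'.2
      rw [abs_sub_comm]
      calc |s - s'| * ‖W‖ ≤ δ * ‖W‖ := by gcongr
        _ < ρ := hδ2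
    have hθ : ‖θ‖ = 1 := h.norm
    have hn1 : ‖((s' - s : ℝ) : ℂ) * W‖ < M.rad (z s) := by
      rw [norm_mul, Complex.norm_real, Real.norm_eq_abs, abs_sub_comm]
      calc |s - s'| * ‖W‖ ≤ δ * ‖W‖ := by gcongr
        _ < ρ := hδ2
        _ ≤ _ := hrad s hs.2
    have hn2 : ‖(((p s).2 - (p s').2 : ℝ) : ℂ) * θ‖ < M.rad (z s) := by
      rw [norm_mul, Complex.norm_real, Real.norm_eq_abs, hθ, mul_one]
      calc |(p s).2 - (p s').2| < δ := h2
        _ ≤ ρ := hδ1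
        _ ≤ _ := hrad s hs.2
    have hsym : M.Seg (p s).1 (((-(p s').2 : ℝ) : ℂ) * θ) (z s') := by
      have := seg_symm (hp3 s' hs')
      rw [← hb] at this
      simpa using this
    have e2 : M.Seg (z s) ((((p s).2 - (p s').2 : ℝ) : ℂ) * θ) (z s') := by
      have := seg_line (hp3 s hs) hsym
      rwa [← sub_eq_add_neg] at this
    have e3 : z s' = M.add (z s) ((((p s).2 - (p s').2 : ℝ) : ℂ) * θ) :=
      seg_unique e2 (seg_add hn2)
    have e4 := M.inj _ _ _ hn1 hn2 (e1.symm.trans e3)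
    have e5 := congrArg (fun v => cr v θ) e4
    simp only [h54_cr_smul, h54_cr_self, mul_zero] at e5
    rcases mul_eq_zero.1 e5 with h6 | h6
    · linarith
    · exact absurd h6 hW

theorem cyl_of_inputs (h : M.Inputs θ g) : ∃ L : X → ℝ, M.Cyl θ L := by
  have hper : ∀ x, M.Alive θ x → ∃ t : ℝ, 0 < t ∧ M.Seg x ((t : ℂ) * θ) x := by
    intro x hx
    obtain ⟨t, b, hb, hgb⟩ := all_hit h x
    have hb0 : M.Hit θ g b 0 := ⟨b, by simpa using seg_refl (M := M) b, hgb⟩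
    have hbA : M.Alive θ b := (alive_leaf hb).1 hx
    rcases no_inf h hgb with ⟨-, ⟨T, hT, hT1⟩, -⟩ | ⟨T, hT, hT1, -⟩
    · exact absurd (hbA T) hT1
    · have h2 := (two_hits h.refl h.norm hb0 hT1 hT.ne).2
      have hbx : M.Seg b (((-t : ℝ) : ℂ) * θ) x := by
        have := seg_symm hb
        simpa using this
      refine ⟨2 * (T - 0), by linarith, per_leaf hbx h2⟩
  have hfwd : ∀ x W y, M.Seg x W y →
      (∀ s ∈ Icc (0 : ℝ) 1, ∀ z, M.Seg x ((s : ℂ) * W) z → M.Alive θ z) → ∀ t : ℝ,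
      (0 < t ∧ M.Seg x ((t : ℂ) * θ) x) → (0 < t ∧ M.Seg y ((t : ℂ) * θ) y) :=
    fun x W y hs hal t ht => ⟨ht.1, per_of_seg hs hal ht.2⟩
  refine ⟨fun x => Classical.epsilon (fun t : ℝ => 0 < t ∧ M.Seg x ((t : ℂ) * θ) x), ?_, ?_, ?_,
    fun x W y hs hW => sing_fin h x W y hs hW⟩
  · intro x hx
    exact (Classical.epsilon_spec (hper x hx)).1
  · intro x hx
    exact (Classical.epsilon_spec (hper x hx)).2
  · intro x W y hs hal
    have hback : ∀ s ∈ Icc (0 : ℝ) 1, ∀ z, M.Seg y ((s : ℂ) * (-W)) z → M.Alive θ z := by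
      intro s hs1 z hz
      have hs2 : (1 - s) ∈ Icc (0 : ℝ) 1 := ⟨by linarith [hs1.2], by linarith [hs1.1]⟩
      obtain ⟨w, hw1, hw2⟩ := seg_split hs hs2
      have hw3 := seg_symm hw2
      have e : -(((1 - (1 - s) : ℝ) : ℂ) * W) = (s : ℂ) * (-W) := by
        push_cast; ring
      rw [e] at hw3
      rw [seg_unique hz hw3]
      exact hal _ hs2 w hw1
    have hset : (fun t : ℝ => 0 < t ∧ M.Seg x ((t : ℂ) * θ) x) =
        (fun t : ℝ => 0 < t ∧ M.Seg y ((t : ℂ) * θ) y) := by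
      funext t
      exact propext ⟨hfwd x W y hs hal t, hfwd y (-W) x (seg_symm hs) hback t⟩
    simp only [hset]

end Pool.Agent.Lib.H25D.TSurf
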