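import Pool.Agent.Lib.H25D.PStar
import Pool.Agent.Lib.H25D.PArcs
import Pool.Agent.Lib.H25D.PRecur
import Pool.Agent.Lib.H25D.PConn
import Pool.Agent.Lib.H25D.PCpt
import Pool.Agent.Lib.H25D.T8

/-!
# H25D, chunk P9: the assumptions of part III hold; complete periodicity
-/

open Set

namespace Pool.Agent.Lib.H25D

open Pool.Agent.Lib.H42I (IsPolygon Ray RayS)
open Pool.Agent.Lib.H45Z
open Pool.Agent.H52W (cdet)
open Pool.Agent.Lib.H23D (E Gon)

variable {n N : ℕ} [NeZero n] [NeZero N] {P : Set ℂ} {v : ZMod n → ℂ} {kap : ZMod n → ZMod N}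

theorem inputs_PS (hP : IsPolygon P v) (hg : Gon v kap) (e : ZMod N) :
    (PS hP (par_of_gon hg)).Inputs (Complex.I * E e) (pg kap e) where
  norm := by rw [norm_mul, Complex.norm_I, norm_E, one_mul]
  refl := refl_pg hP (par_of_gon hg) e
  conn := conn_PS hP hg
  cpt := cpt_PS hP (par_of_gon hg)
  recur := recur_PS hP (par_of_gon hg) _ (by rw [norm_mul, Complex.norm_I, norm_E, one_mul])
  arcs := arcs_pg hP hg e
  ends := ends_PS hP hg e
  star := star_PS hP hg e

theorem cyl_PS (hP : IsPolygon P v) (hg : Gon v kap) (e : ZMod N) :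
    ∃ L : SPt P v N → ℝ, (PS hP (par_of_gon hg)).Cyl (Complex.I * E e) L :=
  TSurf.cyl_of_inputs (inputs_PS hP hg e)

end Pool.Agent.Lib.H25D
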