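import Pool.Agent.Lib.H25D.PS
import Pool.Agent.Lib.H45Z.Om
import Pool.Agent.Lib.H52E.Ends2
import Pool.Agent.Lib.H71N.Near

/-!
# H25D, chunk P4a: segments in the interior and radial estimates near a vertex
-/

open Set

namespace Pool.Agent.Lib.H25D

open Pool.Agent.Lib.H42I (IsPolygon Ray RayS)
open Pool.Agent.Lib.H45Z
open Pool.Agent.H52W (cdet)
open Pool.Agent.Lib.H23D (E Gon)

variable {n N : ℕ} [NeZero n] [NeZero N] {P : Set ℂ} {v : ZMod n → ℂ} {kap : ZMod n → ZMod N}

/-- a straight segment in the interior of the polygon is a segment of the surface -/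
theorem seg_interior (hP : IsPolygon P v) (hk : Par v kap) (x y : SPt P v N) (W : ℂ)
    (hy : y.p = x.p + fr x.g W) (hg : y.g = x.g)
    (h : ∀ s ∈ Icc (0 : ℝ) 1, x.p + (s : ℂ) * fr x.g W ∈ interior P) :
    (PS hP hk).Seg x W y :=
  Pool.Agent.Lib.H52E.seg_int hP hk x y W hg hy h

omit [NeZero n] in
theorem h52_fr_ip (g : Fr N) (a W : ℂ) :
    (fr g a * (starRingEnd ℂ) (fr g W)).re = (a * (starRingEnd ℂ) W).re := by
  have hE : E g.1 * (starRingEnd ℂ) (E g.1) = 1 := by
    rw [Pool.Agent.Lib.H23D.E_conj, ← Pool.Agent.Lib.H23D.E_add, add_neg_cancel,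
      Pool.Agent.Lib.H23D.E_zero]
  unfold fr
  cases hg : g.2
  · simp only [Bool.false_eq_true, if_false]
    have e1 : E g.1 * a * (starRingEnd ℂ) (E g.1 * W) = a * (starRingEnd ℂ) W := by
      rw [map_mul]
      linear_combination a * (starRingEnd ℂ) W * hE
    rw [e1]
  · simp only [if_true]
    have e1 : E g.1 * (starRingEnd ℂ) a * (starRingEnd ℂ) (E g.1 * (starRingEnd ℂ) W) =
        (starRingEnd ℂ) (a * (starRingEnd ℂ) W) := by
      rw [map_mul, map_mul, Complex.conj_conj]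
      linear_combination (starRingEnd ℂ) a * W * hE
    rw [e1, Complex.conj_re]

/-- near a vertex the distance to the vertex and the scalar product with the direction behave as in
the unfolded plane: one translation -/
theorem near_add (hP : IsPolygon P v) (hk : Par v kap) : ∃ r₀ > 0, ∀ (i : ZMod n) (x : SPt P v N),
    ‖x.p - v i‖ < r₀ → ∀ u : ℂ, ‖u‖ < rho2 v x.p →
      ‖(sadd hP hk x u).p - v i‖ = ‖x.p + fr x.g u - v i‖ ∧
      ∀ W : ℂ, (((sadd hP hk x u).p - v i) * (starRingEnd ℂ) (fr (sadd hP hk x u).g W)).re =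
        ((x.p + fr x.g u - v i) * (starRingEnd ℂ) (fr x.g W)).re := by
  obtain ⟨r₀, hr₀, -, hnear⟩ := Pool.Agent.Lib.H52E.near_vertex hP
  refine ⟨r₀, hr₀, fun i x hx u hu => ?_⟩
  have hom := om_sadd hP hk i x (hnear i x.p hx).1 u hu
  have e1 : (sadd hP hk x u).p - v i = fr (sadd hP hk x u).g (om i x + u) := by
    have := fr_om (v := v) i (sadd hP hk x u)
    rw [hom] at this
    linear_combination this
  have e2 : x.p + fr x.g u - v i = fr x.g (om i x + u) := by
    have := fr_om (v := v) i x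
    rw [fr_add]
    linear_combination this
  refine ⟨by rw [e1, e2, norm_fr, norm_fr], fun W => ?_⟩
  rw [e1, e2, h52_fr_ip, h52_fr_ip]

/-- the same for segments: as long as the unfolded segment stays in the ball -/
theorem near_seg (hP : IsPolygon P v) (hk : Par v kap) : ∃ r₀ > 0, ∀ (i : ZMod n) (x y : SPt P v N)
    (W : ℂ), (∀ s ∈ Icc (0 : ℝ) 1, ‖x.p + (s : ℂ) * fr x.g W - v i‖ < r₀) →
      (PS hP hk).Seg x W y → ‖y.p - v i‖ = ‖x.p + fr x.g W - v i‖ ∧
      ((y.p - v i) * (starRingEnd ℂ) (fr y.g W)).re =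
        ((x.p + fr x.g W - v i) * (starRingEnd ℂ) (fr x.g W)).re :=
  Pool.Agent.Lib.H71N.near_seg_of hP hk (near_add hP hk)

/-- existence of segments near a vertex, if the unfolded segment avoids the vertex -/
theorem near_exist (hP : IsPolygon P v) (hk : Par v kap) : ∃ r₀ > 0, ∀ (i : ZMod n) (x : SPt P v N)
    (W : ℂ), (∀ s ∈ Icc (0 : ℝ) 1, ‖x.p + (s : ℂ) * fr x.g W - v i‖ < r₀ ∧
      x.p + (s : ℂ) * fr x.g W ≠ v i) → ∃ y, (PS hP hk).Seg x W y :=
  Pool.Agent.Lib.H71N.near_exist_of hP hk (near_add hP hk)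

end Pool.Agent.Lib.H25D
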