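import Pool.Agent.Lib.H25D.PS

/-!
# H25D, chunk P4 (part): from translations to segments near a vertex (helper53)
-/

open Set

namespace Pool.Agent.Lib.H25D

open Pool.Agent.Lib.H42I (IsPolygon)
open Pool.Agent.Lib.H45Z
open Pool.Agent.Lib.H23D (E Gon)

variable {n N : ℕ} [NeZero n] [NeZero N] {P : Set ℂ} {v : ZMod n → ℂ} {kap : ZMod n → ZMod N}

theorem p4s_fr_inner (g : Fr N) (u w : ℂ) :
    (fr g u * (starRingEnd ℂ) (fr g w)).re = (u * (starRingEnd ℂ) w).re := by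
  have h : E g.1 * (starRingEnd ℂ) (E g.1) = 1 := by
    rw [Pool.Agent.Lib.H23D.E_conj, ← Pool.Agent.Lib.H23D.E_add, add_neg_cancel,
      Pool.Agent.Lib.H23D.E_zero]
  have e : ∀ A B : ℂ, E g.1 * A * (starRingEnd ℂ) (E g.1 * B) = A * (starRingEnd ℂ) B := by
    intro A B
    rw [map_mul]
    calc E g.1 * A * ((starRingEnd ℂ) (E g.1) * (starRingEnd ℂ) B) =
        (E g.1 * (starRingEnd ℂ) (E g.1)) * (A * (starRingEnd ℂ) B) := by ring
      _ = A * (starRingEnd ℂ) B := by rw [h, one_mul]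
  unfold fr
  rw [e]
  split_ifs
  · simp only [Complex.mul_re, Complex.conj_re, Complex.conj_im]
    ring
  · rfl

theorem p4s_norm_sq (a b : ℂ) : ‖a + b‖ ^ 2 = ‖a‖ ^ 2 + 2 * (a * (starRingEnd ℂ) b).re + ‖b‖ ^ 2 := by
  rw [← Complex.normSq_eq_norm_sq, ← Complex.normSq_eq_norm_sq, ← Complex.normSq_eq_norm_sq]
  simp only [Complex.normSq_apply, Complex.add_re, Complex.add_im, Complex.mul_re, Complex.conj_re,
    Complex.conj_im]
  ring

/-- `near_seg` from `near_add` -/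
theorem p4s_near_seg (hP : IsPolygon P v) (hk : Par v kap) {r₀ : ℝ}
    (hna : ∀ (i : ZMod n) (x : SPt P v N),
    ‖x.p - v i‖ < r₀ → ∀ u : ℂ, ‖u‖ < rho2 v x.p →
      ‖(sadd hP hk x u).p - v i‖ = ‖x.p + fr x.g u - v i‖ ∧
      ∀ W : ℂ, (((sadd hP hk x u).p - v i) * (starRingEnd ℂ) (fr (sadd hP hk x u).g W)).re =
        ((x.p + fr x.g u - v i) * (starRingEnd ℂ) (fr x.g W)).re)
    (i : ZMod n) (x y : SPt P v N) (W : ℂ)
    (hb : ∀ s ∈ Icc (0 : ℝ) 1, ‖x.p + (s : ℂ) * fr x.g W - v i‖ < r₀)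
    (hs : (PS hP hk).Seg x W y) : ‖y.p - v i‖ = ‖x.p + fr x.g W - v i‖ ∧
      ((y.p - v i) * (starRingEnd ℂ) (fr y.g W)).re =
        ((x.p + fr x.g W - v i) * (starRingEnd ℂ) (fr x.g W)).re := by
  obtain ⟨z, h0, h1, hz⟩ := hs
  obtain ⟨ρ, hρ, hrad, hst⟩ := TSurf.path_unif hz
  -- the property at the time s
  set Q : ℝ → Prop := fun s => ‖(z s).p - v i‖ = ‖x.p + (s : ℂ) * fr x.g W - v i‖ ∧
    ∀ V : ℂ, (((z s).p - v i) * (starRingEnd ℂ) (fr (z s).g V)).re =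
      ((x.p + (s : ℂ) * fr x.g W - v i) * (starRingEnd ℂ) (fr x.g V)).re with hQ
  have hQ0 : Q 0 := by
    rw [hQ]
    simp only [h0]
    refine ⟨by simp, fun V => by simp⟩
  have step : ∀ s ∈ Icc (0 : ℝ) 1, ∀ s' ∈ Icc (0 : ℝ) 1, |s' - s| * ‖W‖ < ρ → Q s → Q s' := by
    intro s hs s' hs' hd hQs
    obtain ⟨q1, q2⟩ := hQs
    have hu : ‖(((s' - s : ℝ) : ℂ) * W)‖ < rho2 v (z s).p := by
      rw [norm_mul, Complex.norm_real, Real.norm_eq_abs]
      have h2 := hrad s hs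
      rw [PS_rad] at h2
      linarith
    have hlt : ‖(z s).p - v i‖ < r₀ := by
      rw [q1]
      exact hb s hs
    obtain ⟨a1, a2⟩ := hna i (z s) hlt _ hu
    have e := hst s hs s' hs' hd
    rw [PS_add] at e
    have key : ∀ V : ℂ, (((z s).p + fr (z s).g (((s' - s : ℝ) : ℂ) * W) - v i) *
        (starRingEnd ℂ) (fr (z s).g V)).re =
        ((x.p + (s' : ℂ) * fr x.g W - v i) * (starRingEnd ℂ) (fr x.g V)).re := by
      intro V
      have e1 : ((z s).p + fr (z s).g (((s' - s : ℝ) : ℂ) * W) - v i) *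
        (starRingEnd ℂ) (fr (z s).g V) = ((z s).p - v i) * (starRingEnd ℂ) (fr (z s).g V) +
          fr (z s).g (((s' - s : ℝ) : ℂ) * W) * (starRingEnd ℂ) (fr (z s).g V) := by ring
      have e2 : (x.p + (s' : ℂ) * fr x.g W - v i) * (starRingEnd ℂ) (fr x.g V) =
          (x.p + (s : ℂ) * fr x.g W - v i) * (starRingEnd ℂ) (fr x.g V) +
          fr x.g (((s' - s : ℝ) : ℂ) * W) * (starRingEnd ℂ) (fr x.g V) := by
        rw [fr_real]
        push_cast
        ring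
      rw [e1, e2, Complex.add_re, Complex.add_re, q2 V, p4s_fr_inner, p4s_fr_inner]
    rw [hQ]
    simp only
    rw [e]
    refine ⟨?_, fun V => by rw [a2 V, key V]⟩
    rw [a1]
    have n1 : ‖(z s).p + fr (z s).g (((s' - s : ℝ) : ℂ) * W) - v i‖ ^ 2 =
        ‖x.p + (s' : ℂ) * fr x.g W - v i‖ ^ 2 := by
      have e1 : (z s).p + fr (z s).g (((s' - s : ℝ) : ℂ) * W) - v i = ((z s).p - v i) +
          fr (z s).g (((s' - s : ℝ) : ℂ) * W) := by ring
      have e2 : x.p + (s' : ℂ) * fr x.g W - v i = (x.p + (s : ℂ) * fr x.g W - v i) +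
          fr x.g (((s' - s : ℝ) : ℂ) * W) := by
        rw [fr_real]
        push_cast
        ring
      rw [e1, e2, p4s_norm_sq, p4s_norm_sq, q1, q2, norm_fr, norm_fr]
    exact (pow_left_inj₀ (norm_nonneg _) (norm_nonneg _) two_ne_zero).1 n1
  -- finitely many steps
  obtain ⟨m, hm⟩ := exists_nat_gt (‖W‖ / ρ)
  have hm0 : 0 < (m : ℝ) := lt_of_le_of_lt (div_nonneg (norm_nonneg _) hρ.le) hm
  have hmem : ∀ k : ℕ, k ≤ m → (k : ℝ) / m ∈ Icc (0 : ℝ) 1 := fun k hk =>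
    ⟨by positivity, (div_le_one hm0).2 (by exact_mod_cast hk)⟩
  have hall : ∀ k : ℕ, k ≤ m → Q ((k : ℝ) / m) := by
    intro k
    induction k with
    | zero =>
      intro _
      rw [Nat.cast_zero, zero_div]
      exact hQ0
    | succ k ih =>
      intro hk
      refine step _ (hmem k (by omega)) _ (hmem (k + 1) hk) ?_ (ih (by omega))
      have e : ((k + 1 : ℕ) : ℝ) / m - (k : ℝ) / m = 1 / m := by
        push_cast
        ring
      rw [e, abs_of_pos (by positivity), one_div, inv_mul_lt_iff₀ hm0]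
      rwa [div_lt_iff₀ hρ] at hm
  have hQ1 := hall m le_rfl
  rw [div_self hm0.ne', hQ] at hQ1
  simp only [h1, Complex.ofReal_one, one_mul] at hQ1
  exact ⟨hQ1.1, hQ1.2 W⟩

end Pool.Agent.Lib.H25D
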