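import Pool.Agent.Lib.H32D.Lit

/-!
# H25D, chunk P13: polygons of the class are illuminated (result)

The proof is helper32's, in `Pool/Agent/Lib/H32D/Lit.lean`.
-/

namespace Pool.Agent.Lib.H25D

theorem classLitAE {n : ℕ} [NeZero n] : ClassLitAE n := Pool.Agent.Lib.H32D.classLitAE

end Pool.Agent.Lib.H25D
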