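import Pool.Agent.Lib.H25D.PS
import Pool.Agent.Lib.H25D.Gen

/-!
# H25D, chunk P10: position function and a countable dense set
-/

open Set

namespace Pool.Agent.Lib.H25D

open Pool.Agent.Lib.H42I (IsPolygon Ray RayS)
open Pool.Agent.Lib.H45Z
open Pool.Agent.H52W (cdet)
open Pool.Agent.Lib.H23D (E Gon)

variable {n N : ℕ} [NeZero n] [NeZero N] {P : Set ℂ} {v : ZMod n → ℂ} {kap : ZMod n → ZMod N}

private theorem p10_fri_cont (g : Fr N) : Continuous (fri g) := by
  unfold fri
  split_ifs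
  · exact Complex.continuous_conj.comp (continuous_const.mul continuous_id)
  · exact continuous_const.mul continuous_id

private theorem p10_cr_cont (θ : ℂ) : Continuous (fun u : ℂ => cr u θ) := by
  unfold cr
  exact (Complex.continuous_re.mul continuous_const).sub
    (Complex.continuous_im.mul continuous_const)

private theorem p10_norm_fri (g : Fr N) (z : ℂ) : ‖fri g z‖ = ‖z‖ := by
  rw [← norm_fr g (fri g z), fr_fri]

private theorem p10_dense (g : Fr N) (p : ℂ) {θ : ℂ} (hθ : θ ≠ 0) :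
    Dense {w : ℂ | cr (fri g (w - p)) θ ≠ 0} := by
  intro w₀
  rw [Metric.mem_closure_iff]
  intro ε hε
  by_cases h0 : cr (fri g (w₀ - p)) θ = 0
  · have hn : 0 < ‖θ‖ := norm_pos_iff.mpr hθ
    obtain ⟨t, ht0, ht⟩ : ∃ t : ℝ, 0 < t ∧ t * ‖θ‖ < ε :=
      ⟨ε / (2 * ‖θ‖), by positivity, by
        field_simp
        linarith⟩
    refine ⟨w₀ + fr g ((t : ℂ) * (Complex.I * θ)), ?_, ?_⟩
    · have h1 : w₀ + fr g ((t : ℂ) * (Complex.I * θ)) - p =
          (w₀ - p) + fr g ((t : ℂ) * (Complex.I * θ)) := by ring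
      change cr (fri g (w₀ + fr g ((t : ℂ) * (Complex.I * θ)) - p)) θ ≠ 0
      rw [h1, fri_add, fri_fr]
      have h2 : cr (fri g (w₀ - p) + (t : ℂ) * (Complex.I * θ)) θ =
          cr (fri g (w₀ - p)) θ - t * (θ.re * θ.re + θ.im * θ.im) := by
        simp only [cr, Complex.add_re, Complex.add_im, Complex.re_ofReal_mul,
          Complex.im_ofReal_mul, Complex.I_mul_re, Complex.I_mul_im]
        ring
      rw [h2, h0, zero_sub, neg_ne_zero]
      have h3 : θ.re * θ.re + θ.im * θ.im = Complex.normSq θ := rfl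
      rw [h3]
      exact mul_ne_zero ht0.ne' (by rwa [Ne, Complex.normSq_eq_zero])
    · rw [dist_eq_norm, sub_add_cancel_left, norm_neg, norm_fr, norm_mul, norm_mul,
        Complex.norm_I, one_mul, Complex.norm_real, Real.norm_eq_abs, abs_of_pos ht0]
      exact ht
  · exact ⟨w₀, h0, by rwa [dist_self]⟩

theorem pos_PS (hP : IsPolygon P v) (hk : Par v kap) (θ : Fin 3 → ℂ) (hθ : ∀ k, θ k ≠ 0) :
    ∃ Q : Set (SPt P v N), (PS hP hk).Pos θ (fun x => Dc x) Q := by
  obtain ⟨S, hSc, hSd⟩ := TopologicalSpace.exists_countable_dense ℂ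
  refine ⟨{x | x.p ∈ S}, ?_, ?_⟩
  · have hinj : Set.InjOn (fun x : SPt P v N => (x.p, x.g)) {x | x.p ∈ S} := by
      intro x _ y _ h
      exact SPt.ext (congrArg Prod.fst h) (congrArg Prod.snd h)
    refine MapsTo.countable_of_injOn (t := S ×ˢ (univ : Set (Fr N))) ?_ hinj
      (hSc.prod (Set.to_countable _))
    intro x hx
    exact ⟨hx, mem_univ _⟩
  · intro x ε hε
    rw [PS_rad]
    have hpos := rho2_pos hP x.p x.nv
    -- the open set
    have hO1 : IsOpen (interior P ∩ Metric.ball x.p (min ε (rho2 v x.p))) :=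
      isOpen_interior.inter Metric.isOpen_ball
    have hO2 : (interior P ∩ Metric.ball x.p (min ε (rho2 v x.p))).Nonempty := by
      have h1 : x.p ∈ closure (interior P) := by
        rw [hP.closure_interior]
        exact x.mem
      rw [Metric.mem_closure_iff] at h1
      obtain ⟨z, hz, hz'⟩ := h1 (min ε (rho2 v x.p)) (lt_min hε hpos)
      exact ⟨z, hz, by rwa [Metric.mem_ball, dist_comm]⟩
    have hopen : ∀ k, IsOpen {w : ℂ | cr (fri x.g (w - x.p)) (θ k) ≠ 0} := fun k =>
      isOpen_ne_fun ((p10_cr_cont (θ k)).comp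
        ((p10_fri_cont x.g).comp (continuous_id.sub continuous_const))) continuous_const
    have hD : Dense (⋂ k, {w : ℂ | cr (fri x.g (w - x.p)) (θ k) ≠ 0}) :=
      dense_iInter_of_isOpen hopen (fun k => p10_dense x.g x.p (hθ k))
    have hDo : IsOpen (⋂ k, {w : ℂ | cr (fri x.g (w - x.p)) (θ k) ≠ 0}) :=
      isOpen_iInter_of_finite hopen
    obtain ⟨w, ⟨⟨hw1, hw2⟩, hw3⟩, hw4⟩ := hSd.inter_open_nonempty _ (hO1.inter hDo)
      (hD.inter_open_nonempty _ hO1 hO2)
    rw [mem_iInter] at hw3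
    rw [Metric.mem_ball, dist_eq_norm, lt_min_iff] at hw2
    have hu : ‖fri x.g (w - x.p)‖ < rho2 v x.p := by
      rw [p10_norm_fri]
      exact hw2.2
    have hfr : x.p + fr x.g (fri x.g (w - x.p)) = w := by
      rw [fr_fri]
      ring
    have he := sadd_eq hP hk x (fri x.g (w - x.p)) hu
    rw [hfr, fold_int hw1] at he
    have hep : (sadd hP hk x (fri x.g (w - x.p))).p = w := congrArg Prod.fst he
    have heg : (sadd hP hk x (fri x.g (w - x.p))).g = x.g := congrArg Prod.snd he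
    refine ⟨sadd hP hk x (fri x.g (w - x.p)), ?_, fri x.g (w - x.p), ?_, hu, rfl, ?_, hw3⟩
    · change (sadd hP hk x (fri x.g (w - x.p))).p ∈ S
      rw [hep]
      exact hw4
    · rw [p10_norm_fri]
      exact hw2.1
    · change Dc (sadd hP hk x (fri x.g (w - x.p))) = Dc x + fri x.g (w - x.p)
      unfold Dc
      rw [hep, heg, ← fri_add]
      congr 1
      ring

end Pool.Agent.Lib.H25D
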