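import Pool.Agent.Lib.H25D.PS
import Pool.Agent.Lib.H42D.SegRay

/-!
# H25D, chunk P11: segments of the surface are light rays
-/

open Set

namespace Pool.Agent.Lib.H25D

open Pool.Agent.Lib.H42I (IsPolygon Ray RayS)
open Pool.Agent.Lib.H45Z
open Pool.Agent.H52W (cdet)
open Pool.Agent.Lib.H23D (E Gon)

variable {n N : ℕ} [NeZero n] [NeZero N] {P : Set ℂ} {v : ZMod n → ℂ} {kap : ZMod n → ZMod N}

/-- the direction `W` is not parallel to a side in any frame -/
def Transv (v : ZMod n → ℂ) (N : ℕ) [NeZero N] (W : ℂ) : Prop :=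
  ∀ (g : Fr N) (i : ZMod n), cdet (v (i + 1) - v i) (fr g W) ≠ 0

theorem ray_of_seg (hP : IsPolygon P v) (hk : Par v kap) {x y : SPt P v N} {W : ℂ}
    (hx : x.p ∈ interior P) (hW : Transv v N W) (h : (PS hP hk).Seg x W y) :
    ∃ g : Fr N, RayS P v x.p y.p (fr g W) ∧ (y.p ∈ interior P → g = y.g) := by
  have hW0 : W ≠ 0 := by
    rintro rfl
    apply hW ((0 : ZMod N), false) 0
    rw [fr_zero]
    simp [cdet]
  exact Pool.Agent.Lib.H42D.seg_ray_fr hP hk x y hx W hW0 h

/-- prolongation of a ray by a straight piece that ends on the boundary -/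
theorem ray_prolong (hP : IsPolygon P v) {q z w d : ℂ} (hz : z ∈ interior P)
    (h : RayS P v q z d) (t : ℝ) (ht : 0 < t) (hw : w = z + (t : ℂ) * d)
    (hs : openSegment ℝ z w ⊆ interior P) : RayS P v q w d :=
  Pool.Agent.Lib.H42D.rayS_prolong hz h t ht hw hs

end Pool.Agent.Lib.H25D
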