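import Pool.Agent.Lib.H25D.PEnds
import Pool.Agent.Lib.H25D.PRefl
import Pool.Agent.Lib.H23D.Star

/-!
# H25D, chunk P8: no leaf from vertex to vertex without perpendicular hit (from part II)
-/

open Set

namespace Pool.Agent.Lib.H25D

open Pool.Agent.Lib.H42I (IsPolygon Ray RayS)
open Pool.Agent.Lib.H45Z
open Pool.Agent.H52W (cdet)
open Pool.Agent.Lib.H23D (E Gon)

variable {n N : ℕ} [NeZero n] [NeZero N] {P : Set ℂ} {v : ZMod n → ℂ} {kap : ZMod n → ZMod N}

theorem star_PS (hP : IsPolygon P v) (hg : Gon v kap) (e : ZMod N) :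
    ∀ (x : SPt P v N) (T T' : ℝ), 0 < T → 0 < T' →
      (PS hP (par_of_gon hg)).Dead (Complex.I * E e) x T →
      (PS hP (par_of_gon hg)).Dead (Complex.I * E e) x (-T') →
      ∃ t : ℝ, -T' < t ∧ t < T ∧ (PS hP (par_of_gon hg)).Hit (Complex.I * E e) (pg kap e) x t :=
  Pool.Agent.Lib.H23D.star hP hg e

end Pool.Agent.Lib.H25D
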