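import Pool.Agent.Lib.H25D.AreaForm

/-!
# H25D: final assembly, one open set of pairs (polygon, source)
-/

open Set MeasureTheory Metric

namespace Pool.Agent.Lib.H25D

open Pool.Agent.Lib.H42I (Ray IsPolygon Illuminable)
open Pool.Agent.H52W (SimpleV)
open Pool.Agent.Lib.H32W (isOpen_simple)

/-- pairs (vertex tuple, point) for which all nearby pairs are illuminable -/
def RobustPair {n : ℕ} (v : ZMod n → ℂ) (q : ℂ) : Prop :=
  ∃ ε : ℝ, 0 < ε ∧ ∀ (P' : Set ℂ) (v' : ZMod n → ℂ) (q' : ℂ), IsPolygon P' v' →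
    (∀ i, ‖v' i - v i‖ < ε) → ‖q' - q‖ < ε → Illuminable P' v' q'

theorem isOpen_robustPair {n : ℕ} [NeZero n] :
    IsOpen {x : (ZMod n → ℂ) × ℂ | RobustPair x.1 x.2} := by
  rw [Metric.isOpen_iff]
  rintro ⟨v, q⟩ ⟨ε, hε, h⟩
  refine ⟨ε / 2, by linarith, ?_⟩
  rintro ⟨w, p⟩ hw
  rw [mem_ball, Prod.dist_eq, max_lt_iff] at hw
  obtain ⟨hw1, hw2⟩ := hw
  rw [dist_pi_lt_iff (by linarith)] at hw1
  rw [dist_eq_norm] at hw2
  refine ⟨ε / 2, by linarith, fun P' v' q' hP' hv' hq' => h P' v' q' hP' (fun i => ?_) ?_⟩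
  · have h1 := hv' i
    have h2 := hw1 i
    rw [dist_eq_norm] at h2
    calc ‖v' i - v i‖ = ‖(v' i - w i) + (w i - v i)‖ := by ring_nf
      _ ≤ ‖v' i - w i‖ + ‖w i - v i‖ := norm_add_le _ _
      _ < ε := by simp only at h2; linarith
  · calc ‖q' - q‖ = ‖(q' - p) + (p - q)‖ := by ring_nf
      _ ≤ ‖q' - p‖ + ‖p - q‖ := norm_add_le _ _
      _ < ε := by simp only at hw2; linarith

/-- Final assembly: one open set `O` of pairs. -/
theorem open_dense_pairs {n : ℕ} [NeZero n] (hcl : ClassLitAE n) :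
    ∃ O : Set ((ZMod n → ℂ) × ℂ), IsOpen O ∧
      (∀ v q, (v, q) ∈ O → ∃ P, IsPolygon P v ∧ q ∈ interior P ∧ Illuminable P v q) ∧
      ∀ η : ℝ, 0 < η → ∃ V : Set (ZMod n → ℂ), IsOpen V ∧ V ⊆ {v | ∃ P, IsPolygon P v} ∧
        {v | ∃ P, IsPolygon P v} ⊆ closure V ∧ ∀ v ∈ V, ∀ P, IsPolygon P v →
          (∃ q, (v, q) ∈ O) ∧ volume (P \ {q | (v, q) ∈ O}) < ENNReal.ofReal η := by
  have hT : ∀ v : ZMod n → ℂ, SimpleV v ↔ ∃ P, IsPolygon P v := by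
    intro v
    constructor
    · intro hv
      obtain ⟨P, hP, -⟩ := Pool.Agent.H52W.exists_polygon hv
      exact ⟨P, hP⟩
    · rintro ⟨P, hP⟩
      exact Pool.Agent.H52W.simpleV_of_polygon hP
  refine ⟨{x | SimpleV x.1 ∧ RobustPair x.1 x.2}, ?_, ?_, ?_⟩
  · have h1 : IsOpen {x : (ZMod n → ℂ) × ℂ | SimpleV x.1} := isOpen_simple.preimage continuous_fst
    exact h1.inter isOpen_robustPair
  · rintro v q ⟨hv, ε, hε, h⟩
    obtain ⟨P, hP⟩ := (hT v).1 hv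
    have h1 : ∀ q' : ℂ, (∃ p ∈ ({q} : Set ℂ), ‖q' - p‖ < ε) → Illuminable P v q' := by
      rintro q' ⟨p, hp, hpq⟩
      rw [mem_singleton_iff.1 hp] at hpq
      exact h P v q' hP (fun i => by simpa using hε) hpq
    have h2 : ∃ p ∈ ({q} : Set ℂ), ‖q - p‖ < ε := ⟨q, rfl, by simpa using hε⟩
    exact ⟨P, hP, Pool.Agent.Lib.H52W.interior_of_near hP h1 h2, h1 q h2⟩
  · intro η hη
    refine ⟨{v | SimpleV v} ∩ {v | RobustA η v}, isOpen_simple.inter (isOpen_robustA η),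
      fun v hv => (hT v).1 hv.1, ?_, ?_⟩
    · intro v hv
      exact dense_robustA hcl η hη ((hT v).2 hv)
    · rintro v ⟨hv, K, ε, ⟨q₀, hq₀⟩, hε, h⟩ P hP
      have hK : ∀ q ∈ K, (v, q) ∈ {x : (ZMod n → ℂ) × ℂ | SimpleV x.1 ∧ RobustPair x.1 x.2} := by
        intro q hq
        refine ⟨hv, ε, hε, fun P' v' q' hP' hv' hq' => ?_⟩
        exact (h P' v' hP' hv').2 q' ⟨q, hq, hq'⟩
      refine ⟨⟨q₀, hK q₀ hq₀⟩, lt_of_le_of_lt (measure_mono ?_) (h P v hP (fun i => by simpa using hε)).1⟩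
      rintro x ⟨hx, hx'⟩
      exact ⟨hx, fun hxK => hx' (hK x hxK)⟩

end Pool.Agent.Lib.H25D
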