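import Pool.Agent.Lib.H25D.PolyLocal

/-!
# H25D, chunk P1b: the surface of states of a polygon is a `TSurf`
-/

open Set

namespace Pool.Agent.Lib.H25D

open Pool.Agent.Lib.H42I (IsPolygon Ray Illuminable refl)

variable {n : ℕ} [NeZero n] {N : ℕ} {P : Set ℂ} {v : ZMod n → ℂ}

/-! ### Linear algebra -/

theorem h71_cr_add (a b c : ℂ) : cr a (b + c) = cr a b + cr a c := by
  simp only [cr, Complex.add_re, Complex.add_im]; ring

theorem h71_cr_real (a b : ℂ) (t : ℝ) : cr a ((t : ℂ) * b) = t * cr a b := by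
  simp only [cr, Complex.mul_re, Complex.mul_im, Complex.ofReal_re, Complex.ofReal_im]; ring

theorem h71_sd_ne (h : Cls N P v) (i : ZMod n) : sd v i ≠ 0 := by
  intro h0
  have h1 := h.root i
  unfold tau at h1
  rw [h0, zero_div, zero_pow h.prime.ne_zero] at h1
  exact zero_ne_one h1

theorem h71_conj_ne (h : Cls N P v) (i : ZMod n) : (starRingEnd ℂ) (sd v i) ≠ 0 :=
  (map_ne_zero _).2 (h71_sd_ne h i)

theorem h71_tau_conj (h : Cls N P v) (i : ZMod n) :
    tau v i * (starRingEnd ℂ) (sd v i) = sd v i := by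
  unfold tau
  exact div_mul_cancel₀ _ (h71_conj_ne h i)

theorem h71_tau_norm (h : Cls N P v) (i : ZMod n) : ‖tau v i‖ = 1 :=
  Complex.norm_eq_one_of_pow_eq_one (h.root i) h.prime.ne_zero

theorem h71_mul_conj {c : ℂ} (hc : ‖c‖ = 1) : c * (starRingEnd ℂ) c = 1 := by
  rw [Complex.mul_conj, Complex.normSq_eq_norm_sq, hc]
  norm_num

theorem h71_norm_lc {c : ℂ} (hc : ‖c‖ = 1) (e : Bool) (W : ℂ) : ‖lc c e W‖ = ‖W‖ := by
  unfold lc
  split_ifs
  · rw [norm_mul, hc, one_mul, Complex.norm_conj]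
  · rw [norm_mul, Complex.norm_conj, hc, one_mul]

theorem h71_lc_add (c : ℂ) (e : Bool) (u w : ℂ) : lc c e (u + w) = lc c e u + lc c e w := by
  unfold lc
  split_ifs
  · rw [map_add]; ring
  · ring

theorem h71_lc_sub (c : ℂ) (e : Bool) (u w : ℂ) : lc c e (u - w) = lc c e u - lc c e w := by
  unfold lc
  split_ifs
  · rw [map_sub]; ring
  · ring

theorem h71_lc_zero (c : ℂ) (e : Bool) : lc c e 0 = 0 := by
  unfold lc
  split_ifs <;> simp

theorem h71_lc_inj {c : ℂ} (hc : ‖c‖ = 1) (e : Bool) {u w : ℂ} (h : lc c e u = lc c e w) : u = w := by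
  have h1 : ‖lc c e (u - w)‖ = 0 := by rw [h71_lc_sub, h, sub_self, norm_zero]
  rw [h71_norm_lc hc, norm_eq_zero] at h1
  exact sub_eq_zero.1 h1

/-- the local vector in the frame behind the mirror -/
theorem h71_lc_mf {c : ℂ} (e : Bool) (t w : ℂ) :
    lc (mf c e t) (!e) w = t * (starRingEnd ℂ) (lc c e w) := by
  cases e
  · simp only [lc, mf, Bool.not_false, if_true, Bool.false_eq_true, if_false, map_mul,
      Complex.conj_conj]
    ring
  · simp only [lc, mf, Bool.not_true, if_true, Bool.false_eq_true, if_false, map_mul,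
      Complex.conj_conj]
    ring

theorem h71_mf_mf {t : ℂ} (ht : ‖t‖ = 1) (c : ℂ) (e : Bool) : mf (mf c e t) (!e) t = c := by
  have h1 := h71_mul_conj ht
  cases e
  · simp only [mf, Bool.not_false, if_true, Bool.false_eq_true, if_false]
    rw [mul_assoc, h1, mul_one]
  · simp only [mf, Bool.not_true, if_true, Bool.false_eq_true, if_false]
    rw [mul_assoc, mul_comm ((starRingEnd ℂ) t) t, h1, mul_one]

theorem h71_mf_pow (h : Cls N P v) (i : ZMod n) {c : ℂ} (hc : c ^ N = 1) (e : Bool) :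
    mf c e (tau v i) ^ N = 1 := by
  unfold mf
  split_ifs
  · rw [mul_pow, hc, ← map_pow, h.root i, map_one, one_mul]
  · rw [mul_pow, hc, h.root i, one_mul]

omit [NeZero n] in
theorem h71_mir_add (i : ZMod n) (z W : ℂ) :
    mir v i (z + W) = mir v i z + tau v i * (starRingEnd ℂ) W := by
  unfold mir
  have e : z + W - v i = (z - v i) + W := by ring
  rw [e, map_add]; ring

theorem h71_mir_mir (h : Cls N P v) (i : ZMod n) (z : ℂ) : mir v i (mir v i z) = z := by
  have h1 := h71_mul_conj (h71_tau_norm h i)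
  unfold mir
  have e : v i + tau v i * (starRingEnd ℂ) (z - v i) - v i = tau v i * (starRingEnd ℂ) (z - v i) := by
    ring
  rw [e, map_mul, Complex.conj_conj, ← mul_assoc, h1]
  ring

theorem h71_cr_eq (a b : ℂ) : cr a b = ((starRingEnd ℂ) a * b).im := by
  simp only [cr, Complex.mul_im, Complex.conj_re, Complex.conj_im]; ring

theorem h71_cr_mir (h : Cls N P v) (i : ZMod n) (z : ℂ) :
    cr (sd v i) (mir v i z - v i) = - cr (sd v i) (z - v i) := by
  have e : mir v i z - v i = tau v i * (starRingEnd ℂ) (z - v i) := by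
    unfold mir; ring
  rw [h71_cr_eq, h71_cr_eq, e]
  have e2 : (starRingEnd ℂ) (sd v i) * (tau v i * (starRingEnd ℂ) (z - v i))
      = (starRingEnd ℂ) ((starRingEnd ℂ) (sd v i) * (z - v i)) := by
    rw [map_mul, Complex.conj_conj]
    calc (starRingEnd ℂ) (sd v i) * (tau v i * (starRingEnd ℂ) (z - v i))
        = (tau v i * (starRingEnd ℂ) (sd v i)) * (starRingEnd ℂ) (z - v i) := by ring
      _ = _ := by rw [h71_tau_conj h i]
  rw [e2, Complex.conj_im]

theorem h71_mir_fix (h : Cls N P v) (i : ZMod n) {z : ℂ} (hz : cr (sd v i) (z - v i) = 0) :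
    mir v i z = z := by
  have h1 : (starRingEnd ℂ) ((starRingEnd ℂ) (sd v i) * (z - v i)) = (starRingEnd ℂ) (sd v i) * (z - v i) := by
    rw [Complex.conj_eq_iff_im, ← h71_cr_eq, hz]
  rw [map_mul, Complex.conj_conj] at h1
  have h2 : (starRingEnd ℂ) (sd v i) * (tau v i * (starRingEnd ℂ) (z - v i))
      = (starRingEnd ℂ) (sd v i) * (z - v i) := by
    rw [← h1]
    calc (starRingEnd ℂ) (sd v i) * (tau v i * (starRingEnd ℂ) (z - v i))
        = (tau v i * (starRingEnd ℂ) (sd v i)) * (starRingEnd ℂ) (z - v i) := by ring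
      _ = _ := by rw [h71_tau_conj h i]
  have h3 := mul_left_cancel₀ (h71_conj_ne h i) h2
  unfold mir
  rw [h3]
  ring

/-- the mirror image of a point behind the mirror is not farther away -/
theorem h71_mir_near (h : Cls N P v) (i : ZMod n) {p z : ℂ} {σ : ℝ} (hσ : σ = 1 ∨ σ = -1)
    (hp : 0 ≤ σ * cr (sd v i) (p - v i)) (hz : σ * cr (sd v i) (z - v i) ≤ 0) :
    ‖mir v i z - p‖ ≤ ‖z - p‖ := by
  have hs := h71_sd_ne h i
  have hN : 0 < Complex.normSq (sd v i) := Complex.normSq_pos.2 hs
  have hprod : cr (sd v i) (p - v i) * cr (sd v i) (z - v i) ≤ 0 := by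
    rcases hσ with rfl | rfl <;> nlinarith
  have key : Complex.normSq (sd v i) * Complex.normSq (mir v i z - p)
      = Complex.normSq (sd v i) * Complex.normSq (z - p)
        + 4 * (cr (sd v i) (p - v i) * cr (sd v i) (z - v i)) := by
    have e1 : (starRingEnd ℂ) (sd v i) * (mir v i z - p)
        = sd v i * (starRingEnd ℂ) (z - v i) - (starRingEnd ℂ) (sd v i) * (p - v i) := by
      unfold mir
      calc (starRingEnd ℂ) (sd v i) * (v i + tau v i * (starRingEnd ℂ) (z - v i) - p)
          = (tau v i * (starRingEnd ℂ) (sd v i)) * (starRingEnd ℂ) (z - v i)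
            - (starRingEnd ℂ) (sd v i) * (p - v i) := by ring
        _ = _ := by rw [h71_tau_conj h i]
    have e2 : Complex.normSq (sd v i) * Complex.normSq (mir v i z - p)
        = Complex.normSq ((starRingEnd ℂ) (sd v i) * (mir v i z - p)) := by
      rw [Complex.normSq_mul, Complex.normSq_conj]
    rw [e2, e1]
    simp only [Complex.normSq_apply, cr, Complex.sub_re, Complex.sub_im, Complex.mul_re, Complex.mul_im,
      Complex.conj_re, Complex.conj_im]
    ring
  have h4 : Complex.normSq (mir v i z - p) ≤ Complex.normSq (z - p) := by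
    by_contra hcon
    rw [not_le] at hcon
    nlinarith
  rw [Complex.normSq_eq_norm_sq, Complex.normSq_eq_norm_sq] at h4
  exact (pow_le_pow_iff_left₀ (norm_nonneg _) (norm_nonneg _) two_ne_zero).1 h4

omit [NeZero n] in
theorem h71_cr_side {i : ZMod n} {z : ℂ} (hz : z ∈ side v i) : cr (sd v i) (z - v i) = 0 := by
  unfold side at hz
  rw [segment_eq_image] at hz
  obtain ⟨s, -, rfl⟩ := hz
  have e : (1 - s) • v i + s • v (i + 1) - v i = (s : ℂ) * sd v i := by
    simp only [Complex.real_smul, sd]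
    push_cast
    ring
  show cr (sd v i) ((1 - s) • v i + s • v (i + 1) - v i) = 0
  rw [e, h71_cr_real]
  simp only [cr]
  ring

omit [NeZero n] in
theorem h71_side_frontier (h : IsPolygon P v) {i : ZMod n} {z : ℂ} (hz : z ∈ side v i) :
    z ∈ frontier P := by
  rw [h.frontier_eq]
  exact mem_iUnion.2 ⟨i, hz⟩

theorem h71_side_not_interior (h : IsPolygon P v) {i : ZMod n} {z : ℂ} (hz : z ∈ side v i) :
    z ∉ interior P := by
  have h1 := h71_side_frontier h hz
  rw [frontier] at h1
  exact h1.2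

/-! ### The two cases -/

/-- the ball around `p` is cut by the side `i` -/
structure H71B (P : Set ℂ) (v : ZMod n → ℂ) (p : ℂ) (i : ZMod n) (σ : ℝ) : Prop where
  hσ : σ = 1 ∨ σ = -1
  hp : 0 ≤ σ * cr (sd v i) (p - v i)
  h1 : ∀ z ∈ Metric.ball p (prad v p), (z ∈ P ↔ 0 ≤ σ * cr (sd v i) (z - v i)) ∧
    (z ∈ interior P ↔ 0 < σ * cr (sd v i) (z - v i))
  h2 : ∀ z ∈ Metric.ball p (prad v p), cr (sd v i) (z - v i) = 0 → z ∈ openSegment ℝ (v i) (v (i + 1))
  h3 : ∀ j, j ≠ i → ∀ z ∈ Metric.ball p (prad v p), z ∉ side v j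

theorem h71_cases (h : IsPolygon P v) {p : ℂ} (hp : p ∈ P) (hv : ∀ i, p ≠ v i) :
    (∀ z ∈ Metric.ball p (prad v p), z ∈ interior P) ∨ ∃ (i : ZMod n) (σ : ℝ), H71B P v p i σ := by
  rcases half_disc h hp hv with h1 | ⟨i, σ, h1, h2, h3, h4, h5⟩
  · exact Or.inl h1
  · exact Or.inr ⟨i, σ, h1, h2, h3, h4, h5⟩

omit [NeZero n] in
theorem h71_canon_id {x : St} (hx : ∀ i, x.p ∉ side v i) : canon v x = x := by
  unfold canon
  rw [dif_neg]
  rintro ⟨-, i, hi⟩
  exact hx i hi

omit [NeZero n] in
theorem h71_canon_false {x : St} (hx : x.e = false) : canon v x = x := by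
  unfold canon
  rw [dif_neg]
  rintro ⟨h1, -⟩
  rw [hx] at h1
  exact Bool.false_ne_true h1

omit [NeZero n] in
theorem h71_canon_true {z c : ℂ} {i : ZMod n} (hz : z ∈ side v i) (hu : ∀ j, z ∈ side v j → j = i) :
    canon v ⟨z, c, true⟩ = ⟨z, mf c true (tau v i), false⟩ := by
  have hh : (⟨z, c, true⟩ : St).e = true ∧ ∃ i, (⟨z, c, true⟩ : St).p ∈ side v i := ⟨rfl, i, hz⟩
  unfold canon
  rw [dif_pos hh]
  have h1 : hh.2.choose = i := hu _ hh.2.choose_spec
  rw [h1]

open Classical in
/-- the folded state -/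
noncomputable def h71F (v : ZMod n → ℂ) (i : ZMod n) (σ : ℝ) (z c : ℂ) (e : Bool) : St :=
  if 0 < σ * cr (sd v i) (z - v i) then ⟨z, c, e⟩
  else if σ * cr (sd v i) (z - v i) = 0 then
    (if e = true then ⟨z, mf c e (tau v i), false⟩ else ⟨z, c, false⟩)
  else ⟨mir v i z, mf c e (tau v i), !e⟩

theorem h71_zero {σ : ℝ} (hσ : σ = 1 ∨ σ = -1) {a : ℝ} (h : σ * a = 0) : a = 0 := by
  rcases hσ with rfl | rfl <;> linarith

/-- the folded state does not depend on the representation -/
theorem h71F_mir (h : Cls N P v) (i : ZMod n) {σ : ℝ} (hσ : σ = 1 ∨ σ = -1) (y c : ℂ) (e : Bool) :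
    h71F v i σ (mir v i y) (mf c e (tau v i)) (!e) = h71F v i σ y c e := by
  have ht := h71_tau_norm h i
  have hm := h71_mf_mf ht c e
  unfold h71F
  rw [h71_cr_mir h i, mul_neg]
  rcases lt_trichotomy 0 (σ * cr (sd v i) (y - v i)) with h1 | h1 | h1
  · rw [if_neg (by linarith), if_neg (by linarith), if_pos h1, h71_mir_mir h, hm, Bool.not_not]
  · have hy := h71_mir_fix h i (h71_zero hσ h1.symm)
    rw [← h1, neg_zero, if_neg (lt_irrefl _), if_pos rfl, if_neg (lt_irrefl _), if_pos rfl, hm, hy]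
    cases e <;> simp
  · rw [if_pos (by linarith), if_neg (by linarith), if_neg (by linarith)]

theorem H71B.side_iff {p : ℂ} {i : ZMod n} {σ : ℝ} (hB : H71B P v p i σ) {z : ℂ} (hz : z ∈ Metric.ball p (prad v p)) {j : ZMod n} :
    z ∈ side v j ↔ j = i ∧ cr (sd v i) (z - v i) = 0 := by
  constructor
  · intro h1
    have h2 : j = i := by
      by_contra h2
      exact hB.h3 j h2 z hz h1
    subst h2
    exact ⟨rfl, h71_cr_side h1⟩
  · rintro ⟨rfl, h1⟩
    exact openSegment_subset_segment ℝ _ _ (hB.h2 z hz h1)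

omit [NeZero n] in
theorem h71_padd_pos {x : St} {u z : ℂ} (hz : x.p + lc x.c x.e u = z) (hzP : z ∈ P) :
    padd P v x u = canon v ⟨z, x.c, x.e⟩ := by
  subst hz
  unfold padd
  rw [if_pos hzP]

omit [NeZero n] in
theorem h71_padd_neg {x : St} {u z : ℂ} (hz : x.p + lc x.c x.e u = z) (hzP : z ∉ P) {i : ZMod n}
    (hi : (segment ℝ x.p z ∩ side v i).Nonempty)
    (huniq : ∀ j, (segment ℝ x.p z ∩ side v j).Nonempty → j = i) :
    padd P v x u = canon v ⟨mir v i z, mf x.c x.e (tau v i), !x.e⟩ := by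
  subst hz
  have hex : ∃ i, (segment ℝ x.p (x.p + lc x.c x.e u) ∩ side v i).Nonempty := ⟨i, hi⟩
  unfold padd
  rw [if_neg hzP, dif_pos hex]
  rw [huniq _ hex.choose_spec]

/-- translation inside the ball, ball cut by a side -/
theorem h71_padd_B (h : Cls N P v) {p : ℂ} {i : ZMod n} {σ : ℝ} (hB : H71B P v p i σ) {q c : ℂ}
    {e : Bool} {u : ℂ} (hq : q ∈ Metric.ball p (prad v p)) (hq0 : 0 ≤ σ * cr (sd v i) (q - v i))
    (hz : q + lc c e u ∈ Metric.ball p (prad v p)) :
    padd P v ⟨q, c, e⟩ u = h71F v i σ (q + lc c e u) c e := by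
  have hσ := hB.hσ
  generalize hzz : q + lc c e u = z at hz
  by_cases hzP : z ∈ P
  · rw [h71_padd_pos hzz hzP]
    have h0 := ((hB.h1 z hz).1).1 hzP
    unfold h71F
    rcases h0.lt_or_eq with h1 | h1
    · rw [if_pos h1]
      refine h71_canon_id fun j hj => ?_
      have h2 := ((hB.side_iff hz).1 hj).2
      rw [h2, mul_zero] at h1
      exact lt_irrefl _ h1
    · rw [← h1, if_neg (lt_irrefl _), if_pos rfl]
      have h2 : cr (sd v i) (z - v i) = 0 := h71_zero hσ h1.symm
      cases e
      · rw [if_neg Bool.false_ne_true, h71_canon_false rfl]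
      · rw [if_pos rfl]
        exact h71_canon_true ((hB.side_iff hz).2 ⟨rfl, h2⟩) fun j hj => ((hB.side_iff hz).1 hj).1
  · have hNP := hzP
    have h0 : σ * cr (sd v i) (z - v i) < 0 := by
      by_contra hcon
      exact hzP (((hB.h1 z hz).1).2 (not_lt.1 hcon))
    have hseg : segment ℝ q z ⊆ Metric.ball p (prad v p) :=
      (convex_ball p (prad v p)).segment_subset hq hz
    have hex : (segment ℝ q z ∩ side v i).Nonempty := by
      have hden : 0 < σ * cr (sd v i) (q - v i) - σ * cr (sd v i) (z - v i) := by linarith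
      have ht : σ * cr (sd v i) (q - v i) / (σ * cr (sd v i) (q - v i) - σ * cr (sd v i) (z - v i)) ∈
          Icc (0 : ℝ) 1 := by
        constructor
        · exact div_nonneg hq0 hden.le
        · rw [div_le_one hden]; linarith
      generalize htt : σ * cr (sd v i) (q - v i) /
        (σ * cr (sd v i) (q - v i) - σ * cr (sd v i) (z - v i)) = t at ht
      have hy : q + (t : ℂ) * (z - q) ∈ segment ℝ q z := by
        rw [segment_eq_image']
        exact ⟨t, ht, by simp only [Complex.real_smul]⟩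
      refine ⟨q + (t : ℂ) * (z - q), hy, (hB.side_iff (hseg hy)).2 ⟨rfl, ?_⟩⟩
      have e1 : q + (t : ℂ) * (z - q) - v i = (((1 - t : ℝ) : ℂ) * (q - v i)) + (t : ℂ) * (z - v i) := by
        push_cast; ring
      rw [e1, h71_cr_add, h71_cr_real, h71_cr_real]
      apply h71_zero hσ
      have e2 : t * (σ * cr (sd v i) (q - v i) - σ * cr (sd v i) (z - v i)) = σ * cr (sd v i) (q - v i) := by
        rw [← htt]
        exact div_mul_cancel₀ _ hden.ne'
      linear_combination -e2
    rw [h71_padd_neg hzz hNP hex ?_]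
    swap
    · rintro j ⟨y, hy1, hy2⟩
      exact ((hB.side_iff (hseg hy1)).1 hy2).1
    unfold h71F
    rw [if_neg (by linarith), if_neg (by linarith)]
    refine h71_canon_id fun j hj => ?_
    have hm : mir v i z ∈ Metric.ball p (prad v p) := by
      rw [Metric.mem_ball, dist_eq_norm] at hz ⊢
      exact (h71_mir_near h i hσ hB.hp h0.le).trans_lt hz
    have h2 := ((hB.side_iff hm).1 hj).2
    rw [h71_cr_mir h i] at h2
    have h3 : cr (sd v i) (z - v i) = 0 := by linarith
    rw [h3, mul_zero] at h0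
    exact lt_irrefl _ h0

/-- translation inside the ball, ball inside -/
theorem h71_padd_A (h : Cls N P v) {p : ℂ} (hA : ∀ z ∈ Metric.ball p (prad v p), z ∈ interior P)
    {q c : ℂ} {e : Bool} {u : ℂ} (hz : q + lc c e u ∈ Metric.ball p (prad v p)) :
    padd P v ⟨q, c, e⟩ u = ⟨q + lc c e u, c, e⟩ := by
  unfold padd
  rw [if_pos (interior_subset (hA _ hz))]
  exact h71_canon_id fun j hj => h71_side_not_interior h.poly hj (hA _ hz)

/-- where the folded point is -/
theorem h71F_near (h : Cls N P v) {p : ℂ} {i : ZMod n} {σ : ℝ} (hB : H71B P v p i σ) {z : ℂ} (c : ℂ)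
    (e : Bool) : ‖(h71F v i σ z c e).p - p‖ ≤ ‖z - p‖ := by
  unfold h71F
  split_ifs with h1 h2 h3
  · exact le_rfl
  · exact le_rfl
  · exact le_rfl
  · exact h71_mir_near h i hB.hσ hB.hp (not_lt.1 h1)

theorem h71F_pos (h : Cls N P v) {i : ZMod n} {σ : ℝ} {z : ℂ} (c : ℂ) (e : Bool) :
    0 ≤ σ * cr (sd v i) ((h71F v i σ z c e).p - v i) := by
  unfold h71F
  split_ifs with h1 h2 h3
  · exact h1.le
  · exact h2.ge
  · exact h2.ge
  · show 0 ≤ σ * cr (sd v i) (mir v i z - v i)
    rw [h71_cr_mir h i]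
    have := not_lt.1 h1
    linarith

theorem h71_x_eta (x : St) : x = ⟨x.p, x.c, x.e⟩ := rfl

theorem h71_norm (h : Cls N P v) (x : PX N P v) : ‖x.1.c‖ = 1 :=
  Complex.norm_eq_one_of_pow_eq_one x.2.2.2.1 h.prime.ne_zero

theorem h71_in_ball {p : ℂ} {c : ℂ} (hc : ‖c‖ = 1) {e : Bool} {u : ℂ} {r : ℝ} (hu : ‖u‖ < r) :
    p + lc c e u ∈ Metric.ball p r := by
  rw [Metric.mem_ball, dist_eq_norm, add_sub_cancel_left, h71_norm_lc hc]
  exact hu

theorem h71_center (h : Cls N P v) (x : PX N P v) : x.1.p ∈ Metric.ball x.1.p (prad v x.1.p) :=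
  Metric.mem_ball_self (prad_pos h.poly x.2.2.1)

theorem isSt_padd (h : Cls N P v) (x : PX N P v) (u : ℂ) (hu : ‖u‖ < prad v x.1.p) :
    IsSt N P v (padd P v x.1 u) := by
  have hc := h71_norm h x
  have hz := h71_in_ball (p := x.1.p) hc (e := x.1.e) hu
  have hvert : ∀ z ∈ Metric.ball x.1.p (prad v x.1.p), ∀ j, z ≠ v j := by
    rintro z hz j rfl
    rw [Metric.mem_ball, dist_comm, dist_eq_norm] at hz
    exact absurd hz (not_lt.2 (prad_le_vertex h.poly x.1.p j))
  rcases h71_cases h.poly x.2.1 x.2.2.1 with hA | ⟨i, σ, hB⟩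
  · rw [h71_x_eta x.1, h71_padd_A h hA hz]
    refine ⟨interior_subset (hA _ hz), hvert _ hz, x.2.2.2.1, ?_⟩
    rintro ⟨j, hj⟩
    exact absurd (hA _ hz) (h71_side_not_interior h.poly hj)
  · rw [h71_x_eta x.1, h71_padd_B h hB (h71_center h x) hB.hp hz]
    have hn := h71F_near h hB (z := x.1.p + lc x.1.c x.1.e u) x.1.c x.1.e
    have hb : (h71F v i σ (x.1.p + lc x.1.c x.1.e u) x.1.c x.1.e).p ∈
        Metric.ball x.1.p (prad v x.1.p) := by
      rw [Metric.mem_ball, dist_eq_norm] at hz ⊢
      exact hn.trans_lt hz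
    have hpos := h71F_pos h (i := i) (σ := σ) (z := x.1.p + lc x.1.c x.1.e u) x.1.c x.1.e
    refine ⟨((hB.h1 _ hb).1).2 hpos, hvert _ hb, ?_, ?_⟩
    · unfold h71F
      split_ifs
      · exact x.2.2.2.1
      · exact h71_mf_pow h i x.2.2.2.1 _
      · exact x.2.2.2.1
      · exact h71_mf_pow h i x.2.2.2.1 _
    · rintro ⟨j, hj⟩
      have h2 := ((hB.side_iff hb).1 hj).2
      revert h2
      unfold h71F
      split_ifs with h3 h4 h5
      · intro h2
        change cr (sd v i) (x.1.p + lc x.1.c x.1.e u - v i) = 0 at h2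
        rw [h2, mul_zero] at h3
        exact absurd h3 (lt_irrefl _)
      · intro _; rfl
      · intro _; rfl
      · intro h2
        change cr (sd v i) (mir v i (x.1.p + lc x.1.c x.1.e u) - v i) = 0 at h2
        rw [h71_cr_mir h i] at h2
        exfalso
        apply h4
        rw [neg_eq_zero.1 h2, mul_zero]

theorem padd_zero (h : Cls N P v) (x : PX N P v) : padd P v x.1 0 = x.1 := by
  have hz : x.1.p + lc x.1.c x.1.e 0 = x.1.p := by rw [h71_lc_zero, add_zero]
  rw [h71_padd_pos hz x.2.1]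
  by_cases hs : ∃ i, x.1.p ∈ side v i
  · exact h71_canon_false (x.2.2.2.2 hs)
  · exact h71_canon_id fun j hj => hs ⟨j, hj⟩

theorem prad_padd (h : Cls N P v) (x : PX N P v) (u : ℂ) (hu : ‖u‖ < prad v x.1.p) :
    prad v x.1.p - ‖u‖ ≤ prad v (padd P v x.1 u).p := by
  have hc := h71_norm h x
  have hz := h71_in_ball (p := x.1.p) hc (e := x.1.e) hu
  have key : ‖(padd P v x.1 u).p - x.1.p‖ ≤ ‖u‖ := by
    rcases h71_cases h.poly x.2.1 x.2.2.1 with hA | ⟨i, σ, hB⟩
    · rw [h71_x_eta x.1, h71_padd_A h hA hz]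
      show ‖x.1.p + lc x.1.c x.1.e u - x.1.p‖ ≤ ‖u‖
      rw [add_sub_cancel_left, h71_norm_lc hc]
    · rw [h71_x_eta x.1, h71_padd_B h hB (h71_center h x) hB.hp hz]
      have hn := h71F_near h hB (z := x.1.p + lc x.1.c x.1.e u) x.1.c x.1.e
      rwa [add_sub_cancel_left, h71_norm_lc hc] at hn
  have := prad_lip h.poly x.1.p (padd P v x.1 u).p
  linarith

theorem padd_padd (h : Cls N P v) (x : PX N P v) (u w : ℂ) (hu : ‖u‖ + ‖w‖ < prad v x.1.p) :
    padd P v (padd P v x.1 u) w = padd P v x.1 (u + w) := by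
  have hc := h71_norm h x
  have hu' : ‖u‖ < prad v x.1.p := by linarith [norm_nonneg w]
  have huw : ‖u + w‖ < prad v x.1.p := (norm_add_le u w).trans_lt hu
  have hz := h71_in_ball (p := x.1.p) hc (e := x.1.e) hu'
  have hz2 := h71_in_ball (p := x.1.p) hc (e := x.1.e) huw
  rcases h71_cases h.poly x.2.1 x.2.2.1 with hA | ⟨i, σ, hB⟩
  · rw [h71_x_eta x.1, h71_padd_A h hA hz, h71_padd_A h hA hz2, h71_padd_A h hA, h71_lc_add, add_assoc]
    rwa [h71_lc_add, ← add_assoc] at hz2
  · rw [h71_x_eta x.1, h71_padd_B h hB (h71_center h x) hB.hp hz,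
      h71_padd_B h hB (h71_center h x) hB.hp hz2]
    have e0 : x.1.p + lc x.1.c x.1.e (u + w) = x.1.p + lc x.1.c x.1.e u + lc x.1.c x.1.e w := by
      rw [h71_lc_add, add_assoc]
    rw [e0]
    rw [e0] at hz2
    have hnz : ‖x.1.p + lc x.1.c x.1.e u - x.1.p‖ = ‖u‖ := by
      rw [add_sub_cancel_left, h71_norm_lc hc]
    generalize hzz : x.1.p + lc x.1.c x.1.e u = z at *
    generalize hcc : x.1.c = c at *
    generalize hee : x.1.e = e at *
    -- the new frame has the same form
    have hlc : ∀ w, lc (mf c e (tau v i)) (!e) w = tau v i * (starRingEnd ℂ) (lc c e w) :=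
      fun w => h71_lc_mf e _ w
    have hcm : ‖mf c e (tau v i)‖ = 1 := by
      unfold mf
      split_ifs
      · rw [norm_mul, Complex.norm_conj, hc, h71_tau_norm h, one_mul]
      · rw [norm_mul, hc, h71_tau_norm h, one_mul]
    by_cases h1 : 0 < σ * cr (sd v i) (z - v i)
    · have e1 : h71F v i σ z c e = ⟨z, c, e⟩ := by
        unfold h71F
        rw [if_pos h1]
      rw [e1]
      exact h71_padd_B h hB hz h1.le hz2
    · by_cases h2 : σ * cr (sd v i) (z - v i) = 0
      · by_cases h3 : e = true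
        · have e1 : h71F v i σ z c e = ⟨z, mf c e (tau v i), !e⟩ := by
            unfold h71F
            rw [if_neg h1, if_pos h2, if_pos h3, h3]
            rfl
          have hmz : mir v i z = z := h71_mir_fix h i (h71_zero hB.hσ h2)
          have e2 : z + lc (mf c e (tau v i)) (!e) w = mir v i (z + lc c e w) := by
            rw [h71_mir_add, hmz, hlc]
          rw [e1, h71_padd_B h hB hz h2.ge, e2, h71F_mir h i hB.hσ]
          rw [Metric.mem_ball, dist_eq_norm]
          calc ‖z + lc (mf c e (tau v i)) (!e) w - x.1.p‖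
              = ‖(z - x.1.p) + lc (mf c e (tau v i)) (!e) w‖ := by congr 1; ring
            _ ≤ ‖z - x.1.p‖ + ‖lc (mf c e (tau v i)) (!e) w‖ := norm_add_le _ _
            _ < prad v x.1.p := by rw [hnz, h71_norm_lc hcm]; exact hu
        · have h4 : e = false := by simpa using h3
          have e1 : h71F v i σ z c e = ⟨z, c, e⟩ := by
            unfold h71F
            rw [if_neg h1, if_pos h2, if_neg h3, h4]
          rw [e1]
          exact h71_padd_B h hB hz h2.ge hz2
      · have e1 : h71F v i σ z c e = ⟨mir v i z, mf c e (tau v i), !e⟩ := by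
          unfold h71F
          rw [if_neg h1, if_neg h2]
        have h3 : σ * cr (sd v i) (z - v i) < 0 := lt_of_le_of_ne (not_lt.1 h1) h2
        have hnear := h71_mir_near h i hB.hσ hB.hp h3.le
        rw [hnz] at hnear
        have hmz : mir v i z ∈ Metric.ball x.1.p (prad v x.1.p) := by
          rw [Metric.mem_ball, dist_eq_norm]
          linarith
        have e2 : mir v i z + lc (mf c e (tau v i)) (!e) w = mir v i (z + lc c e w) := by
          rw [h71_mir_add, hlc]
        rw [e1, h71_padd_B h hB hmz ?_ ?_, e2, h71F_mir h i hB.hσ]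
        · rw [h71_cr_mir h i]; linarith
        · rw [Metric.mem_ball, dist_eq_norm]
          calc ‖mir v i z + lc (mf c e (tau v i)) (!e) w - x.1.p‖
              = ‖(mir v i z - x.1.p) + lc (mf c e (tau v i)) (!e) w‖ := by congr 1; ring
            _ ≤ ‖mir v i z - x.1.p‖ + ‖lc (mf c e (tau v i)) (!e) w‖ := norm_add_le _ _
            _ < prad v x.1.p := by rw [h71_norm_lc hcm]; linarith

theorem padd_inj (h : Cls N P v) (x : PX N P v) (u w : ℂ) (hu : ‖u‖ < prad v x.1.p)
    (hw : ‖w‖ < prad v x.1.p) (huw : padd P v x.1 u = padd P v x.1 w) : u = w := by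
  have hc := h71_norm h x
  have hz := h71_in_ball (p := x.1.p) hc (e := x.1.e) hu
  have hz2 := h71_in_ball (p := x.1.p) hc (e := x.1.e) hw
  apply h71_lc_inj hc x.1.e
  rcases h71_cases h.poly x.2.1 x.2.2.1 with hA | ⟨i, σ, hB⟩
  · rw [h71_x_eta x.1, h71_padd_A h hA hz, h71_padd_A h hA hz2] at huw
    have h1 := congrArg St.p huw
    exact add_left_cancel h1
  · rw [h71_x_eta x.1, h71_padd_B h hB (h71_center h x) hB.hp hz,
      h71_padd_B h hB (h71_center h x) hB.hp hz2] at huw
    apply add_left_cancel (a := x.1.p)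
    generalize x.1.p + lc x.1.c x.1.e u = z at *
    generalize x.1.p + lc x.1.c x.1.e w = z' at *
    have h1 := congrArg St.p huw
    have h2 := congrArg St.e huw
    have hσ := hB.hσ
    -- the sign of a point is determined by its folded state
    by_cases a1 : 0 ≤ σ * cr (sd v i) (z - v i)
    · have p1 : (h71F v i σ z x.1.c x.1.e).p = z := by
        unfold h71F
        split_ifs with b1 b2 b3
        · rfl
        · rfl
        · rfl
        · exact absurd (le_antisymm (not_lt.1 b1) a1) b2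
      by_cases a2 : 0 ≤ σ * cr (sd v i) (z' - v i)
      · have p2 : (h71F v i σ z' x.1.c x.1.e).p = z' := by
          unfold h71F
          split_ifs with b1 b2 b3
          · rfl
          · rfl
          · rfl
          · exact absurd (le_antisymm (not_lt.1 b1) a2) b2
        rw [← p1, ← p2, h1]
      · exfalso
        rw [not_le] at a2
        have f2 : h71F v i σ z' x.1.c x.1.e = ⟨mir v i z', mf x.1.c x.1.e (tau v i), !x.1.e⟩ := by
          unfold h71F
          rw [if_neg (by linarith), if_neg (by linarith)]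
        rw [p1, f2] at h1
        change z = mir v i z' at h1
        have h3 : 0 < σ * cr (sd v i) (z - v i) := by
          rw [h1, h71_cr_mir h i]; linarith
        have f1 : h71F v i σ z x.1.c x.1.e = ⟨z, x.1.c, x.1.e⟩ := by
          unfold h71F
          rw [if_pos h3]
        rw [f1, f2] at h2
        change x.1.e = !x.1.e at h2
        cases hx : x.1.e <;> rw [hx] at h2 <;> simp at h2
    · rw [not_le] at a1
      have f1 : h71F v i σ z x.1.c x.1.e = ⟨mir v i z, mf x.1.c x.1.e (tau v i), !x.1.e⟩ := by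
        unfold h71F
        rw [if_neg (by linarith), if_neg (by linarith)]
      by_cases a2 : 0 ≤ σ * cr (sd v i) (z' - v i)
      · exfalso
        have p2 : (h71F v i σ z' x.1.c x.1.e).p = z' := by
          unfold h71F
          split_ifs with b1 b2 b3
          · rfl
          · rfl
          · rfl
          · exact absurd (le_antisymm (not_lt.1 b1) a2) b2
        rw [p2, f1] at h1
        change mir v i z = z' at h1
        have h3 : 0 < σ * cr (sd v i) (z' - v i) := by
          rw [← h1, h71_cr_mir h i]; linarith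
        have f2 : h71F v i σ z' x.1.c x.1.e = ⟨z', x.1.c, x.1.e⟩ := by
          unfold h71F
          rw [if_pos h3]
        rw [f1, f2] at h2
        change (!x.1.e) = x.1.e at h2
        cases hx : x.1.e <;> rw [hx] at h2 <;> simp at h2
      · rw [not_le] at a2
        have f2 : h71F v i σ z' x.1.c x.1.e = ⟨mir v i z', mf x.1.c x.1.e (tau v i), !x.1.e⟩ := by
          unfold h71F
          rw [if_neg (by linarith), if_neg (by linarith)]
        rw [f1, f2] at h1
        change mir v i z = mir v i z' at h1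
        rw [← h71_mir_mir h i z, h1, h71_mir_mir h]

end Pool.Agent.Lib.H25D
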