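import Pool.Agent.Lib.H25D.Defs
import Pool.Agent.Lib.H42I.Defs

/-!
# H25D: the class of polygons and their surfaces of states (definitions)
-/

open Set

namespace Pool.Agent.Lib.H25D

open Pool.Agent.Lib.H42I (IsPolygon Ray Illuminable refl)

variable {n : ℕ}

/-- side vector -/
def sd (v : ZMod n → ℂ) (i : ZMod n) : ℂ := v (i + 1) - v i

/-- closed side -/
def side (v : ZMod n → ℂ) (i : ZMod n) : Set ℂ := segment ℝ (v i) (v (i + 1))

/-- the factor of the linear reflection `w ↦ tau * conj w` in the side `i` -/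
noncomputable def tau (v : ZMod n → ℂ) (i : ZMod n) : ℂ := sd v i / (starRingEnd ℂ) (sd v i)

/-- the mirror image in the line of the side `i` -/
noncomputable def mir (v : ZMod n → ℂ) (i : ZMod n) (z : ℂ) : ℂ :=
  v i + tau v i * (starRingEnd ℂ) (z - v i)

/-- the support number of the side `i`: signed distance of its line from the origin -/
noncomputable def supp (v : ZMod n → ℂ) (i : ZMod n) : ℝ := cr (sd v i) (v i) / ‖sd v i‖

/-- The class of polygons: all sides have directions that are multiples of `π / N`, `N` an odd prime,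
no angle is a straight angle, and the support numbers of the sides are linearly independent over the
real algebraic numbers. -/
structure Cls [NeZero n] (N : ℕ) (P : Set ℂ) (v : ZMod n → ℂ) : Prop where
  poly : IsPolygon P v
  prime : N.Prime
  odd : N ≠ 2
  root : ∀ i, tau v i ^ N = 1
  ne : ∀ i, tau v (i + 1) ≠ tau v i
  indep : ∀ c : ZMod n → ℝ, (∀ i, IsAlgebraic ℚ (c i)) → ∑ i, c i * supp v i = 0 → ∀ i, c i = 0

/-! ## Frames: `(c, e)` stands for the map `w ↦ c * w` (`e = false`) or `w ↦ c * conj w`
(`e = true`) from local to global vectors, `‖c‖ = 1`. -/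

/-- local to global vectors -/
noncomputable def gl (c : ℂ) (e : Bool) (w : ℂ) : ℂ := if e then c * (starRingEnd ℂ) w else c * w

/-- global to local vectors -/
noncomputable def lc (c : ℂ) (e : Bool) (W : ℂ) : ℂ :=
  if e then c * (starRingEnd ℂ) W else (starRingEnd ℂ) c * W

/-- The frame behind a mirror with the factor `t` is `(mf c e t, !e)`:
`gl (mf c e t) (!e) w = gl c e (t * conj w)`. -/
noncomputable def mf (c : ℂ) (e : Bool) (t : ℂ) : ℂ := if e then c * (starRingEnd ℂ) t else c * t

/-- a state: a point of the plane together with a frame -/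
@[ext] structure St where
  p : ℂ
  c : ℂ
  e : Bool

/-- The states of the polygon: no vertices; at points of the sides the frame preserves orientation
(the frame `(mf c e (tau v i), !e)` is identified with `(c, e)`). -/
def IsSt (N : ℕ) (P : Set ℂ) (v : ZMod n → ℂ) (x : St) : Prop :=
  x.p ∈ P ∧ (∀ i, x.p ≠ v i) ∧ x.c ^ N = 1 ∧ ((∃ i, x.p ∈ side v i) → x.e = false)

/-- the surface of states -/
def PX (N : ℕ) (P : Set ℂ) (v : ZMod n → ℂ) : Type := {x : St // IsSt N P v x}

open Classical in
/-- the representative with the orientation preserving frame at points of the sides -/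
noncomputable def canon (v : ZMod n → ℂ) (x : St) : St :=
  if h : x.e = true ∧ ∃ i, x.p ∈ side v i then ⟨x.p, mf x.c x.e (tau v h.2.choose), false⟩ else x

open Classical in
/-- translation of a state by a short global vector -/
noncomputable def padd (P : Set ℂ) (v : ZMod n → ℂ) (x : St) (u : ℂ) : St :=
  if x.p + lc x.c x.e u ∈ P then canon v ⟨x.p + lc x.c x.e u, x.c, x.e⟩
  else if h : ∃ i, (segment ℝ x.p (x.p + lc x.c x.e u) ∩ side v i).Nonempty then
    canon v ⟨mir v h.choose (x.p + lc x.c x.e u), mf x.c x.e (tau v h.choose), !x.e⟩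
  else x

/-- second smallest distance from the closed sides -/
noncomputable def prad (v : ZMod n → ℂ) (p : ℂ) : ℝ :=
  sInf {r | ∃ i j : ZMod n, i ≠ j ∧ r = max (Metric.infDist p (side v i))
    (Metric.infDist p (side v j))}

/-- the reflection symmetry that reverses the global direction `θ` (`-θ² ` an `N`-th root of unity) -/
noncomputable def pgst (v : ZMod n → ℂ) (θ : ℂ) (x : St) : St :=
  canon v ⟨x.p, -(θ ^ 2) * (starRingEnd ℂ) x.c, !x.e⟩

/-- global position -/
noncomputable def ppos {N : ℕ} {P : Set ℂ} {v : ZMod n → ℂ} (x : PX N P v) : ℂ :=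
  gl x.1.c x.1.e x.1.p

/-- A billiard path with a direction of the class `i * ζ` (`ζ ^ N = 1`), up to sign, from a vertex
to a vertex that meets no side perpendicularly. -/
structure VPath (N : ℕ) (P : Set ℂ) (v : ZMod n → ℂ) where
  k : ℕ
  p : ℕ → ℂ
  j : ℕ → ZMod n
  a : ZMod n
  b : ZMod n
  start : p 0 = v a
  stop : p (k + 1) = v b
  on : ∀ m, 1 ≤ m → m ≤ k → p m ∈ openSegment ℝ (v (j m)) (v (j m + 1))
  ne : ∀ m, m ≤ k → p m ≠ p (m + 1)
  leg : ∀ m, m ≤ k → openSegment ℝ (p m) (p (m + 1)) ⊆ interior P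
  law : ∀ m, 1 ≤ m → m ≤ k → ∃ r : ℝ, 0 < r ∧
    p (m + 1) - p m = r * refl (sd v (j m)) (p m - p (m - 1))
  notperp : ∀ m, 1 ≤ m → m ≤ k → ((p m - p (m - 1)) * (starRingEnd ℂ) (sd v (j m))).re ≠ 0
  dir : ∃ (c : ℂ) (r : ℝ), c ^ N = 1 ∧ p 1 - p 0 = r * (Complex.I * c)

end Pool.Agent.Lib.H25D
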