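import Pool.Agent.Lib.H25D.PolyDefs
import Pool.Agent.Lib.H52W.Jordan
import Pool.Agent.Lib.H45Z.Local

/-!
# H25D, chunk P1a: local structure of a polygon away from the vertices
-/

open Set

namespace Pool.Agent.Lib.H25D

open Pool.Agent.Lib.H42I (IsPolygon Ray Illuminable refl)

variable {n : ℕ} [NeZero n] {P : Set ℂ} {v : ZMod n → ℂ}

private theorem h75_prad_eq (h3 : 3 ≤ n) (v : ZMod n → ℂ) (p : ℂ) :
    prad v p = Pool.Agent.Lib.H45Z.rho2 v p := by
  have hmem : Pool.Agent.Lib.H45Z.rho2 v p ∈ {r | ∃ i j : ZMod n, i ≠ j ∧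
      r = max (Metric.infDist p (side v i)) (Metric.infDist p (side v j))} := by
    by_contra hcon
    have h1 : Pool.Agent.Lib.H45Z.rho2 v p < Pool.Agent.Lib.H45Z.rho2 v p := by
      rw [Pool.Agent.Lib.H45Z.lt_rho2_iff h3]
      intro i j hij
      refine lt_of_le_of_ne (Pool.Agent.Lib.H45Z.rho2_le h3 v p i j hij) fun he => hcon ?_
      exact ⟨i, j, hij, he⟩
    exact lt_irrefl _ h1
  have hlb : Pool.Agent.Lib.H45Z.rho2 v p ∈ lowerBounds {r | ∃ i j : ZMod n, i ≠ j ∧
      r = max (Metric.infDist p (side v i)) (Metric.infDist p (side v j))} := by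
    rintro r ⟨i, j, hij, rfl⟩
    exact Pool.Agent.Lib.H45Z.rho2_le h3 v p i j hij
  exact (IsLeast.csInf_eq ⟨hmem, hlb⟩)

theorem prad_pos (h : IsPolygon P v) {p : ℂ} (hv : ∀ i, p ≠ v i) : 0 < prad v p := by
  rw [h75_prad_eq h.three_le]
  exact Pool.Agent.Lib.H45Z.rho2_pos h p hv

/-- at most one closed side comes closer to `p` than `prad v p` -/
theorem prad_spec (h : IsPolygon P v) (p : ℂ) {i j : ZMod n} (hij : i ≠ j) :
    prad v p ≤ max (Metric.infDist p (side v i)) (Metric.infDist p (side v j)) := by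
  rw [h75_prad_eq h.three_le]
  exact Pool.Agent.Lib.H45Z.rho2_le h.three_le v p i j hij

theorem prad_lip (h : IsPolygon P v) (p p' : ℂ) : prad v p - ‖p' - p‖ ≤ prad v p' := by
  rw [h75_prad_eq h.three_le, h75_prad_eq h.three_le]
  have := Pool.Agent.Lib.H45Z.rho2_le_add h.three_le v p p'
  rw [norm_sub_rev] at this
  linarith

theorem prad_le_vertex (h : IsPolygon P v) (p : ℂ) (i : ZMod n) : prad v p ≤ ‖p - v i‖ := by
  rw [h75_prad_eq h.three_le]
  have := Pool.Agent.Lib.H45Z.rho2_le_add h.three_le v p (v i)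
  rw [Pool.Agent.Lib.H45Z.rho2_vertex h i] at this
  linarith

theorem prad_continuous (h : IsPolygon P v) : Continuous (prad v) := by
  have e : prad v = Pool.Agent.Lib.H45Z.rho2 v := funext fun p => h75_prad_eq h.three_le v p
  rw [e]
  exact Pool.Agent.Lib.H45Z.rho2_continuous h.three_le v

/-- The ball with the radius `prad v p` is contained in the interior, or it is cut by exactly one
side into an inner and an outer half. -/
theorem half_disc (h : IsPolygon P v) {p : ℂ} (hp : p ∈ P) (hv : ∀ i, p ≠ v i) :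
    (∀ z ∈ Metric.ball p (prad v p), z ∈ interior P) ∨
    ∃ (i : ZMod n) (σ : ℝ), (σ = 1 ∨ σ = -1) ∧ 0 ≤ σ * cr (sd v i) (p - v i) ∧
      (∀ z ∈ Metric.ball p (prad v p), (z ∈ P ↔ 0 ≤ σ * cr (sd v i) (z - v i)) ∧
        (z ∈ interior P ↔ 0 < σ * cr (sd v i) (z - v i))) ∧
      (∀ z ∈ Metric.ball p (prad v p), cr (sd v i) (z - v i) = 0 →
        z ∈ openSegment ℝ (v i) (v (i + 1))) ∧
      ∀ j, j ≠ i → ∀ z ∈ Metric.ball p (prad v p), z ∉ side v j := by
  have h3 := h.three_le
  have hpos := prad_pos h hv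
  rw [h75_prad_eq h3] at hpos ⊢
  set r := Pool.Agent.Lib.H45Z.rho2 v p with hr
  have hpb : p ∈ Metric.ball p r := Metric.mem_ball_self hpos
  by_cases hc : ∃ i, ∃ x ∈ Metric.ball p r, x ∈ segment ℝ (v i) (v (i + 1))
  · right
    obtain ⟨i, x, hx, hxi⟩ := hc
    have hdis : ∀ j, j ≠ i → Disjoint (Metric.ball p r) (segment ℝ (v j) (v (j + 1))) := by
      intro j hj
      rw [Set.disjoint_left]
      intro y hy hyj
      exact hj (Pool.Agent.Lib.H45Z.one_side h3 v p hy hx hyj hxi)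
    have hline : ∀ z ∈ Metric.ball p r, cr (sd v i) (z - v i) = 0 →
        z ∈ openSegment ℝ (v i) (v (i + 1)) := fun z hz hz0 =>
      Pool.Agent.Lib.H45Z.line_in_side h i p r hdis hx hxi hz hz0
    obtain ⟨σ, hσ, hS⟩ := Pool.Agent.Lib.H45Z.ball_side h i p r hdis hx hxi
    have hcl : IsClosed P := h.compact.isClosed
    have hside : ∀ y ∈ segment ℝ (v i) (v (i + 1)), y ∈ P ∧ y ∉ interior P := by
      intro y hy
      have h1 : y ∈ frontier P := by
        rw [h.frontier_eq]; exact mem_iUnion.2 ⟨i, hy⟩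
      rw [hcl.frontier_eq] at h1
      exact h1
    have hall : ∀ z ∈ Metric.ball p r, (z ∈ P ↔ 0 ≤ σ * cr (sd v i) (z - v i)) ∧
        (z ∈ interior P ↔ 0 < σ * cr (sd v i) (z - v i)) := by
      intro z hz
      obtain ⟨h1, h2⟩ := hS z hz
      rcases lt_trichotomy 0 (σ * cr (sd v i) (z - v i)) with hlt | heq | hgt
      · have hi : z ∈ interior P := h1 hlt
        exact ⟨⟨fun _ => hlt.le, fun _ => interior_subset hi⟩, ⟨fun _ => hlt, fun _ => hi⟩⟩
      · have h0 : cr (sd v i) (z - v i) = 0 := by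
          rcases hσ with rfl | rfl <;> linarith
        obtain ⟨ha, hb⟩ := hside z (openSegment_subset_segment ℝ _ _ (hline z hz h0))
        exact ⟨⟨fun _ => heq.le, fun _ => ha⟩, ⟨fun hh => absurd hh hb, fun hh => by
          rw [← heq] at hh; exact absurd hh (lt_irrefl _)⟩⟩
      · have hn : z ∉ P := h2 hgt
        exact ⟨⟨fun hh => absurd hh hn, fun hh => absurd hgt (not_lt.2 hh)⟩,
          ⟨fun hh => absurd (interior_subset hh) hn, fun hh => absurd hgt (not_lt.2 hh.le)⟩⟩
    refine ⟨i, σ, hσ, ((hall p hpb).1).1 hp, hall, hline, ?_⟩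
    intro j hj z hz hzj
    exact Set.disjoint_left.1 (hdis j hj) hz hzj
  · left
    push Not at hc
    have hd : ∀ j, Disjoint (Metric.ball p r) (segment ℝ (v j) (v (j + 1))) := by
      intro j
      rw [Set.disjoint_left]
      intro y hy hyj
      exact hc j y hy hyj
    intro z hz
    exact Pool.Agent.Lib.H45Z.ball_inside h p r hd hpb hp hz

end Pool.Agent.Lib.H25D
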