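import Pool.Agent.Lib.H25D.PolyAdd

/-!
# H25D: the surface of states (definition, complete up to chunk P1)
-/

open Set

namespace Pool.Agent.Lib.H25D

open Pool.Agent.Lib.H42I (IsPolygon Ray Illuminable refl)

variable {n : ℕ} [NeZero n] {N : ℕ} {P : Set ℂ} {v : ZMod n → ℂ}

open Classical in
/-- translation on the surface of states -/
noncomputable def PXadd (x : PX N P v) (u : ℂ) : PX N P v :=
  if hh : IsSt N P v (padd P v x.1 u) then ⟨padd P v x.1 u, hh⟩ else x

theorem PXadd_val (h : Cls N P v) (x : PX N P v) (u : ℂ) (hu : ‖u‖ < prad v x.1.p) :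
    (PXadd x u).1 = padd P v x.1 u := by
  unfold PXadd
  rw [dif_pos (isSt_padd h x u hu)]

/-- The surface of states of a polygon of the class. -/
noncomputable def PS (h : Cls N P v) : TSurf (PX N P v) where
  rad x := prad v x.1.p
  add := PXadd
  rad_pos x := prad_pos h.poly x.2.2.1
  add_zero x := by
    apply Subtype.ext
    rw [PXadd_val h x 0 (by simpa using prad_pos h.poly x.2.2.1), padd_zero h x]
  rad_add x u hu := by
    rw [PXadd_val h x u hu]
    exact prad_padd h x u hu
  add_add x u w huw := by
    have hu : ‖u‖ < prad v x.1.p := by linarith [norm_nonneg w]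
    have hs : ‖u + w‖ < prad v x.1.p := (norm_add_le u w).trans_lt huw
    have hw : ‖w‖ < prad v (PXadd x u).1.p := by
      rw [PXadd_val h x u hu]
      linarith [prad_padd h x u hu]
    apply Subtype.ext
    rw [PXadd_val h _ w hw, PXadd_val h x u hu, PXadd_val h x (u + w) hs, padd_padd h x u w huw]
  inj x u w hu hw huw := by
    refine padd_inj h x u w hu hw ?_
    rw [← PXadd_val h x u hu, ← PXadd_val h x w hw, huw]

theorem PS_rad (h : Cls N P v) (x : PX N P v) : (PS h).rad x = prad v x.1.p := rfl

theorem PS_add (h : Cls N P v) (x : PX N P v) (u : ℂ) (hu : ‖u‖ < prad v x.1.p) :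
    ((PS h).add x u).1 = padd P v x.1 u := PXadd_val h x u hu

open Classical in
/-- the reflection symmetry on the surface -/
noncomputable def pg (θ : ℂ) (x : PX N P v) : PX N P v :=
  if hh : IsSt N P v (pgst v θ x.1) then ⟨pgst v θ x.1, hh⟩ else x

end Pool.Agent.Lib.H25D
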