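import Pool.Agent.Lib.H25D.RetDefs

/-!
# H25D, chunk T3: the bad fixed points are finitely many
-/

open Set

namespace Pool.Agent.Lib.H25D.TSurf

variable {X : Type} {M : TSurf X} {θ : ℂ} {g : X → X}

private theorem T3_same {b b' : X} (hb : M.Bad θ g b) (hb' : M.Bad θ g b') {τ : ℝ}
    (h : M.Seg b ((τ : ℂ) * θ) b') : b = b' := by
  rcases lt_trichotomy τ 0 with h1 | h1 | h1
  · exfalso
    have h2 := seg_symm h
    refine hb'.2.2 (-τ) (by linarith) ⟨b, ?_, hb.1⟩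
    rw [show ((-τ : ℝ) : ℂ) * θ = -((τ : ℂ) * θ) by push_cast; ring]
    exact h2
  · rw [h1, Complex.ofReal_zero, zero_mul] at h
    exact seg_unique (seg_refl b) h
  · exact absurd ⟨b', h, hb'.1⟩ (hb.2.2 τ h1)

private theorem T3_neg {x y : X} {t : ℝ} (h : M.Seg x ((t : ℂ) * θ) y) :
    M.Seg y (((-t : ℝ) : ℂ) * θ) x := by
  rw [show ((-t : ℝ) : ℂ) * θ = -((t : ℂ) * θ) by push_cast; ring]
  exact seg_symm h

theorem bad_finite (h : M.Inputs θ g) : {b | M.Bad θ g b}.Finite := by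
  obtain ⟨E, hE, r, σ, _, h2, _, h4⟩ := h.ends
  have key : ∀ b : {b | M.Bad θ g b}, ∃ e : E, ∃ t ∈ Ioo 0 (r e), ∃ s : ℝ,
      M.Seg b.1 ((s : ℂ) * θ) (σ e t) := by
    rintro ⟨b, hb⟩
    obtain ⟨T, hT, hd⟩ := hb.2.1
    obtain ⟨e, t, ht, s, _, _, hs⟩ := h4 b T hT hd
    exact ⟨e, t, ht, s, hs⟩
  choose f hf using key
  have hle : ∀ (b b' : X) (e : E) (t t' s s' : ℝ), M.Bad θ g b → M.Bad θ g b' → t ∈ Ioo 0 (r e) →
      t' ∈ Ioo 0 (r e) → M.Seg b ((s : ℂ) * θ) (σ e t) → M.Seg b' ((s' : ℂ) * θ) (σ e t') → t' ≤ t →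
      b = b' := by
    intro b b' e t t' s s' hb hb' ht ht' hs hs' htt
    have h5 := h2 e t ht t' ⟨ht'.1, htt⟩
    exact T3_same hb hb' (seg_line (seg_line hs h5) (T3_neg hs'))
  have hinj : Function.Injective f := by
    rintro ⟨b, hb⟩ ⟨b', hb'⟩ hbb
    obtain ⟨t, ht, s, hs⟩ := hf ⟨b, hb⟩
    obtain ⟨t', ht', s', hs'⟩ := hf ⟨b', hb'⟩
    rw [← hbb] at ht' hs'
    apply Subtype.ext
    rcases le_total t' t with h6 | h6
    · exact hle b b' _ t t' s s' hb hb' ht ht' hs hs' h6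
    · exact (hle b' b _ t' t s' s hb' hb ht' ht hs' hs h6).symm
  have : Finite {b | M.Bad θ g b} := Finite.of_injective f hinj
  exact Set.toFinite _

end Pool.Agent.Lib.H25D.TSurf
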