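import Pool.Agent.Lib.H25D.RetDefs

/-!
# H25D, chunk T4: openness of `alive without hit` and of first returns
-/

open Set

namespace Pool.Agent.Lib.H25D.TSurf

variable {X : Type} {M : TSurf X} {θ : ℂ} {g : X → X}

/-- the cross product of a vector with the normal -/
theorem h18_cr (hθ : ‖θ‖ = 1) (a b : ℝ) :
    cr ((a : ℂ) * (Complex.I * θ) + (b : ℂ) * θ) (Complex.I * θ) = b := by
  have h1 : θ.re * θ.re + θ.im * θ.im = 1 := by
    have := Complex.normSq_eq_norm_sq θ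
    rw [hθ, Complex.normSq_apply] at this
    linarith
  simp only [cr, Complex.add_re, Complex.add_im, Complex.mul_re, Complex.mul_im,
    Complex.ofReal_re, Complex.ofReal_im, Complex.I_re, Complex.I_im]
  linear_combination b * h1

theorem h18_norm (hθ : ‖θ‖ = 1) (a b : ℝ) :
    ‖(a : ℂ) * (Complex.I * θ) + (b : ℂ) * θ‖ ≤ |a| + |b| := by
  refine (norm_add_le _ _).trans ?_
  simp [hθ]

theorem h18_normI (hθ : ‖θ‖ = 1) (a : ℝ) : ‖(a : ℂ) * (Complex.I * θ)‖ = |a| := by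
  simp [hθ]

theorem h18_not_hit {x y : X} {t : ℝ} (h : M.Seg x ((t : ℂ) * θ) y) (hy : g y ≠ y) :
    ¬ M.Dead θ x t ∧ ¬ M.Hit θ g x t := by
  refine ⟨fun hd => hd ⟨y, h⟩, ?_⟩
  rintro ⟨z, hz, hgz⟩
  have := seg_unique h hz
  subst this
  exact hy hgz

theorem nohit_open (hg : M.Refl θ g) (hθ : ‖θ‖ = 1) {x : X} {a b : ℝ} (hab : a ≤ b)
    (h : ∀ t ∈ Icc a b, ¬ M.Dead θ x t ∧ ¬ M.Hit θ g x t) :
    ∃ ε > 0, ∀ u : ℂ, ‖u‖ < ε → ∀ t ∈ Icc a b, ¬ M.Dead θ (M.add x u) t ∧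
      ¬ M.Hit θ g (M.add x u) t := by
  refine isCompact_Icc.induction_on (s := Icc a b)
    (p := fun S => ∃ ε > 0, ∀ u : ℂ, ‖u‖ < ε → ∀ t ∈ S, ¬ M.Dead θ (M.add x u) t ∧
      ¬ M.Hit θ g (M.add x u) t) ?_ ?_ ?_ ?_
  · exact ⟨1, one_pos, fun u _ t ht => absurd ht (notMem_empty t)⟩
  · rintro S S' hSS' ⟨ε, hε, h1⟩
    exact ⟨ε, hε, fun u hu t ht => h1 u hu t (hSS' ht)⟩
  · rintro S S' ⟨ε, hε, h1⟩ ⟨ε', hε', h2⟩
    refine ⟨min ε ε', lt_min hε hε', fun u hu t ht => ?_⟩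
    rcases ht with ht | ht
    · exact h1 u (hu.trans_le (min_le_left _ _)) t ht
    · exact h2 u (hu.trans_le (min_le_right _ _)) t ht
  · intro t₀ ht₀
    obtain ⟨hd, hh⟩ := h t₀ ht₀
    obtain ⟨y, hy⟩ := not_not.mp hd
    have hgy : g y ≠ y := fun hgy => hh ⟨y, hy, hgy⟩
    obtain ⟨ε₁, hε₁, -, -, h1⟩ := seg_open hy
    obtain ⟨ε₂, hε₂, h2⟩ := nofix_disc hg hθ hgy
    set δ : ℝ := min ε₁ ε₂ / 2 with hδ
    have hδ0 : 0 < δ := by have := lt_min hε₁ hε₂; positivity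
    refine ⟨Metric.ball t₀ δ, mem_nhdsWithin_of_mem_nhds (Metric.ball_mem_nhds t₀ hδ0),
      δ, hδ0, fun u hu t ht => ?_⟩
    have ht' : |t - t₀| < δ := by simpa [Metric.mem_ball, Real.dist_eq] using ht
    have hw : ‖u + ((t - t₀ : ℝ) : ℂ) * θ‖ < min ε₁ ε₂ := by
      calc ‖u + ((t - t₀ : ℝ) : ℂ) * θ‖ ≤ ‖u‖ + ‖((t - t₀ : ℝ) : ℂ) * θ‖ := norm_add_le _ _
        _ = ‖u‖ + |t - t₀| := by rw [norm_mul, hθ, mul_one, Complex.norm_real, Real.norm_eq_abs]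
        _ < δ + δ := by linarith
        _ = min ε₁ ε₂ := by rw [hδ]; ring
    have hu1 : ‖u‖ < ε₁ := by
      have := min_le_left ε₁ ε₂
      have h3 : δ ≤ min ε₁ ε₂ := by rw [hδ]; have := lt_min hε₁ hε₂; linarith
      linarith
    have hs := h1 u (u + ((t - t₀ : ℝ) : ℂ) * θ) hu1 (hw.trans_le (min_le_left _ _))
    have he : (t₀ : ℂ) * θ + (u + ((t - t₀ : ℝ) : ℂ) * θ) - u = (t : ℂ) * θ := by
      push_cast; ring
    rw [he] at hs
    exact h18_not_hit hs (h2 _ (hw.trans_le (min_le_right _ _)))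

/-- a fixed point that has no hit in `(0, T]` and is not dead at `T`: the same for the
neighbouring fixed points -/
theorem fix_open (hg : M.Refl θ g) (hθ : ‖θ‖ = 1) {b : X} (hb : g b = b) {T : ℝ} (hT : 0 < T)
    (h : ∀ t ∈ Ioc 0 T, ¬ M.Dead θ b t ∧ ¬ M.Hit θ g b t) :
    ∃ ε > 0, ∀ u : ℝ, |u| < ε → g (M.add b ((u : ℂ) * (Complex.I * θ))) =
      M.add b ((u : ℂ) * (Complex.I * θ)) ∧ ∀ t ∈ Ioc 0 T,
      ¬ M.Dead θ (M.add b ((u : ℂ) * (Complex.I * θ))) t ∧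
      ¬ M.Hit θ g (M.add b ((u : ℂ) * (Complex.I * θ))) t := by
  have hr := M.rad_pos b
  set r := M.rad b with hrd
  have ha0 : 0 < min (r / 4) T := lt_min (by positivity) hT
  obtain ⟨ε, hε, h1⟩ := nohit_open hg hθ (x := b) (a := min (r / 4) T) (b := T) (min_le_right _ _)
    (fun t ht => h t ⟨ha0.trans_le ht.1, ht.2⟩)
  refine ⟨min ε (r / 4), lt_min hε (by positivity), fun u hu => ?_⟩
  have hue : |u| < ε := hu.trans_le (min_le_left _ _)
  have hur : |u| < r / 4 := hu.trans_le (min_le_right _ _)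
  have hn : ‖(u : ℂ) * (Complex.I * θ)‖ = |u| := h18_normI hθ u
  refine ⟨?_, fun t ht => ?_⟩
  · rw [fix_disc hg hθ hb (by rw [hn]; linarith)]
    have := h18_cr hθ u 0
    simpa using this
  · rcases le_total (min (r / 4) T) t with hle | hle
    · exact h1 _ (by rw [hn]; exact hue) t ⟨hle, ht.2⟩
    · have htr : t ≤ r / 4 := hle.trans (min_le_left _ _)
      have hnt : ‖(t : ℂ) * θ‖ = t := by
        rw [norm_mul, hθ, mul_one, Complex.norm_real, Real.norm_eq_abs, abs_of_pos ht.1]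
      have hrad : r - |u| ≤ M.rad (M.add b ((u : ℂ) * (Complex.I * θ))) := by
        have := M.rad_add b ((u : ℂ) * (Complex.I * θ)) (by rw [hn]; linarith)
        rwa [hn] at this
      have hs : M.Seg (M.add b ((u : ℂ) * (Complex.I * θ))) ((t : ℂ) * θ)
          (M.add (M.add b ((u : ℂ) * (Complex.I * θ))) ((t : ℂ) * θ)) :=
        seg_add (by rw [hnt]; linarith)
      rw [M.add_add b _ _ (by rw [hn, hnt]; linarith)] at hs
      refine h18_not_hit hs ?_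
      intro hf
      have hn2 := h18_norm hθ u t
      rw [abs_of_pos ht.1] at hn2
      rw [fix_disc hg hθ hb (by linarith), h18_cr hθ] at hf
      exact ht.1.ne' hf

theorem ret_open (hg : M.Refl θ g) (hθ : ‖θ‖ = 1) {b : X} (hb : g b = b) {T : ℝ}
    (h : M.Ret θ g b T) :
    ∃ ε > 0, ∀ u : ℝ, |u| < ε → g (M.add b ((u : ℂ) * (Complex.I * θ))) =
      M.add b ((u : ℂ) * (Complex.I * θ)) ∧ M.Ret θ g (M.add b ((u : ℂ) * (Complex.I * θ))) T := by
  obtain ⟨hT, ⟨z, hz, hgz⟩, hno⟩ := h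
  obtain ⟨ε₁, hε₁, -, hε₁z, h1⟩ := seg_open hz
  set δ : ℝ := min (ε₁ / 2) (T / 2) with hδ
  have hδ0 : 0 < δ := lt_min (by positivity) (by positivity)
  have hδT : δ ≤ T / 2 := min_le_right _ _
  have hδe : δ ≤ ε₁ / 2 := min_le_left _ _
  obtain ⟨ε₂, hε₂, h2⟩ := fix_open hg hθ hb (T := T - δ) (by linarith) (fun t ht => by
    refine ⟨fun hd => ?_, hno t ⟨ht.1, by have := ht.2; linarith⟩⟩
    obtain ⟨y, hy, -⟩ := seg_part hz (s := t) (by
      rw [uIcc_of_le hT.le]; exact ⟨ht.1.le, by have := ht.2; linarith⟩)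
    exact hd ⟨y, hy⟩)
  refine ⟨min ε₂ (ε₁ / 2), lt_min hε₂ (by positivity), fun u hu => ?_⟩
  have hu2 : |u| < ε₂ := hu.trans_le (min_le_left _ _)
  have hu1 : |u| < ε₁ / 2 := hu.trans_le (min_le_right _ _)
  have hn : ‖(u : ℂ) * (Complex.I * θ)‖ = |u| := h18_normI hθ u
  obtain ⟨hfix, h3⟩ := h2 u hu2
  refine ⟨hfix, hT, ?_, fun t ht => ?_⟩
  · have hs := h1 ((u : ℂ) * (Complex.I * θ)) ((u : ℂ) * (Complex.I * θ))
      (by rw [hn]; linarith) (by rw [hn]; linarith)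
    rw [add_sub_cancel_right] at hs
    refine ⟨_, hs, ?_⟩
    rw [fix_disc hg hθ hgz (by rw [hn]; linarith)]
    have := h18_cr hθ u 0
    simpa using this
  · rcases le_or_gt t (T - δ) with hle | hlt
    · exact (h3 t ⟨ht.1, hle⟩).2
    · have hn2 := h18_norm hθ u (t - T)
      have habs : |t - T| < δ := by
        rw [abs_lt]; constructor <;> linarith [ht.2]
      have hs := h1 ((u : ℂ) * (Complex.I * θ))
        ((u : ℂ) * (Complex.I * θ) + ((t - T : ℝ) : ℂ) * θ)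
        (by rw [hn]; linarith) (by linarith)
      have he : (T : ℂ) * θ + ((u : ℂ) * (Complex.I * θ) + ((t - T : ℝ) : ℂ) * θ) -
          (u : ℂ) * (Complex.I * θ) = (t : ℂ) * θ := by push_cast; ring
      rw [he] at hs
      refine (h18_not_hit hs ?_).2
      intro hf
      rw [fix_disc hg hθ hgz (by linarith), h18_cr hθ] at hf
      have := ht.2
      linarith

theorem ret_unique {b : X} {T T' : ℝ} (h : M.Ret θ g b T) (h' : M.Ret θ g b T') : T = T' := by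
  rcases lt_trichotomy T T' with hlt | heq | hlt
  · exact absurd h.2.1 (h'.2.2 T ⟨h.1, hlt⟩)
  · exact heq
  · exact absurd h'.2.1 (h.2.2 T' ⟨h'.1, hlt⟩)

/-- the set of points whose leaf contains a fixed point is open -/
theorem hit_open (hg : M.Refl θ g) (hθ : ‖θ‖ = 1) {x : X} {t : ℝ} (h : M.Hit θ g x t) :
    ∃ ε > 0, ∀ u : ℂ, ‖u‖ < ε → ∃ t', M.Hit θ g (M.add x u) t' := by
  obtain ⟨z, hz, hgz⟩ := h
  obtain ⟨ε₁, hε₁, -, hε₁z, h1⟩ := seg_open hz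
  refine ⟨ε₁, hε₁, fun u hu => ?_⟩
  obtain ⟨a, b, hab, ha, -, -⟩ := decomp hθ u
  have hn : ‖(a : ℂ) * (Complex.I * θ)‖ = |a| := h18_normI hθ a
  have hs := h1 u ((a : ℂ) * (Complex.I * θ)) hu (by rw [hn]; linarith)
  have he : (t : ℂ) * θ + (a : ℂ) * (Complex.I * θ) - u = ((t - b : ℝ) : ℂ) * θ := by
    rw [hab]; push_cast; ring
  rw [he] at hs
  refine ⟨t - b, _, hs, ?_⟩
  rw [fix_disc hg hθ hgz (by rw [hn]; linarith)]
  have := h18_cr hθ a 0
  simpa using this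

end Pool.Agent.Lib.H25D.TSurf
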