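import Pool.Agent.Lib.H25D.T3
import Pool.Agent.Lib.H25D.T4

/-!
# H25D, chunk T5: every fixed point is bad or returns
-/

open Set

namespace Pool.Agent.Lib.H25D.TSurf

variable {X : Type} {M : TSurf X} {θ : ℂ} {g : X → X}

private theorem t5_norm (hθ : ‖θ‖ = 1) (u : ℝ) : ‖((u : ℂ) * (Complex.I * θ))‖ = |u| := by
  rw [norm_mul, norm_mul, hθ, Complex.norm_I, Complex.norm_real, Real.norm_eq_abs]
  ring

private theorem t5_ne (hθ : ‖θ‖ = 1) : Complex.I * θ ≠ 0 := by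
  intro h
  have h1 : ‖Complex.I * θ‖ = 0 := by rw [h, norm_zero]
  rw [norm_mul, hθ, Complex.norm_I] at h1
  norm_num at h1

private theorem t5_add (hθ : ‖θ‖ = 1) {b : X} {u v : ℝ} (h : |u| + |v - u| < M.rad b) :
    M.add (M.add b ((u : ℂ) * (Complex.I * θ))) (((v - u : ℝ) : ℂ) * (Complex.I * θ)) =
      M.add b ((v : ℂ) * (Complex.I * θ)) := by
  rw [M.add_add]
  · congr 1
    push_cast
    ring
  · rw [t5_norm hθ, t5_norm hθ]
    exact h

private theorem t5_fix (hg : M.Refl θ g) (hθ : ‖θ‖ = 1) {b : X} (hb : g b = b) {u : ℝ}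
    (hu : |u| < M.rad b) : g (M.add b ((u : ℂ) * (Complex.I * θ))) =
      M.add b ((u : ℂ) * (Complex.I * θ)) := by
  rw [fix_disc hg hθ hb (by rw [t5_norm hθ]; exact hu)]
  simp only [cr, Complex.mul_re, Complex.mul_im, Complex.ofReal_re, Complex.ofReal_im]
  ring

/-- a neighbourhood of fixed points that never return and never die -/
theorem inf_nbhd (h : M.Inputs θ g) {b : X} (hb : g b = b)
    (h1 : ∀ t > 0, ¬ M.Dead θ b t ∧ ¬ M.Hit θ g b t) :
    ∃ w > 0, w ≤ M.rad b ∧ ∀ u : ℝ, |u| < w → g (M.add b ((u : ℂ) * (Complex.I * θ))) =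
      M.add b ((u : ℂ) * (Complex.I * θ)) ∧ ∀ t > 0,
      ¬ M.Dead θ (M.add b ((u : ℂ) * (Complex.I * θ))) t ∧
      ¬ M.Hit θ g (M.add b ((u : ℂ) * (Complex.I * θ))) t := by
  have hθ := h.norm
  have hg := h.refl
  have hrad := M.rad_pos b
  -- the bad parameters
  have hfin : {u : ℝ | |u| < M.rad b ∧ M.Bad θ g (M.add b ((u : ℂ) * (Complex.I * θ)))}.Finite := by
    refine Set.Finite.of_finite_image (f := fun u : ℝ => M.add b ((u : ℂ) * (Complex.I * θ)))
      ((bad_finite h).subset ?_) ?_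
    · rintro _ ⟨u, hu, rfl⟩
      exact hu.2
    · intro u hu v hv huv
      have h2 := M.inj b _ _ (by rw [t5_norm hθ]; exact hu.1) (by rw [t5_norm hθ]; exact hv.1) huv
      exact Complex.ofReal_injective (mul_right_cancel₀ (t5_ne hθ) h2)
  have h0 : (0 : ℝ) ∉ {u : ℝ | |u| < M.rad b ∧
      M.Bad θ g (M.add b ((u : ℂ) * (Complex.I * θ)))} := by
    rintro ⟨-, h2⟩
    rw [Complex.ofReal_zero, zero_mul, M.add_zero] at h2
    obtain ⟨T, hT, h3⟩ := h2.2.1
    exact (h1 T hT).1 h3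
  obtain ⟨w, hw, hwb⟩ := Metric.mem_nhds_iff.1 (hfin.isClosed.isOpen_compl.mem_nhds h0)
  have hw0 : 0 < min w (M.rad b) := lt_min hw hrad
  have hnb : ∀ u : ℝ, |u| < min w (M.rad b) →
      ¬ M.Bad θ g (M.add b ((u : ℂ) * (Complex.I * θ))) := fun u hu h2 =>
    hwb (show u ∈ Metric.ball 0 w by
      rw [Metric.mem_ball, Real.dist_eq, sub_zero]
      exact hu.trans_le (min_le_left _ _)) ⟨hu.trans_le (min_le_right _ _), h2⟩
  have hret : ∀ u : ℝ, |u| < min w (M.rad b) →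
      (∀ t > 0, ¬ M.Dead θ (M.add b ((u : ℂ) * (Complex.I * θ))) t ∧
        ¬ M.Hit θ g (M.add b ((u : ℂ) * (Complex.I * θ))) t) ∨
      ∃ T, M.Ret θ g (M.add b ((u : ℂ) * (Complex.I * θ))) T := by
    intro u hu
    by_cases h2 : ∃ t > 0, M.Hit θ g (M.add b ((u : ℂ) * (Complex.I * θ))) t
    · obtain ⟨t, ht, h3⟩ := h2
      obtain ⟨T, hT, -, h4, h5⟩ := first_hit hg hθ ht h3
      exact Or.inr ⟨T, hT, h4, h5⟩
    · push Not at h2
      refine Or.inl fun t ht => ⟨fun h3 => ?_, h2 t ht⟩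
      exact hnb u hu ⟨t5_fix hg hθ hb (hu.trans_le (min_le_right _ _)), ⟨t, ht, h3⟩, h2⟩
  refine ⟨min w (M.rad b), hw0, min_le_right _ _, fun u hu =>
    ⟨t5_fix hg hθ hb (hu.trans_le (min_le_right _ _)), ?_⟩⟩
  rcases hret u hu with h2 | ⟨T, hT⟩
  · exact h2
  exfalso
  -- the set of the parameters with first return time `T`
  let S : Set ℝ := {v | |v| < min w (M.rad b) ∧
    M.Ret θ g (M.add b ((v : ℂ) * (Complex.I * θ))) T}
  have hSo : IsOpen S := by
    rw [Metric.isOpen_iff]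
    rintro v ⟨hv, hv2⟩
    obtain ⟨ε, hε, h3⟩ := ret_open hg hθ (t5_fix hg hθ hb (hv.trans_le (min_le_right _ _))) hv2
    refine ⟨min ε (min w (M.rad b) - |v|), lt_min hε (by linarith), fun v' hv' => ?_⟩
    rw [Metric.mem_ball, Real.dist_eq] at hv'
    have h4 : |v' - v| < ε := hv'.trans_le (min_le_left _ _)
    have h5 : |v| + |v' - v| < min w (M.rad b) := by
      have := hv'.trans_le (min_le_right _ _)
      linarith
    have h6 := (h3 (v' - v) h4).2
    rw [t5_add hθ (h5.trans_le (min_le_right _ _))] at h6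
    refine ⟨?_, h6⟩
    have h7 : |v'| ≤ |v| + |v' - v| := by
      have := abs_add_le v (v' - v)
      rwa [add_sub_cancel] at this
    linarith
  have hsub : Ioo (-(min w (M.rad b))) (min w (M.rad b)) ⊆ S := by
    refine isPreconnected_Ioo.subset_of_closure_inter_subset hSo ⟨u, abs_lt.1 hu, hu, hT⟩ ?_
    rintro v ⟨hv, hv2⟩
    have hv3 : |v| < min w (M.rad b) := abs_lt.2 hv2
    have hvr : |v| < M.rad b := hv3.trans_le (min_le_right _ _)
    have hbv := t5_fix hg hθ hb hvr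
    refine ⟨hv3, ?_⟩
    rcases hret v hv3 with h3 | ⟨T', hT'⟩
    · exfalso
      obtain ⟨ε, hε, h4⟩ := fix_open hg hθ hbv (T := T) hT.1 (fun t ht => h3 t ht.1)
      obtain ⟨v', hv', h5⟩ := Metric.mem_closure_iff.1 hv (min ε (M.rad b - |v|))
        (lt_min hε (by linarith))
      rw [dist_comm, Real.dist_eq] at h5
      have h6 : |v' - v| < ε := h5.trans_le (min_le_left _ _)
      have h7 : |v| + |v' - v| < M.rad b := by
        have := h5.trans_le (min_le_right _ _)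
        linarith
      have h8 := ((h4 (v' - v) h6).2 T ⟨hT.1, le_rfl⟩).2
      rw [t5_add hθ h7] at h8
      exact h8 hv'.2.2.1
    · obtain ⟨ε, hε, h4⟩ := ret_open hg hθ hbv hT'
      obtain ⟨v', hv', h5⟩ := Metric.mem_closure_iff.1 hv (min ε (M.rad b - |v|))
        (lt_min hε (by linarith))
      rw [dist_comm, Real.dist_eq] at h5
      have h6 : |v' - v| < ε := h5.trans_le (min_le_left _ _)
      have h7 : |v| + |v' - v| < M.rad b := by
        have := h5.trans_le (min_le_right _ _)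
        linarith
      have h8 := (h4 (v' - v) h6).2
      rw [t5_add hθ h7] at h8
      rwa [ret_unique hv'.2 h8]
  have h2 := (hsub ⟨by linarith, hw0⟩).2.2.1
  rw [Complex.ofReal_zero, zero_mul, M.add_zero] at h2
  exact (h1 T hT.1).2 h2

theorem no_inf (h : M.Inputs θ g) {b : X} (hb : g b = b) : M.Bad θ g b ∨ ∃ T, M.Ret θ g b T := by
  have hθ := h.norm
  have hg := h.refl
  by_contra hcon
  push Not at hcon
  obtain ⟨hnb, hnr⟩ := hcon
  have hnh : ∀ t > 0, ¬ M.Hit θ g b t := by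
    intro t ht h2
    obtain ⟨T, hT, -, h4, h5⟩ := first_hit hg hθ ht h2
    exact hnr T ⟨hT, h4, h5⟩
  have hnd : ∀ t > 0, ¬ M.Dead θ b t := fun t ht h2 => hnb ⟨hb, ⟨t, ht, h2⟩, hnh⟩
  obtain ⟨w, hw, hwr, hwn⟩ := inf_nbhd h hb (fun t ht => ⟨hnd t ht, hnh t ht⟩)
  obtain ⟨ε, hε, C, hC, hrec⟩ := h.recur
  have hseq : ∀ m : ℕ, ∃ (t : ℝ) (x : X), (m : ℝ) * (C + 1) + 1 ≤ t ∧
      t ≤ (m : ℝ) * (C + 1) + 1 + C ∧ M.Seg b ((t : ℂ) * θ) x ∧ ε ≤ M.rad x := by
    intro m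
    have hm : (0 : ℝ) ≤ (m : ℝ) * (C + 1) := by positivity
    have h2 := hnd ((m : ℝ) * (C + 1) + 1) (by linarith)
    obtain ⟨y, hy⟩ := not_not.1 h2
    have h3 : ¬ M.Dead θ y C := by
      rw [dead_shift hy]
      exact hnd _ (by linarith)
    obtain ⟨t, ht, x, hx, hr⟩ := hrec y h3
    exact ⟨(m : ℝ) * (C + 1) + 1 + t, x, by linarith [ht.1], by linarith [ht.2],
      seg_line hy hx, hr⟩
  choose t x ht1 ht2 hx hr using hseq
  obtain ⟨m, m', hmm, u, hu, hxu⟩ := h.cpt ε hε x hr (min (min w (1 / 2)) ε)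
    (lt_min (lt_min hw (by norm_num)) hε)
  obtain ⟨a, c, huac, ha, hc, -⟩ := decomp hθ u
  have hu1 : ‖u‖ < w := hu.trans_le ((min_le_left _ _).trans (min_le_left _ _))
  have hu2 : ‖u‖ < 1 / 2 := hu.trans_le ((min_le_left _ _).trans (min_le_right _ _))
  have hu3 : ‖u‖ < ε := hu.trans_le (min_le_right _ _)
  have haw : |a| < w := ha.trans_lt hu1
  have hc2 : |c| < 1 / 2 := hc.trans_lt hu2
  have htm : 1 ≤ t m := by
    have := ht1 m
    have hm : (0 : ℝ) ≤ (m : ℝ) * (C + 1) := by positivity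
    linarith
  have htt : t m + 1 ≤ t m' := by
    have h2 := ht2 m
    have h3 := ht1 m'
    have h4 : (m : ℝ) + 1 ≤ (m' : ℝ) := by exact_mod_cast hmm
    have h5 : ((m : ℝ) + 1) * (C + 1) ≤ (m' : ℝ) * (C + 1) :=
      mul_le_mul_of_nonneg_right h4 (by linarith)
    linarith
  have hcc := abs_lt.1 hc2
  have hseg : M.Seg b ((a : ℂ) * (Complex.I * θ)) (M.add b ((a : ℂ) * (Complex.I * θ))) :=
    seg_add (by rw [t5_norm hθ]; linarith)
  have h2 := (hwn a haw).2 (t m + c) (by linarith)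
  obtain ⟨y, hy⟩ := not_not.1 h2.1
  have hkey : M.Seg (x m) ((a : ℂ) * (Complex.I * θ) + (c : ℂ) * θ) y := by
    refine seg_shear hseg ?_ (hx m) (by rwa [Complex.ofReal_add, add_mul] at hy)
    intro s hs z hz
    have h3 : |s * a| ≤ |a| := by
      rw [abs_mul, abs_of_nonneg hs.1]
      exact mul_le_of_le_one_left (abs_nonneg _) hs.2
    have h4 : M.Seg b (((s * a : ℝ) : ℂ) * (Complex.I * θ))
        (M.add b (((s * a : ℝ) : ℂ) * (Complex.I * θ))) :=
      seg_add (by rw [t5_norm hθ]; linarith)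
    have h5 : z = M.add b (((s * a : ℝ) : ℂ) * (Complex.I * θ)) := by
      refine seg_unique hz ?_
      have e : (((s * a : ℝ) : ℂ) * (Complex.I * θ)) = (s : ℂ) * ((a : ℂ) * (Complex.I * θ)) := by
        push_cast
        ring
      rw [e] at h4 ⊢
      exact h4
    have h6 : |s * c| ≤ |c| := by
      rw [abs_mul, abs_of_nonneg hs.1]
      exact mul_le_of_le_one_left (abs_nonneg _) hs.2
    have h7 := abs_le.1 (h6.trans hc2.le)
    have h8 := ((hwn (s * a) (h3.trans_lt haw)).2 (t m + s * c) (by linarith)).1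
    obtain ⟨z', hz'⟩ := not_not.1 h8
    refine ⟨z', ?_⟩
    rw [h5]
    have h9 : (((t m + s * c : ℝ) : ℂ) * θ) = ((t m : ℝ) : ℂ) * θ + (s : ℂ) * ((c : ℂ) * θ) := by
      push_cast
      ring
    rwa [h9] at hz'
  have hy2 : y = x m' := by
    rw [hxu]
    refine seg_unique hkey ?_
    rw [← huac]
    exact seg_add (hu3.trans_le (hr m))
  rw [hy2] at hy
  have h3 := seg_symm hy
  have h4 : (-(((t m + c : ℝ) : ℂ) * θ)) = ((-(t m + c) : ℝ) : ℂ) * θ := by
    push_cast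
    ring
  rw [h4] at h3
  have h5 := seg_line (hx m') h3
  exact hnh (t m' + -(t m + c)) (by linarith) ⟨_, h5, (hwn a haw).1⟩

end Pool.Agent.Lib.H25D.TSurf
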