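import Pool.Agent.Lib.H25D.T3
import Pool.Agent.Lib.H25D.T4
import Pool.Agent.Lib.H25D.T5

/-!
# H25D, chunk T6: a bound for the return times
-/

open Set

namespace Pool.Agent.Lib.H25D.TSurf

variable {X : Type} {M : TSurf X} {θ : ℂ} {g : X → X}

/-- neighbouring points of an arc -/
private theorem arc_near {l η : ℝ} {c : ℝ → X} (hθ : ‖θ‖ = 1) (hη : η = 1 ∨ η = -1)
    (hc : ∀ s ∈ Ioo 0 l, ∀ s' ∈ Ioo 0 l,
      M.Seg (c s) (((η * (s' - s) : ℝ) : ℂ) * (Complex.I * θ)) (c s'))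
    {s s' : ℝ} (hs : s ∈ Ioo 0 l) (hs' : s' ∈ Ioo 0 l) (hd : |s' - s| < M.rad (c s)) :
    c s' = M.add (c s) (((η * (s' - s) : ℝ) : ℂ) * (Complex.I * θ)) := by
  have hn : ‖((η * (s' - s) : ℝ) : ℂ) * (Complex.I * θ)‖ < M.rad (c s) := by
    rw [norm_mul, norm_mul, hθ, Complex.norm_I, Complex.norm_real, Real.norm_eq_abs, abs_mul]
    rcases hη with h | h <;> simp [h, hd]
  exact seg_unique (hc s hs s' hs') (seg_add hn)

/-- the parameters of one point on an arc are finitely many -/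
private theorem arc_fiber {l η : ℝ} {c : ℝ → X} (hθ : ‖θ‖ = 1) (hη : η = 1 ∨ η = -1)
    (hc : ∀ s ∈ Ioo 0 l, ∀ s' ∈ Ioo 0 l,
      M.Seg (c s) (((η * (s' - s) : ℝ) : ℂ) * (Complex.I * θ)) (c s')) (b : X) :
    {s | s ∈ Ioo 0 l ∧ c s = b}.Finite := by
  by_contra hinf
  have hinf' : {s | s ∈ Ioo 0 l ∧ c s = b}.Infinite := hinf
  -- an infinite subset of a compact interval has two points at a small distance
  obtain ⟨x, hx, hacc⟩ := hinf'.exists_accPt_of_subset_isCompact (isCompact_Icc (a := 0) (b := l))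
    (fun s hs => ⟨hs.1.1.le, hs.1.2.le⟩)
  have hr := M.rad_pos b
  rw [accPt_iff_nhds] at hacc
  obtain ⟨s, ⟨hs1, hs2, hs3⟩, hsx⟩ := hacc (Metric.ball x (M.rad b / 2))
    (Metric.ball_mem_nhds _ (by positivity))
  have hd : 0 < dist s x := dist_pos.2 hsx
  obtain ⟨s', ⟨hs1', hs2', hs3'⟩, hsx'⟩ := hacc (Metric.ball x (min (dist s x) (M.rad b / 2)))
    (Metric.ball_mem_nhds _ (lt_min hd (by positivity)))
  rw [Metric.mem_ball] at hs1 hs1'
  have hne : s' ≠ s := by
    rintro rfl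
    exact absurd (hs1'.trans_le (min_le_left _ _)) (lt_irrefl _)
  have hdist : |s' - s| < M.rad b := by
    have h1 := dist_triangle_right s' s x
    have h2 : dist s' x < M.rad b / 2 := hs1'.trans_le (min_le_right _ _)
    rw [Real.dist_eq] at h1
    linarith
  have h1 := arc_near hθ hη hc hs2 hs2' (by rw [hs3]; exact hdist)
  rw [hs3, hs3'] at h1
  have h2 : M.add b 0 = M.add b (((η * (s' - s) : ℝ) : ℂ) * (Complex.I * θ)) := by
    rw [M.add_zero]; exact h1
  have hn : ‖((η * (s' - s) : ℝ) : ℂ) * (Complex.I * θ)‖ < M.rad b := by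
    rw [norm_mul, norm_mul, hθ, Complex.norm_I, Complex.norm_real, Real.norm_eq_abs, abs_mul]
    rcases hη with h | h <;> simp [h, hdist]
  have h3 := M.inj b _ _ (by simpa using hr) hn h2
  have h4 : ‖((η * (s' - s) : ℝ) : ℂ) * (Complex.I * θ)‖ = 0 := by rw [← h3, norm_zero]
  rw [norm_mul, norm_mul, hθ, Complex.norm_I, Complex.norm_real, Real.norm_eq_abs, abs_mul] at h4
  have h5 : |s' - s| = 0 := by
    rcases hη with h | h <;> simpa [h] using h4
  exact hne (sub_eq_zero.1 (abs_eq_zero.1 h5))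

/-- the return times on one arc are bounded -/
private theorem arc_bound (h : M.Inputs θ g) {l η : ℝ} {c : ℝ → X} (hη : η = 1 ∨ η = -1)
    (hfix : ∀ s ∈ Ioo 0 l, g (c s) = c s)
    (hc : ∀ s ∈ Ioo 0 l, ∀ s' ∈ Ioo 0 l,
      M.Seg (c s) (((η * (s' - s) : ℝ) : ℂ) * (Complex.I * θ)) (c s')) :
    ∃ B : ℝ, ∀ s ∈ Ioo 0 l, ∀ T, M.Ret θ g (c s) T → T ≤ B := by
  classical
  have hfin : {s | s ∈ Ioo 0 l ∧ M.Bad θ g (c s)}.Finite := by
    have h1 : {s | s ∈ Ioo 0 l ∧ M.Bad θ g (c s)} ⊆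
        ⋃ b ∈ {b | M.Bad θ g b}, {s | s ∈ Ioo 0 l ∧ c s = b} := by
      rintro s ⟨hs, hb⟩
      simp only [mem_iUnion]
      exact ⟨c s, hb, hs, rfl⟩
    exact ((bad_finite h).biUnion fun b _ => arc_fiber h.norm hη hc b).subset h1
  set Bs := {s | s ∈ Ioo 0 l ∧ M.Bad θ g (c s)} with hBs
  -- constancy
  have hconst : ∀ s ∈ Ioo 0 l, ∀ s' ∈ Ioo 0 l, s ≤ s' → (∀ r ∈ Icc s s', r ∉ Bs) → ∀ T,
      M.Ret θ g (c s) T → M.Ret θ g (c s') T := by
    intro s hs s' hs' hss hno T hT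
    have hsub : ∀ r ∈ Icc s s', r ∈ Ioo 0 l := fun r hr =>
      ⟨hs.1.trans_le hr.1, hr.2.trans_lt hs'.2⟩
    have key := (isPreconnected_Icc (a := s) (b := s')).induction₂
      (fun x y => ∀ T, M.Ret θ g (c x) T ↔ M.Ret θ g (c y) T) (s := Icc s s')
      (by
        intro x hx
        have hxl := hsub x hx
        obtain ⟨T', hT'⟩ : ∃ T, M.Ret θ g (c x) T := by
          rcases no_inf h (hfix x hxl) with hb | hr
          · exact absurd ⟨hxl, hb⟩ (hno x hx)
          · exact hr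
        obtain ⟨ε, hε, hopen⟩ := ret_open h.refl h.norm (hfix x hxl) hT'
        have hev : ∀ᶠ y in nhdsWithin x (Icc s s'), |y - x| < min ε (M.rad (c x)) := by
          apply nhdsWithin_le_nhds
          have := Metric.ball_mem_nhds x (lt_min hε (M.rad_pos (c x)))
          filter_upwards [this] with y hy
          rwa [Metric.mem_ball, Real.dist_eq] at hy
        filter_upwards [hev, self_mem_nhdsWithin] with y hy hyI
        have hyl := hsub y hyI
        have h1 := arc_near h.norm hη hc hxl hyl (hy.trans_le (min_le_right _ _))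
        have h2 := hopen (η * (y - x)) (by
          rw [abs_mul]
          have := hy.trans_le (min_le_left _ _)
          rcases hη with h' | h' <;> simpa [h'] using this)
        have h3 : M.Ret θ g (c y) T' := by rw [h1]; exact h2.2
        intro T
        constructor
        · intro h4
          rw [ret_unique h4 hT']; exact h3
        · intro h4
          rw [ret_unique h4 h3]; exact hT')
      (by
        intro x y z _ _ _ h1 h2 T
        exact (h1 T).trans (h2 T))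
      (by
        intro x y _ _ h1 T
        exact (h1 T).symm)
      (left_mem_Icc.2 hss) (right_mem_Icc.2 hss)
    exact (key T).1 hT
  -- the values of the return times are finitely many
  let key : ℝ → Set ℝ := fun s => {r | r ∈ Bs ∧ r < s}
  have hvals : {T | ∃ s ∈ Ioo 0 l, M.Ret θ g (c s) T}.Finite := by
    have himg : ∀ K : Set ℝ, {T | ∃ s ∈ Ioo 0 l, M.Ret θ g (c s) T ∧ key s = K}.Subsingleton := by
      rintro K T ⟨s, hs, hT, hK⟩ T' ⟨s', hs', hT', hK'⟩
      have hbad : ∀ s ∈ Ioo 0 l, ∀ T, M.Ret θ g (c s) T → s ∉ Bs := by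
        intro s _ T hT hB
        exact hB.2.2.2 T hT.1 hT.2.1
      wlog hss : s ≤ s' generalizing s s' T T' with H
      · exact (H s' hs' hT' hK' s hs hT hK (le_of_not_ge hss)).symm
      have hno : ∀ r ∈ Icc s s', r ∉ Bs := by
        intro r hr hB
        rcases eq_or_lt_of_le hr.2 with h1 | h1
        · rw [h1] at hB
          exact hbad s' hs' T' hT' hB
        · have : r ∈ key s' := ⟨hB, h1⟩
          rw [hK', ← hK] at this
          exact absurd this.2 (not_lt.2 hr.1)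
      exact ret_unique (hconst s hs s' hs' hss hno T hT) hT'
    have hpow : (𝒫 Bs).Finite := hfin.finite_subsets
    have hsub : {T | ∃ s ∈ Ioo 0 l, M.Ret θ g (c s) T} ⊆
        ⋃ K ∈ 𝒫 Bs, {T | ∃ s ∈ Ioo 0 l, M.Ret θ g (c s) T ∧ key s = K} := by
      rintro T ⟨s, hs, hT⟩
      simp only [mem_iUnion]
      exact ⟨key s, fun r hr => hr.1, s, hs, hT, rfl⟩
    exact (hpow.biUnion fun K _ => (himg K).finite).subset hsub
  obtain ⟨B, hB⟩ := hvals.bddAbove
  exact ⟨B, fun s hs T hT => hB ⟨s, hs, hT⟩⟩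

theorem ret_bound (h : M.Inputs θ g) : ∃ T0 > 0, (∀ b T, g b = b → M.Ret θ g b T → T ≤ T0) ∧
    ∀ b, M.Bad θ g b → M.Dead θ b T0 := by
  classical
  obtain ⟨J, hJ, _, l, η, c, _, hη, hfix, hc, hall⟩ := h.arcs
  have hbd : ∀ j, ∃ B : ℝ, ∀ s ∈ Ioo 0 (l j), ∀ T, M.Ret θ g (c j s) T → T ≤ B := fun j =>
    arc_bound h (hη j) (hfix j) (hc j)
  choose B hB using hbd
  obtain ⟨B1, hB1⟩ := (Set.finite_range B).bddAbove
  have hdead : ∀ b : X, ∃ T : ℝ, 0 < T ∧ (M.Bad θ g b → M.Dead θ b T) := by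
    intro b
    by_cases hb : M.Bad θ g b
    · obtain ⟨T, hT, hd⟩ := hb.2.1
      exact ⟨T, hT, fun _ => hd⟩
    · exact ⟨1, one_pos, fun h' => absurd h' hb⟩
  choose D hD0 hD using hdead
  obtain ⟨B2, hB2⟩ := ((bad_finite h).image D).bddAbove
  refine ⟨max 1 (max B1 B2), lt_max_of_lt_left one_pos, ?_, ?_⟩
  · intro b T hb hT
    obtain ⟨j, s, hs, rfl⟩ := hall b hb
    exact ((hB j s hs T hT).trans (hB1 ⟨j, rfl⟩)).trans
      ((le_max_left _ _).trans (le_max_right _ _))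
  · intro b hb
    refine dead_mono (hD b hb) (Or.inl ⟨(hD0 b).le, ?_⟩)
    exact (hB2 ⟨b, hb, rfl⟩).trans ((le_max_right _ _).trans (le_max_right _ _))

end Pool.Agent.Lib.H25D.TSurf
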