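import Pool.Agent.Lib.H25D.T5
import Pool.Agent.Lib.H25D.T6

/-!
# H25D, chunk T7: every leaf contains a fixed point
-/

open Set

namespace Pool.Agent.Lib.H25D.TSurf

variable {X : Type} {M : TSurf X} {θ : ℂ} {g : X → X}

private theorem t7_alive {x : X} {a b c : ℝ} (ha : ¬ M.Dead θ x a) (hb : ¬ M.Dead θ x b)
    (hac : a ≤ c) (hcb : c ≤ b) : ¬ M.Dead θ x c := by
  intro hc
  rcases le_total 0 c with h0 | h0
  · exact hb (dead_mono hc (Or.inl ⟨h0, hcb⟩))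
  · exact ha (dead_mono hc (Or.inr ⟨hac, h0⟩))

private theorem t7_hit_alive {x : X} {t : ℝ} (h : M.Hit θ g x t) : ¬ M.Dead θ x t := by
  obtain ⟨z, hz, -⟩ := h
  intro hd
  exact hd ⟨z, hz⟩

private theorem t7_zero (x : X) : ¬ M.Dead θ x 0 := by
  intro hd
  refine hd ⟨x, ?_⟩
  have h := seg_refl (M := M) x
  simpa using h

/-- the times without death and without hit form an open set -/
private theorem t7_open (hg : M.Refl θ g) (hθ : ‖θ‖ = 1) (x : X) :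
    IsOpen {s : ℝ | ¬ M.Dead θ x s ∧ ¬ M.Hit θ g x s} := by
  rw [Metric.isOpen_iff]
  intro s hs
  obtain ⟨ε, hε, H⟩ := nohit_open hg hθ (le_refl s) (x := x) (fun t ht => by
    have e : t = s := le_antisymm ht.2 ht.1
    rw [e]
    exact hs)
  refine ⟨min ε (M.rad x), lt_min hε (M.rad_pos x), ?_⟩
  intro s' hs'
  rw [Metric.mem_ball, Real.dist_eq] at hs'
  have h1 : ‖(((s' - s : ℝ) : ℂ) * θ)‖ < min ε (M.rad x) := by
    rw [norm_mul, hθ, mul_one, Complex.norm_real, Real.norm_eq_abs]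
    exact hs'
  have h2 := H _ (lt_of_lt_of_le h1 (min_le_left _ _)) s ⟨le_rfl, le_rfl⟩
  have h3 : M.Seg x (((s' - s : ℝ) : ℂ) * θ) (M.add x (((s' - s : ℝ) : ℂ) * θ)) :=
    seg_add (lt_of_lt_of_le h1 (min_le_right _ _))
  have e : s' - s + s = s' := by ring
  refine ⟨fun hd => h2.1 ((dead_shift h3).2 (by rw [e]; exact hd)), fun hd =>
    h2.2 ((hit_shift h3).2 (by rw [e]; exact hd))⟩

/-- last hit in an interval -/
private theorem t7_last (hg : M.Refl θ g) (hθ : ‖θ‖ = 1) {x : X} {a b : ℝ}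
    (ha : ¬ M.Dead θ x a) (hb : ¬ M.Dead θ x b) (h : ∃ t ∈ Icc a b, M.Hit θ g x t) :
    ∃ t ∈ Icc a b, M.Hit θ g x t ∧ ∀ s ∈ Icc a b, t < s → ¬ M.Hit θ g x s := by
  have hc : IsCompact (Icc a b ∩ {s : ℝ | ¬ M.Dead θ x s ∧ ¬ M.Hit θ g x s}ᶜ) :=
    isCompact_Icc.inter_right (t7_open hg hθ x).isClosed_compl
  obtain ⟨t0, ht0, hh0⟩ := h
  have hne : (Icc a b ∩ {s : ℝ | ¬ M.Dead θ x s ∧ ¬ M.Hit θ g x s}ᶜ).Nonempty :=
    ⟨t0, ht0, fun hx => hx.2 hh0⟩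
  obtain ⟨t, ht, hmax⟩ := hc.exists_isGreatest hne
  have key : ∀ s ∈ Icc a b, M.Hit θ g x s ∨ ¬ M.Hit θ g x s := fun s _ => em _
  refine ⟨t, ht.1, ?_, ?_⟩
  · by_contra hn
    exact ht.2 ⟨t7_alive ha hb ht.1.1 ht.1.2, hn⟩
  · intro s hs hts hhs
    have := hmax ⟨hs, fun hx => hx.2 hhs⟩
    exact absurd hts (not_lt.2 this)

/-- first hit in an interval -/
private theorem t7_first (hg : M.Refl θ g) (hθ : ‖θ‖ = 1) {x : X} {a b : ℝ}
    (ha : ¬ M.Dead θ x a) (hb : ¬ M.Dead θ x b) (h : ∃ t ∈ Icc a b, M.Hit θ g x t) :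
    ∃ t ∈ Icc a b, M.Hit θ g x t ∧ ∀ s ∈ Icc a b, s < t → ¬ M.Hit θ g x s := by
  have hc : IsCompact (Icc a b ∩ {s : ℝ | ¬ M.Dead θ x s ∧ ¬ M.Hit θ g x s}ᶜ) :=
    isCompact_Icc.inter_right (t7_open hg hθ x).isClosed_compl
  obtain ⟨t0, ht0, hh0⟩ := h
  have hne : (Icc a b ∩ {s : ℝ | ¬ M.Dead θ x s ∧ ¬ M.Hit θ g x s}ᶜ).Nonempty :=
    ⟨t0, ht0, fun hx => hx.2 hh0⟩
  obtain ⟨t, ht, hmin⟩ := hc.exists_isLeast hne
  refine ⟨t, ht.1, ?_, ?_⟩
  · by_contra hn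
    exact ht.2 ⟨t7_alive ha hb ht.1.1 ht.1.2, hn⟩
  · intro s hs hts hhs
    have := hmin ⟨hs, fun hx => hx.2 hhs⟩
    exact absurd hts (not_lt.2 this)

/-- from every hit, forward: death or the next hit within `T0` -/
private theorem t7_next (h : M.Inputs θ g) {T0 : ℝ}
    (hR : ∀ b T, g b = b → M.Ret θ g b T → T ≤ T0) (hB : ∀ b, M.Bad θ g b → M.Dead θ b T0)
    {x : X} {t : ℝ} (ht : M.Hit θ g x t) :
    M.Dead θ x (t + T0) ∨ ∃ s, 0 < s ∧ s ≤ T0 ∧ M.Hit θ g x (t + s) := by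
  obtain ⟨b, hb, hgb⟩ := ht
  rcases no_inf h hgb with h1 | ⟨T, h1⟩
  · exact Or.inl ((dead_shift hb).1 (hB b h1))
  · exact Or.inr ⟨T, h1.1, hR b T hgb h1, (hit_shift hb).1 h1.2.1⟩

private theorem t7_mirror_hit (hg : M.Refl θ g) (hθ : ‖θ‖ = 1) {x : X} {t s : ℝ}
    (ht : M.Hit θ g x t) (hs : M.Hit θ g x (t + s)) : M.Hit θ g x (t - s) := by
  obtain ⟨y, hy, hgy⟩ := hs
  exact ⟨g y, mirror hg hθ ht hy, by rw [hg.invol, hgy]⟩

private theorem t7_mirror_dead (hg : M.Refl θ g) (hθ : ‖θ‖ = 1) {x : X} {t s : ℝ}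
    (ht : M.Hit θ g x t) (hs : M.Dead θ x (t + s)) : M.Dead θ x (t - s) := by
  rintro ⟨y, hy⟩
  have e : t - s = t + -s := by ring
  rw [e] at hy
  have h1 := mirror hg hθ ht hy
  have e2 : t - -s = t + s := by ring
  rw [e2] at h1
  exact hs ⟨_, h1⟩

/-- from every hit, backward -/
private theorem t7_prev (h : M.Inputs θ g) {T0 : ℝ}
    (hR : ∀ b T, g b = b → M.Ret θ g b T → T ≤ T0) (hB : ∀ b, M.Bad θ g b → M.Dead θ b T0)
    {x : X} {t : ℝ} (ht : M.Hit θ g x t) :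
    M.Dead θ x (t - T0) ∨ ∃ s, 0 < s ∧ s ≤ T0 ∧ M.Hit θ g x (t - s) := by
  rcases t7_next h hR hB ht with h1 | ⟨s, hs, hs', h1⟩
  · exact Or.inl (t7_mirror_dead h.refl h.norm ht h1)
  · exact Or.inr ⟨s, hs, hs', t7_mirror_hit h.refl h.norm ht h1⟩

/-- the main step: an interval of length `T0` around `0` without hits and without death excludes
hits on the whole leaf -/
private theorem t7_main (h : M.Inputs θ g) {T0 : ℝ} (hT0 : 0 < T0)
    (hR : ∀ b T, g b = b → M.Ret θ g b T → T ≤ T0) (hB : ∀ b, M.Bad θ g b → M.Dead θ b T0)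
    {x : X} {a b : ℝ} (ha0 : a ≤ 0) (hb0 : 0 ≤ b) (hab : b - a = T0)
    (hn : ∀ t ∈ Icc a b, ¬ M.Dead θ x t ∧ ¬ M.Hit θ g x t) (t : ℝ) : ¬ M.Hit θ g x t := by
  intro ht
  have hal := t7_hit_alive ht
  have hA := (hn a ⟨le_rfl, by linarith⟩).1
  have hB' := (hn b ⟨by linarith, le_rfl⟩).1
  rcases lt_or_ge t a with h1 | h1
  · obtain ⟨s, hs, hhs, hmax⟩ := t7_last h.refl h.norm hal hB' ⟨t, ⟨le_rfl, by linarith⟩, ht⟩
    have hsa : s < a := by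
      by_contra hc
      exact (hn s ⟨not_lt.1 hc, hs.2⟩).2 hhs
    rcases t7_next h hR hB hhs with h2 | ⟨r, hr, hr', h2⟩
    · exact t7_alive hal hB' (by linarith [hs.1]) (by linarith) h2
    · exact hmax _ ⟨by linarith [hs.1], by linarith⟩ (by linarith) h2
  · rcases le_or_gt t b with h2 | h2
    · exact (hn t ⟨h1, h2⟩).2 ht
    · obtain ⟨s, hs, hhs, hmin⟩ := t7_first h.refl h.norm hA hal ⟨t, ⟨by linarith, le_rfl⟩, ht⟩
      have hsb : b < s := by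
        by_contra hc
        exact (hn s ⟨hs.1, not_lt.1 hc⟩).2 hhs
      rcases t7_prev h hR hB hhs with h3 | ⟨r, hr, hr', h3⟩
      · exact t7_alive hA hal (by linarith) (by linarith [hs.2]) h3
      · exact hmin _ ⟨by linarith, by linarith [hs.2]⟩ (by linarith) h3

/-- a local and co-local property propagates along segments -/
private theorem t7_prop {P : X → Prop} (ho : ∀ x, P x → ∃ ε > 0, ∀ u : ℂ, ‖u‖ < ε → P (M.add x u))
    (hc : ∀ x, ¬ P x → ∃ ε > 0, ∀ u : ℂ, ‖u‖ < ε → ¬ P (M.add x u)) {x y : X} {W : ℂ}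
    (hs : M.Seg x W y) (hx : P x) : P y := by
  obtain ⟨z, h0, h1, hz⟩ := hs
  have key : ∀ Q : X → Prop, (∀ x, Q x → ∃ ε > 0, ∀ u : ℂ, ‖u‖ < ε → Q (M.add x u)) →
      IsOpen {s : Icc (0 : ℝ) 1 | Q (z s)} := by
    intro Q hQ
    rw [Metric.isOpen_iff]
    intro s hs
    obtain ⟨ε, hε, H⟩ := hQ _ hs
    obtain ⟨δ, hδ, H'⟩ := hz s s.2
    have hW : 0 < ‖W‖ + 1 := by positivity
    refine ⟨min δ (ε / (‖W‖ + 1)), lt_min hδ (by positivity), ?_⟩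
    intro s' hs'
    rw [Metric.mem_ball, Subtype.dist_eq, Real.dist_eq] at hs'
    have h2 := H' s' s'.2 (lt_of_lt_of_le hs' (min_le_left _ _))
    show Q (z s')
    rw [h2]
    refine H _ ?_
    rw [norm_mul, Complex.norm_real, Real.norm_eq_abs]
    have h3 : |(s' : ℝ) - s| < ε / (‖W‖ + 1) := lt_of_lt_of_le hs' (min_le_right _ _)
    rw [lt_div_iff₀ hW] at h3
    have h4 : |(s' : ℝ) - s| * ‖W‖ ≤ |(s' : ℝ) - s| * (‖W‖ + 1) :=
      mul_le_mul_of_nonneg_left (by linarith) (abs_nonneg _)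
    linarith
  have hcl : IsClopen {s : Icc (0 : ℝ) 1 | P (z s)} := by
    refine ⟨?_, key P ho⟩
    rw [← isOpen_compl_iff]
    exact key (fun x => ¬ P x) hc
  rcases isClopen_iff.1 hcl with h2 | h2
  · have : (⟨0, by norm_num, by norm_num⟩ : Icc (0 : ℝ) 1) ∈ {s : Icc (0 : ℝ) 1 | P (z s)} := by
      show P (z 0)
      rw [h0]
      exact hx
    rw [h2] at this
    exact absurd this (Set.notMem_empty _)
  · have : (⟨1, by norm_num, by norm_num⟩ : Icc (0 : ℝ) 1) ∈ {s : Icc (0 : ℝ) 1 | P (z s)} := by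
      rw [h2]
      exact Set.mem_univ _
    have h3 : P (z 1) := this
    rw [h1] at h3
    exact h3

theorem all_hit (h : M.Inputs θ g) (x : X) : ∃ t, M.Hit θ g x t := by
  obtain ⟨T0, hT0, hR, hB⟩ := ret_bound h
  have hg := h.refl
  have hθ := h.norm
  have ho : ∀ x, (∃ t, M.Hit θ g x t) →
      ∃ ε > 0, ∀ u : ℂ, ‖u‖ < ε → ∃ t, M.Hit θ g (M.add x u) t := by
    rintro x ⟨t, ht⟩
    exact hit_open hg hθ ht
  have hc : ∀ x, ¬ (∃ t, M.Hit θ g x t) →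
      ∃ ε > 0, ∀ u : ℂ, ‖u‖ < ε → ¬ ∃ t, M.Hit θ g (M.add x u) t := by
    intro x hx
    have hx' : ∀ t, ¬ M.Hit θ g x t := fun t ht => hx ⟨t, ht⟩
    by_cases h1 : M.Dead θ x T0
    · by_cases h2 : M.Dead θ x (-T0)
      · obtain ⟨t, -, -, ht⟩ := h.star x T0 T0 hT0 hT0 h1 h2
        exact absurd ht (hx' t)
      · obtain ⟨ε, hε, H⟩ := nohit_open hg hθ (a := -T0) (b := 0) (by linarith) (x := x)
          (fun t ht => ⟨t7_alive h2 (t7_zero x) ht.1 ht.2, hx' t⟩)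
        refine ⟨ε, hε, fun u hu => ?_⟩
        rintro ⟨t, ht⟩
        exact t7_main h hT0 hR hB (a := -T0) (b := 0) (by linarith) le_rfl (by ring) (H u hu) t ht
    · obtain ⟨ε, hε, H⟩ := nohit_open hg hθ (a := 0) (b := T0) hT0.le (x := x)
          (fun t ht => ⟨t7_alive (t7_zero x) h1 ht.1 ht.2, hx' t⟩)
      refine ⟨ε, hε, fun u hu => ?_⟩
      rintro ⟨t, ht⟩
      exact t7_main h hT0 hR hB (a := 0) (b := T0) le_rfl hT0.le (by ring) (H u hu) t ht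
  obtain ⟨J, -, ⟨j⟩, l, η, c, hl, -, hfix, -, -⟩ := h.arcs
  have hx0 : ∃ t, M.Hit θ g (c j (l j / 2)) t := by
    refine ⟨0, c j (l j / 2), ?_, hfix j _ ⟨by linarith [hl j], by linarith [hl j]⟩⟩
    have h1 := seg_refl (M := M) (c j (l j / 2))
    simpa using h1
  have hconn := h.conn (c j (l j / 2)) x
  induction hconn with
  | refl => exact hx0
  | tail _ h2 ih =>
    obtain ⟨W, hW⟩ := h2
    exact t7_prop (P := fun x => ∃ t, M.Hit θ g x t) ho hc hW ih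

end Pool.Agent.Lib.H25D.TSurf
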