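import Pool.Agent.Lib.H25D.Move
import Pool.Agent.Lib.H25D.CountFree

/-!
# H25D, chunk B3b: a point that is free in one direction sees the centre
-/

open Set

namespace Pool.Agent.Lib.H25D.TSurf

variable {X : Type} {M : TSurf X} {θ : ℂ}

private theorem cr_add_left (a b c : ℂ) : cr (a + b) c = cr a c + cr b c := by
  simp only [cr, Complex.add_re, Complex.add_im]; ring

private theorem cr_sub_left (a b c : ℂ) : cr (a - b) c = cr a c - cr b c := by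
  simp only [cr, Complex.sub_re, Complex.sub_im]; ring

private theorem cr_neg_left (a c : ℂ) : cr (-a) c = - cr a c := by
  simp only [cr, Complex.neg_re, Complex.neg_im]; ring

private theorem cr_real_left (t : ℝ) (a c : ℂ) : cr ((t : ℂ) * a) c = t * cr a c := by
  simp only [cr, Complex.re_ofReal_mul, Complex.im_ofReal_mul]; ring

private theorem cr_self (a : ℂ) : cr a a = 0 := by
  simp only [cr]; ring

private theorem cr_comm (a b : ℂ) : cr a b = - cr b a := by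
  simp only [cr]; ring

private theorem abs_cr_le (a b : ℂ) : |cr a b| ≤ ‖a‖ * ‖b‖ := by
  have h1 : cr a b = ((starRingEnd ℂ) a * b).im := by
    simp only [cr, Complex.mul_im, Complex.conj_re, Complex.conj_im]; ring
  rw [h1]
  refine (Complex.abs_im_le_norm _).trans ?_
  rw [norm_mul, RCLike.norm_conj]

/-- the generic points -/
private def G2 (M : TSurf X) (θ₀ θ₁ : ℂ) (L₀ L₁ : X → ℝ) (K₀ K₁ : Submodule ℚ ℝ) (x : X) : Prop :=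
  M.Free θ₀ L₀ K₀ x ∧ M.Free θ₁ L₁ K₁ x

/-- the points that see the centre transversally -/
private def V2 (M : TSurf X) (θ₀ θ₁ : ℂ) (κ : M.Germ) (x : X) : Prop :=
  ∃ W, M.Sees x W κ ∧ cr W θ₀ ≠ 0 ∧ cr W θ₁ ≠ 0

/-- one move -/
private theorem one_move {θ₀ θ₁ : ℂ} (h₀ : ‖θ₀‖ = 1) (h₀₁ : cr θ₀ θ₁ ≠ 0) {L₀ : X → ℝ}
    (hC₀ : M.Cyl θ₀ L₀) {K₀ : Submodule ℚ ℝ} (hR₀ : M.Ratios θ₀ L₀ K₀) (κ : M.Germ)
    (hO₀ : M.Ok θ₀ L₀ K₀ κ) {x x' : X} (hx : M.Free θ₀ L₀ K₀ x) {α : ℝ}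
    (hx' : M.Seg x ((α : ℂ) * θ₀) x') {W : ℂ} (hs : M.Sees x W κ) (hW₀ : cr W θ₀ ≠ 0) :
    ∃ W', M.Sees x' W' κ ∧ cr W' θ₀ ≠ 0 ∧ cr W' θ₁ ≠ 0 := by
  obtain ⟨σ, hσ, hσκ⟩ : ∃ σ : ℝ, (σ = 1 ∨ σ = -1) ∧ 0 ≤ cr (-((σ : ℂ) * θ₀)) κ.h := by
    rcases le_total 0 (cr (-θ₀) κ.h) with h | h
    · exact ⟨1, Or.inl rfl, by simpa using h⟩
    · refine ⟨-1, Or.inr rfl, ?_⟩
      have h2 : (-(((-1 : ℝ) : ℂ) * θ₀)) = -(-θ₀) := by push_cast; ring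
      rw [h2, cr_neg_left]
      linarith
  obtain ⟨T, hT, hT'⟩ := move h₀ hC₀ κ K₀ hR₀ hO₀ hs hx hW₀ α hx' σ hσ hσκ (|cr W θ₁| / |cr θ₀ θ₁|)
  refine ⟨_, hT', ?_, ?_⟩
  · rw [cr_add_left, cr_real_left, cr_self, mul_zero, _root_.add_zero]
    exact hW₀
  · rw [cr_add_left, cr_real_left]
    intro h
    have hpos : 0 < |cr θ₀ θ₁| := abs_pos.2 h₀₁
    have h3 : |T| = |cr W θ₁| / |cr θ₀ θ₁| := by
      rw [eq_div_iff hpos.ne', ← abs_mul]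
      have : T * cr θ₀ θ₁ = - cr W θ₁ := by linarith
      rw [this, abs_neg]
    have h4 : σ * T ≤ |T| := by
      rcases hσ with rfl | rfl
      · rw [one_mul]; exact le_abs_self T
      · rw [neg_one_mul]; exact neg_le_abs T
    linarith

/-- generic points are dense -/
private theorem dense_generic {θ₀ θ₁ : ℂ} (h₀ : ‖θ₀‖ = 1) (h₁ : ‖θ₁‖ = 1)
    (h₀₁ : cr θ₀ θ₁ ≠ 0) {L₀ L₁ : X → ℝ} (hC₀ : M.Cyl θ₀ L₀) (hC₁ : M.Cyl θ₁ L₁)
    {K₀ K₁ : Submodule ℚ ℝ} (hK₀ : (K₀ : Set ℝ).Countable) (hK₁ : (K₁ : Set ℝ).Countable)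
    (z : X) {ε : ℝ} (hε : 0 < ε) (hεr : ε ≤ M.rad z) :
    ∃ u : ℂ, ‖u‖ < ε ∧ G2 M θ₀ θ₁ L₀ L₁ K₀ K₁ (M.add z u) := by
  set D : ℂ := ((ε / 4 : ℝ) : ℂ) * (θ₀ + θ₁) with hD
  have hDn : ‖D‖ < ε := by
    rw [hD, norm_mul, Complex.norm_real, Real.norm_of_nonneg (by linarith)]
    have := norm_add_le θ₀ θ₁
    rw [h₀, h₁] at this
    nlinarith
  have hseg : M.Seg z D (M.add z D) := seg_add (hDn.trans_le hεr)
  have hc : cr θ₁ θ₀ = - cr θ₀ θ₁ := cr_comm _ _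
  have hD₀ : cr D θ₀ ≠ 0 := by
    rw [hD, cr_real_left, cr_add_left, cr_self, zero_add, hc]
    exact mul_ne_zero (by linarith) (neg_ne_zero.2 h₀₁)
  have hD₁ : cr D θ₁ ≠ 0 := by
    rw [hD, cr_real_left, cr_add_left, cr_self, _root_.add_zero]
    exact mul_ne_zero (by linarith) h₀₁
  have c0 := countable_not_free h₀ hC₀ hK₀ hseg hD₀
  have c1 := countable_not_free h₁ hC₁ hK₁ hseg hD₁
  have hunc : ¬ (Icc (0 : ℝ) 1).Countable := by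
    rw [← Cardinal.le_aleph0_iff_set_countable, Cardinal.mk_Icc_real zero_lt_one, not_le]
    exact Cardinal.aleph0_lt_continuum
  obtain ⟨s, hs, hs0, hs1⟩ : ∃ s ∈ Icc (0 : ℝ) 1,
      (¬ ∃ z', M.Seg z ((s : ℂ) * D) z' ∧ ¬ M.Free θ₀ L₀ K₀ z') ∧
      (¬ ∃ z', M.Seg z ((s : ℂ) * D) z' ∧ ¬ M.Free θ₁ L₁ K₁ z') := by
    by_contra hcon
    push Not at hcon
    apply hunc
    refine (c0.union c1).mono fun s hs => ?_
    by_cases h : ∃ z', M.Seg z ((s : ℂ) * D) z' ∧ ¬ M.Free θ₀ L₀ K₀ z'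
    · exact Or.inl ⟨hs, h⟩
    · push Not at h
      obtain ⟨z', h1, h2⟩ := hcon s hs h
      exact Or.inr ⟨hs, z', h1, h2⟩
  have hsn : ‖(s : ℂ) * D‖ < ε := by
    rw [norm_mul, Complex.norm_real, Real.norm_of_nonneg hs.1]
    have := norm_nonneg D
    nlinarith [hs.2]
  have hsz : M.Seg z ((s : ℂ) * D) (M.add z ((s : ℂ) * D)) := seg_add (hsn.trans_le hεr)
  push Not at hs0 hs1
  exact ⟨(s : ℂ) * D, hsn, hs0 _ hsz, hs1 _ hsz⟩

/-- the disc step -/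
private theorem disc_step {θ₀ θ₁ : ℂ} (h₀ : ‖θ₀‖ = 1) (h₁ : ‖θ₁‖ = 1)
    (h₀₁ : cr θ₀ θ₁ ≠ 0) {L₀ L₁ : X → ℝ} (hC₀ : M.Cyl θ₀ L₀) (hC₁ : M.Cyl θ₁ L₁)
    {K₀ K₁ : Submodule ℚ ℝ} (hR₀ : M.Ratios θ₀ L₀ K₀) (hR₁ : M.Ratios θ₁ L₁ K₁) (κ : M.Germ)
    (hO₀ : M.Ok θ₀ L₀ K₀ κ) (hO₁ : M.Ok θ₁ L₁ K₁ κ) (z : X) {u₁ u₂ : ℂ}
    (hu₁ : ‖u₁‖ < M.rad z * |cr θ₀ θ₁| / 8) (hu₂ : ‖u₂‖ < M.rad z * |cr θ₀ θ₁| / 8)
    (hG₁ : G2 M θ₀ θ₁ L₀ L₁ K₀ K₁ (M.add z u₁)) (hV : V2 M θ₀ θ₁ κ (M.add z u₁))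
    (hG₂ : G2 M θ₀ θ₁ L₀ L₁ K₀ K₁ (M.add z u₂)) : V2 M θ₀ θ₁ κ (M.add z u₂) := by
  have hr := M.rad_pos z
  set c : ℝ := |cr θ₀ θ₁| with hcdef
  have hc : 0 < c := abs_pos.2 h₀₁
  have hc1 : c ≤ 1 := by
    have := abs_cr_le θ₀ θ₁
    rw [h₀, h₁] at this
    linarith
  have h₁₀ : cr θ₁ θ₀ = - cr θ₀ θ₁ := cr_comm _ _
  -- coordinates
  set τ₁ : ℝ := cr (u₂ - u₁) θ₀ / cr θ₁ θ₀ with hτ₁
  set τ₀ : ℝ := cr (u₂ - u₁) θ₁ / cr θ₀ θ₁ with hτ₀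
  have hdec : u₂ - u₁ = (τ₁ : ℂ) * θ₁ + (τ₀ : ℂ) * θ₀ := by
    have hne : cr θ₀ θ₁ ≠ 0 := h₀₁
    apply Complex.ext
    · simp only [Complex.sub_re, Complex.add_re, Complex.re_ofReal_mul]
      rw [hτ₁, hτ₀, h₁₀, div_neg, neg_mul, div_mul_eq_mul_div, div_mul_eq_mul_div, neg_add_eq_sub,
        ← sub_div, eq_div_iff hne]
      simp only [cr, Complex.sub_re, Complex.sub_im]
      ring
    · simp only [Complex.sub_im, Complex.add_im, Complex.im_ofReal_mul]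
      rw [hτ₁, hτ₀, h₁₀, div_neg, neg_mul, div_mul_eq_mul_div, div_mul_eq_mul_div, neg_add_eq_sub,
        ← sub_div, eq_div_iff hne]
      simp only [cr, Complex.sub_re, Complex.sub_im]
      ring
  have hdiff : ‖u₂ - u₁‖ < M.rad z * c / 4 := by
    have := norm_sub_le u₂ u₁
    linarith
  have hτ₁n : ‖(τ₁ : ℂ) * θ₁‖ < M.rad z / 4 := by
    rw [norm_mul, h₁, mul_one, Complex.norm_real, Real.norm_eq_abs, hτ₁, abs_div, h₁₀, abs_neg,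
      div_lt_iff₀ hc]
    have := abs_cr_le (u₂ - u₁) θ₀
    rw [h₀, mul_one] at this
    linarith
  have hτ₀n : ‖(τ₀ : ℂ) * θ₀‖ < M.rad z / 4 := by
    rw [norm_mul, h₀, mul_one, Complex.norm_real, Real.norm_eq_abs, hτ₀, abs_div,
      div_lt_iff₀ hc]
    have := abs_cr_le (u₂ - u₁) θ₁
    rw [h₁, mul_one] at this
    linarith
  have hu₁r : ‖u₁‖ < M.rad z / 8 := by nlinarith
  -- the intermediate point
  have hrad₂ := M.rad_add z u₁ (by linarith)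
  have hseg₁ : M.Seg (M.add z u₁) ((τ₁ : ℂ) * θ₁) (M.add (M.add z u₁) ((τ₁ : ℂ) * θ₁)) :=
    seg_add (by linarith)
  have hx₃ : M.add (M.add z u₁) ((τ₁ : ℂ) * θ₁) = M.add z (u₁ + (τ₁ : ℂ) * θ₁) :=
    M.add_add _ _ _ (by linarith)
  have hn3 : ‖u₁ + (τ₁ : ℂ) * θ₁‖ ≤ ‖u₁‖ + ‖(τ₁ : ℂ) * θ₁‖ := norm_add_le _ _
  have hx₂ : M.add (M.add z (u₁ + (τ₁ : ℂ) * θ₁)) ((τ₀ : ℂ) * θ₀) = M.add z u₂ := by
    rw [M.add_add _ _ _ (by linarith)]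
    congr 1
    rw [add_assoc, ← hdec]
    ring
  have hrad₃ := M.rad_add z (u₁ + (τ₁ : ℂ) * θ₁) (by linarith)
  have hseg₀ : M.Seg (M.add z (u₁ + (τ₁ : ℂ) * θ₁)) ((τ₀ : ℂ) * θ₀) (M.add z u₂) := by
    rw [← hx₂]
    exact seg_add (by linarith)
  rw [hx₃] at hseg₁
  obtain ⟨W, hW, hW₀, hW₁⟩ := hV
  obtain ⟨W', hW', hW'₁, hW'₀⟩ := one_move (θ₀ := θ₁) (θ₁ := θ₀) h₁ (by rw [h₁₀]; exact neg_ne_zero.2 h₀₁)
    hC₁ hR₁ κ hO₁ hG₁.2 hseg₁ hW hW₁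
  have hfree : M.Free θ₀ L₀ K₀ (M.add z (u₁ + (τ₁ : ℂ) * θ₁)) := (free_leaf h₀ hC₀ hseg₀).2 hG₂.1
  obtain ⟨W'', hW'', hW''₀, hW''₁⟩ := one_move h₀ h₀₁ hC₀ hR₀ κ hO₀ hfree hseg₀ hW' hW'₀
  exact ⟨W'', hW'', hW''₀, hW''₁⟩

/-- a point of the half disc in general position -/
private theorem start_point {θ₀ θ₁ : ℂ} (h₀ : ‖θ₀‖ = 1) (h₁ : ‖θ₁‖ = 1) (κ : M.Germ) :
    ∃ w : ℂ, 0 < cr w κ.h ∧ ‖w‖ < κ.e ∧ cr w θ₀ ≠ 0 ∧ cr w θ₁ ≠ 0 := by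
  set h := κ.h with hh
  have hne := κ.hh
  have he := κ.he
  have hn : 0 < ‖h‖ := norm_pos_iff.2 hne
  set δ : ℝ := κ.e / (4 * ‖h‖) with hδ
  have hδ0 : 0 < δ := by positivity
  have hsq : 0 < h.re ^ 2 + h.im ^ 2 := by
    have h3 : ‖h‖ ^ 2 = h.re ^ 2 + h.im ^ 2 := by
      rw [← Complex.normSq_eq_norm_sq, Complex.normSq_apply]; ring
    rw [← h3]; positivity
  have key : ∀ (θ : ℂ), ‖θ‖ = 1 → ∀ a b : ℝ, a ≠ b →
      cr (((δ : ℝ) : ℂ) * (-(Complex.I * h) + (a : ℂ) * h)) θ = 0 →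
      cr (((δ : ℝ) : ℂ) * (-(Complex.I * h) + (b : ℂ) * h)) θ = 0 → False := by
    intro θ hθ a b hab h1 h2
    rw [cr_real_left, cr_add_left, cr_real_left] at h1 h2
    have h1' := (mul_eq_zero.1 h1).resolve_left hδ0.ne'
    have h2' := (mul_eq_zero.1 h2).resolve_left hδ0.ne'
    have h3 : (a - b) * cr h θ = 0 := by linarith
    have h4 : cr h θ = 0 := (mul_eq_zero.1 h3).resolve_left (sub_ne_zero.2 hab)
    have h5 : cr (-(Complex.I * h)) θ = 0 := by rw [h4] at h1'; linarith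
    simp only [cr, Complex.neg_re, Complex.neg_im, Complex.mul_re, Complex.mul_im, Complex.I_re,
      Complex.I_im] at h4 h5
    have h6 : θ.re ^ 2 + θ.im ^ 2 = 1 := by
      have h3 : ‖θ‖ ^ 2 = θ.re ^ 2 + θ.im ^ 2 := by
        rw [← Complex.normSq_eq_norm_sq, Complex.normSq_apply]; ring
      rw [← h3, hθ]; norm_num
    have h7 : (h.re ^ 2 + h.im ^ 2) * (θ.re ^ 2 + θ.im ^ 2) = 0 := by
      have e : (h.re ^ 2 + h.im ^ 2) * (θ.re ^ 2 + θ.im ^ 2) =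
        (h.re * θ.im - h.im * θ.re) ^ 2 + (h.re * θ.re + h.im * θ.im) ^ 2 := by ring
      rw [e, h4]
      have : h.re * θ.re + h.im * θ.im = 0 := by linarith
      rw [this]; ring
    rw [h6, mul_one] at h7
    linarith
  have hcrh : ∀ a : ℝ, 0 < cr (((δ : ℝ) : ℂ) * (-(Complex.I * h) + (a : ℂ) * h)) h := by
    intro a
    rw [cr_real_left, cr_add_left, cr_real_left, cr_self, mul_zero, _root_.add_zero]
    refine mul_pos hδ0 ?_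
    simp only [cr, Complex.neg_re, Complex.neg_im, Complex.mul_re, Complex.mul_im, Complex.I_re,
      Complex.I_im]
    nlinarith
  have hnorm : ∀ a : ℝ, 0 ≤ a → a ≤ 2 →
      ‖((δ : ℝ) : ℂ) * (-(Complex.I * h) + (a : ℂ) * h)‖ < κ.e := by
    intro a ha0 ha2
    rw [norm_mul, Complex.norm_real, Real.norm_of_nonneg hδ0.le]
    have h3 : ‖-(Complex.I * h) + (a : ℂ) * h‖ ≤ 3 * ‖h‖ := by
      refine (norm_add_le _ _).trans ?_
      rw [norm_neg, norm_mul, Complex.norm_I, norm_mul, Complex.norm_real,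
        Real.norm_of_nonneg ha0]
      nlinarith
    have h4 : δ * ‖-(Complex.I * h) + (a : ℂ) * h‖ ≤ δ * (3 * ‖h‖) :=
      mul_le_mul_of_nonneg_left h3 hδ0.le
    have h5 : δ * (3 * ‖h‖) = 3 / 4 * κ.e := by
      rw [hδ]; field_simp
    linarith
  by_contra hcon
  push Not at hcon
  have hor : ∀ a : ℝ, 0 ≤ a → a ≤ 2 →
      cr (((δ : ℝ) : ℂ) * (-(Complex.I * h) + (a : ℂ) * h)) θ₀ = 0 ∨
      cr (((δ : ℝ) : ℂ) * (-(Complex.I * h) + (a : ℂ) * h)) θ₁ = 0 := by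
    intro a ha0 ha2
    by_cases h3 : cr (((δ : ℝ) : ℂ) * (-(Complex.I * h) + (a : ℂ) * h)) θ₀ = 0
    · exact Or.inl h3
    · exact Or.inr (hcon _ (hcrh a) (hnorm a ha0 ha2) h3)
  rcases hor 0 le_rfl (by norm_num) with a0 | a0 <;> rcases hor 1 (by norm_num) (by norm_num) with a1 | a1
    <;> rcases hor 2 (by norm_num) le_rfl with a2 | a2
  · exact key θ₀ h₀ 0 1 (by norm_num) a0 a1
  · exact key θ₀ h₀ 0 1 (by norm_num) a0 a1
  · exact key θ₀ h₀ 0 2 (by norm_num) a0 a2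
  · exact key θ₁ h₁ 1 2 (by norm_num) a1 a2
  · exact key θ₀ h₀ 1 2 (by norm_num) a1 a2
  · exact key θ₁ h₁ 0 2 (by norm_num) a0 a2
  · exact key θ₁ h₁ 0 1 (by norm_num) a0 a1
  · exact key θ₁ h₁ 0 1 (by norm_num) a0 a1

/-- Two directions: a point that is free in the direction `θ₀` sees the centre of `κ`. -/
theorem sees_of_free (hM : M.Conn) {θ₀ θ₁ : ℂ} (h₀ : ‖θ₀‖ = 1) (h₁ : ‖θ₁‖ = 1)
    (h₀₁ : cr θ₀ θ₁ ≠ 0) {L₀ L₁ : X → ℝ} (hC₀ : M.Cyl θ₀ L₀) (hC₁ : M.Cyl θ₁ L₁)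
    {K₀ K₁ : Submodule ℚ ℝ} (hK₀ : (K₀ : Set ℝ).Countable) (hK₁ : (K₁ : Set ℝ).Countable)
    (hR₀ : M.Ratios θ₀ L₀ K₀) (hR₁ : M.Ratios θ₁ L₁ K₁) (κ : M.Germ)
    (hO₀ : M.Ok θ₀ L₀ K₀ κ) (hO₁ : M.Ok θ₁ L₁ K₁ κ) {x : X} (hx : M.Free θ₀ L₀ K₀ x) :
    ∃ W, M.Sees x W κ ∧ cr W θ₀ ≠ 0 ∧ cr W θ₁ ≠ 0 := by
  have hc : 0 < |cr θ₀ θ₁| := abs_pos.2 h₀₁
  -- the good points
  set U : Set X := {z | ∀ u : ℂ, ‖u‖ < M.rad z * |cr θ₀ θ₁| / 8 →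
    G2 M θ₀ θ₁ L₀ L₁ K₀ K₁ (M.add z u) → V2 M θ₀ θ₁ κ (M.add z u)} with hU
  have hstep : ∀ z : X, (∃ u₁ : ℂ, ‖u₁‖ < M.rad z * |cr θ₀ θ₁| / 8 ∧
      G2 M θ₀ θ₁ L₀ L₁ K₀ K₁ (M.add z u₁) ∧ V2 M θ₀ θ₁ κ (M.add z u₁)) → z ∈ U := by
    rintro z ⟨u₁, hu₁, hG₁, hV₁⟩ u hu hG
    exact disc_step h₀ h₁ h₀₁ hC₀ hC₁ hR₀ hR₁ κ hO₀ hO₁ z hu₁ hu hG₁ hV₁ hG
  -- a first good point
  obtain ⟨w, hw1, hw2, hw3, hw4⟩ := start_point (M := M) h₀ h₁ κ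
  have hzU : κ.k w ∈ U := by
    set z := κ.k w with hz
    obtain ⟨ε, hε, hop⟩ := sees_open (sees_germ κ hw1 hw2)
    have hr := M.rad_pos z
    set ε' : ℝ := min (min ε (min |cr w θ₀| |cr w θ₁|)) (min (M.rad z) (M.rad z * |cr θ₀ θ₁| / 8))
      with hε'
    have hε'0 : 0 < ε' := by
      rw [hε']
      refine lt_min (lt_min hε (lt_min (abs_pos.2 hw3) (abs_pos.2 hw4))) (lt_min hr (by positivity))
    obtain ⟨u, hu, hGu⟩ := dense_generic h₀ h₁ h₀₁ hC₀ hC₁ hK₀ hK₁ z hε'0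
      ((min_le_right _ _).trans (min_le_left _ _))
    refine hstep z ⟨u, hu.trans_le ((min_le_right _ _).trans (min_le_right _ _)), hGu, ?_⟩
    have hu1 : ‖u‖ < ε := hu.trans_le ((min_le_left _ _).trans (min_le_left _ _))
    have hu2 : ‖u‖ < |cr w θ₀| :=
      hu.trans_le (((min_le_left _ _).trans (min_le_right _ _)).trans (min_le_left _ _))
    have hu3 : ‖u‖ < |cr w θ₁| :=
      hu.trans_le (((min_le_left _ _).trans (min_le_right _ _)).trans (min_le_right _ _))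
    refine ⟨_, hop u hu1, ?_, ?_⟩
    · rw [cr_sub_left, cr_neg_left]
      intro h
      have h5 : |cr w θ₀| = |cr u θ₀| := by
        rw [show cr w θ₀ = - cr u θ₀ by linarith, abs_neg]
      have h6 := abs_cr_le u θ₀
      rw [h₀, mul_one] at h6
      linarith
    · rw [cr_sub_left, cr_neg_left]
      intro h
      have h5 : |cr w θ₁| = |cr u θ₁| := by
        rw [show cr w θ₁ = - cr u θ₁ by linarith, abs_neg]
      have h6 := abs_cr_le u θ₁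
      rw [h₁, mul_one] at h6
      linarith
  -- along a segment
  have hsegU : ∀ a b : X, ∀ W : ℂ, M.Seg a W b → a ∈ U → b ∈ U := by
    intro a b W hab ha
    obtain ⟨z, ρ, hρ, hz0, hz1, hrad, -, hstepz⟩ := seg_path hab
    have hrc : 0 < ρ * |cr θ₀ θ₁| / 16 := by positivity
    have hc1 : |cr θ₀ θ₁| ≤ 1 := by
      have := abs_cr_le θ₀ θ₁
      rw [h₀, h₁] at this
      linarith
    have hsmall : ∀ s ∈ Icc (0 : ℝ) 1, ∀ s' ∈ Icc (0 : ℝ) 1,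
        |s' - s| * ‖W‖ < ρ * |cr θ₀ θ₁| / 16 → z s ∈ U → z s' ∈ U := by
      intro s hs s' hs' hss hzs
      have hρ' : ρ * |cr θ₀ θ₁| / 16 ≤ ρ / 16 := by nlinarith
      obtain ⟨u, hu, hGu⟩ := dense_generic h₀ h₁ h₀₁ hC₀ hC₁ hK₀ hK₁ (z s) hrc
        (by have := hrad s hs; linarith)
      have hVu := hzs u (by have := hrad s hs; nlinarith) hGu
      have hback : z s = M.add (z s') (((s - s' : ℝ) : ℂ) * W) :=
        hstepz s' hs' s hs (by rw [abs_sub_comm]; linarith)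
      have hv : ‖((s - s' : ℝ) : ℂ) * W‖ < ρ * |cr θ₀ θ₁| / 16 := by
        rw [norm_mul, Complex.norm_real, Real.norm_eq_abs, abs_sub_comm]
        exact hss
      have hadd : M.add (z s) u = M.add (z s') (((s - s' : ℝ) : ℂ) * W + u) := by
        rw [hback, M.add_add]
        have := hrad s' hs'
        linarith
      rw [hadd] at hGu hVu
      refine hstep (z s') ⟨_, ?_, hGu, hVu⟩
      have h1 := norm_add_le (((s - s' : ℝ) : ℂ) * W) u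
      have h2 := hrad s' hs'
      nlinarith
    -- iterate
    obtain ⟨n, hn⟩ := exists_nat_gt (‖W‖ / (ρ * |cr θ₀ θ₁| / 16))
    have hn0 : 0 < (n : ℝ) := lt_of_le_of_lt (by positivity) hn
    have hiter : ∀ k : ℕ, k ≤ n → z ((k : ℝ) / n) ∈ U := by
      intro k
      induction k with
      | zero => intro _; simpa [hz0] using ha
      | succ k ih =>
        intro hk
        refine hsmall _ ?_ _ ?_ ?_ (ih (by omega))
        · constructor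
          · positivity
          · rw [div_le_one hn0]
            exact_mod_cast (by omega : k ≤ n)
        · constructor
          · positivity
          · rw [div_le_one hn0]
            exact_mod_cast hk
        · have h1 : ((k + 1 : ℕ) : ℝ) / n - (k : ℝ) / n = 1 / n := by
            push_cast; ring
          rw [h1, abs_of_pos (by positivity), one_div, inv_mul_lt_iff₀ hn0]
          rw [div_lt_iff₀ hrc] at hn
          exact hn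
    have := hiter n le_rfl
    rwa [div_self hn0.ne', hz1] at this
  have hall : ∀ y : X, y ∈ U := by
    intro y
    have hp := hM (κ.k w) y
    induction hp with
    | refl => exact hzU
    | tail _ h ih =>
      obtain ⟨W, hW⟩ := h
      exact hsegU _ _ W hW ih
  -- a point of the leaf of `x` that is free in both directions
  have hr := M.rad_pos x
  set δ : ℝ := M.rad x / 2 with hδ
  have hδ0 : 0 < δ := by linarith
  have hDn : ‖(δ : ℂ) * θ₀‖ < M.rad x := by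
    rw [norm_mul, h₀, mul_one, Complex.norm_real, Real.norm_of_nonneg hδ0.le]
    linarith
  have hseg : M.Seg x ((δ : ℂ) * θ₀) (M.add x ((δ : ℂ) * θ₀)) := seg_add hDn
  have hD₁ : cr ((δ : ℂ) * θ₀) θ₁ ≠ 0 := by
    rw [cr_real_left]
    exact mul_ne_zero hδ0.ne' h₀₁
  have c1 := countable_not_free h₁ hC₁ hK₁ hseg hD₁
  have hunc : ¬ (Icc (0 : ℝ) 1).Countable := by
    rw [← Cardinal.le_aleph0_iff_set_countable, Cardinal.mk_Icc_real zero_lt_one, not_le]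
    exact Cardinal.aleph0_lt_continuum
  obtain ⟨s, hs, hs1⟩ : ∃ s ∈ Icc (0 : ℝ) 1,
      (¬ ∃ z', M.Seg x ((s : ℂ) * ((δ : ℂ) * θ₀)) z' ∧ ¬ M.Free θ₁ L₁ K₁ z') := by
    by_contra hcon
    push Not at hcon
    apply hunc
    refine c1.mono fun s hs => ?_
    obtain ⟨z', h1, h2⟩ := hcon s hs
    exact ⟨hs, z', h1, h2⟩
  have hassoc : (s : ℂ) * ((δ : ℂ) * θ₀) = ((s * δ : ℝ) : ℂ) * θ₀ := by
    push_cast; ring
  have hsn : ‖((s * δ : ℝ) : ℂ) * θ₀‖ < M.rad x := by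
    rw [norm_mul, h₀, mul_one, Complex.norm_real, Real.norm_of_nonneg (mul_nonneg hs.1 hδ0.le)]
    nlinarith [hs.2]
  set x' := M.add x (((s * δ : ℝ) : ℂ) * θ₀) with hx'def
  have hx' : M.Seg x (((s * δ : ℝ) : ℂ) * θ₀) x' := seg_add hsn
  push Not at hs1
  have hf₁ : M.Free θ₁ L₁ K₁ x' := hs1 x' (by rw [hassoc]; exact hx')
  have hf₀ : M.Free θ₀ L₀ K₀ x' := (free_leaf h₀ hC₀ hx').1 hx
  have hV : V2 M θ₀ θ₁ κ x' := by
    have h1 := hall x' 0 (by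
      rw [norm_zero]
      have := M.rad_pos x'
      positivity) (by rw [M.add_zero]; exact ⟨hf₀, hf₁⟩)
    rwa [M.add_zero] at h1
  obtain ⟨W, hW, hW₀, hW₁⟩ := hV
  have hback : M.Seg x' (((-(s * δ) : ℝ) : ℂ) * θ₀) x := by
    have := seg_symm hx'
    rw [← neg_mul] at this
    push_cast at this ⊢
    exact this
  exact one_move h₀ h₀₁ hC₀ hR₀ κ hO₀ hf₀ hback hW hW₀

end Pool.Agent.Lib.H25D.TSurf
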